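import Mathlib

/-!
The parameters of the construction: exponents `pp m` and constants `DD m`.
-/

namespace Pool.Agent.Lib.MP_4e4c79_lc.Cc

/-- The exponents. -/
def pp : ℕ → ℕ
  | 0 => 2
  | m + 1 => 4 * 3 ^ m * pp m

/-- The constants. -/
noncomputable def DD (m : ℕ) : ℝ := 2 ^ 3 ^ m

lemma pp_pos (m : ℕ) : 0 < pp m := by
  induction m with
  | zero => norm_num [pp]
  | succ m ih => rw [pp]; positivity

instance (m : ℕ) : NeZero (pp m) := ⟨(pp_pos m).ne'⟩

lemma DD_pos (m : ℕ) : 0 < DD m := by unfold DD; positivity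

lemma one_le_DD (m : ℕ) : 1 ≤ DD m := one_le_pow₀ (by norm_num)

lemma pp_even (m : ℕ) : Even (pp m) := by
  cases m with
  | zero => exact ⟨1, rfl⟩
  | succ m => exact ⟨2 * 3 ^ m * pp m, by rw [pp]; ring⟩

lemma pp_step (m : ℕ) : 4 * pp m ≤ pp (m + 1) := by
  rw [pp]
  have : 1 ≤ 3 ^ m := Nat.one_le_pow _ _ (by norm_num)
  nlinarith [pp_pos m]

lemma pp_mono : StrictMono pp := strictMono_nat_of_lt_succ fun m => by
  have := pp_step m
  have := pp_pos m
  omega

lemma pp_ge (m : ℕ) : m + 2 ≤ pp m := by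
  induction m with
  | zero => norm_num [pp]
  | succ m ih => have := pp_step m; omega

lemma pp_gap {m k : ℕ} (h : m < k) : 4 * 3 ^ m * pp m ≤ pp k := by
  have h1 : pp (m + 1) ≤ pp k := pp_mono.monotone h
  rw [pp] at h1
  exact h1

lemma DD_mono {m k : ℕ} (h : m ≤ k) : DD m ≤ DD k := by
  unfold DD
  exact pow_le_pow_right₀ (by norm_num) (Nat.pow_le_pow_right (by norm_num) h)

end Pool.Agent.Lib.MP_4e4c79_lc.Cc
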