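import Mathlib

/-!
The functional `NF π p f = sup ∑ Y_{π b} Z_b f_b` over nonnegative `Y`, `Z` with `∑ Y^p ≤ 1`,
`∑ Z^p ≤ 1`.
-/

namespace Pool.Agent.Lib.MP_4e4c79_lc.Cc

attribute [local instance] Classical.propDecidable
set_option linter.unusedSectionVars false

noncomputable section

variable {A B ι : Type}

/-- Nonnegative families whose `p`-th powers have sum at most one. -/
def Adm (p : ℕ) (Y : ι → ℝ) : Prop := (∀ a, 0 ≤ Y a) ∧ ∀ s : Finset ι, ∑ a ∈ s, Y a ^ p ≤ 1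

/-- The weights `Y_{π b} Z_b`. -/
def wts (π : B → A) (p : ℕ) : Set (B → ℝ) :=
  {w | ∃ Y Z, Adm p Y ∧ Adm p Z ∧ ∀ b, w b = Y (π b) * Z b}

/-- The functional. -/
def NF (π : B → A) (p : ℕ) (f : B → ℝ) : ℝ := ⨆ w : wts π p, ∑' b, (w : B → ℝ) b * f b

lemma Adm.le_one {p : ℕ} (hp : p ≠ 0) {Y : ι → ℝ} (h : Adm p Y) (a : ι) : Y a ≤ 1 := by
  have h1 := h.2 {a}
  rw [Finset.sum_singleton] at h1
  exact (pow_le_one_iff_of_nonneg (h.1 a) hp).1 h1

lemma Adm.zero {p : ℕ} (hp : p ≠ 0) : Adm p (fun _ : ι => (0 : ℝ)) := by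
  refine ⟨fun _ => le_rfl, fun s => ?_⟩
  simp [zero_pow hp]

variable {π : B → A} {p : ℕ}

lemma wts_nonneg {w : B → ℝ} (hw : w ∈ wts π p) (b : B) : 0 ≤ w b := by
  obtain ⟨Y, Z, hY, hZ, h⟩ := hw
  rw [h]
  exact mul_nonneg (hY.1 _) (hZ.1 _)

lemma wts_le_one (hp : p ≠ 0) {w : B → ℝ} (hw : w ∈ wts π p) (b : B) : w b ≤ 1 := by
  obtain ⟨Y, Z, hY, hZ, h⟩ := hw
  rw [h]
  exact mul_le_one₀ (hY.le_one hp _) (hZ.1 _) (hZ.le_one hp _)

lemma wts_zero (hp : p ≠ 0) : (fun _ => 0 : B → ℝ) ∈ wts π p :=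
  ⟨fun _ => 0, fun _ => 0, Adm.zero hp, Adm.zero hp, fun _ => by simp⟩

lemma wts_nonempty (hp : p ≠ 0) : Nonempty (wts π p) := ⟨⟨_, wts_zero hp⟩⟩

lemma summable_wt (hp : p ≠ 0) {w : B → ℝ} (hw : w ∈ wts π p) {f : B → ℝ} (hf : ∀ b, 0 ≤ f b)
    (hs : Summable f) : Summable fun b => w b * f b :=
  Summable.of_nonneg_of_le (fun b => mul_nonneg (wts_nonneg hw b) (hf b))
    (fun b => mul_le_of_le_one_left (hf b) (wts_le_one hp hw b)) hs

lemma tsum_wt_le (hp : p ≠ 0) {w : B → ℝ} (hw : w ∈ wts π p) {f : B → ℝ} (hf : ∀ b, 0 ≤ f b)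
    (hs : Summable f) : ∑' b, w b * f b ≤ ∑' b, f b :=
  (summable_wt hp hw hf hs).tsum_le_tsum
    (fun b => mul_le_of_le_one_left (hf b) (wts_le_one hp hw b)) hs

lemma bdd_NF (hp : p ≠ 0) {f : B → ℝ} (hf : ∀ b, 0 ≤ f b) (hs : Summable f) :
    BddAbove (Set.range fun w : wts π p => ∑' b, (w : B → ℝ) b * f b) :=
  ⟨∑' b, f b, by rintro _ ⟨w, rfl⟩; exact tsum_wt_le hp w.2 hf hs⟩

lemma le_NF (hp : p ≠ 0) {w : B → ℝ} (hw : w ∈ wts π p) {f : B → ℝ} (hf : ∀ b, 0 ≤ f b)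
    (hs : Summable f) : ∑' b, w b * f b ≤ NF π p f :=
  le_ciSup (bdd_NF hp hf hs) ⟨w, hw⟩

lemma NF_le (hp : p ≠ 0) {f : B → ℝ} {c : ℝ} (h : ∀ w ∈ wts π p, ∑' b, w b * f b ≤ c) :
    NF π p f ≤ c := by
  have := wts_nonempty (π := π) hp
  exact ciSup_le fun w => h w w.2

lemma NF_le_tsum (hp : p ≠ 0) {f : B → ℝ} (hf : ∀ b, 0 ≤ f b) (hs : Summable f) :
    NF π p f ≤ ∑' b, f b := NF_le hp fun _ hw => tsum_wt_le hp hw hf hs

lemma NF_nonneg (hp : p ≠ 0) {f : B → ℝ} (hf : ∀ b, 0 ≤ f b) (hs : Summable f) :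
    0 ≤ NF π p f := by
  have h := le_NF (π := π) hp (wts_zero hp) hf hs
  simpa using h

lemma NF_mono (hp : p ≠ 0) {f g : B → ℝ} (hf : ∀ b, 0 ≤ f b) (hs : Summable g)
    (h : ∀ b, f b ≤ g b) : NF π p f ≤ NF π p g := by
  have hg : ∀ b, 0 ≤ g b := fun b => (hf b).trans (h b)
  have hsf : Summable f := Summable.of_nonneg_of_le hf h hs
  refine NF_le hp fun w hw => ?_
  refine le_trans ?_ (le_NF hp hw hg hs)
  exact (summable_wt hp hw hf hsf).tsum_le_tsum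
    (fun b => mul_le_mul_of_nonneg_left (h b) (wts_nonneg hw b)) (summable_wt hp hw hg hs)

lemma NF_add_le (hp : p ≠ 0) {f g : B → ℝ} (hf : ∀ b, 0 ≤ f b) (hg : ∀ b, 0 ≤ g b)
    (hsf : Summable f) (hsg : Summable g) :
    NF π p (fun b => f b + g b) ≤ NF π p f + NF π p g := by
  refine NF_le hp fun w hw => ?_
  have h1 : ∑' b, w b * (f b + g b) = ∑' b, w b * f b + ∑' b, w b * g b := by
    rw [← (summable_wt hp hw hf hsf).tsum_add (summable_wt hp hw hg hsg)]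
    congr 1
    funext b
    ring
  rw [h1]
  exact add_le_add (le_NF hp hw hf hsf) (le_NF hp hw hg hsg)

lemma NF_smul (hp : p ≠ 0) {f : B → ℝ} (hf : ∀ b, 0 ≤ f b) (hs : Summable f) {t : ℝ}
    (ht : 0 ≤ t) : NF π p (fun b => t * f b) = t * NF π p f := by
  have key : ∀ (t : ℝ), 0 ≤ t → ∀ (f : B → ℝ), (∀ b, 0 ≤ f b) → Summable f →
      NF π p (fun b => t * f b) ≤ t * NF π p f := by
    intro t ht f hf hs
    refine NF_le hp fun w hw => ?_
    have h1 : ∑' b, w b * (t * f b) = t * ∑' b, w b * f b := by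
      rw [← tsum_mul_left]
      congr 1
      funext b
      ring
    rw [h1]
    exact mul_le_mul_of_nonneg_left (le_NF hp hw hf hs) ht
  rcases ht.eq_or_lt with h | h
  · subst h
    refine le_antisymm (key 0 le_rfl f hf hs) ?_
    rw [zero_mul]
    exact NF_nonneg hp (fun b => by simp) (by simpa using summable_zero)
  · refine le_antisymm (key t ht f hf hs) ?_
    have h1 := key t⁻¹ (inv_nonneg.2 ht) (fun b => t * f b) (fun b => mul_nonneg ht (hf b))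
      (hs.mul_left t)
    have h2 : (fun b => t⁻¹ * (t * f b)) = f := by
      funext b
      field_simp
    rw [h2] at h1
    calc t * NF π p f ≤ t * (t⁻¹ * NF π p fun b => t * f b) := mul_le_mul_of_nonneg_left h1 ht
      _ = _ := by field_simp

end

end Pool.Agent.Lib.MP_4e4c79_lc.Cc
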