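import Mathlib
import Pool.Agent.Lib.MP_4e4c79_lc.LpTwo
import Pool.Agent.Lib.MP_4e4c79_lc.Cc.NF

/-!
Multiplication of `ℓ²`-sums by bounded functions, and the renormed `ℓ²`-sum with the square of the
norm `‖x‖² + c² NF (‖x_b‖²)`.
-/

namespace Pool.Agent.Lib.MP_4e4c79_lc.Cc

open Pool.Agent.Lib.MP_4e4c79_lc Complete
open scoped ENNReal
attribute [local instance] Classical.propDecidable
set_option linter.unusedSectionVars false

noncomputable section

section mul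

variable {ι : Type} {G : ι → Type} [∀ i, NormedAddCommGroup (G i)] [∀ i, NormedSpace ℝ (G i)]

/-- The function `s` is bounded. -/
def Bd (s : ι → ℝ) : Prop := ∃ C : ℝ, ∀ i, |s i| ≤ C

lemma mul_summable {s : ι → ℝ} (hs : Bd s) (x : lp G 2) : Summable fun i => ‖s i • x i‖ ^ 2 := by
  obtain ⟨C, hC⟩ := hs
  refine Summable.of_nonneg_of_le (fun i => by positivity) (fun i => ?_)
    ((summable_sq x).mul_left (C ^ 2))
  rw [norm_smul, mul_pow, Real.norm_eq_abs]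
  exact mul_le_mul_of_nonneg_right (pow_le_pow_left₀ (abs_nonneg _) (hC i) 2) (by positivity)

/-- Multiplication by a function (zero if the function is unbounded). -/
def mulFn (s : ι → ℝ) (x : lp G 2) : lp G 2 :=
  if h : Bd s then mk2 (fun i => s i • x i) (mul_summable h x) else 0

lemma mulFn_apply {s : ι → ℝ} (hs : Bd s) (x : lp G 2) (i : ι) : mulFn s x i = s i • x i := by
  unfold mulFn
  rw [dif_pos hs]
  rfl

lemma mulFn_add (s : ι → ℝ) (x y : lp G 2) : mulFn s (x + y) = mulFn s x + mulFn s y := by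
  by_cases hs : Bd s
  · ext i
    rw [mulFn_apply hs, lp.coeFn_add, Pi.add_apply, lp.coeFn_add, Pi.add_apply, mulFn_apply hs,
      mulFn_apply hs, smul_add]
  · simp [mulFn, dif_neg hs]

lemma mulFn_smul (s : ι → ℝ) (c : ℝ) (x : lp G 2) : mulFn s (c • x) = c • mulFn s x := by
  by_cases hs : Bd s
  · ext i
    rw [mulFn_apply hs, lp.coeFn_smul, Pi.smul_apply, lp.coeFn_smul, Pi.smul_apply,
      mulFn_apply hs, smul_comm]
  · simp [mulFn, dif_neg hs]

lemma mulFn_norm_sq {s : ι → ℝ} (hs : Bd s) (x : lp G 2) :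
    HasSum (fun i => s i ^ 2 * ‖x i‖ ^ 2) (‖mulFn s x‖ ^ 2) := by
  have h := hasSum_sq (mulFn s x)
  convert h using 2 with i
  rw [mulFn_apply hs, norm_smul, mul_pow, Real.norm_eq_abs, sq_abs]

lemma mulFn_norm_le {s : ι → ℝ} {C : ℝ} (hC : 0 ≤ C) (hs : ∀ i, |s i| ≤ C) (x : lp G 2) :
    ‖mulFn s x‖ ≤ C * ‖x‖ := by
  refine le_of_sq_le_sq ?_ (by positivity)
  rw [mul_pow]
  refine hasSum_le (fun i => ?_) (mulFn_norm_sq ⟨C, hs⟩ x) ((hasSum_sq x).mul_left (C ^ 2))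
  refine mul_le_mul_of_nonneg_right ?_ (by positivity)
  rw [← sq_abs (s i)]
  exact pow_le_pow_left₀ (abs_nonneg _) (hs i) 2

end mul

section RN

variable {A B : Type} (π : B → A) (p : ℕ) (c : ℝ) (G : B → Type)
  [∀ b, NormedAddCommGroup (G b)] [∀ b, NormedSpace ℝ (G b)]

/-- The renormed sum. -/
def RN (_π : B → A) (_p : ℕ) (_c : ℝ) (G : B → Type) [∀ b, NormedAddCommGroup (G b)] : Type :=
  lp G 2

instance : AddCommGroup (RN π p c G) := inferInstanceAs (AddCommGroup (lp G 2))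

instance : Module ℝ (RN π p c G) := inferInstanceAs (Module ℝ (lp G 2))

variable {π p c G}

/-- The identity as a linear equivalence. -/
def RN.to : RN π p c G ≃ₗ[ℝ] lp G 2 :=
  { toFun := fun x => x
    invFun := fun x => x
    left_inv := fun _ => rfl
    right_inv := fun _ => rfl
    map_add' := fun _ _ => rfl
    map_smul' := fun _ _ => rfl }

/-- The squares of the norms of the components. -/
def sqf (x : lp G 2) (b : B) : ℝ := ‖x b‖ ^ 2

lemma sqf_nonneg (x : lp G 2) (b : B) : 0 ≤ sqf x b := by unfold sqf; positivity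

lemma sqf_summable (x : lp G 2) : Summable (sqf x) := summable_sq x

lemma tsum_sqf (x : lp G 2) : ∑' b, sqf x b = ‖x‖ ^ 2 := tsum_sq x

lemma sqrt_le_one' {x : ℝ} (h : x ≤ 1) : √x ≤ 1 :=
  (Real.sqrt_le_sqrt h).trans_eq Real.sqrt_one

lemma bd_sqrt (hp : p ≠ 0) {w : B → ℝ} (hw : w ∈ wts π p) : Bd fun b => √(w b) :=
  ⟨1, fun b => by
    rw [abs_of_nonneg (Real.sqrt_nonneg _)]
    exact sqrt_le_one' (wts_le_one hp hw b)⟩

lemma tsum_w_sqf (hp : p ≠ 0) {w : B → ℝ} (hw : w ∈ wts π p) (x : lp G 2) :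
    ∑' b, w b * sqf x b = ‖mulFn (fun b => √(w b)) x‖ ^ 2 := by
  have h := (mulFn_norm_sq (bd_sqrt hp hw) x).tsum_eq
  rw [← h]
  congr 1
  funext b
  rw [Real.sq_sqrt (wts_nonneg hw b)]
  rfl

/-- The seminorm `√NF`. -/
def sN (π : B → A) (p : ℕ) (x : lp G 2) : ℝ := √(NF π p (sqf x))

lemma sN_nonneg (x : lp G 2) : 0 ≤ sN π p x := Real.sqrt_nonneg _

lemma sN_sq (hp : p ≠ 0) (x : lp G 2) : sN π p x ^ 2 = NF π p (sqf x) :=
  Real.sq_sqrt (NF_nonneg hp (sqf_nonneg x) (sqf_summable x))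

lemma mulFn_le_sN (hp : p ≠ 0) {w : B → ℝ} (hw : w ∈ wts π p) (x : lp G 2) :
    ‖mulFn (fun b => √(w b)) x‖ ≤ sN π p x := by
  refine le_of_sq_le_sq ?_ (sN_nonneg x)
  rw [sN_sq hp, ← tsum_w_sqf hp hw]
  exact le_NF hp hw (sqf_nonneg x) (sqf_summable x)

lemma sN_le (hp : p ≠ 0) (x : lp G 2) {c : ℝ} (hc : 0 ≤ c)
    (h : ∀ w ∈ wts π p, ‖mulFn (fun b => √(w b)) x‖ ≤ c) : sN π p x ≤ c := by
  refine le_of_sq_le_sq ?_ hc
  rw [sN_sq hp]
  refine NF_le hp fun w hw => ?_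
  rw [tsum_w_sqf hp hw]
  exact pow_le_pow_left₀ (norm_nonneg _) (h w hw) 2

lemma sN_add (hp : p ≠ 0) (x y : lp G 2) : sN π p (x + y) ≤ sN π p x + sN π p y := by
  refine sN_le hp _ (add_nonneg (sN_nonneg x) (sN_nonneg y)) fun w hw => ?_
  rw [mulFn_add]
  exact (norm_add_le _ _).trans (add_le_add (mulFn_le_sN hp hw x) (mulFn_le_sN hp hw y))

lemma sN_smul (hp : p ≠ 0) (t : ℝ) (x : lp G 2) : sN π p (t • x) = |t| * sN π p x := by
  have h : sqf (t • x) = fun b => t ^ 2 * sqf x b := by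
    funext b
    unfold sqf
    rw [lp.coeFn_smul, Pi.smul_apply, norm_smul, mul_pow, Real.norm_eq_abs, sq_abs]
  unfold sN
  rw [h, NF_smul hp (sqf_nonneg x) (sqf_summable x) (sq_nonneg t), Real.sqrt_mul (sq_nonneg t),
    Real.sqrt_sq_eq_abs]

lemma sN_le_norm (hp : p ≠ 0) (x : lp G 2) : sN π p x ≤ ‖x‖ := by
  refine le_of_sq_le_sq ?_ (norm_nonneg x)
  rw [sN_sq hp, ← tsum_sqf]
  exact NF_le_tsum hp (sqf_nonneg x) (sqf_summable x)

lemma minkowski2 {a b a' b' : ℝ} (ha : 0 ≤ a) (hb : 0 ≤ b) (ha' : 0 ≤ a') (hb' : 0 ≤ b') :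
    √((a + a') ^ 2 + (b + b') ^ 2) ≤ √(a ^ 2 + b ^ 2) + √(a' ^ 2 + b' ^ 2) := by
  have h1 : 0 ≤ a ^ 2 + b ^ 2 := by positivity
  have h2 : 0 ≤ a' ^ 2 + b' ^ 2 := by positivity
  rw [Real.sqrt_le_left (by positivity)]
  have e1 := Real.sq_sqrt h1
  have e2 := Real.sq_sqrt h2
  have h3 : a * a' + b * b' ≤ √(a ^ 2 + b ^ 2) * √(a' ^ 2 + b' ^ 2) := by
    rw [← Real.sqrt_mul h1]
    refine Real.le_sqrt_of_sq_le ?_
    nlinarith [sq_nonneg (a * b' - b * a')]
  nlinarith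

variable [NeZero p]

instance : Norm (RN π p c G) :=
  ⟨fun x => √(‖RN.to x‖ ^ 2 + (c * sN π p (RN.to x)) ^ 2)⟩

lemma RN.norm_def (x : RN π p c G) :
    ‖x‖ = √(‖RN.to x‖ ^ 2 + (c * sN π p (RN.to x)) ^ 2) := rfl

lemma RN.norm_sq (x : RN π p c G) :
    ‖x‖ ^ 2 = ‖RN.to x‖ ^ 2 + c ^ 2 * NF π p (sqf (RN.to x)) := by
  rw [RN.norm_def, Real.sq_sqrt (by positivity), mul_pow, sN_sq (NeZero.ne p)]

lemma RN.core : NormedSpace.Core ℝ (RN π p c G) where
  norm_nonneg x := Real.sqrt_nonneg _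
  norm_smul t x := by
    rw [RN.norm_def, RN.norm_def, map_smul, norm_smul, sN_smul (NeZero.ne p), Real.norm_eq_abs]
    have h : (|t| * ‖RN.to x‖) ^ 2 + (c * (|t| * sN π p (RN.to x))) ^ 2 =
        |t| ^ 2 * (‖RN.to x‖ ^ 2 + (c * sN π p (RN.to x)) ^ 2) := by ring
    rw [h, Real.sqrt_mul (by positivity), Real.sqrt_sq (abs_nonneg t)]
  norm_triangle x y := by
    rw [RN.norm_def, RN.norm_def, RN.norm_def, map_add]
    have h1 : (c * sN π p (RN.to x + RN.to y)) ^ 2 ≤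
        (|c| * sN π p (RN.to x) + |c| * sN π p (RN.to y)) ^ 2 := by
      rw [mul_pow, ← mul_add, mul_pow, sq_abs]
      exact mul_le_mul_of_nonneg_left (pow_le_pow_left₀ (sN_nonneg _)
        (sN_add (NeZero.ne p) _ _) 2) (sq_nonneg c)
    have h2 : ‖RN.to x + RN.to y‖ ^ 2 ≤ (‖RN.to x‖ + ‖RN.to y‖) ^ 2 :=
      pow_le_pow_left₀ (norm_nonneg _) (norm_add_le _ _) 2
    refine (Real.sqrt_le_sqrt (add_le_add h2 h1)).trans ?_
    refine (minkowski2 (norm_nonneg _) (mul_nonneg (abs_nonneg c) (sN_nonneg _)) (norm_nonneg _)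
      (mul_nonneg (abs_nonneg c) (sN_nonneg _))).trans_eq ?_
    congr 2 <;> rw [mul_pow |c|, sq_abs, mul_pow]
  norm_eq_zero_iff x := by
    rw [RN.norm_def, Real.sqrt_eq_zero (by positivity)]
    constructor
    · intro h
      have h1 : ‖RN.to x‖ ^ 2 = 0 := by
        have := sq_nonneg ‖RN.to x‖
        have := sq_nonneg (c * sN π p (RN.to x))
        linarith
      have h2 : RN.to x = 0 := norm_eq_zero.1 (pow_eq_zero_iff two_ne_zero |>.1 h1)
      exact (RN.to).map_eq_zero_iff.1 h2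
    · rintro rfl
      have h0 : sN π p (0 : lp G 2) = 0 :=
        le_antisymm ((sN_le_norm (NeZero.ne p) _).trans_eq norm_zero) (sN_nonneg _)
      rw [map_zero, norm_zero, h0]
      simp

instance : NormedAddCommGroup (RN π p c G) := NormedAddCommGroup.ofCore RN.core

instance : NormedSpace ℝ (RN π p c G) := NormedSpace.ofCore RN.core

lemma RN.to_norm_le (x : RN π p c G) : ‖RN.to x‖ ≤ ‖x‖ := by
  refine le_of_sq_le_sq ?_ (norm_nonneg x)
  rw [RN.norm_sq]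
  have := NF_nonneg (π := π) (NeZero.ne p) (sqf_nonneg (RN.to x)) (sqf_summable _)
  nlinarith [sq_nonneg c]

lemma RN.norm_sq_le (x : RN π p c G) : ‖x‖ ^ 2 ≤ (1 + c ^ 2) * ‖RN.to x‖ ^ 2 := by
  rw [RN.norm_sq]
  have := NF_le_tsum (π := π) (NeZero.ne p) (sqf_nonneg (RN.to x)) (sqf_summable _)
  rw [tsum_sqf] at this
  nlinarith [sq_nonneg c]

lemma RN.norm_le (x : RN π p c G) : ‖x‖ ≤ √(1 + c ^ 2) * ‖RN.to x‖ := by
  refine le_of_sq_le_sq ?_ (by positivity)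
  rw [mul_pow, Real.sq_sqrt (by positivity)]
  exact RN.norm_sq_le x

/-- The identity as a linear homeomorphism. -/
def RN.toL : RN π p c G ≃L[ℝ] lp G 2 :=
  { (RN.to : RN π p c G ≃ₗ[ℝ] lp G 2) with
    continuous_toFun := ((RN.to : RN π p c G ≃ₗ[ℝ] lp G 2).toLinearMap.mkContinuous 1
      (fun x => by rw [one_mul]; exact RN.to_norm_le x)).continuous
    continuous_invFun := ((RN.to : RN π p c G ≃ₗ[ℝ] lp G 2).symm.toLinearMap.mkContinuous
      (√(1 + c ^ 2)) (fun x => RN.norm_le (RN.to.symm x))).continuous }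

instance [∀ b, CompleteSpace (G b)] : CompleteSpace (RN π p c G) :=
  (completeSpace_congr (e := (RN.toL (π := π) (p := p) (c := c) (G := G)).toEquiv)
    (RN.toL (π := π) (p := p) (c := c) (G := G)).isUniformEmbedding).2 inferInstance

end RN

end

end Pool.Agent.Lib.MP_4e4c79_lc.Cc
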