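import Mathlib
import Pool.Agent.Lib.MP_4e4c79_lc.Gram
import Pool.Agent.Lib.MP_4e4c79_lc.Transfer
import Pool.Agent.Lib.MP_4e4c79_lc.Cc.RN
import Pool.Agent.Lib.MP_4e4c79_lc.Cc.Par

/-!
The structures.  Data: a countable set `A` of atoms, and for every atom `a` and every `s : ℕ` the
kind `ty a s` for which the slot `(a, s)` is small.  The space is the `ℓ²`-sum of `ℓ²(A ⊕ A × ℕ)` and
of the spaces of kind `m`, which are renormed `ℓ²`-sums over the slots `b` of Hilbert spaces of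
dimension `dm m b`, where `dm m (a, s) = s` if `ty a s = m` and `∞` otherwise.
-/

namespace Pool.Agent.Lib.MP_4e4c79_lc.Cc

open Pool.Agent.Lib.MP_4e4c79_lc Complete
open scoped ENNReal
attribute [local instance] Classical.propDecidable
set_option linter.unusedSectionVars false

noncomputable section

/-- The data. -/
structure Dat where
  /-- the atoms -/
  A : Type
  cnt : Countable A
  /-- the kind for which a slot is small -/
  ty : A → ℕ → ℕ
  /-- every finite pattern is realised infinitely often -/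
  pat : ∀ (R : ℕ) (t : ℕ → ℕ), {a | ∀ s < R, ty a s = t s}.Infinite

/-- The function symbols: projections to the points (`P true`: atoms, `P false`: slots), projections
to the kinds, multiplication. -/
inductive Sym : Type
  | P (σ : Bool) : Sym
  | K (m : ℕ) : Sym
  | mu : Sym

/-- The relation symbols: the form, and the distances to the sets of atoms and of slots. -/
inductive RSym : Type
  | form : RSym
  | dd (σ : Bool) : RSym

instance : Countable Sym := by
  have : Function.Injective (fun g : Sym => match g with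
    | .P σ => (0, σ.toNat)
    | .K m => (1, m)
    | .mu => (2, 0) : Sym → ℕ × ℕ) := by
    intro g g' h
    cases g <;> cases g' <;> simp at h ⊢
    · rename_i σ σ'
      cases σ <;> cases σ' <;> simp at h ⊢
    · exact h
  exact this.countable

instance : Countable RSym := by
  have : Function.Injective (fun g : RSym => match g with
    | .form => (0 : ℕ)
    | .dd σ => σ.toNat + 1 : RSym → ℕ) := by
    intro g g' h
    cases g <;> cases g' <;> simp at h ⊢
    rename_i σ σ'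
    cases σ <;> cases σ' <;> simp at h ⊢
  exact this.countable

/-- The signature. -/
def sg : Signature where
  Fn := Sym
  fnArity := fun g => match g with
    | .P _ => 1
    | .K _ => 1
    | .mu => 2
  fnBound := fun g R => match g with
    | .P _ => R
    | .K _ => R
    | .mu => 2 * ((R : ℝ) * R)
  fnMod := fun g R ε => match g with
    | .P _ => ε
    | .K _ => ε
    | .mu => ε / (4 * R + 1)
  fnMod_pos := fun g R ε hε => by
    cases g with
    | P => exact hε
    | K => exact hε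
    | mu => change 0 < ε / (4 * (R : ℝ) + 1); positivity
  Rel := RSym
  relArity := fun g => match g with
    | .form => 2
    | .dd _ => 1
  relBound := fun g R => match g with
    | .form => (R : ℝ) * R
    | .dd _ => R + 1
  relMod := fun g R ε => match g with
    | .form => ε / (2 * R + 1)
    | .dd _ => ε
  relMod_pos := fun g R ε hε => by
    cases g with
    | form => change 0 < ε / (2 * (R : ℝ) + 1); positivity
    | dd => exact hε

instance : Countable sg.Fn := inferInstanceAs (Countable Sym)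

instance : Countable sg.Rel := inferInstanceAs (Countable RSym)

namespace Dat

variable (D : Dat)

/-- The slots. -/
abbrev Sl : Type := D.A × ℕ

/-- The points: atoms and slots. -/
abbrev Pt : Type := D.A ⊕ D.A × ℕ

/-- The dimension of a slot in a kind. -/
def dm (m : ℕ) (b : D.A × ℕ) : ℕ∞ := if D.ty b.1 b.2 = m then (b.2 : ℕ∞) else ⊤

/-- The space of kind `m`. -/
abbrev XK (m : ℕ) : Type :=
  RN (Prod.fst : D.A × ℕ → D.A) (pp m) (DD m) (fun b => Hs (D.dm m b))

/-- The sum of the spaces of all kinds. -/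
abbrev W : Type := lp (fun m => D.XK m) 2

/-- The Hilbert space part. -/
abbrev Y : Type := L2 (D.A ⊕ D.A × ℕ)

/-- The underlying space. -/
abbrev X : Type := WithLp 2 (D.W × D.Y)

variable {D}

/-- The component of kind `m` at the slot `b`. -/
def kc (x : D.X) (m : ℕ) (b : D.A × ℕ) : Hs (D.dm m b) := RN.to (x.fst m) b

lemma kc_add (x y : D.X) (m : ℕ) (b : D.A × ℕ) : kc (x + y) m b = kc x m b + kc y m b := rfl

lemma kc_smul (t : ℝ) (x : D.X) (m : ℕ) (b : D.A × ℕ) : kc (t • x) m b = t • kc x m b := rfl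

/-- The square of the norm. -/
lemma X_norm_sq (x : D.X) : ‖x‖ ^ 2 = ‖x.fst‖ ^ 2 + ‖x.snd‖ ^ 2 :=
  WithLp.prod_norm_sq_eq_of_L2 x

lemma fst_le (x : D.X) : ‖x.fst‖ ≤ ‖x‖ :=
  le_of_sq_le_sq (by rw [X_norm_sq]; nlinarith [sq_nonneg ‖x.snd‖]) (norm_nonneg _)

lemma snd_le (x : D.X) : ‖x.snd‖ ≤ ‖x‖ :=
  le_of_sq_le_sq (by rw [X_norm_sq]; nlinarith [sq_nonneg ‖x.fst‖]) (norm_nonneg _)

lemma toLp_zero_right_norm (w : D.W) : ‖(WithLp.toLp 2 (w, 0) : D.X)‖ = ‖w‖ := by
  have h : ‖(WithLp.toLp 2 (w, 0) : D.X)‖ ^ 2 = ‖w‖ ^ 2 + ‖(0 : D.Y)‖ ^ 2 :=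
    X_norm_sq (WithLp.toLp 2 (w, 0))
  rw [norm_zero, zero_pow two_ne_zero, add_zero] at h
  exact (pow_left_inj₀ (norm_nonneg _) (norm_nonneg _) two_ne_zero).1 h

lemma toLp_zero_left_norm (y : D.Y) : ‖(WithLp.toLp 2 (0, y) : D.X)‖ = ‖y‖ := by
  have h : ‖(WithLp.toLp 2 (0, y) : D.X)‖ ^ 2 = ‖(0 : D.W)‖ ^ 2 + ‖y‖ ^ 2 :=
    X_norm_sq (WithLp.toLp 2 (0, y))
  rw [norm_zero, zero_pow two_ne_zero, zero_add] at h
  exact (pow_left_inj₀ (norm_nonneg _) (norm_nonneg _) two_ne_zero).1 h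

/-- The points of sort `σ`. -/
def srt (σ : Bool) : Set D.Pt := {z | z.isLeft = σ}

/-- The projections to the points. -/
def PP (σ : Bool) (x : D.X) : D.X := WithLp.toLp 2 (0, mask (srt σ) x.snd)

/-- The projections to the kinds. -/
def KK (m : ℕ) (x : D.X) : D.X := WithLp.toLp 2 (lp.single 2 m (x.fst m), 0)

/-- The scalars by which `y` acts. -/
def sc (y : D.X) (z : D.Pt) : ℝ :=
  match z with
  | .inl a => y.snd (.inl a)
  | .inr b => y.snd (.inl b.1) + y.snd (.inr b)

/-- Multiplication of an element of kind `m` by a function. -/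
def mulK (m : ℕ) (s : D.A × ℕ → ℝ) (x : D.XK m) : D.XK m := RN.to.symm (mulFn s (RN.to x))

lemma mulK_norm_le (m : ℕ) {s : D.A × ℕ → ℝ} {C : ℝ} (hC : 0 ≤ C) (hs : ∀ i, |s i| ≤ C)
    (x : D.XK m) : ‖mulK m s x‖ ≤ C * ‖x‖ := by
  have hp : pp m ≠ 0 := NeZero.ne _
  refine le_of_sq_le_sq ?_ (by positivity)
  rw [mul_pow, RN.norm_sq, RN.norm_sq]
  have h1 : RN.to (mulK m s x) = mulFn s (RN.to x) := rfl
  rw [h1]
  have h2 : ‖mulFn s (RN.to x)‖ ^ 2 ≤ C ^ 2 * ‖RN.to x‖ ^ 2 := by
    rw [← mul_pow]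
    exact pow_le_pow_left₀ (norm_nonneg _) (mulFn_norm_le hC hs _) 2
  have h3 : NF (Prod.fst : D.A × ℕ → D.A) (pp m) (sqf (mulFn s (RN.to x))) ≤
      C ^ 2 * NF (Prod.fst : D.A × ℕ → D.A) (pp m) (sqf (RN.to x)) := by
    rw [← NF_smul hp (sqf_nonneg _) (sqf_summable _) (sq_nonneg C)]
    refine NF_mono hp (sqf_nonneg _) ((sqf_summable _).mul_left _) fun b => ?_
    unfold sqf
    rw [mulFn_apply ⟨C, hs⟩, norm_smul, mul_pow, Real.norm_eq_abs]
    exact mul_le_mul_of_nonneg_right (pow_le_pow_left₀ (abs_nonneg _) (hs b) 2) (by positivity)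
  nlinarith [sq_nonneg (DD m)]

lemma abs_coord_le {κ : Type} (y : L2 κ) (z : κ) : |y z| ≤ ‖y‖ := by
  rw [← Real.norm_eq_abs]
  exact lp.norm_apply_le_norm (by norm_num) y z

lemma abs_sc_le (y : D.X) (z : D.Pt) : |sc y z| ≤ 2 * ‖y‖ := by
  have h := snd_le y
  match z with
  | .inl a =>
    change |y.snd (.inl a)| ≤ _
    have := abs_coord_le y.snd (.inl a)
    have := norm_nonneg y
    linarith
  | .inr b =>
    change |y.snd (.inl b.1) + y.snd (.inr b)| ≤ _
    have h1 := abs_coord_le y.snd (.inl b.1)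
    have h2 := abs_coord_le y.snd (.inr b)
    have h3 := abs_add_le (y.snd (.inl b.1)) (y.snd (.inr b))
    linarith

lemma bd_sc (y : D.X) : Bd (sc y) := ⟨_, abs_sc_le y⟩

lemma bd_sc_inr (y : D.X) : Bd (fun b => sc y (.inr b)) := ⟨_, fun b => abs_sc_le y (.inr b)⟩

lemma mu_summable (y x : D.X) :
    Summable fun m => ‖mulK m (fun b => sc y (.inr b)) (x.fst m)‖ ^ 2 := by
  refine Summable.of_nonneg_of_le (fun m => by positivity) (fun m => ?_)
    ((summable_sq x.fst).mul_left ((2 * ‖y‖) ^ 2))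
  rw [← mul_pow]
  exact pow_le_pow_left₀ (norm_nonneg _) (mulK_norm_le m (by positivity)
    (fun b => abs_sc_le y (.inr b)) _) 2

/-- The multiplication. -/
def mu (y x : D.X) : D.X :=
  WithLp.toLp 2 (mk2 (fun m => mulK m (fun b => sc y (.inr b)) (x.fst m)) (mu_summable y x),
    mulFn (sc y) x.snd)

lemma kc_mu (y x : D.X) (m : ℕ) (b : D.A × ℕ) : kc (mu y x) m b = sc y (.inr b) • kc x m b :=
  mulFn_apply (bd_sc_inr y) _ _

lemma snd_mu (y x : D.X) (z : D.Pt) : (mu y x).snd z = sc y z * x.snd z :=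
  mulFn_apply (bd_sc y) _ _

lemma snd_PP (σ : Bool) (x : D.X) (z : D.Pt) :
    (PP σ x).snd z = if z.isLeft = σ then x.snd z else 0 := by
  change mask (srt σ) x.snd z = _
  rw [mask_apply]
  exact if_congr Iff.rfl rfl rfl

lemma kc_PP (σ : Bool) (x : D.X) (m : ℕ) (b : D.A × ℕ) : kc (PP σ x) m b = 0 := rfl

lemma snd_KK (m : ℕ) (x : D.X) (z : D.Pt) : (KK m x).snd z = 0 := rfl

lemma kc_KK_self (m : ℕ) (x : D.X) (b : D.A × ℕ) : kc (KK m x) m b = kc x m b := by
  unfold kc KK
  simp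

lemma kc_KK_ne {m n : ℕ} (h : n ≠ m) (x : D.X) (b : D.A × ℕ) : kc (KK m x) n b = 0 := by
  unfold kc KK
  simp [h]

/-- Elements are determined by their components. -/
lemma X_ext {x y : D.X} (h1 : ∀ m b, kc x m b = kc y m b) (h2 : ∀ z, x.snd z = y.snd z) :
    x = y := by
  have e1 : x.fst = y.fst := lp.ext (funext fun m => RN.to.injective
    (lp.ext (funext fun b => h1 m b)))
  have e2 : x.snd = y.snd := lp.ext (funext fun z => h2 z)
  exact (WithLp.equiv 2 _).injective (Prod.ext e1 e2)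

lemma snd_add (x y : D.X) (z : D.Pt) : (x + y).snd z = x.snd z + y.snd z := rfl

lemma snd_smul (t : ℝ) (x : D.X) (z : D.Pt) : (t • x).snd z = t * x.snd z := rfl

lemma kc_sub (x y : D.X) (m : ℕ) (b : D.A × ℕ) : kc (x - y) m b = kc x m b - kc y m b := rfl

lemma snd_sub (x y : D.X) (z : D.Pt) : (x - y).snd z = x.snd z - y.snd z := rfl

lemma sc_add (x y : D.X) (z : D.Pt) : sc (x + y) z = sc x z + sc y z := by
  match z with
  | .inl a => rfl
  | .inr b =>
    change (x.snd (.inl b.1) + y.snd (.inl b.1)) + (x.snd (.inr b) + y.snd (.inr b)) =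
      (x.snd (.inl b.1) + x.snd (.inr b)) + (y.snd (.inl b.1) + y.snd (.inr b))
    ring

lemma sc_smul (t : ℝ) (x : D.X) (z : D.Pt) : sc (t • x) z = t * sc x z := by
  match z with
  | .inl a => rfl
  | .inr b =>
    change t * x.snd (.inl b.1) + t * x.snd (.inr b) = t * (x.snd (.inl b.1) + x.snd (.inr b))
    ring

lemma PP_add (σ : Bool) (x y : D.X) : PP σ (x + y) = PP σ x + PP σ y := by
  refine X_ext (fun m b => ?_) fun z => ?_
  · rw [kc_add, kc_PP, kc_PP, kc_PP, add_zero]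
  · rw [snd_add, snd_PP, snd_PP, snd_PP, snd_add]
    split_ifs <;> simp

lemma PP_smul (σ : Bool) (t : ℝ) (x : D.X) : PP σ (t • x) = t • PP σ x := by
  refine X_ext (fun m b => ?_) fun z => ?_
  · rw [kc_smul, kc_PP, kc_PP, smul_zero]
  · rw [snd_smul, snd_PP, snd_PP, snd_smul]
    split_ifs <;> simp

lemma KK_add (m : ℕ) (x y : D.X) : KK m (x + y) = KK m x + KK m y := by
  refine X_ext (fun n b => ?_) fun z => ?_
  · rw [kc_add]
    by_cases h : n = m
    · subst h
      rw [kc_KK_self, kc_KK_self, kc_KK_self, kc_add]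
    · rw [kc_KK_ne h, kc_KK_ne h, kc_KK_ne h, add_zero]
  · rw [snd_add, snd_KK, snd_KK, snd_KK, add_zero]

lemma KK_smul (m : ℕ) (t : ℝ) (x : D.X) : KK m (t • x) = t • KK m x := by
  refine X_ext (fun n b => ?_) fun z => ?_
  · rw [kc_smul]
    by_cases h : n = m
    · subst h
      rw [kc_KK_self, kc_KK_self, kc_smul]
    · rw [kc_KK_ne h, kc_KK_ne h, smul_zero]
  · rw [snd_smul, snd_KK, snd_KK, mul_zero]

lemma mu_add_left (y y' x : D.X) : mu (y + y') x = mu y x + mu y' x := by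
  refine X_ext (fun n b => ?_) fun z => ?_
  · rw [kc_add, kc_mu, kc_mu, kc_mu, sc_add, add_smul]
  · rw [snd_add, snd_mu, snd_mu, snd_mu, sc_add, add_mul]

lemma mu_smul_left (t : ℝ) (y x : D.X) : mu (t • y) x = t • mu y x := by
  refine X_ext (fun n b => ?_) fun z => ?_
  · rw [kc_smul, kc_mu, kc_mu, sc_smul, mul_smul]
  · rw [snd_smul, snd_mu, snd_mu, sc_smul, mul_assoc]

lemma mu_add_right (y x x' : D.X) : mu y (x + x') = mu y x + mu y x' := by
  refine X_ext (fun n b => ?_) fun z => ?_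
  · rw [kc_add, kc_mu, kc_mu, kc_mu, kc_add, smul_add]
  · rw [snd_add, snd_mu, snd_mu, snd_mu, snd_add, mul_add]

lemma mu_smul_right (t : ℝ) (y x : D.X) : mu y (t • x) = t • mu y x := by
  refine X_ext (fun n b => ?_) fun z => ?_
  · rw [kc_smul, kc_mu, kc_mu, kc_smul, smul_comm]
  · rw [snd_smul, snd_mu, snd_mu, snd_smul]
    ring

lemma PP_norm_le (σ : Bool) (x : D.X) : ‖PP σ x‖ ≤ ‖x‖ := by
  unfold PP
  rw [toLp_zero_left_norm]
  exact (mask_norm_le _ _).trans (snd_le x)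

lemma KK_norm_le (m : ℕ) (x : D.X) : ‖KK m x‖ ≤ ‖x‖ := by
  unfold KK
  rw [toLp_zero_right_norm, lp.norm_single (by norm_num)]
  exact (lp.norm_apply_le_norm (by norm_num) x.fst m).trans (fst_le x)

lemma mu_norm_le (y x : D.X) : ‖mu y x‖ ≤ 2 * (‖y‖ * ‖x‖) := by
  refine le_of_sq_le_sq ?_ (by positivity)
  have hfst : ‖(mu y x).fst‖ ^ 2 ≤ (2 * ‖y‖) ^ 2 * ‖x.fst‖ ^ 2 := by
    refine hasSum_le (fun m => ?_) (hasSum_sq (mu y x).fst)
      ((hasSum_sq x.fst).mul_left ((2 * ‖y‖) ^ 2))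
    rw [← mul_pow]
    exact pow_le_pow_left₀ (norm_nonneg _) (mulK_norm_le m (by positivity)
      (fun b => abs_sc_le y (.inr b)) _) 2
  have hsnd : ‖(mu y x).snd‖ ^ 2 ≤ (2 * ‖y‖) ^ 2 * ‖x.snd‖ ^ 2 := by
    rw [← mul_pow]
    exact pow_le_pow_left₀ (norm_nonneg _) (mulFn_norm_le (by positivity) (abs_sc_le y) _) 2
  rw [X_norm_sq, mul_pow, mul_pow, X_norm_sq x]
  nlinarith

lemma mu_lip (y x y' x' : D.X) :
    ‖mu y x - mu y' x'‖ ≤ 2 * (‖y - y'‖ * ‖x‖) + 2 * (‖y'‖ * ‖x - x'‖) := by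
  have h : mu y x - mu y' x' = mu (y - y') x + mu y' (x - x') := by
    have e1 := mu_add_left (y - y') y' x
    have e2 := mu_add_right y' (x - x') x'
    rw [sub_add_cancel] at e1 e2
    rw [e1, e2]
    abel
  rw [h]
  exact (norm_add_le _ _).trans (add_le_add (mu_norm_le _ _) (mu_norm_le _ _))

/-- The form on a space of kind `m`. -/
def bK (m : ℕ) (x y : D.XK m) : ℝ := inner ℝ (RN.to x) (RN.to y)

lemma bK_abs_le (m : ℕ) (x y : D.XK m) : |bK m x y| ≤ ‖x‖ * ‖y‖ :=
  (abs_real_inner_le_norm _ _).trans (mul_le_mul (RN.to_norm_le x) (RN.to_norm_le y)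
    (norm_nonneg _) (norm_nonneg _))

lemma bK_add (m : ℕ) (x y z : D.XK m) : bK m (x + y) z = bK m x z + bK m y z := by
  unfold bK
  rw [map_add, inner_add_left]

lemma bK_smul (m : ℕ) (c : ℝ) (x y : D.XK m) : bK m (c • x) y = c * bK m x y := by
  unfold bK
  rw [map_smul, real_inner_smul_left]

lemma bK_symm (m : ℕ) (x y : D.XK m) : bK m x y = bK m y x := real_inner_comm _ _

lemma bK_nonneg (m : ℕ) (x : D.XK m) : 0 ≤ bK m x x := real_inner_self_nonneg

lemma bK_self (m : ℕ) (x : D.XK m) : bK m x x = ‖RN.to x‖ ^ 2 := real_inner_self_eq_norm_sq _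

/-- The form. -/
def B (x y : D.X) : ℝ := diagForm bK x.fst y.fst + inner ℝ x.snd y.snd

lemma B_add (x y z : D.X) : B (x + y) z = B x z + B y z := by
  unfold B
  rw [WithLp.add_fst, WithLp.add_snd, diagForm_add bK bK_abs_le bK_add, inner_add_left]
  ring

lemma B_smul (c : ℝ) (x y : D.X) : B (c • x) y = c * B x y := by
  unfold B
  rw [WithLp.smul_fst, WithLp.smul_snd, diagForm_smul bK bK_abs_le bK_smul,
    real_inner_smul_left]
  ring

lemma B_symm (x y : D.X) : B x y = B y x := by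
  unfold B
  rw [diagForm_symm bK bK_symm, real_inner_comm]

lemma B_abs_le (x y : D.X) : |B x y| ≤ ‖x‖ * ‖y‖ := by
  unfold B
  have h1 := diagForm_abs_le bK bK_abs_le bK_add bK_smul bK_symm bK_nonneg x.fst y.fst
  have h2 := abs_real_inner_le_norm x.snd y.snd
  refine (abs_add_le _ _).trans ((add_le_add h1 h2).trans ?_)
  have h3 := X_norm_sq x
  have h4 := X_norm_sq y
  refine le_of_sq_le_sq ?_ (by positivity)
  rw [mul_pow, h3, h4]
  nlinarith [sq_nonneg (‖x.fst‖ * ‖y.snd‖ - ‖x.snd‖ * ‖y.fst‖)]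

/-- The unit vector of a point. -/
def pt (z : D.Pt) : D.X := WithLp.toLp 2 (0, lp.single 2 z (1 : ℝ))

lemma pt_norm (z : D.Pt) : ‖(pt z : D.X)‖ = 1 := by
  unfold pt
  rw [toLp_zero_left_norm, lp.norm_single (by norm_num)]
  simp

lemma kc_pt (z : D.Pt) (m : ℕ) (b : D.A × ℕ) : kc (pt z : D.X) m b = 0 := rfl

lemma snd_pt (z z' : D.Pt) : (pt z : D.X).snd z' = if z' = z then 1 else 0 := by
  change (lp.single 2 z (1 : ℝ) : L2 D.Pt) z' = _
  rw [lp.single_apply]
  by_cases h : z' = z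
  · subst h; simp
  · simp [h]

/-- The set of atoms (`σ = true`) or slots (`σ = false`), as unit vectors. -/
def ds (σ : Bool) : Set D.X := pt '' srt σ

variable (D) in
lemma infinite_A : Infinite D.A := by
  have h := D.pat 0 (fun _ => 0)
  exact h.to_subtype |>.of_injective (fun x => x.1) Subtype.val_injective

variable (D) in
lemma srt_nonempty (σ : Bool) : (srt σ : Set D.Pt).Nonempty := by
  have := D.infinite_A
  obtain ⟨a⟩ : Nonempty D.A := inferInstance
  cases σ with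
  | true => exact ⟨.inl a, rfl⟩
  | false => exact ⟨.inr (a, 0), rfl⟩

/-- The distance to the set of atoms, slots. -/
def dd (σ : Bool) (x : D.X) : ℝ := Metric.infDist x (ds σ)

lemma dd_le (σ : Bool) (x : D.X) : dd σ x ≤ ‖x‖ + 1 := by
  obtain ⟨z, hz⟩ := D.srt_nonempty σ
  refine (Metric.infDist_le_dist_of_mem (Set.mem_image_of_mem pt hz)).trans ?_
  rw [dist_eq_norm, ← pt_norm (D := D) z]
  exact norm_sub_le _ _

lemma dd_nonneg (σ : Bool) (x : D.X) : 0 ≤ dd σ x := Metric.infDist_nonneg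

lemma dd_lip (σ : Bool) (x y : D.X) : |dd σ x - dd σ y| ≤ ‖x - y‖ := by
  rw [← dist_eq_norm, abs_sub_le_iff]
  constructor
  · have := Metric.infDist_le_infDist_add_dist (s := ds σ) (x := x) (y := y)
    unfold dd
    linarith
  · have := Metric.infDist_le_infDist_add_dist (s := ds σ) (x := y) (y := x)
    rw [dist_comm] at this
    unfold dd
    linarith

/-- The structure. -/
def str (D : Dat) : Struc sg where
  carrier := D.X
  fn := fun g => match g with
    | .P σ => fun x => PP σ (x (0 : Fin 1))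
    | .K m => fun x => KK m (x (0 : Fin 1))
    | .mu => fun x => mu (x (0 : Fin 2)) (x (1 : Fin 2))
  rel := fun g => match g with
    | .form => fun x => B (x (0 : Fin 2)) (x (1 : Fin 2))
    | .dd σ => fun x => dd σ (x (0 : Fin 1))
  fn_bound := fun g R x hx => by
    cases g with
    | P σ => exact (PP_norm_le σ _).trans (hx (0 : Fin 1))
    | K m => exact (KK_norm_le m _).trans (hx (0 : Fin 1))
    | mu =>
      refine (mu_norm_le _ _).trans ?_
      change 2 * _ ≤ 2 * ((R : ℝ) * R)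
      have h := mul_le_mul (hx (0 : Fin 2)) (hx (1 : Fin 2)) (norm_nonneg _) (Nat.cast_nonneg R)
      exact mul_le_mul_of_nonneg_left h (by norm_num)
  fn_uc := fun g R ε hε x y hx hy hxy => by
    cases g with
    | P σ =>
      change ‖PP σ (x (0 : Fin 1)) - PP σ (y (0 : Fin 1))‖ ≤ ε
      have h : PP σ (x (0 : Fin 1)) - PP σ (y (0 : Fin 1)) =
          PP σ (x (0 : Fin 1) - y (0 : Fin 1)) := by
        have h1 := PP_add σ (x (0 : Fin 1) - y (0 : Fin 1)) (y (0 : Fin 1))
        rw [sub_add_cancel] at h1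
        rw [h1]
        abel
      rw [h]
      exact (PP_norm_le σ _).trans (hxy (0 : Fin 1)).le
    | K m =>
      change ‖KK m (x (0 : Fin 1)) - KK m (y (0 : Fin 1))‖ ≤ ε
      have h : KK m (x (0 : Fin 1)) - KK m (y (0 : Fin 1)) =
          KK m (x (0 : Fin 1) - y (0 : Fin 1)) := by
        have h1 := KK_add m (x (0 : Fin 1) - y (0 : Fin 1)) (y (0 : Fin 1))
        rw [sub_add_cancel] at h1
        rw [h1]
        abel
      rw [h]
      exact (KK_norm_le m _).trans (hxy (0 : Fin 1)).le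
    | mu =>
      change ‖mu (x (0 : Fin 2)) (x (1 : Fin 2)) - mu (y (0 : Fin 2)) (y (1 : Fin 2))‖ ≤ ε
      refine (mu_lip _ _ _ _).trans ?_
      have h0 : ‖x (0 : Fin 2) - y (0 : Fin 2)‖ < ε / (4 * R + 1) := hxy (0 : Fin 2)
      have h1 : ‖x (1 : Fin 2) - y (1 : Fin 2)‖ < ε / (4 * R + 1) := hxy (1 : Fin 2)
      have h2 : ‖x (1 : Fin 2)‖ ≤ R := hx (1 : Fin 2)
      have h3 : ‖y (0 : Fin 2)‖ ≤ R := hy (0 : Fin 2)
      have h4 := mul_le_mul h0.le h2 (norm_nonneg _) (by positivity)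
      have h5 := mul_le_mul h3 h1.le (norm_nonneg _) (by positivity)
      have h6 : (ε / (4 * R + 1)) * R * 4 ≤ ε := by
        rw [div_mul_eq_mul_div, div_mul_eq_mul_div, div_le_iff₀ (by positivity)]
        nlinarith
      nlinarith
  rel_bound := fun g R x hx => by
    cases g with
    | form =>
      exact (B_abs_le _ _).trans (mul_le_mul (hx (0 : Fin 2)) (hx (1 : Fin 2))
        (norm_nonneg _) (Nat.cast_nonneg _))
    | dd σ =>
      change |dd σ (x (0 : Fin 1))| ≤ (R : ℝ) + 1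
      rw [abs_of_nonneg (dd_nonneg σ _)]
      have h : ‖x (0 : Fin 1)‖ ≤ R := hx (0 : Fin 1)
      exact (dd_le σ _).trans (by linarith)
  rel_uc := fun g R ε hε x y hx hy hxy => by
    cases g with
    | form =>
      have h0 : ‖x (0 : Fin 2) - y (0 : Fin 2)‖ < ε / (2 * R + 1) := hxy (0 : Fin 2)
      have h1 : ‖x (1 : Fin 2) - y (1 : Fin 2)‖ < ε / (2 * R + 1) := hxy (1 : Fin 2)
      have h2 : ‖x (1 : Fin 2)‖ ≤ R := hx (1 : Fin 2)
      have h3 : ‖y (0 : Fin 2)‖ ≤ R := hy (0 : Fin 2)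
      have h4 : B (x (0 : Fin 2)) (x (1 : Fin 2)) - B (y (0 : Fin 2)) (y (1 : Fin 2)) =
          B (x (0 : Fin 2) - y (0 : Fin 2)) (x (1 : Fin 2)) +
            B (y (0 : Fin 2)) (x (1 : Fin 2) - y (1 : Fin 2)) := by
        have h5 := B_add (x (0 : Fin 2) - y (0 : Fin 2)) (y (0 : Fin 2)) (x (1 : Fin 2))
        rw [sub_add_cancel] at h5
        have h6 := B_add (x (1 : Fin 2) - y (1 : Fin 2)) (y (1 : Fin 2)) (y (0 : Fin 2))
        rw [sub_add_cancel] at h6
        rw [h5, B_symm (y (0 : Fin 2)) (x (1 : Fin 2)), h6, B_symm (y (0 : Fin 2)) (y (1 : Fin 2)),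
          B_symm (y (0 : Fin 2)) (x (1 : Fin 2) - y (1 : Fin 2))]
        ring
      change |B (x (0 : Fin 2)) (x (1 : Fin 2)) - B (y (0 : Fin 2)) (y (1 : Fin 2))| ≤ ε
      rw [h4]
      refine (abs_add_le _ _).trans ?_
      refine le_trans ?_ (Complete.Dat.two_mul_bound (Nat.cast_nonneg R) hε (norm_nonneg _)
        (norm_nonneg _) h0 h1)
      exact add_le_add ((B_abs_le _ _).trans (mul_le_mul_of_nonneg_left h2 (norm_nonneg _)))
        ((B_abs_le _ _).trans (mul_le_mul_of_nonneg_right h3 (norm_nonneg _)))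
    | dd σ =>
      change |dd σ (x (0 : Fin 1)) - dd σ (y (0 : Fin 1))| ≤ ε
      exact (dd_lip σ _ _).trans (hxy (0 : Fin 1)).le

end Dat

end

end Pool.Agent.Lib.MP_4e4c79_lc.Cc
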