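import Mathlib
import Pool.Agent.Lib.MP_4e4c79_lc.Cc.Build

/-!
The operations in an arbitrary structure for the signature `sg`, the corresponding terms and formulas,
and the list `Facts` of the properties used for the classification of the separable models.
-/

namespace Pool.Agent.Lib.MP_4e4c79_lc.Cc

open Pool.Agent.Lib.MP_4e4c79_lc Complete Finset
open scoped ENNReal
attribute [local instance] Classical.propDecidable
set_option linter.unusedSectionVars false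

noncomputable section

variable {k : ℕ}

/-- Projection to points, as a term. -/
def tP (σ : Bool) (t : Term sg k) : Term sg k := Term.fn (L := sg) (.P σ) ![t]

/-- Projection to a kind, as a term. -/
def tK (m : ℕ) (t : Term sg k) : Term sg k := Term.fn (L := sg) (.K m) ![t]

/-- Multiplication of terms. -/
def tM (s t : Term sg k) : Term sg k := Term.fn (L := sg) .mu ![s, t]

/-- The form applied to terms. -/
def fB (s t : Term sg k) : Formula sg k := Formula.rel (L := sg) .form ![s, t]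

/-- The distance to the points of a sort, applied to a term. -/
def fd (σ : Bool) (t : Term sg k) : Formula sg k := Formula.rel (L := sg) (.dd σ) ![t]

variable (N : Struc sg)

/-- Projection to points. -/
def oP (σ : Bool) (x : N.carrier) : N.carrier := N.fn (.P σ) ![x]

/-- Projection to a kind. -/
def oK (m : ℕ) (x : N.carrier) : N.carrier := N.fn (.K m) ![x]

/-- Multiplication. -/
def oM (x y : N.carrier) : N.carrier := N.fn .mu ![x, y]

/-- The form. -/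
def oB (x y : N.carrier) : ℝ := N.rel .form ![x, y]

/-- The distance to the points of a sort. -/
def od (σ : Bool) (x : N.carrier) : ℝ := N.rel (.dd σ) ![x]

variable {N}

lemma eval_tP (v : Fin k → N.carrier) (σ : Bool) (t : Term sg k) :
    (tP σ t).eval N v = oP N σ (t.eval N v) := by
  simp only [tP, Term.eval, oP]
  congr 1
  funext i
  refine Fin.cases ?_ (fun i => i.elim0) i
  rfl

lemma eval_tK (v : Fin k → N.carrier) (m : ℕ) (t : Term sg k) :
    (tK m t).eval N v = oK N m (t.eval N v) := by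
  simp only [tK, Term.eval, oK]
  congr 1
  funext i
  refine Fin.cases ?_ (fun i => i.elim0) i
  rfl

lemma eval_tM (v : Fin k → N.carrier) (s t : Term sg k) :
    (tM s t).eval N v = oM N (s.eval N v) (t.eval N v) := by
  simp only [tM, Term.eval, oM]
  congr 1
  funext i
  refine Fin.cases ?_ (fun i => ?_) i
  · rfl
  · refine Fin.cases ?_ (fun i => i.elim0) i
    rfl

lemma eval_fB (v : Fin k → N.carrier) (s t : Term sg k) :
    (fB s t).eval N v = oB N (s.eval N v) (t.eval N v) := by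
  simp only [fB, Formula.eval, oB]
  congr 1
  funext i
  refine Fin.cases ?_ (fun i => ?_) i
  · rfl
  · refine Fin.cases ?_ (fun i => i.elim0) i
    rfl

lemma eval_fd (v : Fin k → N.carrier) (σ : Bool) (t : Term sg k) :
    (fd σ t).eval N v = od N σ (t.eval N v) := by
  simp only [fd, Formula.eval, od]
  congr 1
  funext i
  refine Fin.cases ?_ (fun i => i.elim0) i
  rfl

variable (D : Dat)

lemma oP_str (σ : Bool) (x : D.X) : oP D.str σ x = Dat.PP σ x := rfl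

lemma oK_str (m : ℕ) (x : D.X) : oK D.str m x = Dat.KK m x := rfl

lemma oM_str (x y : D.X) : oM D.str x y = Dat.mu x y := rfl

lemma oB_str (x y : D.X) : oB D.str x y = Dat.B x y := rfl

lemma od_str (σ : Bool) (x : D.X) : od D.str σ x = Dat.dd σ x := rfl

variable (N)

/-- The part of `x` outside the points and the kinds below `n`. -/
def rest (n : ℕ) (x : N.carrier) : N.carrier :=
  x - oP N true x - oP N false x - ∑ m ∈ range n, oK N m x

/-- The power `y^p` for `p ≥ 1`. -/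
def pw (p : ℕ) (y : N.carrier) : N.carrier := (oM N y)^[p - 1] y

/-- The product of the atom part of `w`, the slot part of `w`, and `x`. -/
def act (w x : N.carrier) : N.carrier := oM N (oP N true w) (oM N (oP N false w) x)

/-- The properties used for the classification. -/
structure Facts : Prop where
  P_add : ∀ σ x y, oP N σ (x + y) = oP N σ x + oP N σ y
  P_smul : ∀ σ (t : ℝ) x, oP N σ (t • x) = t • oP N σ x
  K_add : ∀ m x y, oK N m (x + y) = oK N m x + oK N m y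
  K_smul : ∀ m (t : ℝ) x, oK N m (t • x) = t • oK N m x
  M_add_left : ∀ x y z, oM N (x + y) z = oM N x z + oM N y z
  M_smul_left : ∀ (t : ℝ) x y, oM N (t • x) y = t • oM N x y
  M_add_right : ∀ x y z, oM N x (y + z) = oM N x y + oM N x z
  M_smul_right : ∀ (t : ℝ) x y, oM N x (t • y) = t • oM N x y
  B_add : ∀ x y z, oB N (x + y) z = oB N x z + oB N y z
  B_smul : ∀ (t : ℝ) x y, oB N (t • x) y = t * oB N x y
  B_symm : ∀ x y, oB N x y = oB N y x
  P_P : ∀ σ x, oP N σ (oP N σ x) = oP N σ x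
  P_P' : ∀ σ x, oP N σ (oP N (!σ) x) = 0
  P_K : ∀ σ m x, oP N σ (oK N m x) = 0
  K_P : ∀ m σ x, oK N m (oP N σ x) = 0
  K_K : ∀ m x, oK N m (oK N m x) = oK N m x
  K_K' : ∀ m m' x, m ≠ m' → oK N m (oK N m' x) = 0
  split : ∀ n x, ‖x‖ ^ 2 = ‖oP N true x‖ ^ 2 + ‖oP N false x‖ ^ 2 +
    ∑ m ∈ range n, ‖oK N m x‖ ^ 2 + ‖rest N n x‖ ^ 2
  B_le : ∀ x y, |oB N x y| ≤ ‖x‖ * ‖y‖
  B_nonneg : ∀ x, 0 ≤ oB N x x
  B_P : ∀ σ x, oB N (oP N σ x) (oP N σ x) = ‖oP N σ x‖ ^ 2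
  K_le : ∀ m x, ‖oK N m x‖ ^ 2 ≤ (1 + DD m ^ 2) * oB N (oK N m x) (oK N m x)
  B_P_symm : ∀ σ x y, oB N (oP N σ x) y = oB N x (oP N σ y)
  B_K_symm : ∀ m x y, oB N (oK N m x) y = oB N x (oK N m y)
  B_M : ∀ y x z, oB N (oM N y x) z = oB N x (oM N y z)
  M_comm : ∀ y y' x, oM N y (oM N y' x) = oM N y' (oM N y x)
  M_split : ∀ y x, oM N y x = oM N (oP N true y) x + oM N (oP N false y) x
  P_M : ∀ σ y x, oP N σ (oM N y x) = oM N y (oP N σ x)
  K_M : ∀ m y x, oK N m (oM N y x) = oM N y (oK N m x)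
  M_le : ∀ y x, ‖oM N y x‖ ≤ 2 * (‖y‖ * ‖x‖)
  M_assoc : ∀ σ y y' x,
    oM N (oM N (oP N σ y) (oP N σ y')) x = oM N (oP N σ y) (oM N (oP N σ y') x)
  M_assoc' : ∀ y y' x,
    oM N (oM N (oP N true y) (oP N false y')) x = oM N (oP N true y) (oM N (oP N false y') x)
  M_symm : ∀ σ y y', oM N (oP N σ y) (oP N σ y') = oM N (oP N σ y') (oP N σ y)
  d_lip : ∀ σ x y, |od N σ x - od N σ y| ≤ ‖x - y‖
  d_near : ∀ σ x ε, 0 < ε → ∃ d, od N σ d = 0 ∧ ‖x - d‖ ≤ od N σ x + ε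
  d_norm : ∀ σ d, od N σ d = 0 → ‖d‖ = 1
  d_P : ∀ σ d, od N σ d = 0 → oP N σ d = d
  d_M : ∀ σ d, od N σ d = 0 → ∀ y, oM N d (oP N σ y) = oB N d y • d
  M_small : ∀ σ y x ε, 0 < ε → ∃ d, od N σ d = 0 ∧ ‖oM N (oP N σ y) x‖ ≤ |oB N y d| * ‖x‖ + ε
  atom_ex : ∀ b, od N false b = 0 → ∀ ε, 0 < ε → ∃ a, od N true a = 0 ∧ ‖oM N a b - b‖ ≤ ε
  atoms_inf : ∀ x ε, 0 < ε → ∃ a, od N true a = 0 ∧ |oB N x a| ≤ ε
  slots_inf : ∀ a, od N true a = 0 → ∀ x ε, 0 < ε →
    ∃ b, od N false b = 0 ∧ ‖oM N a b - b‖ ≤ ε ∧ |oB N x b| ≤ ε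
  dims : ∀ b, od N false b = 0 → ∀ j j', j ≠ j' → ∀ n (x : Fin n → N.carrier) (ε : ℝ), 0 < ε →
    ∃ y, |oB N y y - 1| ≤ ε ∧ (∀ i, |oB N y (x i)| ≤ ε) ∧ ‖oM N b y - y‖ ≤ ε ∧
      (‖oK N j y - y‖ ≤ ε ∨ ‖oK N j' y - y‖ ≤ ε)
  opt : ∀ m x ε, 0 < ε → ∃ w, ‖pw N (pp m) (oP N true w)‖ ^ 2 ≤ 1 + ε ∧
    ‖pw N (pp m) (oP N false w)‖ ^ 2 ≤ 1 + ε ∧
    ‖oK N m x‖ ^ 2 ≤ oB N (oK N m x) (oK N m x) +
      DD m ^ 2 * oB N (act N w (oK N m x)) (act N w (oK N m x)) + ε
  upper : ∀ m w x, (DD m ^ 2 * oB N (act N w (oK N m x)) (act N w (oK N m x))) ^ pp m ≤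
    (‖oK N m x‖ ^ 2 - oB N (oK N m x) (oK N m x)) ^ pp m *
      (‖pw N (pp m) (oP N true w)‖ ^ 2 * ‖pw N (pp m) (oP N false w)‖ ^ 2)
  B_le_K : ∀ m x, oB N (oK N m x) (oK N m x) ≤ ‖oK N m x‖ ^ 2
  par : ∀ n x y, ‖rest N n x + rest N n y‖ ^ 2 + ‖rest N n x - rest N n y‖ ^ 2 ≤
    2 * (1 + 1 / (pp n : ℝ)) ^ 2 * (‖rest N n x‖ ^ 2 + ‖rest N n y‖ ^ 2)

end

end Pool.Agent.Lib.MP_4e4c79_lc.Cc
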