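import Mathlib
import Pool.Agent.Lib.MP_4e4c79_lc.Hilb
import Pool.Agent.Lib.MP_4e4c79_lc.Cc.Ops

/-!
# Module CL1.  Algebra of atoms and slots in a structure satisfying `Facts`.

The phrase point of sort `σ` means `od N σ d = 0` (`σ = true`: atom, `σ = false`: slot).
-/

namespace Pool.Agent.Lib.MP_4e4c79_lc.Cc

open Pool.Agent.Lib.MP_4e4c79_lc Complete Finset TopologicalSpace
attribute [local instance] Classical.propDecidable
set_option linter.unusedSectionVars false

noncomputable section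

variable {N : Struc sg}

namespace Facts

/-- The form as a bilinear map. -/
def Bl (hF : Facts N) : N.carrier →ₗ[ℝ] N.carrier →ₗ[ℝ] ℝ :=
  LinearMap.mk₂ ℝ (oB N) hF.B_add (fun t x y => hF.B_smul t x y)
    (fun x y z => by rw [hF.B_symm, hF.B_add, hF.B_symm y, hF.B_symm z])
    (fun t x y => by rw [hF.B_symm, hF.B_smul, hF.B_symm y]; rfl)

/-- The multiplication as a bilinear map. -/
def Ml (hF : Facts N) : N.carrier →ₗ[ℝ] N.carrier →ₗ[ℝ] N.carrier :=
  LinearMap.mk₂ ℝ (oM N) hF.M_add_left hF.M_smul_left hF.M_add_right hF.M_smul_right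

/-- The projection to the points as a linear map. -/
def Pl (hF : Facts N) (σ : Bool) : N.carrier →ₗ[ℝ] N.carrier where
  toFun := oP N σ
  map_add' := hF.P_add σ
  map_smul' := hF.P_smul σ

/-- The projection to a kind as a linear map. -/
def Kl (hF : Facts N) (m : ℕ) : N.carrier →ₗ[ℝ] N.carrier where
  toFun := oK N m
  map_add' := hF.K_add m
  map_smul' := hF.K_smul m

lemma Bl_apply (hF : Facts N) (x y : N.carrier) : hF.Bl x y = oB N x y := rfl
lemma Ml_apply (hF : Facts N) (x y : N.carrier) : hF.Ml x y = oM N x y := rfl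
lemma Pl_apply (hF : Facts N) (σ : Bool) (x : N.carrier) : hF.Pl σ x = oP N σ x := rfl
lemma Kl_apply (hF : Facts N) (m : ℕ) (x : N.carrier) : hF.Kl m x = oK N m x := rfl

lemma cl1_B_add_right (hF : Facts N) (x y z : N.carrier) :
    oB N x (y + z) = oB N x y + oB N x z := (hF.Bl x).map_add y z

lemma cl1_B_smul_right (hF : Facts N) (t : ℝ) (x y : N.carrier) :
    oB N x (t • y) = t * oB N x y := (hF.Bl x).map_smul t y

lemma cl1_B_sub_right (hF : Facts N) (x y z : N.carrier) :
    oB N x (y - z) = oB N x y - oB N x z := (hF.Bl x).map_sub y z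

lemma cl1_B_sub_left (hF : Facts N) (x y z : N.carrier) :
    oB N (x - y) z = oB N x z - oB N y z := by
  rw [hF.B_symm, hF.cl1_B_sub_right, hF.B_symm z, hF.B_symm z]

lemma cl1_B_sum_right (hF : Facts N) {ι : Type*} (s : Finset ι) (x : N.carrier)
    (f : ι → N.carrier) : oB N x (∑ i ∈ s, f i) = ∑ i ∈ s, oB N x (f i) :=
  map_sum (hF.Bl x) f s

lemma cl1_B_sum_left (hF : Facts N) {ι : Type*} (s : Finset ι) (x : N.carrier)
    (f : ι → N.carrier) : oB N (∑ i ∈ s, f i) x = ∑ i ∈ s, oB N (f i) x := by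
  rw [hF.B_symm, hF.cl1_B_sum_right]
  exact Finset.sum_congr rfl fun i _ => hF.B_symm _ _

lemma cl1_B_zero_right (hF : Facts N) (x : N.carrier) : oB N x 0 = 0 := (hF.Bl x).map_zero

lemma cl1_B_zero_left (hF : Facts N) (x : N.carrier) : oB N 0 x = 0 := by
  rw [hF.B_symm, hF.cl1_B_zero_right]

lemma cl1_M_sub_right (hF : Facts N) (x y z : N.carrier) :
    oM N x (y - z) = oM N x y - oM N x z := (hF.Ml x).map_sub y z

lemma cl1_M_zero_right (hF : Facts N) (x : N.carrier) : oM N x 0 = 0 := (hF.Ml x).map_zero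

lemma cl1_M_zero_left (hF : Facts N) (x : N.carrier) : oM N 0 x = 0 := by
  have := hF.M_smul_left 0 0 x
  simpa using this

lemma cl1_M_sub_left (hF : Facts N) (x y z : N.carrier) :
    oM N (x - y) z = oM N x z - oM N y z := by
  have h := hF.M_add_left (x - y) y z
  rw [sub_add_cancel] at h
  rw [h, add_sub_cancel_right]

lemma cl1_M_sum_right (hF : Facts N) {ι : Type*} (s : Finset ι) (x : N.carrier)
    (f : ι → N.carrier) : oM N x (∑ i ∈ s, f i) = ∑ i ∈ s, oM N x (f i) :=
  map_sum (hF.Ml x) f s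

lemma cl1_M_sum_left (hF : Facts N) {ι : Type*} (s : Finset ι) (x : N.carrier)
    (f : ι → N.carrier) : oM N (∑ i ∈ s, f i) x = ∑ i ∈ s, oM N (f i) x := by
  induction s using Finset.induction_on with
  | empty => simp [hF.cl1_M_zero_left]
  | insert a s ha ih => rw [Finset.sum_insert ha, Finset.sum_insert ha, hF.M_add_left, ih]

lemma cl1_P_sub (hF : Facts N) (σ : Bool) (x y : N.carrier) :
    oP N σ (x - y) = oP N σ x - oP N σ y := (hF.Pl σ).map_sub x y

lemma cl1_P_sum (hF : Facts N) {ι : Type*} (σ : Bool) (s : Finset ι) (f : ι → N.carrier) :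
    oP N σ (∑ i ∈ s, f i) = ∑ i ∈ s, oP N σ (f i) := map_sum (hF.Pl σ) f s

lemma cl1_K_sum (hF : Facts N) {ι : Type*} (m : ℕ) (s : Finset ι) (f : ι → N.carrier) :
    oK N m (∑ i ∈ s, f i) = ∑ i ∈ s, oK N m (f i) := map_sum (hF.Kl m) f s

lemma cl1_K_sub (hF : Facts N) (m : ℕ) (x y : N.carrier) :
    oK N m (x - y) = oK N m x - oK N m y := (hF.Kl m).map_sub x y

lemma cl1_d_ne_zero (hF : Facts N) {σ : Bool} {d : N.carrier} (h : od N σ d = 0) : d ≠ 0 := by
  rintro rfl
  have := hF.d_norm σ _ h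
  rw [norm_zero] at this
  exact zero_ne_one this

theorem B_d (hF : Facts N) {σ : Bool} {d : N.carrier} (h : od N σ d = 0) : oB N d d = 1 := by
  have h1 := hF.B_P σ d
  rw [hF.d_P σ d h, hF.d_norm σ d h] at h1
  rw [h1]; norm_num

theorem M_d_self (hF : Facts N) {σ : Bool} {d : N.carrier} (h : od N σ d = 0) :
    oM N d d = d := by
  have h1 := hF.d_M σ d h d
  rw [hF.d_P σ d h, hF.B_d h, one_smul] at h1
  exact h1

lemma cl1_M_d (hF : Facts N) {σ : Bool} {d : N.carrier} (h : od N σ d = 0) {d' : N.carrier}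
    (h' : od N σ d' = 0) : oM N d d' = oB N d d' • d := by
  have h1 := hF.d_M σ d h d'
  rwa [hF.d_P σ d' h'] at h1

theorem d_orth (hF : Facts N) {σ : Bool} {d d' : N.carrier} (h : od N σ d = 0)
    (h' : od N σ d' = 0) (hne : d ≠ d') : oB N d d' = 0 := by
  have h1 := hF.cl1_M_d h h'
  have h2 := hF.cl1_M_d h' h
  have h3 := hF.M_symm σ d d'
  rw [hF.d_P σ d h, hF.d_P σ d' h', h1, h2, hF.B_symm d' d] at h3
  have h4 : oB N d d' • (d - d') = 0 := by rw [smul_sub, h3, sub_self]
  rcases smul_eq_zero.1 h4 with h5 | h5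
  · exact h5
  · exact absurd (sub_eq_zero.1 h5) hne

theorem M_d_d (hF : Facts N) {σ : Bool} {d d' : N.carrier} (h : od N σ d = 0)
    (h' : od N σ d' = 0) (hne : d ≠ d') : oM N d d' = 0 := by
  rw [hF.cl1_M_d h h', hF.d_orth h h' hne, zero_smul]

theorem M_d_idem (hF : Facts N) {σ : Bool} {d : N.carrier} (h : od N σ d = 0) (x : N.carrier) :
    oM N d (oM N d x) = oM N d x := by
  have h1 := hF.M_assoc σ d d x
  rw [hF.d_P σ d h, hF.M_d_self h] at h1
  exact h1.symm

theorem M_d_orth (hF : Facts N) {σ : Bool} {d d' : N.carrier} (h : od N σ d = 0)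
    (h' : od N σ d' = 0) (hne : d ≠ d') (x : N.carrier) : oM N d (oM N d' x) = 0 := by
  have h1 := hF.M_assoc σ d d' x
  rw [hF.d_P σ d h, hF.d_P σ d' h', hF.M_d_d h h' hne, hF.cl1_M_zero_left] at h1
  exact h1.symm

theorem M_a_b (hF : Facts N) {a b : N.carrier} (ha : od N true a = 0) (hb : od N false b = 0) :
    oM N a b = 0 ∨ oM N a b = b := by
  have h1 : oM N b (oM N a b) = oM N a b := by
    rw [hF.M_comm, hF.M_d_self hb]
  have h2 : oP N false (oM N a b) = oM N a b := by
    rw [hF.P_M, hF.d_P false b hb]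
  have h3 := hF.d_M false b hb (oM N a b)
  rw [h2, h1] at h3
  have h4 := hF.M_d_idem ha b
  obtain ⟨t, ht⟩ : ∃ t : ℝ, oM N a b = t • b := ⟨_, h3⟩
  have h5 : oM N a (oM N a b) = (t * t) • b := by
    have e1 : oM N a (t • b) = t • oM N a b := hF.M_smul_right t a b
    rw [← ht] at e1
    rw [e1, ht, smul_smul]
  rw [h4, ht] at h5
  have h6 : (t * t - t) • b = 0 := by
    rw [sub_smul, ← h5, sub_self]
  rcases smul_eq_zero.1 h6 with h7 | h7
  · have h8 : t * (t - 1) = 0 := by linarith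
    rcases mul_eq_zero.1 h8 with h9 | h9
    · left; rw [ht, h9, zero_smul]
    · right
      have : t = 1 := by linarith
      rw [ht, this, one_smul]
  · exact absurd h7 (hF.cl1_d_ne_zero hb)

theorem atom_exact (hF : Facts N) {b : N.carrier} (hb : od N false b = 0) :
    ∃ a, od N true a = 0 ∧ oM N a b = b := by
  obtain ⟨a, ha, h⟩ := hF.atom_ex b hb (1 / 2) (by norm_num)
  refine ⟨a, ha, ?_⟩
  rcases hF.M_a_b ha hb with h1 | h1
  · rw [h1, zero_sub, norm_neg, hF.d_norm false b hb] at h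
    norm_num at h
  · exact h1

theorem atom_unique (hF : Facts N) {a a' b : N.carrier} (ha : od N true a = 0)
    (ha' : od N true a' = 0) (hb : od N false b = 0) (h : oM N a b = b) (h' : oM N a' b = b) :
    a = a' := by
  by_contra hne
  have h1 := hF.M_d_orth ha ha' hne b
  rw [h', h] at h1
  exact hF.cl1_d_ne_zero hb h1

theorem slots_exact (hF : Facts N) {a : N.carrier} (ha : od N true a = 0) (x : N.carrier)
    (ε : ℝ) (hε : 0 < ε) : ∃ b, od N false b = 0 ∧ oM N a b = b ∧ |oB N x b| ≤ ε := by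
  obtain ⟨b, hb, h1, h2⟩ := hF.slots_inf a ha x (min ε (1 / 2)) (lt_min hε (by norm_num))
  refine ⟨b, hb, ?_, h2.trans (min_le_left _ _)⟩
  rcases hF.M_a_b ha hb with h3 | h3
  · rw [h3, zero_sub, norm_neg, hF.d_norm false b hb] at h1
    have := h1.trans (min_le_right _ _)
    norm_num at this
  · exact h3

/-- The form of a point and a combination of points. -/
lemma cl1_B_comb (hF : Facts N) (σ : Bool) (T : Finset N.carrier) (hT : ∀ d ∈ T, od N σ d = 0)
    (c : N.carrier → ℝ) {d : N.carrier} (hd : od N σ d = 0) :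
    oB N (∑ e ∈ T, c e • e) d = if d ∈ T then c d else 0 := by
  rw [hF.cl1_B_sum_left]
  have h1 : ∀ e ∈ T, oB N (c e • e) d = if e = d then c d else 0 := by
    intro e he
    rw [hF.B_smul]
    by_cases hed : e = d
    · subst hed; rw [if_pos rfl, hF.B_d hd, mul_one]
    · rw [if_neg hed, hF.d_orth (hT e he) hd hed, mul_zero]
  rw [Finset.sum_congr rfl h1, Finset.sum_ite_eq']

theorem bessel (hF : Facts N) (σ : Bool) (T : Finset N.carrier) (hT : ∀ d ∈ T, od N σ d = 0)
    (y : N.carrier) : ∑ d ∈ T, oB N y d ^ 2 ≤ oB N y y := by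
  set s := ∑ d ∈ T, oB N y d • d with hs
  have h1 : oB N y s = ∑ d ∈ T, oB N y d ^ 2 := by
    rw [hs, hF.cl1_B_sum_right]
    refine Finset.sum_congr rfl fun d _ => ?_
    rw [hF.cl1_B_smul_right]; ring
  have h2 : oB N s s = ∑ d ∈ T, oB N y d ^ 2 := by
    conv_lhs => rw [hs, hF.cl1_B_sum_right]
    refine Finset.sum_congr rfl fun d hd => ?_
    rw [hF.cl1_B_smul_right, hF.cl1_B_comb σ T hT _ (hT d hd), if_pos hd]; ring
  have h3 := hF.B_nonneg (y - s)
  rw [hF.cl1_B_sub_left, hF.cl1_B_sub_right, hF.cl1_B_sub_right, hF.B_symm s y, h1, h2] at h3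
  linarith

theorem countable_d (hF : Facts N) [SeparableSpace N.carrier] (σ : Bool) :
    {d | od N σ d = 0}.Countable := by
  have hdist : ∀ d d' : {d | od N σ d = 0}, d ≠ d' → (1 : ℝ) ≤ dist d d' := by
    intro d d' hne
    have h1 : oB N (d.1 - d'.1) (d.1 - d'.1) = 2 := by
      rw [hF.cl1_B_sub_left, hF.cl1_B_sub_right, hF.cl1_B_sub_right, hF.B_symm d'.1 d.1,
        hF.B_d d.2, hF.B_d d'.2, hF.d_orth d.2 d'.2 (fun h => hne (Subtype.ext h))]
      norm_num
    have h2 := hF.B_le (d.1 - d'.1) (d.1 - d'.1)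
    rw [h1] at h2
    rw [Subtype.dist_eq, dist_eq_norm]
    have h3 : |(2 : ℝ)| = 2 := abs_of_pos (by norm_num)
    rw [h3] at h2
    nlinarith [norm_nonneg (d.1 - d'.1)]
  have hd : DiscreteTopology {d | od N σ d = 0} := by
    apply DiscreteTopology.of_forall_le_dist (r := 1) one_pos
    intro x y hxy
    exact hdist x y hxy
  have : SecondCountableTopology N.carrier := UniformSpace.secondCountable_of_separable N.carrier
  have hc : Countable {d | od N σ d = 0} := separableSpace_iff_countable.1 inferInstance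
  exact Set.countable_coe_iff.1 hc

theorem infinite_atoms (hF : Facts N) : {a | od N true a = 0}.Infinite := by
  intro hfin
  obtain ⟨a, ha, h⟩ := hF.atoms_inf (∑ a ∈ hfin.toFinset, (1 : ℝ) • a) (1 / 2) (by norm_num)
  rw [hF.cl1_B_comb true hfin.toFinset (fun d hd => by simpa using hd) (fun _ => 1) ha,
    if_pos (by simpa using ha)] at h
  norm_num at h

theorem infinite_slots (hF : Facts N) {a : N.carrier} (ha : od N true a = 0) :
    {b | od N false b = 0 ∧ oM N a b = b}.Infinite := by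
  intro hfin
  obtain ⟨b, hb, hab, h⟩ := hF.slots_exact ha (∑ b ∈ hfin.toFinset, (1 : ℝ) • b) (1 / 2)
    (by norm_num)
  rw [hF.cl1_B_comb false hfin.toFinset
    (fun d hd => (by simpa using hd : od N false d = 0 ∧ oM N a d = d).1) (fun _ => 1) hb,
    if_pos (by simpa using ⟨hb, hab⟩)] at h
  norm_num at h

theorem act_slot (hF : Facts N) {a b : N.carrier} (ha : od N true a = 0) (hb : od N false b = 0)
    (hab : oM N a b = b) {x : N.carrier} (hx : oM N b x = x) (w : N.carrier) :
    act N w x = (oB N a w * oB N b w) • x := by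
  have hPb := hF.d_P false b hb
  have hPa := hF.d_P true a ha
  -- the slot part
  have h1 : oM N (oP N false w) x = oB N b w • x := by
    have e1 := hF.M_assoc false w b x
    rw [hF.M_symm false w b, hPb, hF.d_M false b hb w, hF.M_smul_left, hx] at e1
    exact e1.symm
  have h2 : oM N (oP N true w) b = oB N a w • b := by
    have e1 := hF.M_assoc true w a b
    rw [hF.M_symm true w a, hPa, hF.d_M true a ha w, hF.M_smul_left, hab] at e1
    exact e1.symm
  have h3 : oM N (oP N true w) x = oB N a w • x := by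
    have e1 := hF.M_assoc' w b x
    rw [hPb, h2, hF.M_smul_left, hx] at e1
    exact e1.symm
  unfold act
  rw [h1, hF.M_smul_right, h3, smul_smul, mul_comm]

theorem M_rem (hF : Facts N) {r : N.carrier} (hr : ∀ b, od N false b = 0 → oM N b r = 0)
    (w : N.carrier) : oM N (oP N false w) r = 0 := by
  have key : ∀ ε : ℝ, 0 < ε → ‖oM N (oP N false w) r‖ ≤ ε * (‖r‖ + 1) := by
    intro ε hε
    have hfin : {b | od N false b = 0 ∧ ε < |oB N w b|}.Finite := by
      by_contra hinf
      obtain ⟨n, hn⟩ := exists_nat_gt (oB N w w / ε ^ 2)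
      obtain ⟨T, hT1, hT2⟩ := (Set.Infinite.exists_subset_card_eq hinf n)
      have h1 := hF.bessel false T (fun d hd => (hT1 hd).1) w
      have h2 : (T.card : ℝ) * ε ^ 2 ≤ ∑ d ∈ T, oB N w d ^ 2 := by
        rw [← nsmul_eq_mul]
        refine Finset.card_nsmul_le_sum T _ _ fun d hd => ?_
        have h3 := (hT1 hd).2
        rw [← sq_abs (oB N w d)]
        exact pow_le_pow_left₀ hε.le h3.le 2
      rw [hT2] at h2
      rw [div_lt_iff₀ (by positivity)] at hn
      linarith
    set T := hfin.toFinset with hTdef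
    have hT : ∀ d ∈ T, od N false d = 0 := fun d hd =>
      (by simpa [hTdef] using hd : od N false d = 0 ∧ ε < |oB N w d|).1
    set w₁ := ∑ b ∈ T, oB N w b • b with hw₁
    have h1 : oM N (oP N false w₁) r = 0 := by
      rw [hw₁, hF.cl1_P_sum, hF.cl1_M_sum_left]
      refine Finset.sum_eq_zero fun b hb => ?_
      rw [hF.P_smul, hF.d_P false b (hT b hb), hF.M_smul_left, hr b (hT b hb), smul_zero]
    have h2 : oM N (oP N false w) r = oM N (oP N false (w - w₁)) r := by
      rw [hF.cl1_P_sub, hF.cl1_M_sub_left, h1, sub_zero]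
    obtain ⟨d, hd, h3⟩ := hF.M_small false (w - w₁) r ε hε
    have h4 : |oB N (w - w₁) d| ≤ ε := by
      rw [hF.cl1_B_sub_left, hw₁, hF.cl1_B_comb false T hT _ hd]
      by_cases hdT : d ∈ T
      · rw [if_pos hdT, sub_self, abs_zero]; exact hε.le
      · rw [if_neg hdT, sub_zero]
        by_contra hcon
        exact hdT (by simpa [hTdef] using ⟨hd, not_le.1 hcon⟩)
    rw [h2]
    calc _ ≤ |oB N (w - w₁) d| * ‖r‖ + ε := h3
      _ ≤ ε * ‖r‖ + ε := by gcongr
      _ = _ := by ring
  by_contra hne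
  have hpos : 0 < ‖oM N (oP N false w) r‖ := norm_pos_iff.2 hne
  have hr1 : 0 < ‖r‖ + 1 := by positivity
  have := key (‖oM N (oP N false w) r‖ / (2 * (‖r‖ + 1))) (by positivity)
  have h2 : ‖oM N (oP N false w) r‖ / (2 * (‖r‖ + 1)) * (‖r‖ + 1) =
      ‖oM N (oP N false w) r‖ / 2 := by field_simp
  rw [h2] at this
  linarith

theorem B_pw (hF : Facts N) {σ : Bool} {d : N.carrier} (h : od N σ d = 0) (w : N.carrier)
    {p : ℕ} (hp : p ≠ 0) : oB N (pw N p (oP N σ w)) d = oB N w d ^ p := by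
  have key : ∀ n : ℕ, oB N ((oM N (oP N σ w))^[n] (oP N σ w)) d = oB N w d ^ (n + 1) := by
    intro n
    induction n with
    | zero =>
      simp only [Function.iterate_zero, id_eq, zero_add, pow_one]
      rw [hF.B_P_symm, hF.d_P σ d h]
    | succ n ih =>
      rw [Function.iterate_succ_apply', hF.B_M]
      have e1 := hF.M_symm σ w d
      rw [hF.d_P σ d h, hF.d_M σ d h w] at e1
      rw [e1, hF.cl1_B_smul_right, ih, hF.B_symm d w]
      ring
  obtain ⟨n, rfl⟩ := Nat.exists_eq_succ_of_ne_zero hp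
  unfold pw
  exact key n

end Facts

end

end Pool.Agent.Lib.MP_4e4c79_lc.Cc
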