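import Mathlib
import Pool.Agent.Lib.MP_4e4c79_lc.Cc.CL1

/-!
Atoms and slots of a structure satisfying `Facts` as types; the pieces of the space.
-/

namespace Pool.Agent.Lib.MP_4e4c79_lc.Cc

open Pool.Agent.Lib.MP_4e4c79_lc Complete Finset TopologicalSpace
attribute [local instance] Classical.propDecidable
set_option linter.unusedSectionVars false

noncomputable section

/-- The points of a sort. -/
def Pnt (N : Struc sg) (σ : Bool) : Type := {d : N.carrier // od N σ d = 0}

variable {N : Struc sg}

/-- The atom of a slot. -/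
def Facts.atomOf (hF : Facts N) (b : Pnt N false) : Pnt N true :=
  ⟨Classical.choose (hF.atom_exact b.2), (Classical.choose_spec (hF.atom_exact b.2)).1⟩

lemma Facts.atomOf_spec (hF : Facts N) (b : Pnt N false) :
    oM N (hF.atomOf b).1 b.1 = b.1 := (Classical.choose_spec (hF.atom_exact b.2)).2

/-- Names of the pieces: points, remainder, remainder of a kind, component of a kind at a slot. -/
inductive Pc (N : Struc sg) : Type
  | pt (σ : Bool) : Pc N
  | rem : Pc N
  | krem (m : ℕ) : Pc N
  | slot (m : ℕ) (b : Pnt N false) : Pc N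

/-- Membership in a piece. -/
def InPc (x : N.carrier) : Pc N → Prop
  | .pt σ => oP N σ x = x
  | .rem => (∀ σ, oP N σ x = 0) ∧ ∀ m, oK N m x = 0
  | .krem m => oK N m x = x ∧ ∀ b, od N false b = 0 → oM N b x = 0
  | .slot m b => oK N m x = x ∧ oM N b.1 x = x

lemma Facts.P_zero (hF : Facts N) (σ : Bool) : oP N σ 0 = 0 := by
  have h := hF.P_smul σ 0 0
  simpa using h

lemma Facts.K_zero (hF : Facts N) (m : ℕ) : oK N m 0 = 0 := by
  have h := hF.K_smul m 0 0
  simpa using h

lemma Facts.M_zero (hF : Facts N) (y : N.carrier) : oM N y 0 = 0 := by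
  have h := hF.M_smul_right 0 y 0
  simpa using h

/-- The pieces as submodules. -/
def Facts.pc (hF : Facts N) (c : Pc N) : Submodule ℝ N.carrier where
  carrier := {x | InPc x c}
  zero_mem' := by
    cases c with
    | pt σ => exact hF.P_zero σ
    | rem => exact ⟨fun σ => hF.P_zero σ, fun m => hF.K_zero m⟩
    | krem m => exact ⟨hF.K_zero m, fun b _ => hF.M_zero b⟩
    | slot m b => exact ⟨hF.K_zero m, hF.M_zero b.1⟩
  add_mem' := fun {x y} hx hy => by
    cases c with
    | pt σ =>
      change oP N σ (x + y) = x + y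
      rw [hF.P_add, show oP N σ x = x from hx, show oP N σ y = y from hy]
    | rem =>
      exact ⟨fun σ => by rw [hF.P_add, hx.1, hy.1, add_zero],
        fun m => by rw [hF.K_add, hx.2, hy.2, add_zero]⟩
    | krem m =>
      exact ⟨by rw [hF.K_add, hx.1, hy.1],
        fun b hb => by rw [hF.M_add_right, hx.2 b hb, hy.2 b hb, add_zero]⟩
    | slot m b =>
      exact ⟨by rw [hF.K_add, hx.1, hy.1], by rw [hF.M_add_right, hx.2, hy.2]⟩
  smul_mem' := fun t x hx => by
    cases c with
    | pt σ =>
      change oP N σ (t • x) = t • x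
      rw [hF.P_smul, show oP N σ x = x from hx]
    | rem =>
      exact ⟨fun σ => by rw [hF.P_smul, hx.1, smul_zero],
        fun m => by rw [hF.K_smul, hx.2, smul_zero]⟩
    | krem m =>
      exact ⟨by rw [hF.K_smul, hx.1],
        fun b hb => by rw [hF.M_smul_right, hx.2 b hb, smul_zero]⟩
    | slot m b =>
      exact ⟨by rw [hF.K_smul, hx.1], by rw [hF.M_smul_right, hx.2]⟩

lemma Facts.mem_pc (hF : Facts N) (c : Pc N) (x : N.carrier) : x ∈ hF.pc c ↔ InPc x c := Iff.rfl

end

end Pool.Agent.Lib.MP_4e4c79_lc.Cc
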