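import Mathlib
import Pool.Agent.Lib.MP_4e4c79_lc.Cc.Pieces

/-!
# Module CL2.  The norm on the part of kind `m`.

PROOF of `kind_norm`.  Put `z = r + ∑_{b ∈ S} x b`, `f b = oB (x b) (x b)` on `S`, `0` off `S`, `p = pp m`.
-/

namespace Pool.Agent.Lib.MP_4e4c79_lc.Cc

open Pool.Agent.Lib.MP_4e4c79_lc Complete Finset TopologicalSpace
attribute [local instance] Classical.propDecidable
set_option linter.unusedSectionVars false

noncomputable section

variable {N : Struc sg}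

namespace Facts

/-- A combination of points. -/
def cl2_comb {σ : Bool} (T : Finset (Pnt N σ)) (c : Pnt N σ → ℝ) : N.carrier :=
  ∑ a ∈ T, c a • a.1

lemma cl2_P_comb (hF : Facts N) {σ : Bool} (T : Finset (Pnt N σ)) (c : Pnt N σ → ℝ) :
    oP N σ (cl2_comb T c) = cl2_comb T c := by
  unfold cl2_comb
  rw [hF.cl1_P_sum]
  exact Finset.sum_congr rfl fun a _ => by rw [hF.P_smul, hF.d_P σ a.1 a.2]

lemma cl2_P_pt (hF : Facts N) {σ τ : Bool} (h : σ ≠ τ) (a : Pnt N σ) : oP N τ a.1 = 0 := by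
  have h1 : σ = !τ := by cases σ <;> cases τ <;> simp_all
  subst h1
  have h2 := hF.P_P' τ a.1
  rwa [hF.d_P _ a.1 a.2] at h2

lemma cl2_P_comb' (hF : Facts N) {σ τ : Bool} (h : σ ≠ τ) (T : Finset (Pnt N σ))
    (c : Pnt N σ → ℝ) : oP N τ (cl2_comb T c) = 0 := by
  unfold cl2_comb
  rw [hF.cl1_P_sum]
  refine Finset.sum_eq_zero fun a _ => ?_
  rw [hF.P_smul, hF.cl2_P_pt h, smul_zero]

lemma cl2_B_comb (hF : Facts N) {σ : Bool} (T : Finset (Pnt N σ)) (c : Pnt N σ → ℝ)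
    (a : Pnt N σ) : oB N a.1 (cl2_comb T c) = if a ∈ T then c a else 0 := by
  unfold cl2_comb
  rw [hF.cl1_B_sum_right]
  have h1 : ∀ e ∈ T, oB N a.1 (c e • e.1) = if a = e then c e else 0 := by
    intro e _
    rw [hF.cl1_B_smul_right]
    by_cases hed : a = e
    · subst hed; rw [if_pos rfl, hF.B_d a.2, mul_one]
    · rw [if_neg hed, hF.d_orth a.2 e.2 (fun h => hed (Subtype.ext h)), mul_zero]
  rw [Finset.sum_congr rfl h1, Finset.sum_ite_eq]

lemma cl2_B_comb' (hF : Facts N) {σ τ : Bool} (h : σ ≠ τ) (T : Finset (Pnt N σ))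
    (c : Pnt N σ → ℝ) (a : Pnt N τ) : oB N a.1 (cl2_comb T c) = 0 := by
  have h1 := hF.B_P_symm τ a.1 (cl2_comb T c)
  rw [hF.d_P τ a.1 a.2, hF.cl2_P_comb' h, hF.cl1_B_zero_right] at h1
  exact h1

lemma cl2_M_comb (hF : Facts N) {σ : Bool} (T : Finset (Pnt N σ)) (c d : Pnt N σ → ℝ) :
    oM N (cl2_comb T c) (cl2_comb T d) = cl2_comb T (fun a => c a * d a) := by
  unfold cl2_comb
  rw [hF.cl1_M_sum_left]
  refine Finset.sum_congr rfl fun a ha => ?_
  rw [hF.M_smul_left, hF.cl1_M_sum_right, Finset.sum_eq_single a]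
  · rw [hF.M_smul_right, hF.M_d_self a.2, smul_smul]
  · intro e _ hne
    rw [hF.M_smul_right, hF.M_d_d a.2 e.2 (fun h => hne (Subtype.ext h).symm), smul_zero]
  · intro h; exact absurd ha h

lemma cl2_pw_comb (hF : Facts N) {σ : Bool} (T : Finset (Pnt N σ)) (c : Pnt N σ → ℝ) {p : ℕ}
    (hp : p ≠ 0) : pw N p (cl2_comb T c) = cl2_comb T (fun a => c a ^ p) := by
  have key : ∀ n : ℕ, (oM N (cl2_comb T c))^[n] (cl2_comb T c) =
      cl2_comb T (fun a => c a ^ (n + 1)) := by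
    intro n
    induction n with
    | zero => simp
    | succ n ih =>
      rw [Function.iterate_succ_apply', ih, hF.cl2_M_comb]
      congr 1
      funext a
      ring
  obtain ⟨n, rfl⟩ := Nat.exists_eq_succ_of_ne_zero hp
  unfold pw
  exact key n

lemma cl2_norm_comb (hF : Facts N) {σ : Bool} (T : Finset (Pnt N σ)) (c : Pnt N σ → ℝ) :
    ‖cl2_comb T c‖ ^ 2 = ∑ a ∈ T, c a ^ 2 := by
  have h1 := hF.B_P σ (cl2_comb T c)
  rw [hF.cl2_P_comb] at h1
  rw [← h1]
  conv_lhs => rw [cl2_comb, hF.cl1_B_sum_left]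
  refine Finset.sum_congr rfl fun a ha => ?_
  rw [hF.B_smul]
  have h2 := hF.cl2_B_comb T c a
  rw [if_pos ha] at h2
  change c a * oB N a.1 (cl2_comb T c) = _
  rw [h2]; ring

end Facts

theorem Facts.kind_norm (hF : Facts N) (m : ℕ) (S : Finset (Pnt N false))
    (x : Pnt N false → N.carrier) (hx : ∀ b ∈ S, InPc (x b) (.slot m b)) (r : N.carrier)
    (hr : InPc r (.krem m)) :
    ‖r + ∑ b ∈ S, x b‖ ^ 2 = oB N r r + ∑ b ∈ S, oB N (x b) (x b) +
      DD m ^ 2 * NF hF.atomOf (pp m) (fun b => if b ∈ S then oB N (x b) (x b) else 0) := by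
  have hp : pp m ≠ 0 := NeZero.ne _
  set z := r + ∑ b ∈ S, x b with hz
  set f : Pnt N false → ℝ := fun b => if b ∈ S then oB N (x b) (x b) else 0 with hf
  have hf0 : ∀ b, 0 ≤ f b := by
    intro b
    simp only [hf]
    split_ifs
    · exact hF.B_nonneg _
    · exact le_rfl
  have hfS : ∀ b ∈ S, f b = oB N (x b) (x b) := fun b hb => by simp only [hf]; rw [if_pos hb]
  have hfn : ∀ b ∉ S, f b = 0 := fun b hb => by simp only [hf]; rw [if_neg hb]
  have hfs : Summable f := summable_of_ne_finset_zero (s := S) hfn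
  have hKz : oK N m z = z := by
    rw [hz, hF.K_add, hr.1, hF.cl1_K_sum]
    congr 1
    exact Finset.sum_congr rfl fun b hb => (hx b hb).1
  -- orthogonality
  have horth : ∀ b ∈ S, ∀ b' ∈ S, b ≠ b' → oB N (x b) (x b') = 0 := by
    intro b hb b' hb' hne
    rw [← (hx b hb).2, hF.B_M, ← (hx b' hb').2,
      hF.M_d_orth b.2 b'.2 (fun h => hne (Subtype.ext h)), hF.cl1_B_zero_right]
  have horth' : ∀ b ∈ S, oB N r (x b) = 0 := by
    intro b hb
    rw [← (hx b hb).2, ← hF.B_M, hr.2 b.1 b.2, hF.cl1_B_zero_left]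
  have hcomb : ∀ c : Pnt N false → ℝ, oB N (∑ b ∈ S, c b • x b) (∑ b ∈ S, c b • x b) =
      ∑ b ∈ S, c b ^ 2 * f b := by
    intro c
    rw [hF.cl1_B_sum_left]
    refine Finset.sum_congr rfl fun b hb => ?_
    rw [hF.cl1_B_sum_right, Finset.sum_eq_single b]
    · rw [hF.B_smul, hF.cl1_B_smul_right, hfS b hb]; ring
    · intro b' hb' hne
      rw [hF.B_smul, hF.cl1_B_smul_right, horth b hb b' hb' (Ne.symm hne)]; ring
    · intro h; exact absurd hb h
  have hBz : oB N z z = oB N r r + ∑ b ∈ S, oB N (x b) (x b) := by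
    have h1 := hcomb (fun _ => 1)
    simp only [one_smul, one_pow, one_mul] at h1
    have h2 : oB N r (∑ b ∈ S, x b) = 0 := by
      rw [hF.cl1_B_sum_right]
      exact Finset.sum_eq_zero fun b hb => horth' b hb
    rw [hz, hF.B_add, hF.cl1_B_add_right, hF.cl1_B_add_right, hF.B_symm (∑ b ∈ S, x b) r, h2, h1]
    rw [Finset.sum_congr rfl hfS]
    ring
  -- the action
  have hact : ∀ w, act N w z =
      ∑ b ∈ S, (oB N (hF.atomOf b).1 w * oB N b.1 w) • x b := by
    intro w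
    have h1 : act N w r = 0 := by
      unfold act
      rw [hF.M_rem hr.2, hF.cl1_M_zero_right]
    have h2 : act N w z = act N w r + ∑ b ∈ S, act N w (x b) := by
      unfold act
      rw [hz, hF.M_add_right, hF.M_add_right, hF.cl1_M_sum_right, hF.cl1_M_sum_right]
    rw [h2, h1, zero_add]
    exact Finset.sum_congr rfl fun b hb =>
      hF.act_slot (hF.atomOf b).2 b.2 (hF.atomOf_spec b) (hx b hb).2 w
  have hBact : ∀ w, oB N (act N w z) (act N w z) =
      ∑ b ∈ S, (oB N (hF.atomOf b).1 w * oB N b.1 w) ^ 2 * f b := by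
    intro w
    rw [hact, hcomb]
  have hBK : oB N z z ≤ ‖z‖ ^ 2 := by
    have := hF.B_le_K m z
    rwa [hKz] at this
  have htsum : ∀ g : Pnt N false → ℝ, ∑' b, g b * f b = ∑ b ∈ S, g b * f b := by
    intro g
    refine tsum_eq_sum fun b hb => ?_
    rw [hfn b hb, mul_zero]
  have hNF0 : 0 ≤ NF hF.atomOf (pp m) f := NF_nonneg hp hf0 hfs
  -- lower bound
  have hge : DD m ^ 2 * NF hF.atomOf (pp m) f ≤ ‖z‖ ^ 2 - oB N z z := by
    have hDD : 0 < DD m ^ 2 := by have := DD_pos m; positivity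
    have h0 : NF hF.atomOf (pp m) f ≤ (‖z‖ ^ 2 - oB N z z) / DD m ^ 2 := by
      refine NF_le hp fun w' hw' => ?_
      obtain ⟨Y, Z, hY, hZ, hYZ⟩ := hw'
      rw [le_div_iff₀ hDD, mul_comm]
      set SA := S.image hF.atomOf with hSA
      set wA := cl2_comb SA (fun a => √(Y a)) with hwA
      set wB := cl2_comb S (fun b => √(Z b)) with hwB
      have htf : true ≠ false := by decide
      have hft : false ≠ true := by decide
      have hP1 : oP N true (wA + wB) = wA := by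
        rw [hF.P_add, hwA, hwB, hF.cl2_P_comb, hF.cl2_P_comb' hft, add_zero]
      have hP2 : oP N false (wA + wB) = wB := by
        rw [hF.P_add, hwA, hwB, hF.cl2_P_comb, hF.cl2_P_comb' htf, zero_add]
      have hpow : ∀ {ι : Type} (T : Finset ι) (Y : ι → ℝ), Adm (pp m) Y →
          ∑ a ∈ T, (√(Y a) ^ pp m) ^ 2 ≤ 1 := by
        intro ι T Y hY
        refine le_trans (le_of_eq ?_) (hY.2 T)
        refine Finset.sum_congr rfl fun a _ => ?_
        rw [← pow_mul, mul_comm, pow_mul, Real.sq_sqrt (hY.1 a)]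
      have hn1 : ‖pw N (pp m) wA‖ ^ 2 ≤ 1 := by
        rw [hwA, hF.cl2_pw_comb _ _ hp, hF.cl2_norm_comb]
        exact hpow _ _ hY
      have hn2 : ‖pw N (pp m) wB‖ ^ 2 ≤ 1 := by
        rw [hwB, hF.cl2_pw_comb _ _ hp, hF.cl2_norm_comb]
        exact hpow _ _ hZ
      have hup := hF.upper m (wA + wB) z
      rw [hKz, hP1, hP2, hBact] at hup
      have hsum : ∑ b ∈ S, (oB N (hF.atomOf b).1 (wA + wB) * oB N b.1 (wA + wB)) ^ 2 * f b =
          ∑' b, w' b * f b := by
        rw [htsum]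
        refine Finset.sum_congr rfl fun b hb => ?_
        have e1 : oB N (hF.atomOf b).1 (wA + wB) = √(Y (hF.atomOf b)) := by
          rw [hF.cl1_B_add_right, hwA, hwB, hF.cl2_B_comb, hF.cl2_B_comb' hft,
            if_pos (Finset.mem_image_of_mem _ hb), add_zero]
        have e2 : oB N b.1 (wA + wB) = √(Z b) := by
          rw [hF.cl1_B_add_right, hwA, hwB, hF.cl2_B_comb, hF.cl2_B_comb' htf,
            if_pos hb, zero_add]
        rw [e1, e2, mul_pow, Real.sq_sqrt (hY.1 _), Real.sq_sqrt (hZ.1 _), hYZ]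
      rw [hsum] at hup
      have hw'0 : 0 ≤ ∑' b, w' b * f b := tsum_nonneg fun b => by
        rw [hYZ]
        exact mul_nonneg (mul_nonneg (hY.1 _) (hZ.1 _)) (hf0 b)
      have h1 : (‖z‖ ^ 2 - oB N z z) ^ pp m * (‖pw N (pp m) wA‖ ^ 2 * ‖pw N (pp m) wB‖ ^ 2) ≤
          (‖z‖ ^ 2 - oB N z z) ^ pp m := by
        refine mul_le_of_le_one_right (pow_nonneg (by linarith) _) ?_
        exact mul_le_one₀ hn1 (by positivity) hn2
      have h2 := hup.trans h1
      exact (pow_le_pow_iff_left₀ (by positivity) (by linarith) hp).1 h2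
    rw [le_div_iff₀ hDD] at h0
    linarith
  -- upper bound
  have hle : ∀ ε : ℝ, 0 < ε → ‖z‖ ^ 2 ≤
      oB N z z + DD m ^ 2 * ((1 + ε) ^ 2 * NF hF.atomOf (pp m) f) + ε := by
    intro ε hε
    obtain ⟨w, hw1, hw2, hw3⟩ := hF.opt m z ε hε
    rw [hKz, hBact] at hw3
    have hadm : ∀ (σ : Bool), ‖pw N (pp m) (oP N σ w)‖ ^ 2 ≤ 1 + ε →
        Adm (pp m) (fun a : Pnt N σ => oB N a.1 w ^ 2 / (1 + ε)) := by
      intro σ hσ
      refine ⟨fun a => by positivity, fun s => ?_⟩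
      have h1 : ∑ a ∈ s, (oB N a.1 w ^ 2 / (1 + ε)) ^ pp m =
          (∑ a ∈ s, oB N (pw N (pp m) (oP N σ w)) a.1 ^ 2) / (1 + ε) ^ pp m := by
        rw [Finset.sum_div]
        refine Finset.sum_congr rfl fun a _ => ?_
        rw [hF.B_pw a.2 w hp, hF.B_symm w a.1, div_pow, ← pow_mul, ← pow_mul, mul_comm 2]
      have h2 : ∑ a ∈ s, oB N (pw N (pp m) (oP N σ w)) a.1 ^ 2 ≤ 1 + ε := by
        have h3 := hF.bessel σ (s.map (Function.Embedding.subtype _)) (by
          intro d hd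
          rw [Finset.mem_map] at hd
          obtain ⟨a, _, rfl⟩ := hd
          exact a.2) (pw N (pp m) (oP N σ w))
        rw [Finset.sum_map] at h3
        refine le_trans h3 ?_
        refine le_trans (le_trans (le_abs_self _) (hF.B_le _ _)) ?_
        rw [← sq]; exact hσ
      rw [h1, div_le_one (by positivity)]
      refine h2.trans ?_
      calc 1 + ε = (1 + ε) ^ 1 := (pow_one _).symm
        _ ≤ (1 + ε) ^ pp m := pow_le_pow_right₀ (by linarith) (pp_pos m)
    have hwt : (fun b : Pnt N false => oB N (hF.atomOf b).1 w ^ 2 / (1 + ε) *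
        (oB N b.1 w ^ 2 / (1 + ε))) ∈ wts hF.atomOf (pp m) :=
      ⟨_, _, hadm true hw1, hadm false hw2, fun b => rfl⟩
    have h1 := le_NF hp hwt hf0 hfs
    rw [htsum] at h1
    have h2 : ∑ b ∈ S, (oB N (hF.atomOf b).1 w * oB N b.1 w) ^ 2 * f b =
        (1 + ε) ^ 2 * ∑ b ∈ S, oB N (hF.atomOf b).1 w ^ 2 / (1 + ε) *
        (oB N b.1 w ^ 2 / (1 + ε)) * f b := by
      rw [Finset.mul_sum]
      refine Finset.sum_congr rfl fun b _ => ?_
      field_simp
    rw [h2] at hw3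
    have h3 : (1 + ε) ^ 2 * ∑ b ∈ S, oB N (hF.atomOf b).1 w ^ 2 / (1 + ε) *
        (oB N b.1 w ^ 2 / (1 + ε)) * f b ≤ (1 + ε) ^ 2 * NF hF.atomOf (pp m) f :=
      mul_le_mul_of_nonneg_left h1 (by positivity)
    have h4 := mul_le_mul_of_nonneg_left h3 (sq_nonneg (DD m))
    linarith
  have hle' : ‖z‖ ^ 2 ≤ oB N z z + DD m ^ 2 * NF hF.atomOf (pp m) f := by
    set C := DD m ^ 2 * NF hF.atomOf (pp m) f with hC
    have hC0 : 0 ≤ C := by positivity
    by_contra hcon
    push Not at hcon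
    set δ := ‖z‖ ^ 2 - oB N z z - C with hδ
    have hδ0 : 0 < δ := by rw [hδ]; linarith
    set ε := min 1 (δ / (2 * (3 * C + 1))) with hε
    have hε0 : 0 < ε := lt_min one_pos (by positivity)
    have hε1 : ε ≤ 1 := min_le_left _ _
    have hε2 : ε * (3 * C + 1) ≤ δ / 2 := by
      have h1 : ε ≤ δ / (2 * (3 * C + 1)) := min_le_right _ _
      have h2 := mul_le_mul_of_nonneg_right h1 (by positivity : (0 : ℝ) ≤ 3 * C + 1)
      have h3 : δ / (2 * (3 * C + 1)) * (3 * C + 1) = δ / 2 := by field_simp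
      linarith
    have h1 := hle ε hε0
    have h2 : DD m ^ 2 * ((1 + ε) ^ 2 * NF hF.atomOf (pp m) f) = (1 + ε) ^ 2 * C := by
      rw [hC]; ring
    rw [h2] at h1
    nlinarith [mul_nonneg hC0 (mul_nonneg hε0.le (sub_nonneg.2 hε1))]
  rw [← hBz]
  linarith

end

end Pool.Agent.Lib.MP_4e4c79_lc.Cc
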