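import Mathlib
import Pool.Agent.Lib.MP_4e4c79_lc.Cc.Pieces

/-!
# Module CL3.  The pieces span a dense subspace.

PROOF.  Let `V` be the topological closure of `⨆ c, hF.pc c`.
(a) `oP σ x ∈ pc (pt σ)`.
(b) `w := oK m x ∈ V`: `∑_{b ∈ T} oB (oM b w) (oM b w) ≤ oB w w` for finite sets `T` of slots (expand
`0 ≤ oB (w - ∑ oM b w) (w - ∑ oM b w)`, `oB (oM b w) (oM b' w) = 0` for `b ≠ b'`, `oB (oM b w) w = oB (oM b w) (oM b w)`), so
`b ↦ oB (oM b w) (oM b w)` is summable over the slots, and for finite `T`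
`‖∑_{b ∈ T} oM b w‖² ≤ (1 + DD m ^ 2) ∑_{b ∈ T} oB (oM b w) (oM b w)` (`K_le`), hence `b ↦ oM b w` is summable in
`N` (`summable_iff_vanishing_norm`).  Let `w₁ = ∑' b, oM b w ∈ V`; `oK m`, `oM b'` are continuous (bounded linear:
`M_le`; `‖oK m y‖ ≤ ‖y‖` from `split`), so `r = w - w₁` satisfies `oK m r = r`, `oM b r = 0` for all slots `b`:
`r ∈ pc (krem m)`.
(c) `m ↦ oK m x` is summable: `‖∑_{m ∈ T} oK m x‖² = ∑_{m ∈ T} ‖oK m x‖²` (apply `split` to the sum) and
`∑ ‖oK m x‖²` converges by `split`; the difference `x - oP true x - oP false x - ∑' oK m x` lies in `pc rem`.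
-/

namespace Pool.Agent.Lib.MP_4e4c79_lc.Cc

open Pool.Agent.Lib.MP_4e4c79_lc Complete Finset TopologicalSpace
attribute [local instance] Classical.propDecidable
set_option linter.unusedSectionVars false

noncomputable section

variable {N : Struc sg}

/-- The form as a bilinear map. -/
def CL3_Bl (hF : Facts N) : N.carrier →ₗ[ℝ] N.carrier →ₗ[ℝ] ℝ :=
  LinearMap.mk₂ ℝ (fun x y => oB N x y)
    (fun x y z => hF.B_add x y z)
    (fun t x y => by rw [hF.B_smul]; rfl)
    (fun x y z => by rw [hF.B_symm x (y + z), hF.B_add, hF.B_symm y x, hF.B_symm z x])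
    (fun t x y => by rw [hF.B_symm x (t • y), hF.B_smul, hF.B_symm y x]; rfl)

theorem CL3_Bl_apply (hF : Facts N) (x y : N.carrier) : CL3_Bl hF x y = oB N x y := rfl

theorem CL3_K_norm (hF : Facts N) (m : ℕ) (y : N.carrier) : ‖oK N m y‖ ≤ ‖y‖ := by
  have h := hF.split (m + 1) y
  have h1 : ‖oK N m y‖ ^ 2 ≤ ∑ i ∈ range (m + 1), ‖oK N i y‖ ^ 2 :=
    Finset.single_le_sum (f := fun i => ‖oK N i y‖ ^ 2) (fun i _ => sq_nonneg _)
      (Finset.self_mem_range_succ m)
  have h2 : ‖oK N m y‖ ^ 2 ≤ ‖y‖ ^ 2 := by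
    nlinarith [sq_nonneg ‖oP N true y‖, sq_nonneg ‖oP N false y‖, sq_nonneg ‖rest N (m + 1) y‖]
  exact le_of_sq_le_sq h2 (norm_nonneg _)

theorem CL3_P_norm (hF : Facts N) (σ : Bool) (y : N.carrier) : ‖oP N σ y‖ ≤ ‖y‖ := by
  have h := hF.split 0 y
  simp only [Finset.range_zero, Finset.sum_empty, add_zero] at h
  have h2 : ‖oP N σ y‖ ^ 2 ≤ ‖y‖ ^ 2 := by
    cases σ <;>
    nlinarith [sq_nonneg ‖oP N true y‖, sq_nonneg ‖oP N false y‖, sq_nonneg ‖rest N 0 y‖]
  exact le_of_sq_le_sq h2 (norm_nonneg _)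

/-- `oK m` as a continuous linear map. -/
def CL3_K (hF : Facts N) (m : ℕ) : N.carrier →L[ℝ] N.carrier :=
  LinearMap.mkContinuous
    { toFun := oK N m
      map_add' := hF.K_add m
      map_smul' := fun t x => hF.K_smul m t x } 1
    (fun x => by rw [one_mul]; exact CL3_K_norm hF m x)

/-- `oP σ` as a continuous linear map. -/
def CL3_P (hF : Facts N) (σ : Bool) : N.carrier →L[ℝ] N.carrier :=
  LinearMap.mkContinuous
    { toFun := oP N σ
      map_add' := hF.P_add σ
      map_smul' := fun t x => hF.P_smul σ t x } 1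
    (fun x => by rw [one_mul]; exact CL3_P_norm hF σ x)

/-- `oM y` as a continuous linear map. -/
def CL3_M (hF : Facts N) (y : N.carrier) : N.carrier →L[ℝ] N.carrier :=
  LinearMap.mkContinuous
    { toFun := oM N y
      map_add' := fun x z => hF.M_add_right y x z
      map_smul' := fun t x => hF.M_smul_right t y x } (2 * ‖y‖)
    (fun x => by
      have := hF.M_le y x
      calc _ ≤ 2 * (‖y‖ * ‖x‖) := this
        _ = 2 * ‖y‖ * ‖x‖ := by ring)

theorem CL3_K_apply (hF : Facts N) (m : ℕ) (x : N.carrier) : CL3_K hF m x = oK N m x := rfl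

theorem CL3_P_apply (hF : Facts N) (σ : Bool) (x : N.carrier) : CL3_P hF σ x = oP N σ x := rfl

theorem CL3_M_apply (hF : Facts N) (y x : N.carrier) : CL3_M hF y x = oM N y x := rfl

/-- The components of an element of kind `m` at the slots are summable. -/
theorem CL3_summable_M (hF : Facts N) (m : ℕ) (w : N.carrier) (hw : oK N m w = w) :
    Summable fun b : Pnt N false => oM N b.1 w := by
  set g : Pnt N false → N.carrier := fun b => oM N b.1 w with hg
  set q : Pnt N false → ℝ := fun b => oB N (g b) (g b) with hq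
  have hKg : ∀ b, oK N m (g b) = g b := by
    intro b
    simp only [hg]
    rw [hF.K_M, hw]
  have hgg : ∀ b, oM N b.1 (g b) = g b := fun b => hF.M_d_idem b.2 w
  have horth : ∀ b b', b ≠ b' → oB N (g b) (g b') = 0 := by
    intro b b' hne
    simp only [hg]
    rw [hF.B_M, hF.M_d_orth b.2 b'.2 (fun h => hne (Subtype.ext h))]
    have := (CL3_Bl hF w).map_zero
    rwa [CL3_Bl_apply] at this
  have hwg : ∀ b, oB N w (g b) = q b := by
    intro b
    simp only [hq]
    conv_rhs => rw [hg]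
    simp only
    rw [hF.B_M]
    congr 1
    exact (hgg b).symm
  have hss : ∀ T : Finset (Pnt N false), oB N (∑ b ∈ T, g b) (∑ b ∈ T, g b) = ∑ b ∈ T, q b := by
    intro T
    rw [← CL3_Bl_apply hF, map_sum (CL3_Bl hF), LinearMap.sum_apply]
    refine Finset.sum_congr rfl fun b hb => ?_
    rw [map_sum]
    rw [Finset.sum_eq_single b]
    · rfl
    · intro b' _ hne
      exact horth b b' (Ne.symm hne)
    · intro h
      exact absurd hb h
  have hws : ∀ T : Finset (Pnt N false), oB N w (∑ b ∈ T, g b) = ∑ b ∈ T, q b := by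
    intro T
    rw [← CL3_Bl_apply hF, map_sum]
    exact Finset.sum_congr rfl fun b _ => hwg b
  have hbes : ∀ T : Finset (Pnt N false), ∑ b ∈ T, q b ≤ oB N w w := by
    intro T
    have h0 := hF.B_nonneg (w - ∑ b ∈ T, g b)
    rw [← CL3_Bl_apply hF, map_sub (CL3_Bl hF), LinearMap.sub_apply, map_sub, map_sub,
      CL3_Bl_apply, CL3_Bl_apply, CL3_Bl_apply, CL3_Bl_apply, hss, hws, hF.B_symm (∑ b ∈ T, g b) w, hws] at h0
    linarith
  have hq0 : ∀ b, 0 ≤ q b := fun b => hF.B_nonneg _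
  have hqs : Summable q := summable_of_sum_le hq0 hbes
  have hnorm : ∀ T : Finset (Pnt N false),
      ‖∑ b ∈ T, g b‖ ^ 2 ≤ (1 + DD m ^ 2) * ∑ b ∈ T, q b := by
    intro T
    have hK : oK N m (∑ b ∈ T, g b) = ∑ b ∈ T, g b := by
      rw [← CL3_K_apply hF, map_sum]
      exact Finset.sum_congr rfl fun b _ => hKg b
    have := hF.K_le m (∑ b ∈ T, g b)
    rwa [hK, hss] at this
  rw [summable_iff_vanishing_norm]
  intro ε hε
  have hDD : 0 < 1 + DD m ^ 2 := by positivity
  obtain ⟨s, hs⟩ := (summable_iff_vanishing_norm.1 hqs) (ε ^ 2 / (1 + DD m ^ 2)) (by positivity)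
  refine ⟨s, fun t ht => ?_⟩
  have h1 := hs t ht
  rw [Real.norm_eq_abs, abs_of_nonneg (Finset.sum_nonneg fun b _ => hq0 b),
    lt_div_iff₀ hDD] at h1
  have h2 := hnorm t
  have h3 : ‖∑ b ∈ t, g b‖ ^ 2 < ε ^ 2 := by
    calc _ ≤ (1 + DD m ^ 2) * ∑ b ∈ t, q b := h2
      _ = (∑ b ∈ t, q b) * (1 + DD m ^ 2) := mul_comm _ _
      _ < ε ^ 2 := h1
  exact lt_of_pow_lt_pow_left₀ 2 hε.le h3

theorem CL3_sum_mem {ι : Type*} {V : Submodule ℝ N.carrier} (hV : IsClosed (V : Set N.carrier))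
    {f : ι → N.carrier} (hf : Summable f) (h : ∀ i, f i ∈ V) : ∑' i, f i ∈ V := by
  have h1 := hf.hasSum
  exact hV.mem_of_tendsto h1 (Filter.Eventually.of_forall fun s => V.sum_mem fun i _ => h i)

theorem CL3_kind_mem (hF : Facts N) (V : Submodule ℝ N.carrier)
    (hV : IsClosed (V : Set N.carrier)) (hle : ∀ c, hF.pc c ≤ V) (m : ℕ) (x : N.carrier) :
    oK N m x ∈ V := by
  set w := oK N m x with hwdef
  have hw : oK N m w = w := hF.K_K m x
  have hs := CL3_summable_M hF m w hw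
  have hmem : ∀ b : Pnt N false, oM N b.1 w ∈ V := by
    intro b
    refine hle (.slot m b) ?_
    refine ⟨?_, hF.M_d_idem b.2 w⟩
    rw [hF.K_M, hw]
  have h1 : ∑' b : Pnt N false, oM N b.1 w ∈ V := CL3_sum_mem hV hs hmem
  have h2 : w - ∑' b : Pnt N false, oM N b.1 w ∈ V := by
    refine hle (.krem m) ⟨?_, ?_⟩
    · rw [← CL3_K_apply hF, map_sub, CL3_K_apply, hw, (CL3_K hF m).map_tsum hs]
      congr 1
      refine tsum_congr fun b => ?_
      rw [CL3_K_apply, hF.K_M, hw]
    · intro b hb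
      have b₀ : ∃ b₀ : Pnt N false, b₀.1 = b := ⟨⟨b, hb⟩, rfl⟩
      obtain ⟨b₀, hb₀⟩ := b₀
      have e : ∑' z : Pnt N false, CL3_M hF b (oM N z.1 w) = CL3_M hF b (oM N b₀.1 w) := by
        refine tsum_eq_single b₀ ?_
        intro b' hne
        rw [CL3_M_apply, hF.M_d_orth hb b'.2]
        intro h
        exact hne (Subtype.ext (by rw [hb₀]; exact h.symm))
      rw [← CL3_M_apply hF, map_sub, CL3_M_apply, (CL3_M hF b).map_tsum hs, e, CL3_M_apply, hb₀,
        hF.M_d_idem hb w, sub_self]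
  have h3 := V.add_mem h2 h1
  rwa [sub_add_cancel] at h3

theorem CL3_summable_K (hF : Facts N) (x : N.carrier) : Summable fun m => oK N m x := by
  have hbound : ∀ T : Finset ℕ, ∑ m ∈ T, ‖oK N m x‖ ^ 2 ≤ ‖x‖ ^ 2 := by
    intro T
    obtain ⟨n, hn⟩ := T.exists_nat_subset_range
    have h := hF.split n x
    have h1 : ∑ m ∈ T, ‖oK N m x‖ ^ 2 ≤ ∑ m ∈ range n, ‖oK N m x‖ ^ 2 :=
      Finset.sum_le_sum_of_subset_of_nonneg hn fun _ _ _ => sq_nonneg _
    nlinarith [sq_nonneg ‖oP N true x‖, sq_nonneg ‖oP N false x‖, sq_nonneg ‖rest N n x‖]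
  have hsq : Summable fun m => ‖oK N m x‖ ^ 2 :=
    summable_of_sum_le (fun m => sq_nonneg _) hbound
  have hpyth : ∀ T : Finset ℕ, ‖∑ m ∈ T, oK N m x‖ ^ 2 = ∑ m ∈ T, ‖oK N m x‖ ^ 2 := by
    intro T
    obtain ⟨n, hn⟩ := T.exists_nat_subset_range
    have hP : ∀ σ, oP N σ (∑ m ∈ T, oK N m x) = 0 := by
      intro σ
      rw [← CL3_P_apply hF, map_sum]
      exact Finset.sum_eq_zero fun m _ => hF.P_K σ m x
    have hK : ∀ m, oK N m (∑ m ∈ T, oK N m x) = if m ∈ T then oK N m x else 0 := by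
      intro m
      rw [← CL3_K_apply hF, map_sum]
      have h1 : ∀ m' ∈ T, CL3_K hF m (oK N m' x) = if m' = m then oK N m x else 0 := by
        intro m' _
        by_cases h : m' = m
        · subst h
          rw [if_pos rfl]
          exact hF.K_K m' x
        · rw [if_neg h]
          exact hF.K_K' m m' x (Ne.symm h)
      rw [Finset.sum_congr rfl h1, Finset.sum_ite_eq' T m]
    have hsumK : ∑ m ∈ range n, oK N m (∑ m ∈ T, oK N m x) = ∑ m ∈ T, oK N m x := by
      rw [Finset.sum_congr rfl fun m _ => hK m, ← Finset.sum_filter]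
      congr 1
      ext m
      simp only [Finset.mem_filter]
      constructor
      · exact fun h => h.2
      · exact fun h => ⟨hn h, h⟩
    have hrest : rest N n (∑ m ∈ T, oK N m x) = 0 := by
      unfold rest
      rw [hP, hP, hsumK]
      simp
    rw [hF.split n (∑ m ∈ T, oK N m x), hP, hP, hrest]
    simp only [norm_zero, ne_eq, OfNat.ofNat_ne_zero, not_false_eq_true, zero_pow, zero_add,
      add_zero]
    have h2 : ∀ m ∈ range n, ‖oK N m (∑ m ∈ T, oK N m x)‖ ^ 2
        = if m ∈ T then ‖oK N m x‖ ^ 2 else 0 := by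
      intro m _
      rw [hK]
      split_ifs
      · rfl
      · simp
    rw [Finset.sum_congr rfl h2, ← Finset.sum_filter]
    congr 1
    ext m
    simp only [Finset.mem_filter]
    constructor
    · exact fun h => h.2
    · exact fun h => ⟨hn h, h⟩
  rw [summable_iff_vanishing_norm]
  intro ε hε
  obtain ⟨s, hs⟩ := (summable_iff_vanishing_norm.1 hsq) (ε ^ 2) (by positivity)
  refine ⟨s, fun t ht => ?_⟩
  have h1 := hs t ht
  rw [Real.norm_eq_abs, abs_of_nonneg (Finset.sum_nonneg fun b _ => sq_nonneg _), ← hpyth] at h1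
  exact lt_of_pow_lt_pow_left₀ 2 hε.le h1

theorem Facts.dense_pieces (hF : Facts N) :
    Dense ((⨆ c : Pc N, hF.pc c : Submodule ℝ N.carrier) : Set N.carrier) := by
  rw [Submodule.dense_iff_topologicalClosure_eq_top, eq_top_iff]
  intro x _
  set V := (⨆ c : Pc N, hF.pc c : Submodule ℝ N.carrier).topologicalClosure with hVdef
  have hV : IsClosed (V : Set N.carrier) := Submodule.isClosed_topologicalClosure _
  have hle : ∀ c, hF.pc c ≤ V := fun c =>
    (le_iSup (fun c => hF.pc c) c).trans (Submodule.le_topologicalClosure _)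
  have hP : ∀ σ, oP N σ x ∈ V := fun σ => hle (.pt σ) (hF.P_P σ x)
  have hK : ∀ m, oK N m x ∈ V := fun m => CL3_kind_mem hF V hV hle m x
  have hs := CL3_summable_K hF x
  have h1 : ∑' m, oK N m x ∈ V := CL3_sum_mem hV hs hK
  have h2 : x - oP N true x - oP N false x - ∑' m, oK N m x ∈ V := by
    refine hle .rem ⟨?_, ?_⟩
    · intro σ
      have h3 : oP N σ (∑' m, oK N m x) = 0 := by
        rw [← CL3_P_apply hF, (CL3_P hF σ).map_tsum hs]
        have : ∀ m, CL3_P hF σ (oK N m x) = 0 := fun m => hF.P_K σ m x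
        simp only [this, tsum_zero]
      rw [← CL3_P_apply hF, map_sub, map_sub, map_sub]
      simp only [CL3_P_apply]
      rw [h3]
      cases σ
      · rw [hF.P_P false x, show oP N false (oP N true x) = 0 from hF.P_P' false x]
        simp
      · rw [hF.P_P true x, show oP N true (oP N false x) = 0 from hF.P_P' true x]
        simp
    · intro m
      have h3 : oK N m (∑' m, oK N m x) = oK N m x := by
        rw [← CL3_K_apply hF, (CL3_K hF m).map_tsum hs, tsum_eq_single m]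
        · exact hF.K_K m x
        · intro m' hne
          exact hF.K_K' m m' x (Ne.symm hne)
      rw [← CL3_K_apply hF, map_sub, map_sub, map_sub]
      simp only [CL3_K_apply]
      rw [h3, hF.K_P, hF.K_P]
      simp
  have h3 := V.add_mem (V.add_mem (V.add_mem h2 h1) (hP false)) (hP true)
  have h4 : x - oP N true x - oP N false x - ∑' m, oK N m x + ∑' m, oK N m x + oP N false x
      + oP N true x = x := by abel
  rwa [h4] at h3

end

end Pool.Agent.Lib.MP_4e4c79_lc.Cc
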