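import Mathlib
import Pool.Agent.Lib.MP_4e4c79_lc.Cc.CL2

/-!
# Module CL4.  The pieces are closed and Hilbertian; bases of the pieces.

`par_basis`: a complete separable normed space satisfying the parallelogram law has a countable
orthonormal-like family with dense span: `InnerProductSpace.ofNorm`, `exists_hilbertBasis`, `countable_of_orthonormal`
(see `Incomplete.lean`/`Hilb.lean` for the use of `ofNorm`).
`isClosed_pc`: `oP σ`, `oK m`, `oM b` are continuous (`split`, `M_le`, linearity).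
`slot_norm`: `kind_norm` with `S = {b}`, `r = 0` and `NF (indicator of b times t) = t` (`Y, Z` indicators):
`‖x‖² = (1 + DD m ^ 2) oB x x`.  `krem_norm`: `kind_norm` with `S = ∅`.
`pc_par`: `pt σ`: `B_P`.  `rem`: `rest n x = x` for `x ∈ rem`, so `par` holds for all `n`, and `pp n → ∞` (`pp_ge`) gives
`‖x+y‖² + ‖x-y‖² ≤ 2(‖x‖² + ‖y‖²)` for all `x, y ∈ rem`; the converse inequality follows by applying this to
`x+y`, `x-y`.  `krem m`, `slot m b`: the norm squared is a multiple of `oB`.
`exists_pc_basis`: `par_basis` for the closed submodule `hF.pc c` (with its norm), multiplied by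
`√(1 + DD m ^ 2)` for slots.
-/

namespace Pool.Agent.Lib.MP_4e4c79_lc.Cc

open Pool.Agent.Lib.MP_4e4c79_lc Complete Finset TopologicalSpace
attribute [local instance] Classical.propDecidable
set_option linter.unusedSectionVars false

noncomputable section

theorem par_basis (E : Type) [NormedAddCommGroup E] [NormedSpace ℝ E] [CompleteSpace E]
    [SeparableSpace E] (h : ∀ x y : E, ‖x + y‖ ^ 2 + ‖x - y‖ ^ 2 = 2 * (‖x‖ ^ 2 + ‖y‖ ^ 2)) :
    ∃ (J : Type) (_ : Countable J) (u : J → E),
      (∀ (F : Finset J) (c : J → ℝ), ‖∑ j ∈ F, c j • u j‖ ^ 2 = ∑ j ∈ F, c j ^ 2) ∧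
      Dense (Submodule.span ℝ (Set.range u) : Set E) := by
  have heq : ∀ x y : E, ‖x + y‖ * ‖x + y‖ + ‖x - y‖ * ‖x - y‖ =
      2 * (‖x‖ * ‖x‖ + ‖y‖ * ‖y‖) := by
    intro x y
    have := h x y
    nlinarith
  let _ : InnerProductSpace ℝ E := InnerProductSpace.ofNorm ℝ heq
  obtain ⟨w, b, hb⟩ := exists_hilbertBasis ℝ E
  refine ⟨w, countable_of_orthonormal b b.orthonormal, b, ?_, ?_⟩
  · intro F c
    rw [← real_inner_self_eq_norm_sq, b.orthonormal.inner_sum c c F]
    refine Finset.sum_congr rfl fun j _ => ?_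
    simp [sq]
  · have h1 := b.dense_span
    rw [← Submodule.dense_iff_topologicalClosure_eq_top] at h1
    exact h1

variable {N : Struc sg}

lemma Facts.cl4_P_norm_le (hF : Facts N) (σ : Bool) (x : N.carrier) : ‖oP N σ x‖ ≤ ‖x‖ := by
  have h := hF.split 0 x
  rw [Finset.sum_range_zero, add_zero] at h
  have h1 := sq_nonneg ‖oP N true x‖
  have h2 := sq_nonneg ‖oP N false x‖
  have h3 := sq_nonneg ‖rest N 0 x‖
  have h4 : ‖oP N σ x‖ ^ 2 ≤ ‖x‖ ^ 2 := by
    cases σ <;> linarith
  exact (sq_le_sq₀ (norm_nonneg _) (norm_nonneg _)).1 h4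

lemma Facts.cl4_K_norm_le (hF : Facts N) (m : ℕ) (x : N.carrier) : ‖oK N m x‖ ≤ ‖x‖ := by
  have h := hF.split (m + 1) x
  rw [Finset.sum_range_succ] at h
  have h1 := sq_nonneg ‖oP N true x‖
  have h2 := sq_nonneg ‖oP N false x‖
  have h3 := sq_nonneg ‖rest N (m + 1) x‖
  have h5 : 0 ≤ ∑ k ∈ range m, ‖oK N k x‖ ^ 2 := Finset.sum_nonneg fun _ _ => sq_nonneg _
  have h4 : ‖oK N m x‖ ^ 2 ≤ ‖x‖ ^ 2 := by linarith
  exact (sq_le_sq₀ (norm_nonneg _) (norm_nonneg _)).1 h4

lemma Facts.cl4_continuous_P (hF : Facts N) (σ : Bool) : Continuous (oP N σ) :=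
  (LinearMap.mkContinuous
    { toFun := oP N σ
      map_add' := hF.P_add σ
      map_smul' := hF.P_smul σ : N.carrier →ₗ[ℝ] N.carrier } 1
    (fun x => by rw [one_mul]; exact hF.cl4_P_norm_le σ x)).continuous

lemma Facts.cl4_continuous_K (hF : Facts N) (m : ℕ) : Continuous (oK N m) :=
  (LinearMap.mkContinuous
    { toFun := oK N m
      map_add' := hF.K_add m
      map_smul' := hF.K_smul m : N.carrier →ₗ[ℝ] N.carrier } 1
    (fun x => by rw [one_mul]; exact hF.cl4_K_norm_le m x)).continuous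

lemma Facts.cl4_continuous_M (hF : Facts N) (y : N.carrier) : Continuous (oM N y) :=
  (LinearMap.mkContinuous
    { toFun := oM N y
      map_add' := hF.M_add_right y
      map_smul' := fun t x => hF.M_smul_right t y x : N.carrier →ₗ[ℝ] N.carrier } (2 * ‖y‖)
    (fun x => by rw [mul_assoc]; exact hF.M_le y x)).continuous

theorem Facts.isClosed_pc (hF : Facts N) (c : Pc N) : IsClosed (hF.pc c : Set N.carrier) := by
  cases c with
  | pt σ => exact isClosed_eq (hF.cl4_continuous_P σ) continuous_id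
  | rem =>
    have h1 : IsClosed {x : N.carrier | ∀ σ, oP N σ x = 0} := by
      simp only [Set.ofPred_forall]
      exact isClosed_iInter fun σ => isClosed_eq (hF.cl4_continuous_P σ) continuous_const
    have h2 : IsClosed {x : N.carrier | ∀ m, oK N m x = 0} := by
      simp only [Set.ofPred_forall]
      exact isClosed_iInter fun m => isClosed_eq (hF.cl4_continuous_K m) continuous_const
    exact h1.inter h2
  | krem m =>
    have h1 : IsClosed {x : N.carrier | oK N m x = x} :=
      isClosed_eq (hF.cl4_continuous_K m) continuous_id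
    have h2 : IsClosed {x : N.carrier | ∀ b, od N false b = 0 → oM N b x = 0} := by
      simp only [Set.ofPred_forall]
      exact isClosed_iInter fun b => isClosed_iInter fun _ =>
        isClosed_eq (hF.cl4_continuous_M b) continuous_const
    exact h1.inter h2
  | slot m b =>
    have h1 : IsClosed {x : N.carrier | oK N m x = x} :=
      isClosed_eq (hF.cl4_continuous_K m) continuous_id
    have h2 : IsClosed {x : N.carrier | oM N b.1 x = x} :=
      isClosed_eq (hF.cl4_continuous_M b.1) continuous_id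
    exact h1.inter h2

lemma Facts.cl4_B_zero (hF : Facts N) (x : N.carrier) : oB N 0 x = 0 := by
  have h := hF.B_smul 0 0 x
  simpa using h

lemma CL4_NF_single {A B : Type} (π : B → A) {p : ℕ} (hp : p ≠ 0) (b₀ : B) {t : ℝ}
    (ht : 0 ≤ t) : NF π p (fun b => if b ∈ ({b₀} : Finset B) then t else 0) = t := by
  have hsum : ∀ w : B → ℝ, ∑' b, w b * (if b ∈ ({b₀} : Finset B) then t else 0) = w b₀ * t := by
    intro w
    rw [tsum_eq_single b₀]
    · simp
    · intro b hb
      simp [hb]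
  have hf : ∀ b, (0 : ℝ) ≤ if b ∈ ({b₀} : Finset B) then t else 0 := by
    intro b
    split_ifs
    · exact ht
    · exact le_rfl
  have hs : Summable fun b => if b ∈ ({b₀} : Finset B) then t else (0 : ℝ) := by
    refine summable_of_ne_finset_zero (s := {b₀}) ?_
    intro b hb
    rw [if_neg hb]
  have hind : ∀ (ι : Type) (a : ι), Adm p (fun i : ι => if i = a then (1 : ℝ) else 0) := by
    intro ι a
    refine ⟨fun i => ?_, fun s => ?_⟩
    · dsimp only
      split_ifs <;> norm_num
    · have h1 : ∀ i ∈ s, (if i = a then (1 : ℝ) else 0) ^ p = if i = a then (1 : ℝ) else 0 := by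
        intro i _
        split_ifs
        · exact one_pow p
        · exact zero_pow hp
      rw [Finset.sum_congr rfl h1, Finset.sum_ite_eq']
      split_ifs <;> norm_num
  apply le_antisymm
  · refine NF_le hp fun w hw => ?_
    rw [hsum]
    exact mul_le_of_le_one_left ht (wts_le_one hp hw b₀)
  · have hw : (fun b => (if π b = π b₀ then (1 : ℝ) else 0) * (if b = b₀ then (1 : ℝ) else 0)) ∈
        wts π p := ⟨_, _, hind A (π b₀), hind B b₀, fun b => rfl⟩
    have h1 := le_NF hp hw hf hs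
    rw [hsum] at h1
    simpa using h1

theorem Facts.slot_norm (hF : Facts N) {m : ℕ} {b : Pnt N false} {x : N.carrier}
    (hx : InPc x (.slot m b)) : ‖x‖ ^ 2 = (1 + DD m ^ 2) * oB N x x := by
  have h0 : InPc (0 : N.carrier) (.krem m) := (hF.pc (.krem m)).zero_mem
  have h := hF.kind_norm m {b} (fun _ => x)
    (fun b' hb' => by rw [Finset.mem_singleton.1 hb']; exact hx) 0 h0
  rw [Finset.sum_singleton, Finset.sum_singleton, zero_add, hF.cl4_B_zero, zero_add,
    CL4_NF_single hF.atomOf (pp_pos m).ne' b (hF.B_nonneg x)] at h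
  rw [h]
  ring

theorem Facts.krem_norm (hF : Facts N) {m : ℕ} {x : N.carrier} (hx : InPc x (.krem m)) :
    ‖x‖ ^ 2 = oB N x x := by
  have h := hF.kind_norm m ∅ (fun _ => 0) (fun b hb => absurd hb (Finset.notMem_empty b)) x hx
  have h1 : NF hF.atomOf (pp m)
      (fun b => if b ∈ (∅ : Finset (Pnt N false)) then oB N (0 : N.carrier) 0 else 0) = 0 := by
    have hz : (fun b => if b ∈ (∅ : Finset (Pnt N false)) then oB N (0 : N.carrier) 0 else 0) =
        fun _ => 0 := by
      funext b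
      simp
    rw [hz]
    have h2 := NF_le_tsum (π := hF.atomOf) (p := pp m) (pp_pos m).ne'
      (f := fun _ => 0) (fun _ => le_rfl) summable_zero
    have h3 := NF_nonneg (π := hF.atomOf) (p := pp m) (pp_pos m).ne'
      (f := fun _ => 0) (fun _ => le_rfl) summable_zero
    rw [tsum_zero] at h2
    exact le_antisymm h2 h3
  rw [h1] at h
  simpa using h

lemma Facts.cl4_B_add_right (hF : Facts N) (x y z : N.carrier) :
    oB N x (y + z) = oB N x y + oB N x z := by
  rw [hF.B_symm, hF.B_add, hF.B_symm y, hF.B_symm z]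

lemma Facts.cl4_B_smul_right (hF : Facts N) (t : ℝ) (x y : N.carrier) :
    oB N x (t • y) = t * oB N x y := by
  rw [hF.B_symm, hF.B_smul, hF.B_symm y]

lemma Facts.cl4_B_par (hF : Facts N) (x y : N.carrier) :
    oB N (x + y) (x + y) + oB N (x - y) (x - y) = 2 * (oB N x x + oB N y y) := by
  have h1 : x - y = x + (-1 : ℝ) • y := by rw [neg_one_smul, sub_eq_add_neg]
  rw [h1, hF.B_add, hF.B_add, hF.cl4_B_add_right, hF.cl4_B_add_right, hF.cl4_B_add_right, hF.cl4_B_add_right,
    hF.B_smul, hF.B_smul, hF.cl4_B_smul_right, hF.cl4_B_smul_right, hF.B_symm y x]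
  ring

/-- The parallelogram law for a set on which the norm squared is a multiple of the form. -/
lemma Facts.cl4_par_of_B (hF : Facts N) {c : Pc N} {κ : ℝ}
    (h : ∀ z : N.carrier, InPc z c → ‖z‖ ^ 2 = κ * oB N z z) {x y : N.carrier}
    (hx : InPc x c) (hy : InPc y c) :
    ‖x + y‖ ^ 2 + ‖x - y‖ ^ 2 = 2 * (‖x‖ ^ 2 + ‖y‖ ^ 2) := by
  have h1 : InPc (x + y) c := (hF.pc c).add_mem hx hy
  have h2 : InPc (x - y) c := (hF.pc c).sub_mem hx hy
  rw [h _ h1, h _ h2, h _ hx, h _ hy, ← mul_add, hF.cl4_B_par]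
  ring

lemma Facts.cl4_rest_rem (_hF : Facts N) {x : N.carrier} (hx : InPc x .rem) (n : ℕ) :
    rest N n x = x := by
  unfold rest
  rw [hx.1 true, hx.1 false, Finset.sum_eq_zero fun m _ => hx.2 m]
  simp

theorem Facts.pc_par (hF : Facts N) (c : Pc N) {x y : N.carrier} (hx : InPc x c)
    (hy : InPc y c) : ‖x + y‖ ^ 2 + ‖x - y‖ ^ 2 = 2 * (‖x‖ ^ 2 + ‖y‖ ^ 2) := by
  cases c with
  | pt σ =>
    refine hF.cl4_par_of_B (κ := 1) (fun z hz => ?_) hx hy
    have h := hF.B_P σ z
    rw [show oP N σ z = z from hz] at h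
    rw [one_mul, h]
  | rem =>
    have hle : ∀ {x y : N.carrier}, InPc x .rem → InPc y .rem →
        ‖x + y‖ ^ 2 + ‖x - y‖ ^ 2 ≤ 2 * (‖x‖ ^ 2 + ‖y‖ ^ 2) := by
      intro x y hx hy
      have h1 : ∀ n : ℕ, ‖x + y‖ ^ 2 + ‖x - y‖ ^ 2 ≤
          2 * (1 + 1 / (pp n : ℝ)) ^ 2 * (‖x‖ ^ 2 + ‖y‖ ^ 2) := by
        intro n
        have h := hF.par n x y
        rwa [hF.cl4_rest_rem hx, hF.cl4_rest_rem hy] at h
      have hpp : Filter.Tendsto (fun n : ℕ => (pp n : ℝ)) Filter.atTop Filter.atTop := by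
        refine tendsto_natCast_atTop_atTop.comp ?_
        exact pp_mono.tendsto_atTop
      have h2 : Filter.Tendsto (fun n : ℕ => 2 * (1 + 1 / (pp n : ℝ)) ^ 2 *
          (‖x‖ ^ 2 + ‖y‖ ^ 2)) Filter.atTop (nhds (2 * (1 + 0) ^ 2 * (‖x‖ ^ 2 + ‖y‖ ^ 2))) := by
        refine Filter.Tendsto.mul_const _ (Filter.Tendsto.const_mul _ ?_)
        refine Filter.Tendsto.pow ?_ 2
        refine Filter.Tendsto.const_add _ ?_
        simp only [one_div]
        exact hpp.inv_tendsto_atTop
      have h3 := ge_of_tendsto' h2 h1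
      simpa using h3
    apply le_antisymm (hle hx hy)
    have h1 : InPc (x + y) .rem := (hF.pc .rem).add_mem hx hy
    have h2 : InPc (x - y) .rem := (hF.pc .rem).sub_mem hx hy
    have h := hle h1 h2
    have h3 : (x + y) + (x - y) = (2 : ℝ) • x := by rw [two_smul]; abel
    have h4 : (x + y) - (x - y) = (2 : ℝ) • y := by rw [two_smul]; abel
    rw [h3, h4, norm_smul, norm_smul, Real.norm_two] at h
    nlinarith
  | krem m => exact hF.cl4_par_of_B (κ := 1) (fun z hz => by rw [one_mul]; exact hF.krem_norm hz) hx hy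
  | slot m b => exact hF.cl4_par_of_B (κ := 1 + DD m ^ 2) (fun z hz => hF.slot_norm hz) hx hy

/-- The factor of a piece. -/
def Pc.fac : Pc N → ℝ
  | .slot m _ => 1 + DD m ^ 2
  | _ => 1

lemma Pc.cl4_fac_pos (c : Pc N) : 0 < c.fac := by
  cases c with
  | pt σ => exact one_pos
  | rem => exact one_pos
  | krem m => exact one_pos
  | slot m b =>
    change (0 : ℝ) < 1 + DD m ^ 2
    positivity

theorem Facts.exists_pc_basis (hF : Facts N) [SeparableSpace N.carrier] (c : Pc N) :
    ∃ (J : Type) (_ : Countable J) (u : J → N.carrier), (∀ j, InPc (u j) c) ∧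
      (∀ (F : Finset J) (t : J → ℝ), ‖∑ j ∈ F, t j • u j‖ ^ 2 = c.fac * ∑ j ∈ F, t j ^ 2) ∧
      (hF.pc c : Set N.carrier) ⊆ closure (Submodule.span ℝ (Set.range u) : Set N.carrier) := by
  have hcomp : CompleteSpace (hF.pc c) := (hF.isClosed_pc c).completeSpace_coe
  have : SecondCountableTopology N.carrier := UniformSpace.secondCountable_of_separable _
  have hsep : SeparableSpace (hF.pc c) := inferInstance
  have hpar : ∀ x y : hF.pc c, ‖x + y‖ ^ 2 + ‖x - y‖ ^ 2 = 2 * (‖x‖ ^ 2 + ‖y‖ ^ 2) := by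
    intro x y
    exact hF.pc_par c x.2 y.2
  obtain ⟨J, hJ, u, hu, hd⟩ := par_basis (hF.pc c) hpar
  have hfac := c.cl4_fac_pos
  have hs0 : √c.fac ≠ 0 := (Real.sqrt_pos.2 hfac).ne'
  refine ⟨J, hJ, fun j => √c.fac • (u j : N.carrier), ?_, ?_, ?_⟩
  · intro j
    exact (hF.pc c).smul_mem _ (u j).2
  · intro F t
    have h1 : ∑ j ∈ F, t j • √c.fac • (u j : N.carrier) =
        √c.fac • ((∑ j ∈ F, t j • u j : hF.pc c) : N.carrier) := by
      rw [Submodule.coe_sum, Finset.smul_sum]
      refine Finset.sum_congr rfl fun j _ => ?_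
      rw [Submodule.coe_smul, smul_comm]
    rw [h1, norm_smul, mul_pow, Real.norm_of_nonneg (Real.sqrt_nonneg _), Real.sq_sqrt hfac.le]
    congr 1
    exact hu F t
  · intro x hx
    have h1 : (⟨x, hx⟩ : hF.pc c) ∈ closure (Submodule.span ℝ (Set.range u) : Set (hF.pc c)) :=
      hd _
    have h2 : x ∈ closure (Subtype.val '' (Submodule.span ℝ (Set.range u) : Set (hF.pc c))) :=
      image_closure_subset_closure_image continuous_subtype_val ⟨_, h1, rfl⟩
    refine closure_mono ?_ h2
    rintro _ ⟨z, hz, rfl⟩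
    have h3 : (hF.pc c).subtype z ∈ (Submodule.span ℝ (Set.range u)).map (hF.pc c).subtype :=
      Submodule.mem_map_of_mem hz
    rw [Submodule.map_span] at h3
    refine Submodule.span_le.2 ?_ h3
    rintro _ ⟨_, ⟨j, rfl⟩, rfl⟩
    have h4 : (u j : N.carrier) = (√c.fac)⁻¹ • (√c.fac • (u j : N.carrier)) := by
      rw [smul_smul, inv_mul_cancel₀ hs0, one_smul]
    change (u j : N.carrier) ∈ _
    rw [h4]
    exact Submodule.smul_mem _ _ (Submodule.subset_span ⟨j, rfl⟩)

end

end Pool.Agent.Lib.MP_4e4c79_lc.Cc
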