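import Mathlib
import Pool.Agent.Lib.MP_4e4c79_lc.Cc.CL4

/-!
# Module CL5.  Infinite-dimensional pieces.

`infinite_pt`: the basis `u` of the piece `pt true` from any family as in `exists_pc_basis` is infinite:
otherwise the span of `u` is finite-dimensional, hence closed, hence the piece is finite-dimensional,
but it contains the infinitely many atoms (`infinite_atoms`), which are orthonormal for `oB`
(`B_d`, `d_orth`), hence linearly independent.
`infinite_slot_pc`: suppose both `J` and `J'` are finite, so `pc (slot j b)` = span of `u`, `pc (slot j' b)` =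
span of `u'`.  Apply `dims` to the tuple of all `u i`, `u' i` and small `ε`: `y` with, say, `‖oK j y - y‖ ≤ ε`.
`y' = oM b (oK j y) ∈ pc (slot j b)` and `‖y' - y‖ ≤ 3ε` (`M_le`, `‖b‖ = 1`), so `√(oB y' y') ≥ √(1-ε) - 3ε`, while
`|oB y' (u i)| ≤ ε + 3ε‖u i‖` for all `i`.  But `oB (u i) (u i') = δ_{i i'}` (polarisation of the norm identity and
`slot_norm`), so `y' = ∑ oB y' (u i) • u i` and `oB y' y' = ∑ oB y' (u i) ^ 2` is small: contradiction.
-/

namespace Pool.Agent.Lib.MP_4e4c79_lc.Cc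

open Pool.Agent.Lib.MP_4e4c79_lc Complete Finset TopologicalSpace
attribute [local instance] Classical.propDecidable
set_option linter.unusedSectionVars false

noncomputable section

variable {N : Struc sg}

/-- A closed span of a finite family contains the piece. -/
lemma Facts.cl5_le_span (hF : Facts N) {c : Pc N} {J : Type} [Finite J] (u : J → N.carrier)
    (hd : (hF.pc c : Set N.carrier) ⊆
      closure (Submodule.span ℝ (Set.range u) : Set N.carrier)) :
    hF.pc c ≤ Submodule.span ℝ (Set.range u) := by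
  have hfd : FiniteDimensional ℝ (Submodule.span ℝ (Set.range u)) :=
    FiniteDimensional.span_of_finite ℝ (Set.finite_range u)
  have hc : IsClosed (Submodule.span ℝ (Set.range u) : Set N.carrier) :=
    Submodule.closed_of_finiteDimensional _
  intro x hx
  have h := hd hx
  rwa [hc.closure_eq] at h

theorem Facts.infinite_pt (hF : Facts N) {J : Type} (u : J → N.carrier)
    (hu : ∀ j, InPc (u j) (.pt true))
    (hd : (hF.pc (.pt true) : Set N.carrier) ⊆
      closure (Submodule.span ℝ (Set.range u) : Set N.carrier)) : Infinite J := by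
  by_contra hfin
  have hJ : Finite J := not_infinite_iff_finite.1 hfin
  have hle := hF.cl5_le_span u hd
  have hfd : FiniteDimensional ℝ (Submodule.span ℝ (Set.range u)) :=
    FiniteDimensional.span_of_finite ℝ (Set.finite_range u)
  have hmem : ∀ a : {a : N.carrier | od N true a = 0}, a.1 ∈ Submodule.span ℝ (Set.range u) := by
    intro a
    exact hle (show InPc a.1 (.pt true) from hF.d_P true a.1 a.2)
  have hli : LinearIndependent ℝ
      (fun a : {a : N.carrier | od N true a = 0} =>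
        (⟨a.1, hmem a⟩ : Submodule.span ℝ (Set.range u))) := by
    rw [linearIndependent_iff']
    intro s g hg i hi
    have h1 : ∑ k ∈ s, g k • (k.1 : N.carrier) = 0 := by
      have h2 := congrArg (Submodule.subtype (Submodule.span ℝ (Set.range u))) hg
      rw [map_sum, map_zero] at h2
      exact h2
    have h3 : ∀ (s : Finset {a : N.carrier | od N true a = 0}),
        oB N (∑ k ∈ s, g k • (k.1 : N.carrier)) i.1 = ∑ k ∈ s, g k * oB N k.1 i.1 := by
      intro s
      induction s using Finset.induction_on with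
      | empty => rw [Finset.sum_empty, Finset.sum_empty, hF.cl4_B_zero]
      | insert k s hk ih => rw [Finset.sum_insert hk, Finset.sum_insert hk, hF.B_add, hF.B_smul, ih]
    have h4 := h3 s
    rw [h1, hF.cl4_B_zero, Finset.sum_eq_single i] at h4
    · rw [hF.B_d i.2, mul_one] at h4
      exact h4.symm
    · intro k _ hki
      rw [hF.d_orth k.2 i.2 (fun h => hki (Subtype.ext h)), mul_zero]
    · intro h
      exact absurd hi h
  have hfin2 : Finite {a : N.carrier | od N true a = 0} :=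
    hli.finite_of_isNoetherian
  exact hF.infinite_atoms (Set.toFinite _)

/-- The form on the span of the basis of a slot. -/
lemma Facts.cl5_slot_B (hF : Facts N) {b : Pnt N false} {j : ℕ} {J : Type} [Fintype J]
    (u : J → N.carrier) (hu : ∀ i, InPc (u i) (.slot j b))
    (hn : ∀ (F : Finset J) (t : J → ℝ),
      ‖∑ i ∈ F, t i • u i‖ ^ 2 = (1 + DD j ^ 2) * ∑ i ∈ F, t i ^ 2)
    (hd : (hF.pc (.slot j b) : Set N.carrier) ⊆
      closure (Submodule.span ℝ (Set.range u) : Set N.carrier)) {y : N.carrier}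
    (hy : InPc y (.slot j b)) : oB N y y = ∑ i, oB N y (u i) ^ 2 := by
  have hpos : (0 : ℝ) < 1 + DD j ^ 2 := by positivity
  have hB : ∀ (F : Finset J) (t : J → ℝ),
      oB N (∑ i ∈ F, t i • u i) (∑ i ∈ F, t i • u i) = ∑ i ∈ F, t i ^ 2 := by
    intro F t
    have hmem : InPc (∑ i ∈ F, t i • u i) (.slot j b) :=
      (hF.pc (.slot j b)).sum_mem fun i _ => (hF.pc (.slot j b)).smul_mem _ (hu i)
    have h1 := hF.slot_norm hmem
    rw [hn F t] at h1
    exact (mul_left_cancel₀ hpos.ne' h1).symm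
  have huu : ∀ i, oB N (u i) (u i) = 1 := by
    intro i
    have h := hB {i} (fun _ => 1)
    rw [Finset.sum_singleton, Finset.sum_singleton, one_smul] at h
    rw [h]
    norm_num
  have huv : ∀ i k, i ≠ k → oB N (u i) (u k) = 0 := by
    intro i k hik
    have h := hB {i, k} (fun _ => 1)
    rw [Finset.sum_pair hik, Finset.sum_pair hik, one_smul, one_smul, hF.B_add,
      hF.cl4_B_add_right, hF.cl4_B_add_right, huu, huu, hF.B_symm (u k) (u i)] at h
    linarith
  have hspan := hF.cl5_le_span u hd hy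
  obtain ⟨t, ht⟩ := (Submodule.mem_span_range_iff_exists_fun ℝ).1 hspan
  have hs : ∀ (s : Finset J) (k : J),
      oB N (∑ i ∈ s, t i • u i) (u k) = ∑ i ∈ s, t i * oB N (u i) (u k) := by
    intro s k
    induction s using Finset.induction_on with
    | empty => rw [Finset.sum_empty, Finset.sum_empty, hF.cl4_B_zero]
    | insert i s hi ih => rw [Finset.sum_insert hi, Finset.sum_insert hi, hF.B_add, hF.B_smul, ih]
  have hyk : ∀ k, oB N y (u k) = t k := by
    intro k
    rw [← ht, hs, Finset.sum_eq_single k]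
    · rw [huu, mul_one]
    · intro i _ hik
      rw [huv i k hik, mul_zero]
    · intro h
      exact absurd (Finset.mem_univ k) h
  have h := hB Finset.univ t
  rw [ht] at h
  rw [h]
  exact Finset.sum_congr rfl fun k _ => by rw [hyk]

lemma Facts.cl5_step (hF : Facts N) (b : Pnt N false) {j : ℕ} {J : Type} [Fintype J]
    (u : J → N.carrier) (hu : ∀ i, InPc (u i) (.slot j b))
    (hn : ∀ (F : Finset J) (t : J → ℝ),
      ‖∑ i ∈ F, t i • u i‖ ^ 2 = (1 + DD j ^ 2) * ∑ i ∈ F, t i ^ 2)
    (hd : (hF.pc (.slot j b) : Set N.carrier) ⊆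
      closure (Submodule.span ℝ (Set.range u) : Set N.carrier)) {y : N.carrier} {ε R : ℝ}
    (hε : 0 < ε) (hR : ∀ i, ‖u i‖ ≤ R) (h1 : |oB N y y - 1| ≤ ε)
    (h2 : ∀ i, |oB N y (u i)| ≤ ε) (h3 : ‖oM N b.1 y - y‖ ≤ ε) (h4 : ‖oK N j y - y‖ ≤ ε) :
    1 - ε ≤ (2 * (Fintype.card J) * (1 + 3 * R) ^ 2 + 18) * ε ^ 2 := by
  have hb1 : ‖b.1‖ = 1 := hF.d_norm false b.1 b.2
  set y' : N.carrier := oM N b.1 (oK N j y) with hy'
  have hmem : InPc y' (.slot j b) := by
    refine ⟨?_, ?_⟩
    · rw [hy', hF.K_M, hF.K_K]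
    · rw [hy', hF.M_d_idem b.2]
  have hdist : ‖y' - y‖ ≤ 3 * ε := by
    have h5 : y' - y = oM N b.1 (oK N j y - y) + (oM N b.1 y - y) := by
      have h6 : oM N b.1 (oK N j y) = oM N b.1 (oK N j y - y) + oM N b.1 y := by
        rw [← hF.M_add_right, sub_add_cancel]
      rw [hy', h6, add_sub_assoc]
    have h7 := hF.M_le b.1 (oK N j y - y)
    rw [hb1, one_mul] at h7
    calc ‖y' - y‖ ≤ ‖oM N b.1 (oK N j y - y)‖ + ‖oM N b.1 y - y‖ := by
          rw [h5]
          exact norm_add_le _ _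
      _ ≤ 2 * ε + ε := add_le_add (h7.trans (by linarith)) h3
      _ = 3 * ε := by ring
  have hform : oB N y y ≤ 2 * (oB N y' y' + oB N (y' - y) (y' - y)) := by
    have h5 := hF.cl4_B_par y' (y' - y)
    have h6 : y' - (y' - y) = y := by abel
    rw [h6] at h5
    have h7 := hF.B_nonneg (y' + (y' - y))
    linarith
  have hsmall : oB N (y' - y) (y' - y) ≤ 9 * ε ^ 2 := by
    have h5 := hF.B_le (y' - y) (y' - y)
    have h6 := le_abs_self (oB N (y' - y) (y' - y))
    nlinarith [norm_nonneg (y' - y)]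
  have hi : ∀ i, oB N y' (u i) ^ 2 ≤ (1 + 3 * R) ^ 2 * ε ^ 2 := by
    intro i
    have h5 : oB N y' (u i) = oB N y (u i) + oB N (y' - y) (u i) := by
      rw [← hF.B_add]
      congr 1
      abel
    have hR0 : 0 ≤ R := (norm_nonneg _).trans (hR i)
    have h6 : |oB N (y' - y) (u i)| ≤ 3 * ε * R :=
      (hF.B_le _ _).trans (mul_le_mul hdist (hR i) (norm_nonneg _) (by positivity))
    have h7 : |oB N y' (u i)| ≤ (1 + 3 * R) * ε := by
      rw [h5]
      calc |oB N y (u i) + oB N (y' - y) (u i)| ≤ |oB N y (u i)| + |oB N (y' - y) (u i)| :=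
            abs_add_le _ _
        _ ≤ ε + 3 * ε * R := add_le_add (h2 i) h6
        _ = (1 + 3 * R) * ε := by ring
    rw [← mul_pow, ← sq_abs]
    exact pow_le_pow_left₀ (abs_nonneg _) h7 2
  have hsum : oB N y' y' ≤ Fintype.card J * ((1 + 3 * R) ^ 2 * ε ^ 2) := by
    rw [hF.cl5_slot_B u hu hn hd hmem]
    calc ∑ i, oB N y' (u i) ^ 2 ≤ ∑ _i : J, (1 + 3 * R) ^ 2 * ε ^ 2 :=
          Finset.sum_le_sum fun i _ => hi i
      _ = Fintype.card J * ((1 + 3 * R) ^ 2 * ε ^ 2) := by
          rw [Finset.sum_const, Finset.card_univ, nsmul_eq_mul]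
  have h8 := (abs_le.1 h1).1
  nlinarith

theorem Facts.infinite_slot_pc (hF : Facts N) (b : Pnt N false) {j j' : ℕ} (hj : j ≠ j')
    {J J' : Type} (u : J → N.carrier) (u' : J' → N.carrier)
    (hu : ∀ i, InPc (u i) (.slot j b)) (hu' : ∀ i, InPc (u' i) (.slot j' b))
    (hn : ∀ (F : Finset J) (t : J → ℝ),
      ‖∑ i ∈ F, t i • u i‖ ^ 2 = (1 + DD j ^ 2) * ∑ i ∈ F, t i ^ 2)
    (hn' : ∀ (F : Finset J') (t : J' → ℝ),
      ‖∑ i ∈ F, t i • u' i‖ ^ 2 = (1 + DD j' ^ 2) * ∑ i ∈ F, t i ^ 2)
    (hd : (hF.pc (.slot j b) : Set N.carrier) ⊆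
      closure (Submodule.span ℝ (Set.range u) : Set N.carrier))
    (hd' : (hF.pc (.slot j' b) : Set N.carrier) ⊆
      closure (Submodule.span ℝ (Set.range u') : Set N.carrier)) : Infinite J ∨ Infinite J' := by
  by_contra hcon
  rw [not_or, not_infinite_iff_finite, not_infinite_iff_finite] at hcon
  obtain ⟨hJ, hJ'⟩ := hcon
  have : Fintype J := Fintype.ofFinite J
  have : Fintype J' := Fintype.ofFinite J'
  have hnorm : ∀ i, ‖u i‖ ≤ 1 + DD j ^ 2 := by
    intro i
    have h := hn {i} (fun _ => 1)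
    rw [Finset.sum_singleton, Finset.sum_singleton, one_smul, one_pow, mul_one] at h
    have h1 : (1 : ℝ) ≤ 1 + DD j ^ 2 := by nlinarith [sq_nonneg (DD j)]
    refine (sq_le_sq₀ (norm_nonneg _) (by positivity)).1 ?_
    rw [h]
    nlinarith
  have hnorm' : ∀ i, ‖u' i‖ ≤ 1 + DD j' ^ 2 := by
    intro i
    have h := hn' {i} (fun _ => 1)
    rw [Finset.sum_singleton, Finset.sum_singleton, one_smul, one_pow, mul_one] at h
    have h1 : (1 : ℝ) ≤ 1 + DD j' ^ 2 := by nlinarith [sq_nonneg (DD j')]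
    refine (sq_le_sq₀ (norm_nonneg _) (by positivity)).1 ?_
    rw [h]
    nlinarith
  set C : ℝ := 2 * (Fintype.card J) * (1 + 3 * (1 + DD j ^ 2)) ^ 2 + 18 with hC
  set C' : ℝ := 2 * (Fintype.card J') * (1 + 3 * (1 + DD j' ^ 2)) ^ 2 + 18 with hC'
  have hC0 : 18 ≤ C := by
    have : (0 : ℝ) ≤ 2 * (Fintype.card J) * (1 + 3 * (1 + DD j ^ 2)) ^ 2 := by positivity
    linarith
  have hC0' : 18 ≤ C' := by
    have : (0 : ℝ) ≤ 2 * (Fintype.card J') * (1 + 3 * (1 + DD j' ^ 2)) ^ 2 := by positivity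
    linarith
  set ε : ℝ := 1 / (C + C') with hε
  have hε0 : 0 < ε := by positivity
  have hεC : ε * (C + C') = 1 := by
    rw [hε]
    field_simp
  have hε1 : ε ≤ 1 / 36 := by
    rw [hε]
    exact one_div_le_one_div_of_le (by norm_num) (by linarith)
  let e := Fintype.equivFin (J ⊕ J')
  obtain ⟨y, hy1, hy2, hy3, hy4⟩ := hF.dims b.1 b.2 j j' hj (Fintype.card (J ⊕ J'))
    (fun i => Sum.elim u u' (e.symm i)) ε hε0
  have hy5 : ∀ i, |oB N y (u i)| ≤ ε := by
    intro i
    have h := hy2 (e (Sum.inl i))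
    simpa using h
  have hy6 : ∀ i, |oB N y (u' i)| ≤ ε := by
    intro i
    have h := hy2 (e (Sum.inr i))
    simpa using h
  rcases hy4 with h | h
  · have h1 := hF.cl5_step b u hu hn hd hε0 hnorm hy1 hy5 hy3 h
    rw [← hC] at h1
    have h2 : C * ε ^ 2 ≤ ε := by
      have h3 : C * ε ≤ 1 := by nlinarith
      nlinarith
    linarith
  · have h1 := hF.cl5_step b u' hu' hn' hd' hε0 hnorm' hy1 hy6 hy3 h
    rw [← hC'] at h1
    have h2 : C' * ε ^ 2 ≤ ε := by
      have h3 : C' * ε ≤ 1 := by nlinarith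
      nlinarith
    linarith

end

end Pool.Agent.Lib.MP_4e4c79_lc.Cc
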