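import Mathlib
import Pool.Agent.Lib.MP_4e4c79_lc.Cc.NF
import Pool.Agent.Lib.MP_4e4c79_lc.Cc.Par

/-!
Labelled index sets, their quadratic functional, and Banach spaces with a basis described by a
labelled index set.
-/

namespace Pool.Agent.Lib.MP_4e4c79_lc.Cc

open Finset
attribute [local instance] Classical.propDecidable
set_option linter.unusedSectionVars false

noncomputable section

/-- A labelled index set: an index is either unlabelled or labelled by a kind and a slot; the slots
are distributed over the atoms by `π`. -/
structure Lab where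
  /-- indices -/
  I : Type
  /-- atoms -/
  A : Type
  /-- slots -/
  B : Type
  cI : Countable I
  cA : Countable A
  cB : Countable B
  /-- the atom of a slot -/
  π : B → A
  /-- the label of an index: kind and slot -/
  lab : I → Option (ℕ × B)
  infA : Infinite A
  infB : ∀ a, {b | π b = a}.Infinite
  infI : ∀ b j j', j ≠ j' → {i | lab i = some (j, b)}.Infinite ∨ {i | lab i = some (j', b)}.Infinite
  inf0 : {i | lab i = none}.Infinite

namespace Lab

variable (L : Lab)

/-- The mass of `f` on the finite set `F` at the slot `b` in the kind `m`. -/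
def mass (F : Finset L.I) (f : L.I → ℝ) (m : ℕ) (b : L.B) : ℝ :=
  ∑ i ∈ F.filter (fun i => L.lab i = some (m, b)), f i

/-- The functional (with the kinds below `n`). -/
def Phi (n : ℕ) (F : Finset L.I) (f : L.I → ℝ) : ℝ :=
  ∑ i ∈ F, f i + ∑ m ∈ range n, DD m ^ 2 * NF L.π (pp m) (L.mass F f m)

end Lab

/-- The vectors `v i` are a basis of `E` in which the norm is given by the functional of `L`. -/
structure IsLabBasis (L : Lab) (E : Type) [NormedAddCommGroup E] [NormedSpace ℝ E]
    (v : L.I → E) : Prop where
  dense : Dense (Submodule.span ℝ (Set.range v) : Set E)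
  norm : ∀ (n : ℕ) (F : Finset L.I), (∀ i ∈ F, ∀ m b, L.lab i = some (m, b) → m < n) →
    ∀ c : L.I → ℝ, ‖∑ i ∈ F, c i • v i‖ ^ 2 = L.Phi n F (fun i => c i ^ 2)

end

end Pool.Agent.Lib.MP_4e4c79_lc.Cc
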