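import Mathlib
import Pool.Agent.Lib.MP_4e4c79_lc.Cc.CL3
import Pool.Agent.Lib.MP_4e4c79_lc.Cc.CL5
import Pool.Agent.Lib.MP_4e4c79_lc.Cc.Lab

/-!
# Module CL6.  Every separable structure satisfying `Facts` has a labelled basis.

PROOF.  For every piece `c : Pc N` choose `J c`, `u c` from `exists_pc_basis`.  `I = Σ c, J c` (countable: `Pc N` is
countable as `Pnt N false` is, `countable_d`), `v ⟨c, j⟩ = u c j`, `lab ⟨slot m b, j⟩ = some (m, b)`, all others `none`;
`A = Pnt N true`, `B = Pnt N false`, `π = hF.atomOf`.  `infA`: `infinite_atoms`; `infB`: `infinite_slots` and `atom_unique`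
(`atomOf b = a ↔ oM a b = b`); `infI`: `infinite_slot_pc`; `inf0`: `infinite_pt`.
`dense`: `dense_pieces` and the third property of `exists_pc_basis`.
`norm`: for a finite `F` and `t` put `x_c = ∑_{⟨c,j⟩ ∈ F} t • v`, `x = ∑ x_c`.  Let `n' ≥ n` be larger than all kinds of pieces
occurring in `F`.  `split` with `n'`: `oP σ x = x_{pt σ}`, `oK m x = x_{krem m} + ∑_b x_{slot m b}`, `rest n' x = x_rem`.
`kind_norm` for `oK m x`, with `oB (x_{slot m b}) (x_{slot m b}) = ∑ t²` (`slot_norm` and the norm identity), `krem_norm`.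
The sum is `∑ t² + ∑_{m<n'} DD m ^ 2 * NF …`, and for `n ≤ m < n'` the mass function is `0` by the hypothesis.
-/

namespace Pool.Agent.Lib.MP_4e4c79_lc.Cc

open Pool.Agent.Lib.MP_4e4c79_lc Complete Finset TopologicalSpace
attribute [local instance] Classical.propDecidable
set_option linter.unusedSectionVars false

noncomputable section

variable {N : Struc sg}

/-- The label of a piece. -/
def Pc.labOf : Pc N → Option (ℕ × Pnt N false)
  | .slot m b => some (m, b)
  | _ => none

lemma Pc.labOf_eq_some {p : Pc N} {m : ℕ} {b : Pnt N false} :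
    p.labOf = some (m, b) ↔ p = .slot m b := by
  cases p <;> simp [Pc.labOf]

lemma cl6_countable_pc (hF : Facts N) [SeparableSpace N.carrier] : Countable (Pc N) := by
  have : Countable (Pnt N false) := (hF.countable_d false).to_subtype
  let f : Bool ⊕ (Unit ⊕ (ℕ ⊕ (ℕ × Pnt N false))) → Pc N := fun x => match x with
    | .inl σ => .pt σ
    | .inr (.inl _) => .rem
    | .inr (.inr (.inl m)) => .krem m
    | .inr (.inr (.inr (m, b))) => .slot m b
  have hf : Function.Surjective f := by
    intro p
    cases p with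
    | pt σ => exact ⟨.inl σ, rfl⟩
    | rem => exact ⟨.inr (.inl ()), rfl⟩
    | krem m => exact ⟨.inr (.inr (.inl m)), rfl⟩
    | slot m b => exact ⟨.inr (.inr (.inr (m, b))), rfl⟩
  exact hf.countable

/-- The sum over the indices of a piece. -/
def cl6s {M : Type} [AddCommMonoid M] {J : Pc N → Type} (F : Finset (Σ c, J c))
    (g : (Σ c, J c) → M) (p : Pc N) : M := ∑ i ∈ F.filter (fun i => i.1 = p), g i

lemma cl6_decomp {M : Type} [AddCommMonoid M] {J : Pc N → Type} (F : Finset (Σ c, J c))
    (g : (Σ c, J c) → M) (n' : ℕ) (S : Finset (Pnt N false))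
    (hk : ∀ i ∈ F, ∀ m, i.1 = .krem m → m < n')
    (hs : ∀ i ∈ F, ∀ m b, i.1 = .slot m b → m < n' ∧ b ∈ S) :
    ∑ i ∈ F, g i = cl6s F g (.pt true) + cl6s F g (.pt false) + cl6s F g .rem +
      ∑ m ∈ range n', (cl6s F g (.krem m) + ∑ b ∈ S, cl6s F g (.slot m b)) := by
  have h1 : ∀ i ∈ F, g i = (if i.1 = .pt true then g i else 0) +
      (if i.1 = .pt false then g i else 0) + (if i.1 = .rem then g i else 0) +
      ∑ m ∈ range n', ((if i.1 = .krem m then g i else 0) +
        ∑ b ∈ S, (if i.1 = .slot m b then g i else 0)) := by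
    intro i hi
    have hk' := hk i hi
    have hs' := hs i hi
    generalize g i = y
    generalize i.1 = p at hk' hs'
    cases p with
    | pt σ => cases σ <;> simp
    | rem => simp
    | krem m =>
      have hm := hk' m rfl
      simp only [reduceCtorEq, if_false, Pc.krem.injEq, Finset.sum_const_zero, add_zero, zero_add]
      rw [Finset.sum_ite_eq, if_pos (Finset.mem_range.2 hm)]
    | slot m b =>
      obtain ⟨hm, hb⟩ := hs' m b rfl
      simp only [reduceCtorEq, if_false, Pc.slot.injEq, zero_add]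
      rw [Finset.sum_eq_single_of_mem m (Finset.mem_range.2 hm)]
      · simp only [true_and]
        rw [Finset.sum_ite_eq, if_pos hb]
      · intro m' _ hne
        refine Finset.sum_eq_zero fun b' _ => ?_
        rw [if_neg]
        rintro ⟨h, _⟩
        exact hne h.symm
  rw [Finset.sum_congr rfl h1]
  simp only [Finset.sum_add_distrib, cl6s, Finset.sum_filter]
  congr 1
  congr 1
  · rw [Finset.sum_comm]
  · rw [Finset.sum_comm]
    refine Finset.sum_congr rfl fun m _ => ?_
    rw [Finset.sum_comm]

lemma cl6_P (hF : Facts N) {p : Pc N} {y : N.carrier} (hy : InPc y p) (σ : Bool) :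
    oP N σ y = if p = .pt σ then y else 0 := by
  cases p with
  | pt τ =>
    change oP N τ y = y at hy
    by_cases h : τ = σ
    · subst h; rw [if_pos rfl, hy]
    · rw [if_neg (by simpa using h)]
      have h2 : τ = !σ := by cases τ <;> cases σ <;> simp_all
      subst h2
      rw [← hy]
      exact hF.P_P' σ y
  | rem => rw [if_neg (by simp)]; exact hy.1 σ
  | krem m => rw [if_neg (by simp), ← hy.1]; exact hF.P_K σ m y
  | slot m b => rw [if_neg (by simp), ← hy.1]; exact hF.P_K σ m y

/-- The kind of a piece. -/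
def Pc.kd : Pc N → Option ℕ
  | .krem m => some m
  | .slot m _ => some m
  | _ => none

lemma cl6_K (hF : Facts N) {p : Pc N} {y : N.carrier} (hy : InPc y p) (m : ℕ) :
    oK N m y = if p.kd = some m then y else 0 := by
  cases p with
  | pt τ =>
    change oP N τ y = y at hy
    rw [if_neg (by simp [Pc.kd]), ← hy]
    exact hF.K_P m τ y
  | rem => rw [if_neg (by simp [Pc.kd])]; exact hy.2 m
  | krem m' =>
    by_cases h : m' = m
    · subst h; rw [if_pos (by simp [Pc.kd]), hy.1]
    · rw [if_neg (by simpa [Pc.kd] using h), ← hy.1]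
      exact hF.K_K' m m' y (Ne.symm h)
  | slot m' b =>
    by_cases h : m' = m
    · subst h; rw [if_pos (by simp [Pc.kd]), hy.1]
    · rw [if_neg (by simpa [Pc.kd] using h), ← hy.1]
      exact hF.K_K' m m' y (Ne.symm h)

lemma cl6_NF_zero {A B : Type} (π : B → A) {p : ℕ} (hp : p ≠ 0) : NF π p (fun _ => 0) = 0 := by
  refine le_antisymm ?_ (NF_nonneg hp (fun _ => le_rfl) summable_zero)
  have h := NF_le_tsum (π := π) hp (f := fun _ => (0 : ℝ)) (fun _ => le_rfl) summable_zero
  simpa using h

theorem cl6_norm (hF : Facts N) (J : Pc N → Type) (u : (c : Pc N) → J c → N.carrier)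
    (hu : ∀ c j, InPc (u c j) c)
    (hn : ∀ c (F : Finset (J c)) (t : J c → ℝ),
      ‖∑ j ∈ F, t j • u c j‖ ^ 2 = c.fac * ∑ j ∈ F, t j ^ 2)
    (n : ℕ) (F : Finset (Σ c, J c))
    (hlab : ∀ i ∈ F, ∀ m b, i.1.labOf = some (m, b) → m < n) (c : (Σ c, J c) → ℝ) :
    ‖∑ i ∈ F, c i • u i.1 i.2‖ ^ 2 = ∑ i ∈ F, c i ^ 2 + ∑ m ∈ range n,
      DD m ^ 2 * NF hF.atomOf (pp m)
        (fun b => ∑ i ∈ F.filter (fun i => i.1.labOf = some (m, b)), c i ^ 2) := by
  -- the parts
  set g : (Σ c, J c) → N.carrier := fun i => c i • u i.1 i.2 with hg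
  set q : (Σ c, J c) → ℝ := fun i => c i ^ 2 with hq
  have hin : ∀ p : Pc N, InPc (cl6s F g p) p := by
    intro p
    have h : cl6s F g p ∈ hF.pc p := by
      refine Submodule.sum_mem _ fun i hi => ?_
      have h1 := (Finset.mem_filter.1 hi).2
      refine Submodule.smul_mem _ _ ?_
      obtain ⟨r, j⟩ := i
      cases h1
      exact hu _ j
    exact h
  have hnp : ∀ p : Pc N, ‖cl6s F g p‖ ^ 2 = p.fac * cl6s F q p := by
    intro p
    have hinj : Set.InjOn (Sigma.mk p : J p → Σ c, J c) ((Sigma.mk p) ⁻¹' (F : Set (Σ c, J c))) :=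
      sigma_mk_injective.injOn
    have key : ∀ {M : Type} [AddCommMonoid M] (f : (Σ c, J c) → M),
        cl6s F f p = ∑ j ∈ F.preimage (Sigma.mk p) hinj, f ⟨p, j⟩ := by
      intro M _ f
      rw [Finset.sum_preimage' (Sigma.mk p) F hinj f]
      unfold cl6s
      refine Finset.sum_congr ?_ fun _ _ => rfl
      refine Finset.filter_congr fun i _ => ?_
      constructor
      · intro h
        obtain ⟨a, b⟩ := i
        cases h
        exact ⟨b, rfl⟩
      · rintro ⟨j, rfl⟩
        rfl
    rw [key g, key q]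
    exact hn p _ (fun j => c ⟨p, j⟩)
  -- the bounds
  obtain ⟨n', hnn', hk⟩ : ∃ n', n ≤ n' ∧ ∀ i ∈ F, ∀ m, i.1 = .krem m → m < n' := by
    refine ⟨n + F.sup (fun i => (i.1.kd.getD 0) + 1), by omega, fun i hi m h => ?_⟩
    have h1 : (i.1.kd.getD 0) + 1 ≤ F.sup (fun i => (i.1.kd.getD 0) + 1) :=
      Finset.le_sup (f := fun i : (Σ c, J c) => (i.1.kd.getD 0) + 1) hi
    rw [h] at h1
    change m + 1 ≤ _ at h1
    omega
  obtain ⟨S, hS⟩ : ∃ S : Finset (Pnt N false), ∀ i ∈ F, ∀ m b, i.1 = .slot m b → b ∈ S := by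
    let e : (Σ c, J c) → Finset (Pnt N false) := fun i => match i.1 with
      | .slot _ b => {b}
      | _ => ∅
    refine ⟨F.biUnion e, fun i hi m b h => ?_⟩
    rw [Finset.mem_biUnion]
    refine ⟨i, hi, ?_⟩
    simp only [e, h, Finset.mem_singleton]
  have hs : ∀ i ∈ F, ∀ m b, i.1 = .slot m b → m < n' ∧ b ∈ S := by
    intro i hi m b h
    refine ⟨lt_of_lt_of_le (hlab i hi m b ?_) hnn', hS i hi m b h⟩
    rw [h]; rfl
  have hx := cl6_decomp F g n' S hk hs
  have hc := cl6_decomp F q n' S hk hs
  set x := ∑ i ∈ F, g i with hxdef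
  let LP : Bool → N.carrier →ₗ[ℝ] N.carrier := fun σ =>
    { toFun := oP N σ, map_add' := hF.P_add σ, map_smul' := hF.P_smul σ }
  let LK : ℕ → N.carrier →ₗ[ℝ] N.carrier := fun m =>
    { toFun := oK N m, map_add' := hF.K_add m, map_smul' := hF.K_smul m }
  have hP : ∀ σ, oP N σ x = cl6s F g (.pt σ) := by
    intro σ
    change LP σ x = _
    have e : ∀ p, LP σ (cl6s F g p) = if p = .pt σ then cl6s F g p else 0 :=
      fun p => cl6_P hF (hin p) σ
    rw [hx]
    simp only [map_add, map_sum, e]
    cases σ <;> simp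
  have hK : ∀ m, m < n' →
      oK N m x = cl6s F g (.krem m) + ∑ b ∈ S, cl6s F g (.slot m b) := by
    intro m hm
    change LK m x = _
    have e : ∀ p, LK m (cl6s F g p) = if p.kd = some m then cl6s F g p else 0 :=
      fun p => cl6_K hF (hin p) m
    rw [hx]
    simp only [map_add, map_sum, e, Pc.kd, reduceCtorEq, if_false, zero_add, Option.some.injEq]
    rw [Finset.sum_eq_single_of_mem m (Finset.mem_range.2 hm)]
    · simp
    · intro m' _ hne
      simp [hne]
  have hR : rest N n' x = cl6s F g .rem := by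
    unfold rest
    rw [hP, hP, Finset.sum_congr rfl fun m hm => hK m (Finset.mem_range.1 hm)]
    conv_lhs => rw [hx]
    abel
  have hsp := hF.split n' x
  rw [hP, hP, hR, hnp, hnp, hnp] at hsp
  have hkn : ∀ m, m < n' → ‖oK N m x‖ ^ 2 = (cl6s F q (.krem m) +
      ∑ b ∈ S, cl6s F q (.slot m b)) + DD m ^ 2 * NF hF.atomOf (pp m)
        (fun b => cl6s F q (.slot m b)) := by
    intro m hm
    rw [hK m hm, hF.kind_norm m S (fun b => cl6s F g (.slot m b)) (fun b _ => hin _) _ (hin _)]
    have h1 : oB N (cl6s F g (.krem m)) (cl6s F g (.krem m)) = cl6s F q (.krem m) := by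
      rw [← hF.krem_norm (hin (.krem m)), hnp]
      simp [Pc.fac]
    have h2 : ∀ b, oB N (cl6s F g (.slot m b)) (cl6s F g (.slot m b)) = cl6s F q (.slot m b) := by
      intro b
      have h3 := hF.slot_norm (hin (.slot m b))
      rw [hnp] at h3
      have h4 : (1 + DD m ^ 2 : ℝ) ≠ 0 := by positivity
      exact (mul_left_cancel₀ h4 h3).symm
    rw [h1]
    simp only [h2]
    congr 3
    funext b
    split_ifs with hb
    · rfl
    · symm
      unfold cl6s
      refine Finset.sum_eq_zero fun i hi => ?_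
      rw [Finset.mem_filter] at hi
      exact absurd (hS i hi.1 m b hi.2) hb
  rw [Finset.sum_congr rfl fun m hm => hkn m (Finset.mem_range.1 hm)] at hsp
  rw [hsp, Finset.sum_add_distrib]
  have hc' : ∑ i ∈ F, c i ^ 2 = _ := hc
  rw [hc']
  have hmass : ∀ m b, (F.filter (fun i => i.1.labOf = some (m, b))).sum q =
      cl6s F q (.slot m b) := by
    intro m b
    unfold cl6s
    refine Finset.sum_congr ?_ fun _ _ => rfl
    exact Finset.filter_congr fun i _ => Pc.labOf_eq_some
  simp only [hmass]
  have hrange : ∑ m ∈ range n', DD m ^ 2 * NF hF.atomOf (pp m) (fun b => cl6s F q (.slot m b)) =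
      ∑ m ∈ range n, DD m ^ 2 * NF hF.atomOf (pp m) (fun b => cl6s F q (.slot m b)) := by
    symm
    refine Finset.sum_subset (Finset.range_mono hnn') fun m _ hm => ?_
    have h0 : (fun b => cl6s F q (.slot m b)) = fun _ => 0 := by
      funext b
      unfold cl6s
      refine Finset.sum_eq_zero fun i hi => ?_
      rw [Finset.mem_filter] at hi
      exact absurd (Finset.mem_range.2 (hlab i hi.1 m b (Pc.labOf_eq_some.2 hi.2))) hm
    rw [h0, cl6_NF_zero _ (pp_pos m).ne', mul_zero]
  rw [hrange]
  simp only [Pc.fac]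
  ring

theorem Facts.exists_labBasis (hF : Facts N) [SeparableSpace N.carrier] :
    ∃ (L : Lab) (v : L.I → N.carrier), IsLabBasis L N.carrier v := by
  choose J hJ u hu hn hd using fun c : Pc N => hF.exists_pc_basis c
  have hcP : Countable (Pc N) := cl6_countable_pc hF
  have hcT : Countable (Pnt N true) := (hF.countable_d true).to_subtype
  have hcF : Countable (Pnt N false) := (hF.countable_d false).to_subtype
  have hinfA : Infinite (Pnt N true) := hF.infinite_atoms.to_subtype
  have hinfB : ∀ a : Pnt N true, {b | hF.atomOf b = a}.Infinite := by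
    intro a hfin
    refine hF.infinite_slots a.2 ?_
    refine (hfin.image (fun b : Pnt N false => b.1)).subset ?_
    rintro b ⟨hb, hab⟩
    refine ⟨⟨b, hb⟩, ?_, rfl⟩
    apply Subtype.ext
    exact hF.atom_unique (hF.atomOf _).2 a.2 hb (hF.atomOf_spec ⟨b, hb⟩) hab
  let L : Lab :=
    { I := Σ c, J c
      A := Pnt N true
      B := Pnt N false
      cI := inferInstance
      cA := hcT
      cB := hcF
      π := hF.atomOf
      lab := fun i => i.1.labOf
      infA := hinfA
      infB := hinfB
      infI := by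
        intro b j j' hj
        rcases hF.infinite_slot_pc b hj (u (.slot j b)) (u (.slot j' b)) (hu _) (hu _)
          (hn _) (hn _) (hd _) (hd _) with h | h
        · left
          exact Set.infinite_of_injective_forall_mem
            (f := fun i : J (.slot j b) => (⟨.slot j b, i⟩ : Σ c, J c)) sigma_mk_injective
            (fun i => rfl)
        · right
          exact Set.infinite_of_injective_forall_mem
            (f := fun i : J (.slot j' b) => (⟨.slot j' b, i⟩ : Σ c, J c)) sigma_mk_injective
            (fun i => rfl)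
      inf0 := by
        have h := hF.infinite_pt (u (.pt true)) (hu _) (hd _)
        exact Set.infinite_of_injective_forall_mem
          (f := fun i : J (.pt true) => (⟨.pt true, i⟩ : Σ c, J c)) sigma_mk_injective
          (fun i => rfl) }
  refine ⟨L, fun i => u i.1 i.2, ⟨?_, ?_⟩⟩
  · have hsub : ((⨆ c : Pc N, hF.pc c : Submodule ℝ N.carrier) : Set N.carrier) ⊆
        closure (Submodule.span ℝ (Set.range fun i : L.I => u i.1 i.2) : Set N.carrier) := by
      have h1 : (⨆ c : Pc N, hF.pc c : Submodule ℝ N.carrier) ≤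
          (Submodule.span ℝ (Set.range fun i : L.I => u i.1 i.2)).topologicalClosure := by
        refine iSup_le fun c => ?_
        intro y hy
        have h2 := hd c hy
        have h3 : (Submodule.span ℝ (Set.range (u c)) : Set N.carrier) ⊆
            (Submodule.span ℝ (Set.range fun i : L.I => u i.1 i.2) : Set N.carrier) := by
          refine Submodule.span_mono ?_
          rintro _ ⟨j, rfl⟩
          exact ⟨⟨c, j⟩, rfl⟩
        exact closure_mono h3 h2
      exact h1
    rw [dense_iff_closure_eq]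
    refine Set.eq_univ_of_univ_subset ?_
    rw [← hF.dense_pieces.closure_eq]
    exact closure_minimal hsub isClosed_closure
  · intro n F hF' c
    have h := cl6_norm hF J u hu hn n F hF' c
    rw [h]
    rfl

end

end Pool.Agent.Lib.MP_4e4c79_lc.Cc
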