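import Mathlib
import Pool.Agent.Lib.MP_4e4c79_lc.Transfer

/-!
# Module TR1.  Uniform continuity of formulas on balls; transfer of ∀∃ statements (any signature).

PROOF of `Term.uc`, `Formula.uc`: induction.  Terms: `var`, `zero`, `add`, `smul` clear; `fn`: `fn_uc`
with the radius from `Term.eval_bound`.  Formulas: `norm`, `rel` from terms (`rel_uc`); `conn`: `g` is
uniformly continuous on the compact cube given by `Formula.eval_bound`
(`IsCompact.uniformContinuousOn_of_continuous`); `sup`, `inf`: compare the values at the same bound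
variable (`Formula.le_eval_sup`, `Formula.eval_sup_le`, `Formula.exists_lt_of_eval_inf_lt` …).

PROOF of `transfer_ex`.  For `ε > 0` let
`ψ = c1 (fun x => max x 0) (Formula.inf r φ)`: `value M (allBall k R ψ) = 0` by hypothesis
(`Formula.value_allBall_eq_zero`), so it is in `theoryOf M`, hence `ψ` vanishes on the ball of `N`, i.e.
`(inf r φ).eval N v ≤ 0 < ε`; `Formula.exists_lt_of_eval_inf_lt`.

PROOF of `transfer_ball`: as `transfer_le` (`ψ = c1 (fun x => max x 0) φ`).

PROOF of `ball_of_zero`: Fix `ε, R`.  By `Formula.uc` in `M` there is `δ > 0` with: `‖v‖ ≤ R+1` and `v'`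
`δ`-close imply values `ε`-close; hence in `M`, for `v` in the ball with `χ (v 0) < δ` (a point `d` with
`χ d = 0` within `δ` of `v 0`): `φ v ≤ ε`.  So `min (φ v - ε) (δ - χ (v 0)) ≤ 0` in `M` on the ball,
transfer, and in `N` with `χ (v 0) = 0` this gives `φ v ≤ ε`.
-/

namespace Pool.Agent.Lib.MP_4e4c79_lc

open Metric

variable {L : Signature}

/-- A finite family of positive reals has a positive lower bound. -/
lemma tr1_exists_pos_le {n : ℕ} (d : Fin n → ℝ) (hd : ∀ i, 0 < d i) : ∃ δ > 0, ∀ i, δ ≤ d i := by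
  rcases isEmpty_or_nonempty (Fin n) with h | h
  · exact ⟨1, one_pos, fun i => (IsEmpty.false i).elim⟩
  · obtain ⟨i, -, hi⟩ := Finset.exists_min_image Finset.univ d Finset.univ_nonempty
    exact ⟨d i, hd i, fun j => hi j (Finset.mem_univ j)⟩

theorem Term.uc (M : Struc L) {k : ℕ} (t : Term L k) (R : ℝ) (ε : ℝ) (hε : 0 < ε) :
    ∃ δ > 0, ∀ v w : Fin k → M.carrier, (∀ i, ‖v i‖ ≤ R) → (∀ i, ‖w i‖ ≤ R) →
      (∀ i, ‖v i - w i‖ < δ) → ‖t.eval M v - t.eval M w‖ ≤ ε := by
  induction t generalizing ε with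
  | var i => exact ⟨ε, hε, fun v w _ _ h => (h i).le⟩
  | zero => exact ⟨1, one_pos, fun v w _ _ _ => by simpa [Term.eval] using hε.le⟩
  | add s t ihs iht =>
    obtain ⟨δ1, h1, H1⟩ := ihs (ε / 2) (by positivity)
    obtain ⟨δ2, h2, H2⟩ := iht (ε / 2) (by positivity)
    refine ⟨min δ1 δ2, lt_min h1 h2, fun v w hv hw h => ?_⟩
    have a1 := H1 v w hv hw fun i => (h i).trans_le (min_le_left _ _)
    have a2 := H2 v w hv hw fun i => (h i).trans_le (min_le_right _ _)
    simp only [Term.eval]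
    rw [add_sub_add_comm]
    exact (norm_add_le _ _).trans (by linarith)
  | smul c t ih =>
    obtain ⟨δ, h1, H1⟩ := ih (ε / (|c| + 1)) (by positivity)
    refine ⟨δ, h1, fun v w hv hw h => ?_⟩
    have a1 := H1 v w hv hw h
    simp only [Term.eval]
    rw [← smul_sub, norm_smul, Real.norm_eq_abs]
    calc |c| * ‖t.eval M v - t.eval M w‖ ≤ (|c| + 1) * (ε / (|c| + 1)) := by
          refine mul_le_mul (by linarith) a1 (norm_nonneg _) (by positivity)
      _ = ε := by field_simp
  | fn f ts ih =>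
    choose n hn using fun i => (ts i).eval_bound M R
    obtain ⟨K, hK⟩ : ∃ K : ℕ, ∀ i, n i ≤ K := ⟨∑ i, n i, fun i =>
      Finset.single_le_sum (fun _ _ => Nat.zero_le _) (Finset.mem_univ i)⟩
    have hd := L.fnMod_pos f K ε hε
    choose d hd0 hdd using fun i => ih i (L.fnMod f K ε / 2) (by positivity)
    obtain ⟨δ, hδ, hle⟩ := tr1_exists_pos_le d hd0
    refine ⟨δ, hδ, fun v w hv hw h => ?_⟩
    simp only [Term.eval]
    refine M.fn_uc f K ε hε _ _ (fun i => ?_) (fun i => ?_) (fun i => ?_)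
    · exact (hn i v hv).trans (by exact_mod_cast hK i)
    · exact (hn i w hw).trans (by exact_mod_cast hK i)
    · exact (hdd i v w hv hw fun j => (h j).trans_le (hle i)).trans_lt (by linarith)

theorem Formula.uc (M : Struc L) {k : ℕ} (φ : Formula L k) (R : ℝ) (ε : ℝ) (hε : 0 < ε) :
    ∃ δ > 0, ∀ v w : Fin k → M.carrier, (∀ i, ‖v i‖ ≤ R) → (∀ i, ‖w i‖ ≤ R) →
      (∀ i, ‖v i - w i‖ < δ) → |φ.eval M v - φ.eval M w| ≤ ε := by
  induction φ generalizing R ε with
  | norm t =>
    obtain ⟨δ, hδ, H⟩ := t.uc M R ε hε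
    refine ⟨δ, hδ, fun v w hv hw h => ?_⟩
    exact (abs_norm_sub_norm_le _ _).trans (H v w hv hw h)
  | rel S ts =>
    choose n hn using fun i => (ts i).eval_bound M R
    obtain ⟨K, hK⟩ : ∃ K : ℕ, ∀ i, n i ≤ K := ⟨∑ i, n i, fun i =>
      Finset.single_le_sum (fun _ _ => Nat.zero_le _) (Finset.mem_univ i)⟩
    have hd := L.relMod_pos S K ε hε
    choose d hd0 hdd using fun i => (ts i).uc M R (L.relMod S K ε / 2) (by positivity)
    obtain ⟨δ, hδ, hle⟩ := tr1_exists_pos_le d hd0
    refine ⟨δ, hδ, fun v w hv hw h => ?_⟩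
    refine M.rel_uc S K ε hε _ _ (fun i => ?_) (fun i => ?_) (fun i => ?_)
    · exact (hn i v hv).trans (by exact_mod_cast hK i)
    · exact (hn i w hw).trans (by exact_mod_cast hK i)
    · exact (hdd i v w hv hw fun j => (h j).trans_le (hle i)).trans_lt (by linarith)
  | conn m g φ ih =>
    choose B hB using fun i => (φ i).eval_bound M R
    have hcpt : IsCompact (Set.univ.pi fun i : Fin m => Set.Icc (-(B i)) (B i)) :=
      isCompact_univ_pi fun i => isCompact_Icc
    have hu := hcpt.uniformContinuousOn_of_continuous (f := g) g.continuous.continuousOn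
    obtain ⟨η, hη, H⟩ := Metric.uniformContinuousOn_iff.1 hu ε hε
    choose d hd0 hdd using fun i => ih i R (η / 2) (by positivity)
    obtain ⟨δ, hδ, hle⟩ := tr1_exists_pos_le d hd0
    refine ⟨δ, hδ, fun v w hv hw h => ?_⟩
    have h1 := H (fun i => (φ i).eval M v) (fun i _ => abs_le.1 (hB i v hv))
      (fun i => (φ i).eval M w) (fun i _ => abs_le.1 (hB i w hw)) (by
        rw [dist_pi_lt_iff hη]
        intro i
        rw [Real.dist_eq]
        exact (hdd i v w hv hw fun j => (h j).trans_le (hle i)).trans_lt (by linarith))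
    rw [Real.dist_eq] at h1
    exact h1.le
  | sup r φ ih =>
    obtain ⟨δ, hδ, H⟩ := ih (max R r) ε hε
    refine ⟨δ, hδ, ?_⟩
    have key : ∀ v w : Fin _ → M.carrier, (∀ i, ‖v i‖ ≤ R) → (∀ i, ‖w i‖ ≤ R) →
        (∀ i, ‖v i - w i‖ < δ) → (Formula.sup r φ).eval M v ≤ (Formula.sup r φ).eval M w + ε := by
      intro v w hv hw h
      refine φ.eval_sup_le M v r _ fun x hx => ?_
      have h1 := H (Fin.cons x v) (Fin.cons x w) (fun i => ?_) (fun i => ?_) (fun i => ?_)
      · have h2 := φ.le_eval_sup M w r x hx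
        linarith [(abs_le.1 h1).2]
      · refine Fin.cases ?_ (fun i => ?_) i
        · simpa using Or.inr hx
        · simpa using Or.inl (hv i)
      · refine Fin.cases ?_ (fun i => ?_) i
        · simpa using Or.inr hx
        · simpa using Or.inl (hw i)
      · refine Fin.cases ?_ (fun i => ?_) i
        · simpa using hδ
        · simpa using h i
    intro v w hv hw h
    have h1 := key v w hv hw h
    have h2 := key w v hw hv fun i => by rw [norm_sub_rev]; exact h i
    rw [abs_le]
    constructor <;> linarith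
  | inf r φ ih =>
    obtain ⟨δ, hδ, H⟩ := ih (max R r) ε hε
    refine ⟨δ, hδ, ?_⟩
    have key : ∀ v w : Fin _ → M.carrier, (∀ i, ‖v i‖ ≤ R) → (∀ i, ‖w i‖ ≤ R) →
        (∀ i, ‖v i - w i‖ < δ) → (Formula.inf r φ).eval M v ≤ (Formula.inf r φ).eval M w + ε := by
      intro v w hv hw h
      rw [← sub_le_iff_le_add]
      refine φ.le_eval_inf M w r _ fun x hx => ?_
      have h1 := H (Fin.cons x v) (Fin.cons x w) (fun i => ?_) (fun i => ?_) (fun i => ?_)
      · have h2 := φ.eval_inf_le M v r x hx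
        linarith [(abs_le.1 h1).2]
      · refine Fin.cases ?_ (fun i => ?_) i
        · simpa using Or.inr hx
        · simpa using Or.inl (hv i)
      · refine Fin.cases ?_ (fun i => ?_) i
        · simpa using Or.inr hx
        · simpa using Or.inl (hw i)
      · refine Fin.cases ?_ (fun i => ?_) i
        · simpa using hδ
        · simpa using h i
    intro v w hv hw h
    have h1 := key v w hv hw h
    have h2 := key w v hw hv fun i => by rw [norm_sub_rev]; exact h i
    rw [abs_le]
    constructor <;> linarith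

theorem transfer_ball {M N : Struc L} (hN : IsModel N (theoryOf M)) {k : ℕ} (φ : Formula L k)
    (R : ℕ) (h : ∀ v : Fin k → M.carrier, (∀ i, ‖v i‖ ≤ R) → φ.eval M v ≤ 0)
    (v : Fin k → N.carrier) (hv : ∀ i, ‖v i‖ ≤ R) : φ.eval N v ≤ 0 := by
  have h1 : Formula.allBall k R (Incomplete.c1 (fun x => max x 0) (by fun_prop) φ) ∈ theoryOf M := by
    change value M _ = 0
    rw [Formula.value_allBall_eq_zero _ _ _ fun v _ => by
      rw [Incomplete.eval_c1]; exact le_max_right _ _]
    intro v hv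
    rw [Incomplete.eval_c1, max_eq_right (h v hv)]
  have h2 := hN _ h1
  rw [Formula.value_allBall_eq_zero _ _ _ fun v _ => by
    rw [Incomplete.eval_c1]; exact le_max_right _ _] at h2
  have h3 := h2 v hv
  rw [Incomplete.eval_c1] at h3
  have := le_max_left (φ.eval N v) 0
  linarith

theorem transfer_ex {M N : Struc L} (hN : IsModel N (theoryOf M)) {k : ℕ}
    (φ : Formula L (k + 1)) (R r : ℕ)
    (h : ∀ v : Fin k → M.carrier, (∀ i, ‖v i‖ ≤ R) → ∀ ε > 0,
      ∃ w, ‖w‖ ≤ r ∧ φ.eval M (Fin.cons w v) ≤ ε)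
    (v : Fin k → N.carrier) (hv : ∀ i, ‖v i‖ ≤ R) (ε : ℝ) (hε : 0 < ε) :
    ∃ w, ‖w‖ ≤ r ∧ φ.eval N (Fin.cons w v) ≤ ε := by
  have h1 : (Formula.inf r φ).eval N v ≤ 0 := by
    refine transfer_ball hN (Formula.inf r φ) R (fun v hv => ?_) v hv
    refine le_of_forall_pos_le_add fun ε hε => ?_
    obtain ⟨w, hw, hle⟩ := h v hv ε hε
    exact (φ.eval_inf_le M v r w hw).trans (by linarith)
  obtain ⟨w, hw, hlt⟩ := φ.exists_lt_of_eval_inf_lt N v r ε (h1.trans_lt hε)
  exact ⟨w, hw, hlt.le⟩

/-- Renaming of the variables of a term. -/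
def Term.tr1Rename {k l : ℕ} (f : Fin k → Fin l) : Term L k → Term L l
  | .var i => .var (f i)
  | .zero => .zero
  | .add s t => .add (s.tr1Rename f) (t.tr1Rename f)
  | .smul c t => .smul c (t.tr1Rename f)
  | .fn g ts => .fn g fun i => (ts i).tr1Rename f

lemma Term.eval_tr1Rename (M : Struc L) {k l : ℕ} (f : Fin k → Fin l) (t : Term L k)
    (v : Fin l → M.carrier) : (t.tr1Rename f).eval M v = t.eval M (fun i => v (f i)) := by
  induction t with
  | var i => rfl
  | zero => rfl
  | add s t ihs iht => simp only [Term.tr1Rename, Term.eval, ihs, iht]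
  | smul c t ih => simp only [Term.tr1Rename, Term.eval, ih]
  | fn g ts ih => simp only [Term.tr1Rename, Term.eval, ih]

/-- Renaming of the variables of a formula. -/
def Formula.tr1Rename : {k l : ℕ} → (Fin k → Fin l) → Formula L k → Formula L l
  | _, _, f, .norm t => .norm (t.tr1Rename f)
  | _, _, f, .rel R ts => .rel R fun i => (ts i).tr1Rename f
  | _, _, f, .conn m g φ => .conn m g fun i => (φ i).tr1Rename f
  | _, _, f, .sup r φ => .sup r (φ.tr1Rename (Fin.cons 0 fun i => (f i).succ))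
  | _, _, f, .inf r φ => .inf r (φ.tr1Rename (Fin.cons 0 fun i => (f i).succ))

lemma tr1_cons_rename {α : Type} {k l : ℕ} (f : Fin k → Fin l) (v : Fin l → α) (x : α) :
    (fun i => (Fin.cons x v : Fin (l + 1) → α)
      ((Fin.cons 0 fun i => (f i).succ : Fin (k + 1) → Fin (l + 1)) i)) =
      Fin.cons x (fun i => v (f i)) := by
  funext i
  refine Fin.cases ?_ (fun i => ?_) i
  · simp
  · simp

lemma Formula.eval_tr1Rename (M : Struc L) {k : ℕ} (φ : Formula L k) :
    ∀ {l : ℕ} (f : Fin k → Fin l) (v : Fin l → M.carrier),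
      (φ.tr1Rename f).eval M v = φ.eval M (fun i => v (f i)) := by
  induction φ with
  | norm t => intro l f v; simp only [Formula.tr1Rename, Formula.eval, Term.eval_tr1Rename]
  | rel R ts => intro l f v; simp only [Formula.tr1Rename, Formula.eval, Term.eval_tr1Rename]
  | conn m g φ ih => intro l f v; simp only [Formula.tr1Rename, Formula.eval, ih]
  | sup r φ ih =>
    intro l f v
    simp only [Formula.tr1Rename, Formula.eval]
    refine iSup_congr fun x => ?_
    rw [ih, tr1_cons_rename]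
  | inf r φ ih =>
    intro l f v
    simp only [Formula.tr1Rename, Formula.eval]
    refine iInf_congr fun x => ?_
    rw [ih, tr1_cons_rename]

/-- Universal statements about the zeros of a unary predicate `χ` (whose zero set in `M` has `χ` as
distance function). -/
theorem transfer_zero {M N : Struc L} (hN : IsModel N (theoryOf M)) {k : ℕ} (χ : Formula L 1)
    (hχ : ∀ x : M.carrier, ∀ ε > 0, ∃ d : M.carrier, χ.eval M (fun _ => d) = 0 ∧
      ‖x - d‖ ≤ χ.eval M (fun _ => x) + ε)
    (φ : Formula L (k + 1))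
    (h : ∀ (v : Fin k → M.carrier) (d : M.carrier), χ.eval M (fun _ => d) = 0 →
      φ.eval M (Fin.cons d v) ≤ 0)
    (v : Fin k → N.carrier) (d : N.carrier) (hd : χ.eval N (fun _ => d) = 0) :
    φ.eval N (Fin.cons d v) ≤ 0 := by
  obtain ⟨R, hR⟩ : ∃ R : ℕ, ∀ i, ‖(Fin.cons d v : Fin (k + 1) → N.carrier) i‖ ≤ R := by
    obtain ⟨r, hr⟩ := exists_nat_ge (∑ i, ‖(Fin.cons d v : Fin (k + 1) → N.carrier) i‖)
    exact ⟨r, fun i => (Finset.single_le_sum
      (f := fun i => ‖(Fin.cons d v : Fin (k + 1) → N.carrier) i‖)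
      (fun _ _ => norm_nonneg _) (Finset.mem_univ i)).trans hr⟩
  refine le_of_forall_pos_le_add fun ε hε => ?_
  obtain ⟨δ0, hδ0, H0⟩ := φ.uc M (R + 1) ε hε
  obtain ⟨δ, hδ, hδ1, hδ2⟩ : ∃ δ : ℝ, 0 < δ ∧ δ ≤ 1 ∧ δ ≤ δ0 :=
    ⟨min 1 δ0, lt_min one_pos hδ0, min_le_left _ _, min_le_right _ _⟩
  have key : ∀ u : Fin (k + 1) → M.carrier, (∀ i, ‖u i‖ ≤ R) →
      (Incomplete.c2 (fun a b => min (a - ε) (δ / 2 - b)) (by fun_prop) φ
        (χ.tr1Rename fun _ => 0)).eval M u ≤ 0 := by
    intro u hu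
    rw [Incomplete.eval_c2, Formula.eval_tr1Rename]
    rcases le_or_gt (δ / 2) (χ.eval M fun _ => u 0) with hc | hc
    · exact (min_le_right _ _).trans (by linarith)
    · refine (min_le_left _ _).trans ?_
      obtain ⟨d', hd', hle⟩ := hχ (u 0) (δ / 2) (by positivity)
      have hdist : ‖u 0 - d'‖ < δ := by linarith
      have h1 := H0 u (Fin.cons d' (Fin.tail u)) (fun i => (hu i).trans (by linarith))
        (fun i => ?_) (fun i => ?_)
      · have h2 := h (Fin.tail u) d' hd'
        linarith [(abs_le.1 h1).2]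
      · refine Fin.cases ?_ (fun i => ?_) i
        · rw [Fin.cons_zero]
          have : ‖d'‖ ≤ ‖u 0‖ + ‖u 0 - d'‖ := by
            have := norm_sub_le (u 0) (u 0 - d')
            rwa [sub_sub_cancel] at this
          have := hu 0
          linarith
        · rw [Fin.cons_succ]
          exact (hu i.succ).trans (by linarith)
      · refine Fin.cases ?_ (fun i => ?_) i
        · rw [Fin.cons_zero]
          linarith
        · rw [Fin.cons_succ]
          change ‖u i.succ - u i.succ‖ < δ0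
          rw [sub_self, norm_zero]
          exact hδ0
  have h1 := transfer_ball hN _ R key (Fin.cons d v) hR
  rw [Incomplete.eval_c2, Formula.eval_tr1Rename, Fin.cons_zero, hd, sub_zero] at h1
  rcases min_le_iff.1 h1 with h2 | h2
  · linarith
  · linarith

/-- Universal-existential statements, the first universal variable restricted to the zeros of `χ`. -/
theorem transfer_zero_ex {M N : Struc L} (hN : IsModel N (theoryOf M)) {k : ℕ} (χ : Formula L 1)
    (hχ : ∀ x : M.carrier, ∀ ε > 0, ∃ d : M.carrier, χ.eval M (fun _ => d) = 0 ∧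
      ‖x - d‖ ≤ χ.eval M (fun _ => x) + ε)
    (φ : Formula L (k + 1 + 1)) (r : ℕ)
    (h : ∀ (v : Fin k → M.carrier) (d : M.carrier), χ.eval M (fun _ => d) = 0 → ∀ ε > 0,
      ∃ w, ‖w‖ ≤ r ∧ φ.eval M (Fin.cons w (Fin.cons d v)) ≤ ε)
    (v : Fin k → N.carrier) (d : N.carrier) (hd : χ.eval N (fun _ => d) = 0) (ε : ℝ)
    (hε : 0 < ε) :
    ∃ w, ‖w‖ ≤ r ∧ φ.eval N (Fin.cons w (Fin.cons d v)) ≤ ε := by
  have h1 : (Formula.inf r φ).eval N (Fin.cons d v) ≤ 0 := by
    refine transfer_zero hN χ hχ (Formula.inf r φ) (fun v d hd => ?_) v d hd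
    refine le_of_forall_pos_le_add fun ε hε => ?_
    obtain ⟨w, hw, hle⟩ := h v d hd ε hε
    exact (φ.eval_inf_le M _ r w hw).trans (by linarith)
  obtain ⟨w, hw, hlt⟩ := φ.exists_lt_of_eval_inf_lt N _ r ε (h1.trans_lt hε)
  exact ⟨w, hw, hlt.le⟩

end Pool.Agent.Lib.MP_4e4c79_lc
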