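import Mathlib
import Pool.Agent.Lib.MP_4e4c79_lc.Cc.Ops
import Pool.Agent.Lib.MP_4e4c79_lc.Cc.Tr1

/-!
# Module FA1.  Identities between terms.

Every statement is an identity of terms: prove it in `D.X` (`Dat.X_ext`, the lemmas `Dat.kc_…`,
`Dat.snd_…`, `Dat.sc_…`; most linearity statements are already in `Cc.Build`, e.g. `Dat.PP_add`) and
transfer it with `transfer_term` (terms `tP`, `tK`, `tM`, `.add`, `.smul`, `.var`, lemmas `eval_tP` …;
for `t : ℝ` the number is a coefficient).  `oP D.str = Dat.PP` etc. by `rfl` (`oP_str` …).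
Example of a transfer: see `Pool/Agent/Lib/MP_4e4c79_lc/Facts.lean`, `Models.lean`.
`sc (PP true y) (inr b) = y.snd (inl b.1)`, `sc (PP true y) (inl a) = y.snd (inl a)`,
`sc (PP false y) (inr b) = y.snd (inr b)`, `sc (PP false y) (inl a) = 0`, `sc (mu y y') z` for `y, y'` in
the same sort is the product of the values of `sc`.
-/

namespace Pool.Agent.Lib.MP_4e4c79_lc.Cc

open Pool.Agent.Lib.MP_4e4c79_lc Complete Finset
open scoped ENNReal
attribute [local instance] Classical.propDecidable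
set_option linter.unusedSectionVars false
set_option linter.unusedSimpArgs false

noncomputable section

variable {D : Dat} {N : Struc sg}

namespace Dat

lemma fa1_kc_zero (m : ℕ) (b : D.A × ℕ) : kc (0 : D.X) m b = 0 := rfl

lemma fa1_snd_zero (z : D.Pt) : (0 : D.X).snd z = 0 := rfl

lemma fa1_sc_inl (y : D.X) (a : D.A) : sc y (.inl a) = y.snd (.inl a) := rfl

lemma fa1_sc_inr (y : D.X) (b : D.A × ℕ) :
    sc y (.inr b) = y.snd (.inl b.1) + y.snd (.inr b) := rfl

lemma fa1_kc_KK (m n : ℕ) (x : D.X) (b : D.A × ℕ) :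
    kc (KK m x) n b = if n = m then kc x n b else 0 := by
  split_ifs with h
  · subst h
    exact kc_KK_self n x b
  · exact kc_KK_ne h x b

lemma fa1_P_P (σ : Bool) (x : D.X) : PP σ (PP σ x) = PP σ x := by
  refine X_ext (fun m b => rfl) fun z => ?_
  rw [snd_PP, snd_PP]
  split_ifs <;> rfl

lemma fa1_P_P' (σ : Bool) (x : D.X) : PP σ (PP (!σ) x) = 0 := by
  refine X_ext (fun m b => rfl) fun z => ?_
  rw [snd_PP, snd_PP, fa1_snd_zero]
  split_ifs with h1 h2
  · rw [h1] at h2
    cases σ <;> simp at h2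
  · rfl
  · rfl

lemma fa1_P_K (σ : Bool) (m : ℕ) (x : D.X) : PP σ (KK m x) = 0 := by
  refine X_ext (fun m b => rfl) fun z => ?_
  rw [snd_PP, snd_KK, fa1_snd_zero]
  split_ifs <;> rfl

lemma fa1_K_P (m : ℕ) (σ : Bool) (x : D.X) : KK m (PP σ x) = 0 := by
  refine X_ext (fun n b => ?_) fun z => rfl
  rw [fa1_kc_KK, kc_PP, fa1_kc_zero]
  split_ifs <;> rfl

lemma fa1_K_K (m : ℕ) (x : D.X) : KK m (KK m x) = KK m x := by
  refine X_ext (fun n b => ?_) fun z => rfl
  rw [fa1_kc_KK, fa1_kc_KK]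
  split_ifs <;> rfl

lemma fa1_K_K' (m m' : ℕ) (x : D.X) (h : m ≠ m') : KK m (KK m' x) = 0 := by
  refine X_ext (fun n b => ?_) fun z => rfl
  rw [fa1_kc_KK, fa1_kc_KK, fa1_kc_zero]
  split_ifs with h1 h2
  · exact absurd (h1.symm.trans h2) h
  · rfl
  · rfl

lemma fa1_M_comm (y y' x : D.X) : mu y (mu y' x) = mu y' (mu y x) := by
  refine X_ext (fun n b => ?_) fun z => ?_
  · rw [kc_mu, kc_mu, kc_mu, kc_mu, smul_comm]
  · rw [snd_mu, snd_mu, snd_mu, snd_mu]
    ring

lemma fa1_sc_split (y : D.X) (z : D.Pt) : sc y z = sc (PP true y) z + sc (PP false y) z := by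
  match z with
  | .inl a =>
    rw [fa1_sc_inl, fa1_sc_inl, fa1_sc_inl, snd_PP, snd_PP]
    simp
  | .inr b =>
    rw [fa1_sc_inr, fa1_sc_inr, fa1_sc_inr, snd_PP, snd_PP, snd_PP, snd_PP]
    simp

lemma fa1_M_split (y x : D.X) : mu y x = mu (PP true y) x + mu (PP false y) x := by
  refine X_ext (fun n b => ?_) fun z => ?_
  · rw [kc_add, kc_mu, kc_mu, kc_mu, fa1_sc_split, add_smul]
  · rw [snd_add, snd_mu, snd_mu, snd_mu, fa1_sc_split, add_mul]

lemma fa1_P_M (σ : Bool) (y x : D.X) : PP σ (mu y x) = mu y (PP σ x) := by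
  refine X_ext (fun n b => ?_) fun z => ?_
  · rw [kc_mu, kc_PP, kc_PP, smul_zero]
  · rw [snd_mu, snd_PP, snd_PP, snd_mu]
    split_ifs <;> simp

lemma fa1_K_M (m : ℕ) (y x : D.X) : KK m (mu y x) = mu y (KK m x) := by
  refine X_ext (fun n b => ?_) fun z => ?_
  · rw [kc_mu, fa1_kc_KK, fa1_kc_KK, kc_mu]
    split_ifs <;> simp
  · rw [snd_mu, snd_KK, snd_KK, mul_zero]

lemma fa1_sc_assoc (σ : Bool) (y y' : D.X) (z : D.Pt) :
    sc (mu (PP σ y) (PP σ y')) z = sc (PP σ y) z * sc (PP σ y') z := by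
  match z with
  | .inl a => rw [fa1_sc_inl (mu _ _), snd_mu, fa1_sc_inl (PP σ y')]
  | .inr b =>
    rw [fa1_sc_inr (mu _ _), snd_mu, snd_mu, fa1_sc_inl, fa1_sc_inr, fa1_sc_inr, snd_PP, snd_PP,
      snd_PP, snd_PP]
    cases σ <;> simp

lemma fa1_M_assoc (σ : Bool) (y y' x : D.X) :
    mu (mu (PP σ y) (PP σ y')) x = mu (PP σ y) (mu (PP σ y') x) := by
  refine X_ext (fun n b => ?_) fun z => ?_
  · rw [kc_mu, kc_mu, kc_mu, fa1_sc_assoc, mul_smul]
  · rw [snd_mu, snd_mu, snd_mu, fa1_sc_assoc, mul_assoc]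

lemma fa1_sc_assoc' (y y' : D.X) (z : D.Pt) :
    sc (mu (PP true y) (PP false y')) z = sc (PP true y) z * sc (PP false y') z := by
  match z with
  | .inl a => rw [fa1_sc_inl (mu _ _), snd_mu, fa1_sc_inl (PP false y')]
  | .inr b =>
    rw [fa1_sc_inr (mu _ _), snd_mu, snd_mu, fa1_sc_inl, fa1_sc_inr, fa1_sc_inr, snd_PP, snd_PP,
      snd_PP, snd_PP]
    simp

lemma fa1_M_assoc' (y y' x : D.X) :
    mu (mu (PP true y) (PP false y')) x = mu (PP true y) (mu (PP false y') x) := by
  refine X_ext (fun n b => ?_) fun z => ?_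
  · rw [kc_mu, kc_mu, kc_mu, fa1_sc_assoc', mul_smul]
  · rw [snd_mu, snd_mu, snd_mu, fa1_sc_assoc', mul_assoc]

lemma fa1_M_symm (σ : Bool) (y y' : D.X) :
    mu (PP σ y) (PP σ y') = mu (PP σ y') (PP σ y) := by
  refine X_ext (fun n b => ?_) fun z => ?_
  · rw [kc_mu, kc_mu, kc_PP, kc_PP, smul_zero, smul_zero]
  · rw [snd_mu, snd_mu]
    match z with
    | .inl a =>
      rw [fa1_sc_inl, fa1_sc_inl, mul_comm]
    | .inr b =>
      rw [fa1_sc_inr, fa1_sc_inr, snd_PP, snd_PP, snd_PP, snd_PP]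
      cases σ
      · simp [mul_comm]
      · simp

end Dat

theorem F_P_add (hN : IsModel N (theoryOf D.str)) : ∀ σ x y, oP N σ (x + y) = oP N σ x + oP N σ y := by
  intro σ x y
  have h := transfer_term hN (k := 2) (tP σ (.add (.var 0) (.var 1))) (.add (tP σ (.var 0)) (tP σ (.var 1))) (fun v => by
    simp only [eval_tP, eval_tK, eval_tM, Term.eval]
    exact Dat.PP_add σ (v 0) (v 1)) ![x, y]
  simp only [eval_tP, eval_tK, eval_tM, Term.eval] at h
  exact h

theorem F_P_smul (hN : IsModel N (theoryOf D.str)) : ∀ σ (t : ℝ) x, oP N σ (t • x) = t • oP N σ x := by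
  intro σ t x
  have h := transfer_term hN (k := 1) (tP σ (.smul t (.var 0))) (.smul t (tP σ (.var 0))) (fun v => by
    simp only [eval_tP, eval_tK, eval_tM, Term.eval]
    exact Dat.PP_smul σ t (v 0)) ![x]
  simp only [eval_tP, eval_tK, eval_tM, Term.eval] at h
  exact h

theorem F_K_add (hN : IsModel N (theoryOf D.str)) : ∀ m x y, oK N m (x + y) = oK N m x + oK N m y := by
  intro m x y
  have h := transfer_term hN (k := 2) (tK m (.add (.var 0) (.var 1))) (.add (tK m (.var 0)) (tK m (.var 1))) (fun v => by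
    simp only [eval_tP, eval_tK, eval_tM, Term.eval]
    exact Dat.KK_add m (v 0) (v 1)) ![x, y]
  simp only [eval_tP, eval_tK, eval_tM, Term.eval] at h
  exact h

theorem F_K_smul (hN : IsModel N (theoryOf D.str)) : ∀ m (t : ℝ) x, oK N m (t • x) = t • oK N m x := by
  intro m t x
  have h := transfer_term hN (k := 1) (tK m (.smul t (.var 0))) (.smul t (tK m (.var 0))) (fun v => by
    simp only [eval_tP, eval_tK, eval_tM, Term.eval]
    exact Dat.KK_smul m t (v 0)) ![x]
  simp only [eval_tP, eval_tK, eval_tM, Term.eval] at h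
  exact h

theorem F_M_add_left (hN : IsModel N (theoryOf D.str)) : ∀ x y z, oM N (x + y) z = oM N x z + oM N y z := by
  intro x y z
  have h := transfer_term hN (k := 3) (tM (.add (.var 0) (.var 1)) (.var 2)) (.add (tM (.var 0) (.var 2)) (tM (.var 1) (.var 2))) (fun v => by
    simp only [eval_tP, eval_tK, eval_tM, Term.eval]
    exact Dat.mu_add_left (v 0) (v 1) (v 2)) ![x, y, z]
  simp only [eval_tP, eval_tK, eval_tM, Term.eval] at h
  exact h

theorem F_M_smul_left (hN : IsModel N (theoryOf D.str)) : ∀ (t : ℝ) x y, oM N (t • x) y = t • oM N x y := by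
  intro t x y
  have h := transfer_term hN (k := 2) (tM (.smul t (.var 0)) (.var 1)) (.smul t (tM (.var 0) (.var 1))) (fun v => by
    simp only [eval_tP, eval_tK, eval_tM, Term.eval]
    exact Dat.mu_smul_left t (v 0) (v 1)) ![x, y]
  simp only [eval_tP, eval_tK, eval_tM, Term.eval] at h
  exact h

theorem F_M_add_right (hN : IsModel N (theoryOf D.str)) : ∀ x y z, oM N x (y + z) = oM N x y + oM N x z := by
  intro x y z
  have h := transfer_term hN (k := 3) (tM (.var 0) (.add (.var 1) (.var 2))) (.add (tM (.var 0) (.var 1)) (tM (.var 0) (.var 2))) (fun v => by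
    simp only [eval_tP, eval_tK, eval_tM, Term.eval]
    exact Dat.mu_add_right (v 0) (v 1) (v 2)) ![x, y, z]
  simp only [eval_tP, eval_tK, eval_tM, Term.eval] at h
  exact h

theorem F_M_smul_right (hN : IsModel N (theoryOf D.str)) : ∀ (t : ℝ) x y, oM N x (t • y) = t • oM N x y := by
  intro t x y
  have h := transfer_term hN (k := 2) (tM (.var 0) (.smul t (.var 1))) (.smul t (tM (.var 0) (.var 1))) (fun v => by
    simp only [eval_tP, eval_tK, eval_tM, Term.eval]
    exact Dat.mu_smul_right t (v 0) (v 1)) ![x, y]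
  simp only [eval_tP, eval_tK, eval_tM, Term.eval] at h
  exact h

theorem F_P_P (hN : IsModel N (theoryOf D.str)) : ∀ σ x, oP N σ (oP N σ x) = oP N σ x := by
  intro σ x
  have h := transfer_term hN (k := 1) (tP σ (tP σ (.var 0))) (tP σ (.var 0)) (fun v => by
    simp only [eval_tP, eval_tK, eval_tM, Term.eval]
    exact Dat.fa1_P_P σ (v 0)) ![x]
  simp only [eval_tP, eval_tK, eval_tM, Term.eval] at h
  exact h

theorem F_P_P' (hN : IsModel N (theoryOf D.str)) : ∀ σ x, oP N σ (oP N (!σ) x) = 0 := by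
  intro σ x
  have h := transfer_term hN (k := 1) (tP σ (tP (!σ) (.var 0))) .zero (fun v => by
    simp only [eval_tP, eval_tK, eval_tM, Term.eval]
    exact Dat.fa1_P_P' σ (v 0)) ![x]
  simp only [eval_tP, eval_tK, eval_tM, Term.eval] at h
  exact h

theorem F_P_K (hN : IsModel N (theoryOf D.str)) : ∀ σ m x, oP N σ (oK N m x) = 0 := by
  intro σ m x
  have h := transfer_term hN (k := 1) (tP σ (tK m (.var 0))) .zero (fun v => by
    simp only [eval_tP, eval_tK, eval_tM, Term.eval]
    exact Dat.fa1_P_K σ m (v 0)) ![x]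
  simp only [eval_tP, eval_tK, eval_tM, Term.eval] at h
  exact h

theorem F_K_P (hN : IsModel N (theoryOf D.str)) : ∀ m σ x, oK N m (oP N σ x) = 0 := by
  intro m σ x
  have h := transfer_term hN (k := 1) (tK m (tP σ (.var 0))) .zero (fun v => by
    simp only [eval_tP, eval_tK, eval_tM, Term.eval]
    exact Dat.fa1_K_P m σ (v 0)) ![x]
  simp only [eval_tP, eval_tK, eval_tM, Term.eval] at h
  exact h

theorem F_K_K (hN : IsModel N (theoryOf D.str)) : ∀ m x, oK N m (oK N m x) = oK N m x := by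
  intro m x
  have h := transfer_term hN (k := 1) (tK m (tK m (.var 0))) (tK m (.var 0)) (fun v => by
    simp only [eval_tP, eval_tK, eval_tM, Term.eval]
    exact Dat.fa1_K_K m (v 0)) ![x]
  simp only [eval_tP, eval_tK, eval_tM, Term.eval] at h
  exact h

theorem F_K_K' (hN : IsModel N (theoryOf D.str)) : ∀ m m' x, m ≠ m' → oK N m (oK N m' x) = 0 := by
  intro m m' x hm
  have h := transfer_term hN (k := 1) (tK m (tK m' (.var 0))) .zero (fun v => by
    simp only [eval_tP, eval_tK, eval_tM, Term.eval]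
    exact Dat.fa1_K_K' m m' (v 0) hm) ![x]
  simp only [eval_tP, eval_tK, eval_tM, Term.eval] at h
  exact h

theorem F_M_comm (hN : IsModel N (theoryOf D.str)) : ∀ y y' x, oM N y (oM N y' x) = oM N y' (oM N y x) := by
  intro y y' x
  have h := transfer_term hN (k := 3) (tM (.var 0) (tM (.var 1) (.var 2))) (tM (.var 1) (tM (.var 0) (.var 2))) (fun v => by
    simp only [eval_tP, eval_tK, eval_tM, Term.eval]
    exact Dat.fa1_M_comm (v 0) (v 1) (v 2)) ![y, y', x]
  simp only [eval_tP, eval_tK, eval_tM, Term.eval] at h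
  exact h

theorem F_M_split (hN : IsModel N (theoryOf D.str)) : ∀ y x, oM N y x = oM N (oP N true y) x + oM N (oP N false y) x := by
  intro y x
  have h := transfer_term hN (k := 2) (tM (.var 0) (.var 1)) (.add (tM (tP true (.var 0)) (.var 1)) (tM (tP false (.var 0)) (.var 1))) (fun v => by
    simp only [eval_tP, eval_tK, eval_tM, Term.eval]
    exact Dat.fa1_M_split (v 0) (v 1)) ![y, x]
  simp only [eval_tP, eval_tK, eval_tM, Term.eval] at h
  exact h

theorem F_P_M (hN : IsModel N (theoryOf D.str)) : ∀ σ y x, oP N σ (oM N y x) = oM N y (oP N σ x) := by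
  intro σ y x
  have h := transfer_term hN (k := 2) (tP σ (tM (.var 0) (.var 1))) (tM (.var 0) (tP σ (.var 1))) (fun v => by
    simp only [eval_tP, eval_tK, eval_tM, Term.eval]
    exact Dat.fa1_P_M σ (v 0) (v 1)) ![y, x]
  simp only [eval_tP, eval_tK, eval_tM, Term.eval] at h
  exact h

theorem F_K_M (hN : IsModel N (theoryOf D.str)) : ∀ m y x, oK N m (oM N y x) = oM N y (oK N m x) := by
  intro m y x
  have h := transfer_term hN (k := 2) (tK m (tM (.var 0) (.var 1))) (tM (.var 0) (tK m (.var 1))) (fun v => by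
    simp only [eval_tP, eval_tK, eval_tM, Term.eval]
    exact Dat.fa1_K_M m (v 0) (v 1)) ![y, x]
  simp only [eval_tP, eval_tK, eval_tM, Term.eval] at h
  exact h

theorem F_M_assoc (hN : IsModel N (theoryOf D.str)) : ∀ σ y y' x,
    oM N (oM N (oP N σ y) (oP N σ y')) x = oM N (oP N σ y) (oM N (oP N σ y') x) := by
  intro σ y y' x
  have h := transfer_term hN (k := 3) (tM (tM (tP σ (.var 0)) (tP σ (.var 1))) (.var 2)) (tM (tP σ (.var 0)) (tM (tP σ (.var 1)) (.var 2))) (fun v => by
    simp only [eval_tP, eval_tK, eval_tM, Term.eval]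
    exact Dat.fa1_M_assoc σ (v 0) (v 1) (v 2)) ![y, y', x]
  simp only [eval_tP, eval_tK, eval_tM, Term.eval] at h
  exact h

theorem F_M_assoc' (hN : IsModel N (theoryOf D.str)) : ∀ y y' x,
    oM N (oM N (oP N true y) (oP N false y')) x = oM N (oP N true y) (oM N (oP N false y') x) := by
  intro y y' x
  have h := transfer_term hN (k := 3) (tM (tM (tP true (.var 0)) (tP false (.var 1))) (.var 2)) (tM (tP true (.var 0)) (tM (tP false (.var 1)) (.var 2))) (fun v => by
    simp only [eval_tP, eval_tK, eval_tM, Term.eval]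
    exact Dat.fa1_M_assoc' (v 0) (v 1) (v 2)) ![y, y', x]
  simp only [eval_tP, eval_tK, eval_tM, Term.eval] at h
  exact h

theorem F_M_symm (hN : IsModel N (theoryOf D.str)) : ∀ σ y y', oM N (oP N σ y) (oP N σ y') = oM N (oP N σ y') (oP N σ y) := by
  intro σ y y'
  have h := transfer_term hN (k := 2) (tM (tP σ (.var 0)) (tP σ (.var 1))) (tM (tP σ (.var 1)) (tP σ (.var 0))) (fun v => by
    simp only [eval_tP, eval_tK, eval_tM, Term.eval]
    exact Dat.fa1_M_symm σ (v 0) (v 1)) ![y, y']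
  simp only [eval_tP, eval_tK, eval_tM, Term.eval] at h
  exact h

end

end Pool.Agent.Lib.MP_4e4c79_lc.Cc
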