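import Mathlib
import Pool.Agent.Lib.MP_4e4c79_lc.Cc.Ops
import Pool.Agent.Lib.MP_4e4c79_lc.Cc.Tr1

/-!
# Module FA2.  The norm and the form.
-/

namespace Pool.Agent.Lib.MP_4e4c79_lc.Cc

open Pool.Agent.Lib.MP_4e4c79_lc Complete Finset
open scoped ENNReal
attribute [local instance] Classical.propDecidable
set_option linter.unusedSectionVars false

noncomputable section

variable {D : Dat} {N : Struc sg}

namespace Dat.FA2

open Dat

/-! ### Facts in `D.X` -/

lemma PP_norm (σ : Bool) (x : D.X) : ‖PP σ x‖ = ‖mask (srt σ) x.snd‖ := toLp_zero_left_norm _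

lemma KK_norm (m : ℕ) (x : D.X) : ‖KK m x‖ = ‖x.fst m‖ := by
  unfold KK
  rw [toLp_zero_right_norm, lp.norm_single (by norm_num)]

lemma snd_split (x : D.X) : ‖x.snd‖ ^ 2 = ‖PP true x‖ ^ 2 + ‖PP false x‖ ^ 2 := by
  rw [PP_norm, PP_norm, mask_pyth (srt true) x.snd]
  have h : x.snd - mask (srt true) x.snd = mask (srt false) x.snd := by
    ext z
    rw [lp.coeFn_sub, Pi.sub_apply, mask_apply, mask_apply]
    rcases z with a | b
    · rw [if_pos (show (Sum.inl a : D.Pt) ∈ srt true from rfl),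
        if_neg (show ¬ (Sum.inl a : D.Pt) ∈ srt false from fun h => by cases h)]
      exact sub_self _
    · rw [if_neg (show ¬ (Sum.inr b : D.Pt) ∈ srt true from fun h => by cases h),
        if_pos (show (Sum.inr b : D.Pt) ∈ srt false from rfl)]
      exact sub_zero _
  rw [h]
  ring

/-- The remainder, as a difference. -/
def rX (n : ℕ) (x : D.X) : D.X := x - PP true x - PP false x - ∑ m ∈ range n, KK m x

lemma rX_zero (x : D.X) : rX 0 x = x - PP true x - PP false x := by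
  unfold rX
  rw [range_zero, sum_empty, sub_zero]

lemma rX_succ (n : ℕ) (x : D.X) : rX (n + 1) x = rX n x - KK n x := by
  unfold rX
  rw [sum_range_succ]
  abel

/-- The remainder. -/
def rs (n : ℕ) (x : D.X) : D.X := WithLp.toLp 2 (mask {m | n ≤ m} x.fst, 0)

lemma kc_rs (n : ℕ) (x : D.X) (m : ℕ) (b : D.A × ℕ) :
    kc (rs n x) m b = if n ≤ m then kc x m b else 0 := by
  change RN.to (mask {m | n ≤ m} x.fst m) b = _
  rw [mask_apply]
  by_cases h : n ≤ m
  · rw [if_pos h, if_pos (show m ∈ {m | n ≤ m} from h)]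
    rfl
  · rw [if_neg h, if_neg (show ¬ m ∈ {m | n ≤ m} from h)]
    rfl

lemma rX_eq (n : ℕ) (x : D.X) : rX n x = rs n x := by
  induction n with
  | zero =>
    rw [rX_zero]
    refine X_ext (fun m b => ?_) fun z => ?_
    · rw [kc_sub, kc_sub, kc_PP, kc_PP, kc_rs, if_pos (Nat.zero_le _), sub_zero, sub_zero]
    · rw [snd_sub, snd_sub, snd_PP, snd_PP]
      change _ = (0 : ℝ)
      rcases z with a | b <;> simp
  | succ n ih =>
    rw [rX_succ, ih]
    refine X_ext (fun m b => ?_) fun z => ?_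
    · rw [kc_sub, kc_rs, kc_rs]
      by_cases h : m = n
      · subst h
        rw [kc_KK_self, if_pos le_rfl, if_neg (by omega), sub_self]
      · rw [kc_KK_ne h, sub_zero]
        by_cases h' : n ≤ m
        · rw [if_pos h', if_pos (by omega)]
        · rw [if_neg h', if_neg (by omega)]
    · rw [snd_sub, snd_KK, sub_zero]
      rfl

lemma rest_eq (n : ℕ) (x : D.X) : rest D.str n x = rs n x := rX_eq n x

lemma rs_norm (n : ℕ) (x : D.X) : ‖rs n x‖ = ‖mask {m | n ≤ m} x.fst‖ :=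
  toLp_zero_right_norm _

lemma fst_split (n : ℕ) (x : D.X) :
    ‖x.fst‖ ^ 2 = ∑ m ∈ range n, ‖KK m x‖ ^ 2 + ‖rs n x‖ ^ 2 := by
  rw [rs_norm, mask_pyth {m | n ≤ m} x.fst]
  congr 1
  rw [← tsum_sq, tsum_eq_sum (s := range n)]
  · refine sum_congr rfl fun m hm => ?_
    rw [KK_norm, lp.coeFn_sub, Pi.sub_apply, mask_apply,
      if_neg (show ¬ m ∈ {m | n ≤ m} from not_le.2 (mem_range.1 hm)), sub_zero]
  · intro m hm
    rw [lp.coeFn_sub, Pi.sub_apply, mask_apply,
      if_pos (show m ∈ {m | n ≤ m} from not_lt.1 fun h => hm (mem_range.2 h)), sub_self,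
      norm_zero, zero_pow two_ne_zero]

lemma X_split (n : ℕ) (x : D.X) : ‖x‖ ^ 2 = ‖PP true x‖ ^ 2 + ‖PP false x‖ ^ 2 +
    ∑ m ∈ range n, ‖KK m x‖ ^ 2 + ‖rs n x‖ ^ 2 := by
  rw [X_norm_sq, snd_split, fst_split n]
  ring

lemma X_split' (n : ℕ) (x : D.X) : ‖x‖ ^ 2 = ‖PP true x‖ ^ 2 + ‖PP false x‖ ^ 2 +
    ∑ m ∈ range n, ‖KK m x‖ ^ 2 + ‖rX n x‖ ^ 2 := by
  rw [rX_eq]
  exact X_split n x

/-- The form as a sum. -/
lemma B_eq (x y : D.X) : B x y =
    (∑' m, ∑' b, inner ℝ (kc x m b) (kc y m b)) + ∑' z, x.snd z * y.snd z := by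
  unfold B diagForm
  congr 1
  · refine (lp.inner_eq_tsum (𝕜 := ℝ) x.snd y.snd).trans (tsum_congr fun z => ?_)
    exact mul_comm _ _

lemma B_nonneg (x : D.X) : 0 ≤ B x x := by
  unfold B
  exact add_nonneg (tsum_nonneg fun m => bK_nonneg m _) real_inner_self_nonneg

lemma B_PP (σ : Bool) (x : D.X) : B (PP σ x) (PP σ x) = ‖PP σ x‖ ^ 2 := by
  rw [PP_norm]
  unfold B
  have h : diagForm bK (PP σ x).fst (PP σ x).fst = 0 := by
    unfold diagForm
    refine (tsum_congr fun m => ?_).trans tsum_zero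
    rw [bK_self]
    change ‖RN.to (0 : D.XK m)‖ ^ 2 = 0
    rw [map_zero, norm_zero, zero_pow two_ne_zero]
  rw [h, zero_add]
  exact real_inner_self_eq_norm_sq _

lemma B_KK_left (m : ℕ) (x y : D.X) : B (KK m x) y = bK m (x.fst m) (y.fst m) := by
  unfold B
  have h1 : inner ℝ (KK m x).snd y.snd = 0 := by
    change inner ℝ (0 : D.Y) y.snd = 0
    exact inner_zero_left _
  rw [h1, add_zero]
  unfold diagForm
  rw [tsum_eq_single m]
  · change bK m ((lp.single 2 m (x.fst m) : D.W) m) _ = _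
    rw [lp.single_apply_self]
  · intro n hn
    change bK n ((lp.single 2 m (x.fst m) : D.W) n) _ = _
    rw [lp.single_apply_ne _ _ _ hn]
    unfold bK
    rw [map_zero, inner_zero_left]

lemma fst_KK (m : ℕ) (x : D.X) : (KK m x).fst m = x.fst m := by
  change (lp.single 2 m (x.fst m) : D.W) m = _
  rw [lp.single_apply_self]

lemma B_KK_self (m : ℕ) (x : D.X) : B (KK m x) (KK m x) = ‖RN.to (x.fst m)‖ ^ 2 := by
  rw [B_KK_left, fst_KK, bK_self]

lemma KK_le (m : ℕ) (x : D.X) : ‖KK m x‖ ^ 2 ≤ (1 + DD m ^ 2) * B (KK m x) (KK m x) := by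
  rw [KK_norm, B_KK_self]
  exact RN.norm_sq_le _

lemma B_le_KK (m : ℕ) (x : D.X) : B (KK m x) (KK m x) ≤ ‖KK m x‖ ^ 2 := by
  rw [KK_norm, B_KK_self]
  exact pow_le_pow_left₀ (norm_nonneg _) (RN.to_norm_le _) 2

lemma B_KK_symm (m : ℕ) (x y : D.X) : B (KK m x) y = B x (KK m y) := by
  rw [B_symm x, B_KK_left, B_KK_left, bK_symm]

lemma B_PP_symm (σ : Bool) (x y : D.X) : B (PP σ x) y = B x (PP σ y) := by
  rw [B_eq, B_eq]
  congr 1
  · refine tsum_congr fun m => tsum_congr fun b => ?_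
    rw [kc_PP, kc_PP, inner_zero_left, inner_zero_right]
  · refine tsum_congr fun z => ?_
    rw [snd_PP, snd_PP]
    by_cases h : z.isLeft = σ
    · rw [if_pos h, if_pos h]
    · rw [if_neg h, if_neg h, zero_mul, mul_zero]

lemma B_mu (y x z : D.X) : B (mu y x) z = B x (mu y z) := by
  rw [B_eq, B_eq]
  congr 1
  · refine tsum_congr fun m => tsum_congr fun b => ?_
    rw [kc_mu, kc_mu, real_inner_smul_left, real_inner_smul_right]
  · refine tsum_congr fun z => ?_
    rw [snd_mu, snd_mu]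
    ring

end Dat.FA2

/-! ### Transfer -/

open Incomplete

/-- The square of the norm of a term. -/
def fa2_fsq {k : ℕ} (t : Term sg k) : Formula sg k := c1 (fun a => a ^ 2) (by fun_prop) (.norm t)

lemma fa2_eval_fsq {k : ℕ} (M : Struc sg) (v : Fin k → M.carrier) (t : Term sg k) :
    (fa2_fsq t).eval M v = ‖t.eval M v‖ ^ 2 := rfl

lemma fa2_eval_norm {k : ℕ} (M : Struc sg) (v : Fin k → M.carrier) (t : Term sg k) :
    (Formula.norm t).eval M v = ‖t.eval M v‖ := rfl

lemma fa2_eval_var {k : ℕ} (M : Struc sg) (v : Fin k → M.carrier) (i : Fin k) :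
    (Term.var i : Term sg k).eval M v = v i := rfl

lemma fa2_eval_add {k : ℕ} (M : Struc sg) (v : Fin k → M.carrier) (s t : Term sg k) :
    (Term.add s t).eval M v = s.eval M v + t.eval M v := rfl

lemma fa2_eval_smul {k : ℕ} (M : Struc sg) (v : Fin k → M.carrier) (c : ℝ) (t : Term sg k) :
    (Term.smul c t).eval M v = c • t.eval M v := rfl

/-- The remainder as a term. -/
def fa2_tR {k : ℕ} (n : ℕ) (t : Term sg k) : Term sg k :=
  ((t.sub (tP true t)).sub (tP false t)).sub (Term.sum n fun m => tK m t)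

lemma fa2_eval_tR {k : ℕ} (M : Struc sg) (v : Fin k → M.carrier) (n : ℕ) (t : Term sg k) :
    (fa2_tR n t).eval M v = rest M n (t.eval M v) := by
  unfold fa2_tR rest
  rw [Term.eval_sub, Term.eval_sub, Term.eval_sub, Term.eval_sum, eval_tP, eval_tP]
  congr 1
  exact sum_congr rfl fun m _ => eval_tK _ _ _

theorem F_split (hN : IsModel N (theoryOf D.str)) : ∀ n x, ‖x‖ ^ 2 = ‖oP N true x‖ ^ 2 + ‖oP N false x‖ ^ 2 +
    ∑ m ∈ range n, ‖oK N m x‖ ^ 2 + ‖rest N n x‖ ^ 2 := by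
  intro n x
  let X0 : Term sg 1 := .var 0
  have key : ∀ (M : Struc sg) (v : Fin 1 → M.carrier),
      (c4 (fun a b c d => a + b + c + d) (by fun_prop) (fa2_fsq (tP true X0)) (fa2_fsq (tP false X0))
        (Formula.sum n fun m => fa2_fsq (tK m X0)) (fa2_fsq (fa2_tR n X0))).eval M v =
      ‖oP M true (v 0)‖ ^ 2 + ‖oP M false (v 0)‖ ^ 2 +
        ∑ m ∈ range n, ‖oK M m (v 0)‖ ^ 2 + ‖rest M n (v 0)‖ ^ 2 := by
    intro M v
    rw [eval_c4, fa2_eval_fsq, fa2_eval_fsq, fa2_eval_fsq, Formula.eval_sum, eval_tP, eval_tP, fa2_eval_tR]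
    simp only [fa2_eval_fsq, eval_tK]
    rfl
  have h := transfer_eq hN (fa2_fsq X0) (c4 (fun a b c d => a + b + c + d) (by fun_prop)
    (fa2_fsq (tP true X0)) (fa2_fsq (tP false X0)) (Formula.sum n fun m => fa2_fsq (tK m X0))
    (fa2_fsq (fa2_tR n X0))) (fun v => by
      rw [key]
      exact Dat.FA2.X_split' n (v 0)) ![x]
  rw [key] at h
  exact h

theorem F_B_le (hN : IsModel N (theoryOf D.str)) : ∀ x y, |oB N x y| ≤ ‖x‖ * ‖y‖ := by
  intro x y
  have h := transfer_le hN (c1 (fun a => |a|) (by fun_prop) (fB (.var 0) (.var 1) : Formula sg 2))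
    (c2 (fun a b => a * b) (by fun_prop) (.norm (.var 0)) (.norm (.var 1)))
    (fun v => by
      rw [eval_c1, eval_c2, eval_fB]
      exact Dat.B_abs_le (v 0) (v 1)) ![x, y]
  rw [eval_c1, eval_c2, eval_fB] at h
  exact h

theorem F_B_nonneg (hN : IsModel N (theoryOf D.str)) : ∀ x, 0 ≤ oB N x x := by
  intro x
  have h := transfer_le hN (.norm .zero : Formula sg 1) (fB (.var 0) (.var 0))
    (fun v => by
      rw [eval_fB, fa2_eval_norm]
      change ‖(0 : D.X)‖ ≤ _
      rw [norm_zero]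
      exact Dat.FA2.B_nonneg (v 0)) ![x]
  rw [eval_fB, fa2_eval_norm] at h
  change ‖(0 : N.carrier)‖ ≤ _ at h
  rw [norm_zero] at h
  exact h

theorem F_B_P (hN : IsModel N (theoryOf D.str)) : ∀ σ x, oB N (oP N σ x) (oP N σ x) = ‖oP N σ x‖ ^ 2 := by
  intro σ x
  have h := transfer_eq hN (fB (tP σ (.var 0)) (tP σ (.var 0)) : Formula sg 1)
    (fa2_fsq (tP σ (.var 0)))
    (fun v => by
      rw [eval_fB, fa2_eval_fsq, eval_tP]
      exact Dat.FA2.B_PP σ (v 0)) ![x]
  rw [eval_fB, fa2_eval_fsq, eval_tP] at h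
  exact h

theorem F_K_le (hN : IsModel N (theoryOf D.str)) : ∀ m x, ‖oK N m x‖ ^ 2 ≤ (1 + DD m ^ 2) * oB N (oK N m x) (oK N m x) := by
  intro m x
  have h := transfer_le hN (fa2_fsq (tK m (.var 0)) : Formula sg 1)
    (c1 (fun a => (1 + DD m ^ 2) * a) (by fun_prop) (fB (tK m (.var 0)) (tK m (.var 0))))
    (fun v => by
      rw [fa2_eval_fsq, eval_c1, eval_fB, eval_tK]
      exact Dat.FA2.KK_le m (v 0)) ![x]
  rw [fa2_eval_fsq, eval_c1, eval_fB, eval_tK] at h
  exact h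

theorem F_B_P_symm (hN : IsModel N (theoryOf D.str)) : ∀ σ x y, oB N (oP N σ x) y = oB N x (oP N σ y) := by
  intro σ x y
  have h := transfer_eq hN (fB (tP σ (.var 0)) (.var 1) : Formula sg 2)
    (fB (.var 0) (tP σ (.var 1)))
    (fun v => by
      rw [eval_fB, eval_fB, eval_tP, eval_tP]
      exact Dat.FA2.B_PP_symm σ (v 0) (v 1)) ![x, y]
  rw [eval_fB, eval_fB, eval_tP, eval_tP] at h
  exact h

theorem F_B_K_symm (hN : IsModel N (theoryOf D.str)) : ∀ m x y, oB N (oK N m x) y = oB N x (oK N m y) := by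
  intro m x y
  have h := transfer_eq hN (fB (tK m (.var 0)) (.var 1) : Formula sg 2)
    (fB (.var 0) (tK m (.var 1)))
    (fun v => by
      rw [eval_fB, eval_fB, eval_tK, eval_tK]
      exact Dat.FA2.B_KK_symm m (v 0) (v 1)) ![x, y]
  rw [eval_fB, eval_fB, eval_tK, eval_tK] at h
  exact h

theorem F_B_M (hN : IsModel N (theoryOf D.str)) : ∀ y x z, oB N (oM N y x) z = oB N x (oM N y z) := by
  intro y x z
  have h := transfer_eq hN (fB (tM (.var 0) (.var 1)) (.var 2) : Formula sg 3)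
    (fB (.var 1) (tM (.var 0) (.var 2)))
    (fun v => by
      rw [eval_fB, eval_fB, eval_tM, eval_tM]
      exact Dat.FA2.B_mu (v 0) (v 1) (v 2)) ![y, x, z]
  rw [eval_fB, eval_fB, eval_tM, eval_tM] at h
  exact h

theorem F_M_le (hN : IsModel N (theoryOf D.str)) : ∀ y x, ‖oM N y x‖ ≤ 2 * (‖y‖ * ‖x‖) := by
  intro y x
  have h := transfer_le hN (.norm (tM (.var 0) (.var 1)) : Formula sg 2)
    (c2 (fun a b => 2 * (a * b)) (by fun_prop) (.norm (.var 0)) (.norm (.var 1)))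
    (fun v => by
      rw [fa2_eval_norm, eval_c2, eval_tM]
      exact Dat.mu_norm_le (v 0) (v 1)) ![y, x]
  rw [fa2_eval_norm, eval_c2, eval_tM] at h
  exact h

theorem F_B_add (hN : IsModel N (theoryOf D.str)) : ∀ x y z, oB N (x + y) z = oB N x z + oB N y z := by
  intro x y z
  have h := transfer_eq hN (fB (.add (.var 0) (.var 1)) (.var 2) : Formula sg 3)
    (c2 (fun a b => a + b) (by fun_prop) (fB (.var 0) (.var 2)) (fB (.var 1) (.var 2)))
    (fun v => by
      rw [eval_fB, eval_c2, eval_fB, eval_fB]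
      exact Dat.B_add (v 0) (v 1) (v 2)) ![x, y, z]
  rw [eval_fB, eval_c2, eval_fB, eval_fB] at h
  exact h

theorem F_B_smul (hN : IsModel N (theoryOf D.str)) : ∀ (t : ℝ) x y, oB N (t • x) y = t * oB N x y := by
  intro t x y
  have h := transfer_eq hN (fB (.smul t (.var 0)) (.var 1) : Formula sg 2)
    (c1 (fun a => t * a) (by fun_prop) (fB (.var 0) (.var 1)))
    (fun v => by
      rw [eval_fB, eval_c1, eval_fB]
      exact Dat.B_smul t (v 0) (v 1)) ![x, y]
  rw [eval_fB, eval_c1, eval_fB] at h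
  exact h

theorem F_B_symm (hN : IsModel N (theoryOf D.str)) : ∀ x y, oB N x y = oB N y x := by
  intro x y
  have h := transfer_eq hN (fB (.var 0) (.var 1) : Formula sg 2) (fB (.var 1) (.var 0))
    (fun v => by
      rw [eval_fB, eval_fB]
      exact Dat.B_symm (v 0) (v 1)) ![x, y]
  rw [eval_fB, eval_fB] at h
  exact h

theorem F_B_le_K (hN : IsModel N (theoryOf D.str)) : ∀ m x, oB N (oK N m x) (oK N m x) ≤ ‖oK N m x‖ ^ 2 := by
  intro m x
  have h := transfer_le hN (fB (tK m (.var 0)) (tK m (.var 0)) : Formula sg 1)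
    (fa2_fsq (tK m (.var 0)))
    (fun v => by
      rw [eval_fB, fa2_eval_fsq, eval_tK]
      exact Dat.FA2.B_le_KK m (v 0)) ![x]
  rw [eval_fB, fa2_eval_fsq, eval_tK] at h
  exact h

end

end Pool.Agent.Lib.MP_4e4c79_lc.Cc
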