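import Mathlib
import Pool.Agent.Lib.MP_4e4c79_lc.Cc.NF

/-!
# Module NF2.  Homogeneity and near additivity of `NF`.

PROOF of `NF_hom`.  If `SY = 0` or `SZ = 0` then `Y = 0` or `Z = 0` and the left side is `0`.
Otherwise `Y' = Y / SY^(1/p)` and `Z' = Z / SZ^(1/p)` (real powers, or choose `a, b > 0` with
`a^p = SY`, `b^p = SZ`) are admissible, so `∑ Y Z f = a b ∑ Y' Z' f ≤ a b NF f`; take `p`-th powers.

PROOF of `NF_sum_le`.  It is enough to show `∑ t, ∑' b, w_t b * f_t b ≤ c² NF (∑ f_t)` for weights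
`w_t = Y_t(π ·) Z_t` (take suprema one after the other, or `ε/card`-optimal weights).
If `T = ∅` trivial.  Put `Y a = (max_t Y_t a) / c`, `Z b = (max_t Z_t b) / c` (`c > 0` as
`c^p ≥ card T ≥ 1`).  Then `∑_{a ∈ s} Y a^p ≤ ∑_{a ∈ s} ∑_t Y_t a^p / c^p ≤ card T / c^p ≤ 1`, the same
for `Z`, and `w_t b ≤ c² Y(π b) Z b`, so `∑_t ∑' w_t f_t ≤ c² ∑' Y Z ∑_t f_t ≤ c² NF (∑ f_t)`.

PROOF of `NF_two`: `NF_sum_le` with two functions and `c = 1 + 1/p`, `c^p ≥ 2` (Bernoulli,
`one_add_mul_le_pow`).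
-/

namespace Pool.Agent.Lib.MP_4e4c79_lc.Cc

open Finset
attribute [local instance] Classical.propDecidable
set_option linter.unusedSectionVars false

noncomputable section

variable {A B : Type} {π : B → A} {p : ℕ}

/-- Nearly optimal weights. -/
lemma NF2_near (hp : p ≠ 0) (f : B → ℝ) {ε : ℝ} (hε : 0 < ε) :
    ∃ w ∈ wts π p, NF π p f ≤ ∑' b, w b * f b + ε := by
  have := wts_nonempty (π := π) hp
  obtain ⟨w, hw⟩ := exists_lt_of_lt_ciSup (show NF π p f - ε < NF π p f by linarith)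
  exact ⟨w, w.2, by linarith⟩

theorem NF_hom (hp : p ≠ 0) {Y : A → ℝ} {Z : B → ℝ} (hY : ∀ a, 0 ≤ Y a) (hZ : ∀ b, 0 ≤ Z b)
    {SY SZ : ℝ} (hSY : ∀ s : Finset A, ∑ a ∈ s, Y a ^ p ≤ SY)
    (hSZ : ∀ s : Finset B, ∑ b ∈ s, Z b ^ p ≤ SZ) {f : B → ℝ} (hf : ∀ b, 0 ≤ f b)
    (hs : Summable f) :
    (∑' b, Y (π b) * Z b * f b) ^ p ≤ NF π p f ^ p * (SY * SZ) := by
  have hSY0 : 0 ≤ SY := by simpa using hSY ∅
  have hSZ0 : 0 ≤ SZ := by simpa using hSZ ∅
  have hN := NF_nonneg (π := π) hp hf hs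
  rcases hSY0.eq_or_lt with h | h
  · have h1 : ∀ a, Y a = 0 := by
      intro a
      have h2 := hSY {a}
      rw [Finset.sum_singleton, ← h] at h2
      exact pow_eq_zero_iff hp |>.1 (le_antisymm h2 (pow_nonneg (hY a) p))
    have h3 : ∑' b, Y (π b) * Z b * f b = 0 := by
      simp [h1]
    rw [h3, zero_pow hp]
    positivity
  rcases hSZ0.eq_or_lt with h' | h'
  · have h1 : ∀ a, Z a = 0 := by
      intro a
      have h2 := hSZ {a}
      rw [Finset.sum_singleton, ← h'] at h2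
      exact pow_eq_zero_iff hp |>.1 (le_antisymm h2 (pow_nonneg (hZ a) p))
    have h3 : ∑' b, Y (π b) * Z b * f b = 0 := by
      simp [h1]
    rw [h3, zero_pow hp]
    positivity
  obtain ⟨a, ha, ha'⟩ : ∃ a : ℝ, 0 < a ∧ a ^ p = SY :=
    ⟨SY ^ ((p : ℝ)⁻¹), Real.rpow_pos_of_pos h _, Real.rpow_inv_natCast_pow hSY0 hp⟩
  obtain ⟨c, hc, hc'⟩ : ∃ a : ℝ, 0 < a ∧ a ^ p = SZ :=
    ⟨SZ ^ ((p : ℝ)⁻¹), Real.rpow_pos_of_pos h' _, Real.rpow_inv_natCast_pow hSZ0 hp⟩
  have hw : (fun b => (Y (π b) / a) * (Z b / c)) ∈ wts π p := by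
    refine ⟨fun x => Y x / a, fun x => Z x / c, ⟨fun x => div_nonneg (hY x) ha.le, fun s => ?_⟩,
      ⟨fun x => div_nonneg (hZ x) hc.le, fun s => ?_⟩, fun b => rfl⟩
    · have : ∑ x ∈ s, (Y x / a) ^ p = (∑ x ∈ s, Y x ^ p) / SY := by
        rw [Finset.sum_div]
        refine Finset.sum_congr rfl fun x _ => ?_
        rw [div_pow, ha']
      rw [this, div_le_one h]
      exact hSY s
    · have : ∑ x ∈ s, (Z x / c) ^ p = (∑ x ∈ s, Z x ^ p) / SZ := by
        rw [Finset.sum_div]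
        refine Finset.sum_congr rfl fun x _ => ?_
        rw [div_pow, hc']
      rw [this, div_le_one h']
      exact hSZ s
  have h4 := le_NF hp hw hf hs
  have h5 : ∑' b, Y (π b) * Z b * f b = a * c * ∑' b, (Y (π b) / a) * (Z b / c) * f b := by
    rw [← tsum_mul_left]
    congr 1
    funext b
    field_simp
  have h6 : 0 ≤ ∑' b, Y (π b) * Z b * f b :=
    tsum_nonneg fun b => mul_nonneg (mul_nonneg (hY _) (hZ _)) (hf b)
  calc (∑' b, Y (π b) * Z b * f b) ^ p ≤ (a * c * NF π p f) ^ p := by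
        refine pow_le_pow_left₀ h6 ?_ p
        rw [h5]
        exact mul_le_mul_of_nonneg_left h4 (by positivity)
    _ = NF π p f ^ p * (SY * SZ) := by
        rw [mul_pow, mul_pow, ha', hc']
        ring

theorem NF_sum_le (hp : p ≠ 0) {ι : Type} (T : Finset ι) (f : ι → B → ℝ)
    (hf : ∀ t b, 0 ≤ f t b) (hs : ∀ t, Summable (f t)) {c : ℝ} (hc : 0 ≤ c)
    (hcard : (T.card : ℝ) ≤ c ^ p) :
    ∑ t ∈ T, NF π p (f t) ≤ c ^ 2 * NF π p (fun b => ∑ t ∈ T, f t b) := by
  have hF : ∀ b, 0 ≤ ∑ t ∈ T, f t b := fun b => Finset.sum_nonneg fun t _ => hf t b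
  have hFs : Summable fun b => ∑ t ∈ T, f t b := summable_sum fun t _ => hs t
  rcases T.eq_empty_or_nonempty with rfl | hT
  · rw [Finset.sum_empty]
    exact mul_nonneg (sq_nonneg c) (NF_nonneg hp hF hFs)
  have hc0 : 0 < c := by
    rcases hc.eq_or_lt with h | h
    · exfalso
      rw [← h, zero_pow hp] at hcard
      have : (0 : ℝ) < T.card := by exact_mod_cast hT.card_pos
      linarith
    · exact h
  refine le_of_forall_pos_le_add fun ε hε => ?_
  have hK : (0 : ℝ) < T.card := by exact_mod_cast hT.card_pos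
  have hw : ∀ t, ∃ w ∈ wts π p, NF π p (f t) ≤ ∑' b, w b * f t b + ε / T.card :=
    fun t => NF2_near hp (f t) (div_pos hε hK)
  choose w hw1 hw2 using hw
  choose Y Z hY hZ hYZ using hw1
  have key : ∀ {C : Type} (U : ι → C → ℝ), (∀ t, Adm p (U t)) →
      Adm p (fun x => T.sup' hT (fun t => U t x) / c) := by
    intro C U hU
    have h0 : ∀ x, 0 ≤ T.sup' hT (fun t => U t x) := by
      intro x
      obtain ⟨t, ht⟩ := hT
      exact ((hU t).1 x).trans (Finset.le_sup' (fun t => U t x) ht)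
    refine ⟨fun x => div_nonneg (h0 x) hc, fun s => ?_⟩
    have h1 : ∀ x, (T.sup' hT (fun t => U t x)) ^ p ≤ ∑ t ∈ T, U t x ^ p := by
      intro x
      obtain ⟨t, ht, hx⟩ := Finset.exists_mem_eq_sup' hT (fun t => U t x)
      rw [hx]
      exact Finset.single_le_sum (f := fun t => U t x ^ p)
        (fun t _ => pow_nonneg ((hU t).1 x) p) ht
    calc ∑ x ∈ s, (T.sup' hT (fun t => U t x) / c) ^ p
        = (∑ x ∈ s, (T.sup' hT (fun t => U t x)) ^ p) / c ^ p := by
          rw [Finset.sum_div]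
          exact Finset.sum_congr rfl fun x _ => div_pow _ _ _
      _ ≤ (∑ x ∈ s, ∑ t ∈ T, U t x ^ p) / c ^ p := by
          gcongr with x hx
          exact h1 x
      _ = (∑ t ∈ T, ∑ x ∈ s, U t x ^ p) / c ^ p := by rw [Finset.sum_comm]
      _ ≤ (∑ t ∈ T, (1 : ℝ)) / c ^ p := by
          gcongr with t ht
          exact (hU t).2 s
      _ = (T.card : ℝ) / c ^ p := by simp
      _ ≤ 1 := by rw [div_le_one (pow_pos hc0 p)]; exact hcard
  set Y' : A → ℝ := fun x => T.sup' hT (fun t => Y t x) / c with hY'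
  set Z' : B → ℝ := fun x => T.sup' hT (fun t => Z t x) / c with hZ'
  have hwm : (fun b => Y' (π b) * Z' b) ∈ wts π p := ⟨Y', Z', key Y hY, key Z hZ, fun _ => rfl⟩
  have hle : ∀ t ∈ T, ∀ b, w t b ≤ c ^ 2 * (Y' (π b) * Z' b) := by
    intro t ht b
    have h1 : Y t (π b) ≤ c * Y' (π b) := by
      have := Finset.le_sup' (fun t => Y t (π b)) ht
      have h2 : c * Y' (π b) = T.sup' hT (fun t => Y t (π b)) := by
        rw [hY']; field_simp
      rw [h2]; exact this
    have h2 : Z t b ≤ c * Z' b := by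
      have := Finset.le_sup' (fun t => Z t b) ht
      have h2 : c * Z' b = T.sup' hT (fun t => Z t b) := by
        rw [hZ']; field_simp
      rw [h2]; exact this
    rw [hYZ]
    calc Y t (π b) * Z t b ≤ (c * Y' (π b)) * (c * Z' b) :=
          mul_le_mul h1 h2 ((hZ t).1 b) (((hY t).1 _).trans h1)
      _ = _ := by ring
  have hsw : ∀ t, Summable fun b => (Y' (π b) * Z' b) * f t b := fun t =>
    summable_wt hp hwm (hf t) (hs t)
  calc ∑ t ∈ T, NF π p (f t) ≤ ∑ t ∈ T, (∑' b, w t b * f t b + ε / T.card) :=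
        Finset.sum_le_sum fun t _ => hw2 t
    _ = ∑ t ∈ T, ∑' b, w t b * f t b + ε := by
        rw [Finset.sum_add_distrib, Finset.sum_const, nsmul_eq_mul]
        field_simp
    _ ≤ ∑ t ∈ T, c ^ 2 * ∑' b, (Y' (π b) * Z' b) * f t b + ε := by
        gcongr with t ht
        rw [← tsum_mul_left]
        refine (summable_wt hp (show w t ∈ wts π p from ⟨Y t, Z t, hY t, hZ t, hYZ t⟩) (hf t)
          (hs t)).tsum_le_tsum (fun b => ?_) ((hsw t).mul_left _)
        have := mul_le_mul_of_nonneg_right (hle t ht b) (hf t b)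
        linarith
    _ = c ^ 2 * ∑' b, (Y' (π b) * Z' b) * ∑ t ∈ T, f t b + ε := by
        rw [← Finset.mul_sum, ← Summable.tsum_finsetSum fun t _ => hsw t]
        simp_rw [Finset.mul_sum]
    _ ≤ c ^ 2 * NF π p (fun b => ∑ t ∈ T, f t b) + ε := by
        gcongr
        exact le_NF hp hwm hF hFs

theorem NF_two (hp : p ≠ 0) {f g : B → ℝ} (hf : ∀ b, 0 ≤ f b) (hg : ∀ b, 0 ≤ g b)
    (hsf : Summable f) (hsg : Summable g) :
    NF π p f + NF π p g ≤ (1 + 1 / (p : ℝ)) ^ 2 * NF π p (fun b => f b + g b) := by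
  have h := NF_sum_le (π := π) hp (Finset.univ : Finset Bool) (fun t => bif t then f else g)
    (by rintro (_ | _) b; exacts [hg b, hf b]) (by rintro (_ | _); exacts [hsg, hsf])
    (c := 1 + 1 / (p : ℝ)) (by positivity) (by
      have h1 := one_add_mul_le_pow (a := 1 / (p : ℝ)) (by
        have : (0 : ℝ) ≤ 1 / (p : ℝ) := by positivity
        linarith) p
      have h2 : (p : ℝ) ≠ 0 := Nat.cast_ne_zero.2 hp
      rw [mul_one_div_cancel h2] at h1
      simp only [Finset.card_univ, Fintype.card_bool]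
      push_cast
      linarith)
  simpa using h

/-- `NF` of a finite sum. -/
theorem NF_finsum_le (hp : p ≠ 0) {ι : Type} (T : Finset ι) (f : ι → B → ℝ)
    (hf : ∀ t b, 0 ≤ f t b) (hs : ∀ t, Summable (f t)) :
    NF π p (fun b => ∑ t ∈ T, f t b) ≤ ∑ t ∈ T, NF π p (f t) := by
  induction T using Finset.induction_on with
  | empty =>
    simp only [Finset.sum_empty]
    have h := NF_le_tsum (π := π) (f := fun _ : B => (0 : ℝ)) hp (fun _ => le_rfl) summable_zero
    simpa using h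
  | insert t T ht ih =>
    simp only [Finset.sum_insert ht]
    refine (NF_add_le hp (hf t) (fun b => Finset.sum_nonneg fun t _ => hf t b) (hs t)
      (summable_sum fun t _ => hs t)).trans ?_
    gcongr

end

end Pool.Agent.Lib.MP_4e4c79_lc.Cc
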