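import Mathlib
import Pool.Agent.Lib.MP_4e4c79_lc.Cc.NF

/-!
# Module NF4.  Truncation of weights, transport of `NF`.

PROOF of `NF_trunc`.  Let `Z` bound the total mass, `δ = ε / (3 (Z + 1))`, `k ≥ δ^{-p}`.  Choose a
weight `Y, Z'` with `NF f ≤ ∑' Y Z' f + ε/3` (`exists_lt_of_lt_ciSup`).  Truncate: `Y₁ a = Y a` if
`Y a ≥ δ`, else `0`; the same for `Z'`.  At most `δ^{-p} ≤ k` atoms have `Y a ≥ δ` (as `∑ Y^p ≤ 1`), so
the support is a finite set of cardinality `≤ k` (the set `{a | δ ≤ Y a}` is finite because every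
finite subset has `≤ k` elements: `Set.finite_of_...`/`Set.Finite` via `Finset` bound).  And
`Y Z' ≤ Y₁ Z₁ + 2 δ` pointwise (`Y, Z' ≤ 1`), so `∑' Y Z' f ≤ ∑' Y₁ Z₁ f + 2 δ Z ≤ … + 2ε/3`.

PROOF of `NF_push`.  `≤`: if `Y', Z'` are admissible on `A', B'` then `Y' ∘ α`, `Z' ∘ σ` are admissible
(injectivity: `Finset.sum_map`/`sum_image`), and `∑'_{b'} Y'(π' b') Z' b' (push f) b' =
∑'_b Y'(α (π b)) Z'(σ b) f b` (`Function.Injective.tsum_eq`, support in the range of `σ`).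
`≥`: extend `Y, Z` by zero (`Function.extend α Y 0`, `Function.extend σ Z 0`).
`NF_equiv` is the case of bijections.
-/

namespace Pool.Agent.Lib.MP_4e4c79_lc.Cc

open Finset
attribute [local instance] Classical.propDecidable
set_option linter.unusedSectionVars false

noncomputable section

variable {A B : Type} {π : B → A} {p : ℕ}

/-- Nearly optimal weights. -/
lemma NF4_near (hp : p ≠ 0) (f : B → ℝ) {ε : ℝ} (hε : 0 < ε) :
    ∃ w ∈ wts π p, NF π p f ≤ ∑' b, w b * f b + ε := by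
  have := wts_nonempty (π := π) hp
  obtain ⟨w, hw⟩ := exists_lt_of_lt_ciSup (show NF π p f - ε < NF π p f by linarith)
  exact ⟨w, w.2, by linarith⟩

/-- An admissible family is large at few places only. -/
lemma NF4_fin {ι : Type} {Y : ι → ℝ} (hY : Adm p Y) {δ : ℝ} (hδ : 0 < δ) {k : ℕ}
    (hk : 1 ≤ (k : ℝ) * δ ^ p) : ∃ S : Finset ι, S.card ≤ k ∧ ∀ a, a ∉ S → Y a < δ := by
  have hδp : 0 < δ ^ p := pow_pos hδ p
  have key : ∀ s : Finset ι, (∀ a ∈ s, δ ≤ Y a) → s.card ≤ k := by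
    intro s hs
    have h1 : (s.card : ℝ) * δ ^ p ≤ (k : ℝ) * δ ^ p := by
      calc (s.card : ℝ) * δ ^ p = ∑ a ∈ s, δ ^ p := by simp
        _ ≤ ∑ a ∈ s, Y a ^ p := by
          refine Finset.sum_le_sum fun a ha => pow_le_pow_left₀ hδ.le (hs a ha) p
        _ ≤ 1 := hY.2 s
        _ ≤ _ := hk
    exact_mod_cast le_of_mul_le_mul_right h1 hδp
  have hfin : {a | δ ≤ Y a}.Finite := by
    by_contra h
    obtain ⟨s, hs, hcard⟩ := Set.Infinite.exists_subset_card_eq h (k + 1)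
    have := key s fun a ha => hs ha
    omega
  refine ⟨hfin.toFinset, key _ fun a ha => by simpa using ha, fun a ha => ?_⟩
  by_contra h
  exact ha (by simpa using h)

theorem NF_trunc (hp : p ≠ 0) (Z : ℝ) (ε : ℝ) (hε : 0 < ε) : ∃ k : ℕ, ∀ {A B : Type} (π : B → A)
    (f : B → ℝ), (∀ b, 0 ≤ f b) → Summable f → ∑' b, f b ≤ Z →
    ∃ (Y : A → ℝ) (Z' : B → ℝ) (SA : Finset A) (SB : Finset B), Adm p Y ∧ Adm p Z' ∧
      SA.card ≤ k ∧ SB.card ≤ k ∧ (∀ a, a ∉ SA → Y a = 0) ∧ (∀ b, b ∉ SB → Z' b = 0) ∧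
      NF π p f ≤ ∑' b, Y (π b) * Z' b * f b + ε := by
  set Z1 := max Z 0 with hZ1
  have hZ10 : 0 ≤ Z1 := le_max_right _ _
  set δ := ε / (3 * (Z1 + 1)) with hδ
  have hδ0 : 0 < δ := by positivity
  obtain ⟨k, hk⟩ := exists_nat_ge (1 / δ ^ p)
  have hδp : 0 < δ ^ p := pow_pos hδ0 p
  have hk' : 1 ≤ (k : ℝ) * δ ^ p := by rwa [div_le_iff₀ hδp] at hk
  refine ⟨k, ?_⟩
  intro A B π f hf hs hZ
  obtain ⟨w, hw, hNF⟩ := NF4_near (π := π) hp f (ε := ε / 3) (by positivity)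
  obtain ⟨Y, Z', hY, hZ', hYZ⟩ := hw
  obtain ⟨SA, hSA, hSA'⟩ := NF4_fin hY hδ0 hk'
  obtain ⟨SB, hSB, hSB'⟩ := NF4_fin hZ' hδ0 hk'
  have tr : ∀ {ι : Type} {U : ι → ℝ} (S : Finset ι), Adm p U →
      Adm p (fun a => if a ∈ S then U a else 0) := by
    intro ι U S hU
    refine ⟨fun a => by dsimp only; split_ifs; exacts [hU.1 a, le_rfl], fun s => ?_⟩
    refine le_trans (Finset.sum_le_sum fun a _ => ?_) (hU.2 s)
    dsimp only
    split_ifs
    · exact le_rfl
    · rw [zero_pow hp]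
      exact pow_nonneg (hU.1 a) p
  refine ⟨fun a => if a ∈ SA then Y a else 0, fun b => if b ∈ SB then Z' b else 0, SA, SB,
    tr SA hY, tr SB hZ', hSA, hSB, fun a ha => if_neg ha, fun b hb => if_neg hb, ?_⟩
  have hwm : (fun b => (if π b ∈ SA then Y (π b) else 0) * (if b ∈ SB then Z' b else 0)) ∈
      wts π p := ⟨_, _, tr SA hY, tr SB hZ', fun _ => rfl⟩
  have hpt : ∀ b, w b * f b ≤
      (if π b ∈ SA then Y (π b) else 0) * (if b ∈ SB then Z' b else 0) * f b + 2 * δ * f b := by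
    intro b
    rw [← add_mul, hYZ]
    refine mul_le_mul_of_nonneg_right ?_ (hf b)
    have hY1 := hY.le_one hp (π b)
    have hY0 := hY.1 (π b)
    have hZ1' := hZ'.le_one hp b
    have hZ0' := hZ'.1 b
    by_cases h1 : π b ∈ SA
    · by_cases h2 : b ∈ SB
      · rw [if_pos h1, if_pos h2]
        linarith
      · rw [if_pos h1, if_neg h2, mul_zero, zero_add]
        have h3 := hSB' b h2
        calc Y (π b) * Z' b ≤ 1 * δ := mul_le_mul hY1 h3.le hZ0' zero_le_one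
          _ ≤ 2 * δ := by linarith
    · rw [if_neg h1, zero_mul, zero_add]
      have h3 := hSA' (π b) h1
      calc Y (π b) * Z' b ≤ δ * 1 := mul_le_mul h3.le hZ1' hZ0' hδ0.le
        _ ≤ 2 * δ := by linarith
  have hsw := summable_wt hp (show w ∈ wts π p from ⟨Y, Z', hY, hZ', hYZ⟩) hf hs
  have hsw2 := summable_wt hp hwm hf hs
  have h4 : ∑' b, w b * f b ≤ ∑' b, (if π b ∈ SA then Y (π b) else 0) *
      (if b ∈ SB then Z' b else 0) * f b + 2 * δ * ∑' b, f b := by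
    rw [← tsum_mul_left, ← hsw2.tsum_add (hs.mul_left _)]
    exact hsw.tsum_le_tsum hpt (hsw2.add (hs.mul_left _))
  have h5 : 2 * δ * ∑' b, f b ≤ 2 * (ε / 3) := by
    have h6 : ∑' b, f b ≤ Z1 + 1 := by
      have := le_max_left Z 0
      linarith
    calc 2 * δ * ∑' b, f b ≤ 2 * δ * (Z1 + 1) :=
          mul_le_mul_of_nonneg_left h6 (by positivity)
      _ = 2 * (ε / 3) := by rw [hδ]; field_simp
  linarith

lemma NF4_ext {ι κ : Type} {α : ι → κ} (hα : Function.Injective α) (hp : p ≠ 0) {Y : ι → ℝ}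
    (hY : Adm p Y) : Adm p (Function.extend α Y 0) := by
  refine ⟨fun a => ?_, fun s => ?_⟩
  · by_cases h : ∃ x, α x = a
    · obtain ⟨x, rfl⟩ := h
      rw [hα.extend_apply]
      exact hY.1 x
    · rw [Function.extend_apply' _ _ _ h]
      exact le_rfl
  · rw [← Finset.sum_preimage α s hα.injOn (fun a => Function.extend α Y 0 a ^ p) ?_]
    · simp only [hα.extend_apply]
      exact hY.2 _
    · intro a _ ha
      rw [Function.extend_apply' _ _ _ (fun ⟨x, hx⟩ => ha ⟨x, hx⟩)]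
      exact zero_pow hp

theorem NF_push (hp : p ≠ 0) {A' B' : Type} {π' : B' → A'} (α : A → A') (σ : B → B')
    (hα : Function.Injective α) (hσ : Function.Injective σ) (h : ∀ b, π' (σ b) = α (π b))
    (f : B → ℝ) : NF π' p (Function.extend σ f 0) = NF π p f := by
  have hts : ∀ w' : B' → ℝ, ∑' b', w' b' * Function.extend σ f 0 b' = ∑' b, w' (σ b) * f b := by
    intro w'
    rw [← hσ.tsum_eq (f := fun b' => w' b' * Function.extend σ f 0 b') ?_]
    · simp only [hσ.extend_apply]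
    · intro b' hb'
      by_contra hn
      apply hb'
      show w' b' * Function.extend σ f 0 b' = 0
      rw [Function.extend_apply' _ _ _ (fun ⟨x, hx⟩ => hn ⟨x, hx⟩)]
      simp
  unfold NF iSup
  congr 1
  ext x
  constructor
  · rintro ⟨⟨w', Y', Z', hY', hZ', hw'⟩, rfl⟩
    refine ⟨⟨fun b => w' (σ b), Y' ∘ α, Z' ∘ σ, ⟨fun a => hY'.1 _, fun s => ?_⟩,
      ⟨fun a => hZ'.1 _, fun s => ?_⟩, fun b => ?_⟩, ?_⟩
    · have := hY'.2 (s.image α)
      rwa [Finset.sum_image hα.injOn] at this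
    · have := hZ'.2 (s.image σ)
      rwa [Finset.sum_image hσ.injOn] at this
    · show w' (σ b) = Y' (α (π b)) * Z' (σ b)
      rw [hw', h]
    · exact (hts w').symm
  · rintro ⟨⟨w, Y, Z, hY, hZ, hw⟩, rfl⟩
    refine ⟨⟨fun b' => Function.extend α Y 0 (π' b') * Function.extend σ Z 0 b', _, _,
      NF4_ext hα hp hY, NF4_ext hσ hp hZ, fun _ => rfl⟩, ?_⟩
    dsimp only
    rw [hts]
    congr 1
    funext b
    rw [h, hα.extend_apply, hσ.extend_apply, hw]

theorem NF_equiv (hp : p ≠ 0) {A' B' : Type} {π' : B' → A'} (α : A ≃ A') (σ : B ≃ B')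
    (h : ∀ b, π' (σ b) = α (π b)) (f : B → ℝ) (g : B' → ℝ) (hg : ∀ b, g (σ b) = f b) :
    NF π' p g = NF π p f := by
  rw [← NF_push hp α σ α.injective σ.injective h f]
  congr 1
  funext b'
  obtain ⟨b, rfl⟩ := σ.surjective b'
  rw [σ.injective.extend_apply, hg]

end

end Pool.Agent.Lib.MP_4e4c79_lc.Cc
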