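import Mathlib
import Pool.Agent.Lib.MP_4e4c79_lc.Cc.Ops
import Pool.Agent.Lib.MP_4e4c79_lc.Cc.Tr1
import Pool.Agent.Lib.MP_4e4c79_lc.Cc.NF2
import Pool.Agent.Lib.MP_4e4c79_lc.Cc.NF4
import Pool.Agent.Lib.MP_4e4c79_lc.Cc.FA2

/-!
# Module FA3.  The norm on the kinds and the parallelogram law of the remainder.
-/

namespace Pool.Agent.Lib.MP_4e4c79_lc.Cc

open Pool.Agent.Lib.MP_4e4c79_lc Complete Finset
open scoped ENNReal
attribute [local instance] Classical.propDecidable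
set_option linter.unusedSectionVars false

noncomputable section

variable {D : Dat} {N : Struc sg}

namespace Dat.FA3

open Dat Dat.FA2

/-! ### The parallelogram law -/

lemma par_coef {a b : ℕ} (ha : 0 < a) (hab : a ≤ b) :
    (1 + 1 / (b : ℝ)) ^ 2 ≤ (1 + 1 / (a : ℝ)) ^ 2 := by
  have h1 : (0 : ℝ) < a := by exact_mod_cast ha
  have h2 : (a : ℝ) ≤ b := by exact_mod_cast hab
  have h3 : 1 / (b : ℝ) ≤ 1 / a := one_div_le_one_div_of_le h1 h2
  have h4 : 0 ≤ 1 / (b : ℝ) := by positivity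
  exact pow_le_pow_left₀ (by positivity) (by linarith) 2

lemma sqf_par (m : ℕ) (u v : lp (fun b => Hs (D.dm m b)) 2) (b : D.A × ℕ) :
    sqf (u + v) b + sqf (u - v) b = 2 * (sqf u b + sqf v b) := by
  unfold sqf
  rw [lp.coeFn_add, lp.coeFn_sub, Pi.add_apply, Pi.sub_apply]
  exact parallelogram_law_with_norm ℝ (u b) (v b)

lemma XK_par (m : ℕ) (u v : D.XK m) : ‖u + v‖ ^ 2 + ‖u - v‖ ^ 2 ≤
    2 * (1 + 1 / (pp m : ℝ)) ^ 2 * (‖u‖ ^ 2 + ‖v‖ ^ 2) := by
  have hp : pp m ≠ 0 := NeZero.ne _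
  set C : ℝ := (1 + 1 / (pp m : ℝ)) ^ 2 with hC
  have hC1 : 1 ≤ C := by
    rw [hC]
    have : (0 : ℝ) ≤ 1 / (pp m : ℝ) := by positivity
    exact one_le_pow₀ (by linarith)
  set a := RN.to u with ha
  set b := RN.to v with hb
  have e1 : ‖a + b‖ ^ 2 + ‖a - b‖ ^ 2 = 2 * (‖a‖ ^ 2 + ‖b‖ ^ 2) := by
    rw [← tsum_sqf, ← tsum_sqf, ← tsum_sqf a, ← tsum_sqf b,
      ← (sqf_summable _).tsum_add (sqf_summable _), ← (sqf_summable _).tsum_add (sqf_summable _),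
      ← tsum_mul_left]
    exact tsum_congr fun i => sqf_par m a b i
  have e2 : NF Prod.fst (pp m) (sqf (a + b)) + NF Prod.fst (pp m) (sqf (a - b)) ≤
      C * (2 * (NF Prod.fst (pp m) (sqf a) + NF Prod.fst (pp m) (sqf b))) := by
    refine (NF_two (π := (Prod.fst : D.A × ℕ → D.A)) hp (sqf_nonneg (a + b)) (sqf_nonneg (a - b))
      (sqf_summable _) (sqf_summable _)).trans ?_
    refine mul_le_mul_of_nonneg_left ?_ (by positivity)
    have e3 : (fun i => sqf (a + b) i + sqf (a - b) i) = fun i => 2 * (sqf a i + sqf b i) :=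
      funext fun i => sqf_par m a b i
    rw [e3, NF_smul hp (fun i => add_nonneg (sqf_nonneg _ _) (sqf_nonneg _ _))
      ((sqf_summable a).add (sqf_summable b)) (by norm_num)]
    exact mul_le_mul_of_nonneg_left (NF_add_le hp (sqf_nonneg _) (sqf_nonneg _)
      (sqf_summable _) (sqf_summable _)) (by norm_num)
  rw [RN.norm_sq, RN.norm_sq, RN.norm_sq u, RN.norm_sq v, map_add, map_sub, ← ha, ← hb]
  have h0 : 0 ≤ ‖a‖ ^ 2 + ‖b‖ ^ 2 := by positivity
  have h1 := mul_le_mul_of_nonneg_left e2 (sq_nonneg (DD m))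
  have h2 : ‖a‖ ^ 2 + ‖b‖ ^ 2 ≤ C * (‖a‖ ^ 2 + ‖b‖ ^ 2) := le_mul_of_one_le_left h0 hC1
  nlinarith

lemma rs_hasSum (n : ℕ) (x : D.X) :
    HasSum (fun m => if n ≤ m then ‖x.fst m‖ ^ 2 else 0) (‖rs n x‖ ^ 2) := by
  rw [rs_norm]
  convert hasSum_sq (mask {m | n ≤ m} x.fst) using 2 with m
  rw [mask_apply]
  by_cases h : n ≤ m
  · rw [if_pos h, if_pos (show m ∈ {m | n ≤ m} from h)]
  · rw [if_neg h, if_neg (show ¬ m ∈ {m | n ≤ m} from h), norm_zero, zero_pow two_ne_zero]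

lemma rs_par (n : ℕ) (x y : D.X) : ‖rs n (x + y)‖ ^ 2 + ‖rs n (x - y)‖ ^ 2 ≤
    2 * (1 + 1 / (pp n : ℝ)) ^ 2 * (‖rs n x‖ ^ 2 + ‖rs n y‖ ^ 2) := by
  refine hasSum_le (fun m => ?_) ((rs_hasSum n (x + y)).add (rs_hasSum n (x - y)))
    (((rs_hasSum n x).add (rs_hasSum n y)).mul_left _)
  by_cases h : n ≤ m
  · simp only [if_pos h]
    refine (XK_par m (x.fst m) (y.fst m)).trans ?_
    have h1 := par_coef (pp_pos n) (pp_mono.monotone h)
    have h2 : 0 ≤ ‖x.fst m‖ ^ 2 + ‖y.fst m‖ ^ 2 := by positivity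
    nlinarith
  · simp [if_neg h]

lemma rs_add (n : ℕ) (x y : D.X) : rs n x + rs n y = rs n (x + y) := by
  refine X_ext (fun m b => ?_) fun z => ?_
  · rw [kc_add, kc_rs, kc_rs, kc_rs, kc_add]
    split_ifs <;> simp
  · change (0 : ℝ) + 0 = 0
    rw [add_zero]

lemma rs_sub (n : ℕ) (x y : D.X) : rs n x - rs n y = rs n (x - y) := by
  refine X_ext (fun m b => ?_) fun z => ?_
  · rw [kc_sub, kc_rs, kc_rs, kc_rs, kc_sub]
    split_ifs <;> simp
  · change (0 : ℝ) - 0 = 0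
    rw [sub_zero]

lemma X_par (n : ℕ) (x y : D.X) : ‖rX n x + rX n y‖ ^ 2 + ‖rX n x - rX n y‖ ^ 2 ≤
    2 * (1 + 1 / (pp n : ℝ)) ^ 2 * (‖rX n x‖ ^ 2 + ‖rX n y‖ ^ 2) := by
  rw [rX_eq, rX_eq, rs_add, rs_sub]
  exact rs_par n x y

/-! ### Powers -/

/-- The power in `D.X`. -/
def pwX (p : ℕ) (y : D.X) : D.X := (mu y)^[p - 1] y

lemma sc_PP_true (w : D.X) (z : D.Pt) : sc (PP true w) z =
    match z with
    | .inl a => w.snd (.inl a)
    | .inr b => w.snd (.inl b.1) := by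
  rcases z with a | b
  · change (PP true w).snd (.inl a) = _
    rw [snd_PP]
    rfl
  · change (PP true w).snd (.inl b.1) + (PP true w).snd (.inr b) = _
    rw [snd_PP, snd_PP]
    change w.snd (.inl b.1) + 0 = _
    rw [add_zero]

lemma sc_PP_false (w : D.X) (z : D.Pt) : sc (PP false w) z =
    match z with
    | .inl _ => 0
    | .inr b => w.snd (.inr b) := by
  rcases z with a | b
  · change (PP false w).snd (.inl a) = _
    rw [snd_PP]
    rfl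
  · change (PP false w).snd (.inl b.1) + (PP false w).snd (.inr b) = _
    rw [snd_PP, snd_PP]
    change 0 + w.snd (.inr b) = _
    rw [zero_add]

lemma iter_snd (σ : Bool) (w : D.X) (j : ℕ) (z : D.Pt) :
    ((mu (PP σ w))^[j] (PP σ w)).snd z = if z.isLeft = σ then (w.snd z) ^ (j + 1) else 0 := by
  induction j with
  | zero =>
    rw [Function.iterate_zero_apply, snd_PP, zero_add, pow_one]
  | succ j ih =>
    rw [Function.iterate_succ_apply', snd_mu, ih]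
    by_cases h : z.isLeft = σ
    · rw [if_pos h, if_pos h, pow_succ' _ (j + 1)]
      congr 1
      subst h
      rcases z with a | b
      · exact sc_PP_true w (.inl a)
      · exact sc_PP_false w (.inr b)
    · rw [if_neg h, if_neg h, mul_zero]

lemma iter_kc (σ : Bool) (w : D.X) (j : ℕ) (m : ℕ) (b : D.A × ℕ) :
    kc ((mu (PP σ w))^[j] (PP σ w)) m b = 0 := by
  induction j with
  | zero => rw [Function.iterate_zero_apply, kc_PP]
  | succ j ih => rw [Function.iterate_succ_apply', kc_mu, ih, smul_zero]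

lemma norm_sq_of_kc (x : D.X) (h : ∀ m b, kc x m b = 0) :
    HasSum (fun z => (x.snd z) ^ 2) (‖x‖ ^ 2) := by
  have e : x.fst = 0 := lp.ext (funext fun m => RN.to.injective
    (lp.ext (funext fun b => by
      rw [show RN.to (x.fst m) b = 0 from h m b]
      rw [show ((0 : D.W) : ∀ m, D.XK m) m = 0 from rfl, map_zero]
      rfl)))
  rw [X_norm_sq, e, norm_zero, zero_pow two_ne_zero, zero_add]
  convert hasSum_sq x.snd using 2 with z
  rw [Real.norm_eq_abs, sq_abs]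

lemma pwX_hasSum (σ : Bool) (w : D.X) {p : ℕ} (hp : p ≠ 0) :
    HasSum (fun z : D.Pt => if z.isLeft = σ then ((w.snd z) ^ 2) ^ p else 0)
      (‖pwX p (PP σ w)‖ ^ 2) := by
  unfold pwX
  convert norm_sq_of_kc _ (iter_kc σ w (p - 1)) using 2 with z
  rw [iter_snd, Nat.sub_add_cancel (Nat.one_le_iff_ne_zero.2 hp)]
  split_ifs
  · rw [← pow_mul, ← pow_mul, mul_comm]
  · rw [zero_pow two_ne_zero]

lemma pwX_true_le (w : D.X) {p : ℕ} (hp : p ≠ 0) (s : Finset D.A) :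
    ∑ a ∈ s, ((w.snd (.inl a)) ^ 2) ^ p ≤ ‖pwX p (PP true w)‖ ^ 2 := by
  have h := sum_le_hasSum (s.map ⟨Sum.inl, Sum.inl_injective⟩)
    (fun z _ => by split_ifs <;> positivity) (pwX_hasSum true w hp)
  rw [sum_map] at h
  exact h

lemma pwX_false_le (w : D.X) {p : ℕ} (hp : p ≠ 0) (s : Finset (D.A × ℕ)) :
    ∑ b ∈ s, ((w.snd (.inr b)) ^ 2) ^ p ≤ ‖pwX p (PP false w)‖ ^ 2 := by
  have h := sum_le_hasSum (s.map ⟨Sum.inr, Sum.inr_injective⟩)
    (fun z _ => by split_ifs <;> positivity) (pwX_hasSum false w hp)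
  rw [sum_map] at h
  exact h

lemma le_pwX_true (w : D.X) {p : ℕ} (hp : p ≠ 0) (c : ℝ)
    (h : ∀ s : Finset D.A, ∑ a ∈ s, ((w.snd (.inl a)) ^ 2) ^ p ≤ c) :
    ‖pwX p (PP true w)‖ ^ 2 ≤ c := by
  refine hasSum_le_of_sum_le (pwX_hasSum true w hp) fun s => ?_
  rw [← toLeft_disjSum_toRight (u := s), sum_disjSum]
  have e1 : ∑ b ∈ s.toRight, (if (Sum.inr b : D.Pt).isLeft = true then
      ((w.snd (.inr b)) ^ 2) ^ p else 0) = 0 := sum_eq_zero fun b _ => if_neg (by simp)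
  rw [e1, add_zero]
  refine le_trans (le_of_eq ?_) (h s.toLeft)
  exact sum_congr rfl fun a _ => if_pos rfl

lemma le_pwX_false (w : D.X) {p : ℕ} (hp : p ≠ 0) (c : ℝ)
    (h : ∀ s : Finset (D.A × ℕ), ∑ b ∈ s, ((w.snd (.inr b)) ^ 2) ^ p ≤ c) :
    ‖pwX p (PP false w)‖ ^ 2 ≤ c := by
  refine hasSum_le_of_sum_le (pwX_hasSum false w hp) fun s => ?_
  rw [← toLeft_disjSum_toRight (u := s), sum_disjSum]
  have e1 : ∑ b ∈ s.toLeft, (if (Sum.inl b : D.Pt).isLeft = false then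
      ((w.snd (.inl b)) ^ 2) ^ p else 0) = 0 := sum_eq_zero fun b _ => if_neg (by simp)
  rw [e1, zero_add]
  refine le_trans (le_of_eq ?_) (h s.toRight)
  exact sum_congr rfl fun a _ => if_pos rfl

/-! ### The action -/

/-- The action in `D.X`. -/
def actX (w x : D.X) : D.X := mu (PP true w) (mu (PP false w) x)

lemma B_act (m : ℕ) (w x : D.X) : B (actX w (KK m x)) (actX w (KK m x)) =
    ∑' b : D.A × ℕ, (w.snd (.inl b.1)) ^ 2 * (w.snd (.inr b)) ^ 2 * sqf (RN.to (x.fst m)) b := by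
  have e : actX w (KK m x) = KK m (actX w x) := by
    unfold actX
    refine X_ext (fun n b => ?_) fun z => ?_
    · rw [kc_mu, kc_mu]
      by_cases h : n = m
      · subst h
        rw [kc_KK_self, kc_KK_self, kc_mu, kc_mu]
      · rw [kc_KK_ne h, kc_KK_ne h, smul_zero, smul_zero]
    · rw [snd_mu, snd_mu, snd_KK, snd_KK, mul_zero, mul_zero]
  rw [e, B_KK_self, ← tsum_sqf]
  refine tsum_congr fun b => ?_
  have h1 : RN.to ((actX w x).fst m) b = (w.snd (.inl b.1) * w.snd (.inr b)) • kc x m b := by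
    change kc (actX w x) m b = _
    unfold actX
    rw [kc_mu, kc_mu, sc_PP_true, sc_PP_false, smul_smul]
  unfold sqf
  rw [h1, norm_smul, mul_pow, Real.norm_eq_abs, sq_abs, mul_pow]
  rfl

lemma KK_norm_sq (m : ℕ) (x : D.X) : ‖KK m x‖ ^ 2 = B (KK m x) (KK m x) +
    DD m ^ 2 * NF Prod.fst (pp m) (sqf (RN.to (x.fst m))) := by
  rw [KK_norm, B_KK_self]
  exact RN.norm_sq _

lemma X_upper (m : ℕ) (w x : D.X) :
    (DD m ^ 2 * B (actX w (KK m x)) (actX w (KK m x))) ^ pp m ≤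
    (‖KK m x‖ ^ 2 - B (KK m x) (KK m x)) ^ pp m *
      (‖pwX (pp m) (PP true w)‖ ^ 2 * ‖pwX (pp m) (PP false w)‖ ^ 2) := by
  have hp : pp m ≠ 0 := NeZero.ne _
  rw [KK_norm_sq, add_sub_cancel_left, B_act, mul_pow, mul_pow (DD m ^ 2), mul_assoc]
  refine mul_le_mul_of_nonneg_left ?_ (by positivity)
  exact NF_hom (π := (Prod.fst : D.A × ℕ → D.A)) hp (Y := fun a => (w.snd (.inl a)) ^ 2)
    (Z := fun b => (w.snd (.inr b)) ^ 2) (fun a => by positivity) (fun b => by positivity)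
    (pwX_true_le w hp) (pwX_false_le w hp) (sqf_nonneg _) (sqf_summable _)

/-- Elements with finitely many nonzero point coordinates. -/
lemma exists_w (SA : Finset D.A) (SB : Finset (D.A × ℕ)) (f : D.A → ℝ) (g : D.A × ℕ → ℝ)
    (hf : ∀ a, a ∉ SA → f a = 0) (hg : ∀ b, b ∉ SB → g b = 0) :
    ∃ w : D.X, (∀ a, w.snd (.inl a) = f a) ∧ (∀ b, w.snd (.inr b) = g b) ∧
      ‖w‖ ^ 2 = ∑ a ∈ SA, (f a) ^ 2 + ∑ b ∈ SB, (g b) ^ 2 := by
  have hz : ∀ z : D.Pt, z ∉ SA.disjSum SB → (Sum.elim f g z) = 0 := by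
    rintro (a | b) h
    · exact hf a fun h' => h (inl_mem_disjSum.2 h')
    · exact hg b fun h' => h (inr_mem_disjSum.2 h')
  have hs : Summable fun z : D.Pt => ‖Sum.elim f g z‖ ^ 2 :=
    summable_of_ne_finset_zero (s := SA.disjSum SB) fun z h => by
      rw [hz z h, norm_zero, zero_pow two_ne_zero]
  refine ⟨WithLp.toLp 2 (0, mk2 (Sum.elim f g) hs), fun a => rfl, fun b => rfl, ?_⟩
  rw [toLp_zero_left_norm, ← tsum_sq, tsum_eq_sum (s := SA.disjSum SB)]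
  · rw [sum_disjSum]
    congr 1
    · refine sum_congr rfl fun a _ => ?_
      change ‖f a‖ ^ 2 = _
      rw [Real.norm_eq_abs, sq_abs]
    · refine sum_congr rfl fun a _ => ?_
      change ‖g a‖ ^ 2 = _
      rw [Real.norm_eq_abs, sq_abs]
  · intro z h
    change ‖Sum.elim f g z‖ ^ 2 = 0
    rw [hz z h, norm_zero, zero_pow two_ne_zero]

lemma X_opt (m : ℕ) (R : ℕ) (ε : ℝ) (hε : 0 < ε) : ∃ r : ℕ, ∀ (D : Dat) (x : D.X), ‖x‖ ≤ R →
    ∃ w : D.X, ‖w‖ ≤ r ∧ ‖pwX (pp m) (PP true w)‖ ^ 2 ≤ 1 ∧ ‖pwX (pp m) (PP false w)‖ ^ 2 ≤ 1 ∧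
      ‖KK m x‖ ^ 2 ≤ B (KK m x) (KK m x) +
        DD m ^ 2 * B (actX w (KK m x)) (actX w (KK m x)) + ε := by
  have hp : pp m ≠ 0 := NeZero.ne _
  have hD : 0 < DD m ^ 2 := by have := DD_pos m; positivity
  obtain ⟨k, hk⟩ := NF_trunc hp ((R : ℝ) ^ 2) (ε / DD m ^ 2) (by positivity)
  refine ⟨2 * k + 1, fun D x hx => ?_⟩
  have hmass : ∑' b, sqf (RN.to (x.fst m)) b ≤ (R : ℝ) ^ 2 := by
    rw [tsum_sqf]
    refine pow_le_pow_left₀ (norm_nonneg _) ?_ 2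
    exact (RN.to_norm_le _).trans ((lp.norm_apply_le_norm (by norm_num) x.fst m).trans
      ((fst_le x).trans hx))
  obtain ⟨Y, Z, SA, SB, hY, hZ, hSA, hSB, hY0, hZ0, hNF⟩ :=
    hk (Prod.fst : D.A × ℕ → D.A) (sqf (RN.to (x.fst m))) (sqf_nonneg _) (sqf_summable _) hmass
  obtain ⟨w, hw1, hw2, hw3⟩ := exists_w SA SB (fun a => √(Y a)) (fun b => √(Z b))
    (fun a ha => by rw [hY0 a ha, Real.sqrt_zero]) (fun b hb => by rw [hZ0 b hb, Real.sqrt_zero])
  have e1 : ∀ a, (w.snd (.inl a)) ^ 2 = Y a := fun a => by rw [hw1, Real.sq_sqrt (hY.1 a)]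
  have e2 : ∀ b, (w.snd (.inr b)) ^ 2 = Z b := fun b => by rw [hw2, Real.sq_sqrt (hZ.1 b)]
  refine ⟨w, ?_, ?_, ?_, ?_⟩
  · have h1 : ∑ a ∈ SA, (√(Y a)) ^ 2 ≤ k := by
      refine le_trans (sum_le_card_nsmul SA _ 1 fun a _ => ?_) ?_
      · rw [Real.sq_sqrt (hY.1 a)]
        exact hY.le_one hp a
      · rw [nsmul_eq_mul, mul_one]
        exact_mod_cast hSA
    have h2 : ∑ b ∈ SB, (√(Z b)) ^ 2 ≤ k := by
      refine le_trans (sum_le_card_nsmul SB _ 1 fun a _ => ?_) ?_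
      · rw [Real.sq_sqrt (hZ.1 a)]
        exact hZ.le_one hp a
      · rw [nsmul_eq_mul, mul_one]
        exact_mod_cast hSB
    refine le_of_sq_le_sq ?_ (by positivity)
    rw [hw3]
    push_cast
    have h3 : (0 : ℝ) ≤ k := Nat.cast_nonneg k
    nlinarith
  · refine le_pwX_true w hp 1 fun s => ?_
    simp only [e1]
    exact hY.2 s
  · refine le_pwX_false w hp 1 fun s => ?_
    simp only [e2]
    exact hZ.2 s
  · rw [KK_norm_sq, B_act]
    simp only [e1, e2]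
    have h1 := mul_le_mul_of_nonneg_left hNF hD.le
    rw [mul_add, mul_div_cancel₀ _ hD.ne'] at h1
    linarith

end Dat.FA3

/-! ### Transfer -/

open Incomplete

theorem F_par (hN : IsModel N (theoryOf D.str)) : ∀ n x y, ‖rest N n x + rest N n y‖ ^ 2 + ‖rest N n x - rest N n y‖ ^ 2 ≤
    2 * (1 + 1 / (pp n : ℝ)) ^ 2 * (‖rest N n x‖ ^ 2 + ‖rest N n y‖ ^ 2) := by
  intro n x y
  have h := transfer_le hN
    (c2 (fun a b => a + b) (by fun_prop)
      (fa2_fsq (.add (fa2_tR n (.var 0)) (fa2_tR n (.var 1))) : Formula sg 2)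
      (fa2_fsq ((fa2_tR n (.var 0)).sub (fa2_tR n (.var 1)))))
    (c2 (fun a b => 2 * (1 + 1 / (pp n : ℝ)) ^ 2 * (a + b)) (by fun_prop)
      (fa2_fsq (fa2_tR n (.var 0))) (fa2_fsq (fa2_tR n (.var 1))))
    (fun v => by
      rw [eval_c2, eval_c2, fa2_eval_fsq, fa2_eval_fsq, fa2_eval_fsq, fa2_eval_fsq,
        fa2_eval_add, Term.eval_sub, fa2_eval_tR, fa2_eval_tR]
      exact Dat.FA3.X_par n (v 0) (v 1)) ![x, y]
  rw [eval_c2, eval_c2, fa2_eval_fsq, fa2_eval_fsq, fa2_eval_fsq, fa2_eval_fsq,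
    fa2_eval_add, Term.eval_sub, fa2_eval_tR, fa2_eval_tR] at h
  exact h

/-- Powers of terms. -/
def fa3_tpw {k : ℕ} (p : ℕ) (t : Term sg k) : Term sg k := (tM t)^[p - 1] t

lemma fa3_eval_tpw {k : ℕ} (M : Struc sg) (v : Fin k → M.carrier) (p : ℕ) (t : Term sg k) :
    (fa3_tpw p t).eval M v = pw M p (t.eval M v) := by
  unfold fa3_tpw pw
  generalize p - 1 = j
  induction j with
  | zero => rfl
  | succ j ih => rw [Function.iterate_succ_apply', Function.iterate_succ_apply', eval_tM, ih]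

/-- The action of terms. -/
def fa3_tact {k : ℕ} (s t : Term sg k) : Term sg k := tM (tP true s) (tM (tP false s) t)

lemma fa3_eval_tact {k : ℕ} (M : Struc sg) (v : Fin k → M.carrier) (s t : Term sg k) :
    (fa3_tact s t).eval M v = act M (s.eval M v) (t.eval M v) := by
  unfold fa3_tact act
  rw [eval_tM, eval_tM, eval_tP, eval_tP]

theorem F_upper (hN : IsModel N (theoryOf D.str)) : ∀ m w x, (DD m ^ 2 * oB N (act N w (oK N m x)) (act N w (oK N m x))) ^ pp m ≤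
    (‖oK N m x‖ ^ 2 - oB N (oK N m x) (oK N m x)) ^ pp m *
      (‖pw N (pp m) (oP N true w)‖ ^ 2 * ‖pw N (pp m) (oP N false w)‖ ^ 2) := by
  intro m w x
  have h := transfer_le hN
    (c1 (fun a => (DD m ^ 2 * a) ^ pp m) (by fun_prop)
      (fB (fa3_tact (.var 0) (tK m (.var 1))) (fa3_tact (.var 0) (tK m (.var 1))) : Formula sg 2))
    (c4 (fun a b c d => (a - b) ^ pp m * (c * d)) (by fun_prop)
      (fa2_fsq (tK m (.var 1))) (fB (tK m (.var 1)) (tK m (.var 1)))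
      (fa2_fsq (fa3_tpw (pp m) (tP true (.var 0)))) (fa2_fsq (fa3_tpw (pp m) (tP false (.var 0)))))
    (fun v => by
      rw [eval_c1, eval_c4, eval_fB, eval_fB, fa2_eval_fsq, fa2_eval_fsq, fa2_eval_fsq,
        fa3_eval_tact, fa3_eval_tpw, fa3_eval_tpw, eval_tK, eval_tP, eval_tP]
      exact Dat.FA3.X_upper m (v 0) (v 1)) ![w, x]
  rw [eval_c1, eval_c4, eval_fB, eval_fB, fa2_eval_fsq, fa2_eval_fsq, fa2_eval_fsq,
    fa3_eval_tact, fa3_eval_tpw, fa3_eval_tpw, eval_tK, eval_tP, eval_tP] at h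
  exact h

theorem F_opt (hN : IsModel N (theoryOf D.str)) : ∀ m x ε, 0 < ε → ∃ w, ‖pw N (pp m) (oP N true w)‖ ^ 2 ≤ 1 + ε ∧
    ‖pw N (pp m) (oP N false w)‖ ^ 2 ≤ 1 + ε ∧
    ‖oK N m x‖ ^ 2 ≤ oB N (oK N m x) (oK N m x) +
      DD m ^ 2 * oB N (act N w (oK N m x)) (act N w (oK N m x)) + ε := by
  intro m x ε hε
  obtain ⟨R, hR⟩ := exists_nat_ge ‖x‖
  obtain ⟨r, hr⟩ := Dat.FA3.X_opt m R (ε / 2) (by positivity)
  let φ : Formula sg 2 := c3 (fun a b c => max (max (a - 1) (b - 1)) c) (by fun_prop)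
    (fa2_fsq (fa3_tpw (pp m) (tP true (.var 0)))) (fa2_fsq (fa3_tpw (pp m) (tP false (.var 0))))
    (c3 (fun a b c => a - b - DD m ^ 2 * c - ε / 2) (by fun_prop)
      (fa2_fsq (tK m (.var 1))) (fB (tK m (.var 1)) (tK m (.var 1)))
      (fB (fa3_tact (.var 0) (tK m (.var 1))) (fa3_tact (.var 0) (tK m (.var 1)))))
  have hφ : ∀ (M : Struc sg) (v : Fin 2 → M.carrier), φ.eval M v =
      max (max (‖pw M (pp m) (oP M true (v 0))‖ ^ 2 - 1) (‖pw M (pp m) (oP M false (v 0))‖ ^ 2 - 1))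
      (‖oK M m (v 1)‖ ^ 2 - oB M (oK M m (v 1)) (oK M m (v 1)) -
        DD m ^ 2 * oB M (act M (v 0) (oK M m (v 1))) (act M (v 0) (oK M m (v 1))) - ε / 2) := by
    intro M v
    change (c3 _ _ _ _ _).eval M v = _
    rw [eval_c3, eval_c3, eval_fB, eval_fB, fa2_eval_fsq, fa2_eval_fsq, fa2_eval_fsq,
      fa3_eval_tact, fa3_eval_tpw, fa3_eval_tpw, eval_tK, eval_tP, eval_tP]
    rfl
  obtain ⟨w, _, hw⟩ := transfer_ex hN φ R r (fun v hv δ hδ => by
    obtain ⟨w, hw0, hw1, hw2, hw3⟩ := hr D (v 0) (hv 0)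
    refine ⟨w, hw0, ?_⟩
    rw [hφ]
    refine le_trans (max_le (max_le ?_ ?_) ?_) hδ.le
    · exact sub_nonpos.2 hw1
    · exact sub_nonpos.2 hw2
    · have h1 : ‖Dat.KK m (v 0)‖ ^ 2 - Dat.B (Dat.KK m (v 0)) (Dat.KK m (v 0)) -
          DD m ^ 2 * Dat.B (Dat.FA3.actX w (Dat.KK m (v 0))) (Dat.FA3.actX w (Dat.KK m (v 0))) -
          ε / 2 ≤ 0 := by linarith
      exact h1) ![x] (fun i => by
        refine Fin.cases ?_ (fun i => i.elim0) i
        exact hR) (ε / 2) (by positivity)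
  rw [hφ] at hw
  have h1 := (le_max_left _ _).trans hw
  have h2 := (le_max_right _ _).trans hw
  have h3 := (le_max_left _ _).trans h1
  have h4 := (le_max_right _ _).trans h1
  refine ⟨w, ?_, ?_, ?_⟩
  · have h5 : ‖pw N (pp m) (oP N true w)‖ ^ 2 - 1 ≤ ε / 2 := h3
    linarith
  · have h5 : ‖pw N (pp m) (oP N false w)‖ ^ 2 - 1 ≤ ε / 2 := h4
    linarith
  · have h5 : ‖oK N m x‖ ^ 2 - oB N (oK N m x) (oK N m x) -
      DD m ^ 2 * oB N (act N w (oK N m x)) (act N w (oK N m x)) - ε / 2 ≤ ε / 2 := h2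
    linarith

end

end Pool.Agent.Lib.MP_4e4c79_lc.Cc
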