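import Mathlib
import Pool.Agent.Lib.MP_4e4c79_lc.Cc.Ops
import Pool.Agent.Lib.MP_4e4c79_lc.Cc.Tr1
import Pool.Agent.Lib.MP_4e4c79_lc.Cc.FA1
import Pool.Agent.Lib.MP_4e4c79_lc.Cc.FA2

/-!
# Module FA4.  Atoms and slots I.
-/

namespace Pool.Agent.Lib.MP_4e4c79_lc.Cc

open Pool.Agent.Lib.MP_4e4c79_lc Complete Finset
open scoped ENNReal
attribute [local instance] Classical.propDecidable
set_option linter.unusedSectionVars false

noncomputable section

variable {D : Dat} {N : Struc sg}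

lemma FA4_norm {M : Struc sg} {k : ℕ} (v : Fin k → M.carrier) (t : Term sg k) :
    (Formula.norm t).eval M v = ‖t.eval M v‖ := rfl

lemma FA4_pt_dist {z z' : D.Pt} (h : z ≠ z') : 1 ≤ dist (Dat.pt z : D.X) (Dat.pt z') := by
  rw [dist_eq_norm]
  have h1 := Dat.abs_coord_le ((Dat.pt z : D.X) - Dat.pt z').snd z
  rw [Dat.snd_sub, Dat.snd_pt, Dat.snd_pt, if_pos rfl, if_neg h, sub_zero, abs_one] at h1
  have h2 := Dat.snd_le ((Dat.pt z : D.X) - Dat.pt z')
  exact h1.trans h2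

lemma FA4_closed (σ : Bool) : IsClosed (Dat.ds σ : Set D.X) := by
  refine Metric.isClosed_of_pairwise_le_dist one_pos ?_
  rintro _ ⟨z, hz, rfl⟩ _ ⟨z', hz', rfl⟩ hne
  exact FA4_pt_dist fun h => hne (by rw [h])

theorem dd_zero_iff (σ : Bool) (x : D.X) : Dat.dd σ x = 0 ↔ ∃ z : D.Pt, z.isLeft = σ ∧ x = Dat.pt z := by
  have h := (FA4_closed (D := D) σ).mem_iff_infDist_zero (x := x) ((D.srt_nonempty σ).image _)
  unfold Dat.dd
  rw [← h]
  constructor
  · rintro ⟨z, hz, rfl⟩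
    exact ⟨z, hz, rfl⟩
  · rintro ⟨z, hz, rfl⟩
    exact ⟨z, hz, rfl⟩

lemma FA4_near (σ : Bool) (x : D.X) (ε : ℝ) (hε : 0 < ε) :
    ∃ z : D.Pt, z.isLeft = σ ∧ ‖x - Dat.pt z‖ ≤ Dat.dd σ x + ε := by
  have h : Metric.infDist x (Dat.ds σ : Set D.X) < Dat.dd σ x + ε := by
    unfold Dat.dd
    linarith
  obtain ⟨_, ⟨z, hz, rfl⟩, h2⟩ := (Metric.infDist_lt_iff ((D.srt_nonempty σ).image _)).1 h
  refine ⟨z, hz, ?_⟩
  rw [dist_eq_norm] at h2
  exact h2.le

theorem dd_near_X (σ : Bool) (x : D.str.carrier) (ε : ℝ) (hε : 0 < ε) : ∃ d : D.str.carrier,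
    (fd σ (.var 0) : Formula sg 1).eval D.str (fun _ => d) = 0 ∧
      ‖x - d‖ ≤ (fd σ (.var 0) : Formula sg 1).eval D.str (fun _ => x) + ε := by
  obtain ⟨z, hz, h⟩ := FA4_near σ x ε hε
  refine ⟨Dat.pt z, (eval_fd (N := D.str) _ σ _).trans ((dd_zero_iff σ _).2 ⟨z, hz, rfl⟩), ?_⟩
  exact h.trans (le_of_eq (congrArg (· + ε) (eval_fd (N := D.str) (fun _ => x) σ (.var 0)).symm))

theorem F_d_lip (hN : IsModel N (theoryOf D.str)) : ∀ σ x y, |od N σ x - od N σ y| ≤ ‖x - y‖ := by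
  intro σ x y
  have h := transfer_le hN (k := 2) (Incomplete.c2 (fun a b => |a - b|) (by fun_prop)
    (fd σ (.var 0)) (fd σ (.var 1))) (.norm (Term.sub (.var 0) (.var 1))) (fun v => by
      simp only [Incomplete.eval_c2, eval_fd, FA4_norm, Term.eval_sub, Term.eval]
      exact Dat.dd_lip σ _ _) ![x, y]
  simp only [Incomplete.eval_c2, eval_fd, FA4_norm, Term.eval_sub, Term.eval] at h
  exact h

theorem F_d_nonneg (hN : IsModel N (theoryOf D.str)) (σ : Bool) (x : N.carrier) :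
    0 ≤ od N σ x := by
  have h := transfer_le hN (k := 1) (.norm .zero) (fd σ (.var 0)) (fun v => by
      simp only [eval_fd, FA4_norm, Term.eval, norm_zero]
      exact Dat.dd_nonneg σ _) ![x]
  simp only [eval_fd, FA4_norm, Term.eval, norm_zero] at h
  exact h

lemma FA4_step (hN : IsModel N (theoryOf D.str)) (σ : Bool) (x : N.carrier) (ε : ℝ)
    (hε : 0 < ε) : ∃ y, od N σ y ≤ ε ∧ ‖x - y‖ ≤ od N σ x + ε := by
  obtain ⟨R, hR⟩ := exists_nat_ge ‖x‖
  obtain ⟨w, -, hw⟩ := transfer_ex hN (k := 1)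
    (Incomplete.c3 (fun a b c => max a (b - c)) (by fun_prop) (fd σ (.var 0))
      (.norm (Term.sub (.var 1) (.var 0))) (fd σ (.var 1))) R 1
    (fun v _ ε hε => by
      obtain ⟨z, hz, h⟩ := FA4_near σ (v 0) ε hε
      refine ⟨Dat.pt z, ?_, ?_⟩
      · have := Dat.pt_norm (D := D) z
        change ‖(Dat.pt z : D.X)‖ ≤ ((1 : ℕ) : ℝ)
        rw [this]
        norm_num
      · simp only [Incomplete.eval_c3, eval_fd, FA4_norm, Term.eval_sub, Term.eval]
        have h0 : Dat.dd σ (Dat.pt z : D.X) = 0 := (dd_zero_iff σ _).2 ⟨z, hz, rfl⟩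
        refine max_le ?_ ?_
        · change Dat.dd σ (Dat.pt z : D.X) ≤ ε
          rw [h0]
          exact hε.le
        · exact sub_le_iff_le_add'.2 h) ![x] (fun i => by
      fin_cases i
      exact hR) ε hε
  simp only [Incomplete.eval_c3, eval_fd, FA4_norm, Term.eval_sub, Term.eval] at hw
  have h1 : od N σ w ≤ ε := (le_max_left _ _).trans hw
  have h2 : ‖x - w‖ - od N σ x ≤ ε := (le_max_right _ _).trans hw
  exact ⟨w, h1, by linarith⟩

theorem F_d_near (hN : IsModel N (theoryOf D.str)) : ∀ σ x ε, 0 < ε → ∃ d, od N σ d = 0 ∧ ‖x - d‖ ≤ od N σ x + ε := by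
  intro σ x ε hε
  choose g hg1 hg2 using fun (y : N.carrier) (n : ℕ) =>
    FA4_step hN σ y (ε / 8 / 2 ^ n) (by positivity)
  let f : ℕ → N.carrier := fun n => Nat.rec (g x 0) (fun n y => g y (n + 1)) n
  have hf1 : ∀ n, od N σ (f n) ≤ ε / 8 / 2 ^ n := by
    intro n
    cases n with
    | zero => exact hg1 x 0
    | succ n => exact hg1 (f n) (n + 1)
  have hf2 : ∀ n, dist (f n) (f (n + 1)) ≤ ε / 2 / 2 / 2 ^ n := by
    intro n
    rw [dist_eq_norm]
    have h1 := hg2 (f n) (n + 1)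
    have h2 := hf1 n
    have h3 : ε / 8 / 2 ^ (n + 1) ≤ ε / 8 / 2 ^ n := by
      gcongr <;> norm_num
    have h4 : ε / 8 / 2 ^ n + ε / 8 / 2 ^ n = ε / 2 / 2 / 2 ^ n := by ring
    change ‖f n - g (f n) (n + 1)‖ ≤ _
    linarith
  have hc := cauchySeq_of_le_geometric_two hf2
  obtain ⟨d, hd⟩ := cauchySeq_tendsto_of_complete hc
  have hdist := dist_le_of_le_geometric_two_of_tendsto₀ hf2 hd
  have hx0 : ‖x - f 0‖ ≤ od N σ x + ε / 8 / 2 ^ 0 := hg2 x 0
  refine ⟨d, ?_, ?_⟩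
  · refine le_antisymm ?_ (F_d_nonneg hN σ d)
    have hcont : Filter.Tendsto (fun n => od N σ (f n)) Filter.atTop (nhds (od N σ d)) := by
      rw [tendsto_iff_norm_sub_tendsto_zero] at hd ⊢
      refine squeeze_zero (fun n => norm_nonneg _) (fun n => ?_) hd
      exact F_d_lip hN σ (f n) d
    have h0 : Filter.Tendsto (fun n : ℕ => ε / 8 / 2 ^ n) Filter.atTop (nhds 0) := by
      have := (tendsto_pow_atTop_nhds_zero_of_lt_one (r := (1 / 2 : ℝ)) (by norm_num)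
        (by norm_num)).const_mul (ε / 8)
      rw [mul_zero] at this
      refine this.congr fun n => ?_
      rw [one_div, inv_pow]
      rfl
    exact le_of_tendsto_of_tendsto' hcont h0 hf1
  · rw [dist_eq_norm] at hdist
    have h1 : ‖x - d‖ ≤ ‖x - f 0‖ + ‖f 0 - d‖ := by
      have := norm_add_le (x - f 0) (f 0 - d)
      rwa [sub_add_sub_cancel] at this
    norm_num at hx0
    linarith

lemma FA4_zero (hN : IsModel N (theoryOf D.str)) (σ : Bool) {k : ℕ} (φ : Formula sg (k + 1))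
    (h : ∀ (v : Fin k → D.X) (z : D.Pt), z.isLeft = σ →
      φ.eval D.str (Fin.cons (Dat.pt z : D.X) v) ≤ 0)
    (v : Fin k → N.carrier) (d : N.carrier) (hd : od N σ d = 0) :
    φ.eval N (Fin.cons d v) ≤ 0 := by
  refine transfer_zero hN (fd σ (.var 0)) (dd_near_X σ) φ (fun v d hd => ?_) v d ?_
  · rw [eval_fd] at hd
    obtain ⟨z, hz, hz2⟩ := (dd_zero_iff σ (d : D.X)).1 hd
    subst hz2
    exact h v z hz
  · rw [eval_fd]
    exact hd

theorem F_d_norm (hN : IsModel N (theoryOf D.str)) : ∀ σ d, od N σ d = 0 → ‖d‖ = 1 := by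
  intro σ d hd
  have h := FA4_zero hN σ (k := 0) (Incomplete.c1 (fun a => |a - 1|) (by fun_prop)
    (.norm (.var 0))) (fun v z hz => by
      simp only [Incomplete.eval_c1, FA4_norm, Term.eval]
      change |‖(Dat.pt z : D.X)‖ - 1| ≤ 0
      rw [Dat.pt_norm, sub_self, abs_zero]) ![] d hd
  simp only [Incomplete.eval_c1, FA4_norm, Term.eval] at h
  have h2 : |‖d‖ - 1| ≤ 0 := h
  have h3 := abs_nonpos_iff.1 h2
  linarith

lemma FA4_PP_pt {σ : Bool} {z : D.Pt} (hz : z.isLeft = σ) :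
    Dat.PP σ (Dat.pt z : D.X) = Dat.pt z := by
  refine Dat.X_ext (fun m b => rfl) fun z' => ?_
  rw [Dat.snd_PP, Dat.snd_pt]
  by_cases h : z' = z
  · subst h
    rw [if_pos hz]
  · rw [if_neg h, ite_self]

theorem F_d_P (hN : IsModel N (theoryOf D.str)) : ∀ σ d, od N σ d = 0 → oP N σ d = d := by
  intro σ d hd
  have h := FA4_zero hN σ (k := 0) (.norm (Term.sub (tP σ (.var 0)) (.var 0))) (fun v z hz => by
      simp only [FA4_norm, Term.eval_sub, eval_tP, Term.eval]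
      change ‖Dat.PP σ (Dat.pt z : D.X) - Dat.pt z‖ ≤ 0
      rw [FA4_PP_pt hz, sub_self, norm_zero]) ![] d hd
  simp only [FA4_norm, Term.eval_sub, eval_tP, Term.eval] at h
  have h2 : ‖oP N σ d - d‖ ≤ 0 := h
  exact sub_eq_zero.1 (norm_le_zero_iff.1 h2)

lemma FA4_B_pt (y : D.X) (z : D.Pt) : Dat.B y (Dat.pt z) = y.snd z := by
  rw [Dat.B_symm]
  have h1 : diagForm (Dat.bK (D := D)) (Dat.pt z : D.X).fst y.fst = 0 := by
    unfold diagForm
    have : (fun m => Dat.bK (D := D) m ((Dat.pt z : D.X).fst m) (y.fst m)) = fun _ => 0 := by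
      funext m
      have h := Dat.bK_smul m 0 (0 : D.XK m) (y.fst m)
      rw [zero_smul, zero_mul] at h
      exact h
    rw [this, tsum_zero]
  have h2 : inner ℝ (Dat.pt z : D.X).snd y.snd = y.snd z := by
    change inner ℝ (lp.single 2 z (1 : ℝ) : L2 D.Pt) y.snd = _
    rw [lp.inner_single_left]
    simp
  unfold Dat.B
  rw [h1, h2, zero_add]

lemma FA4_mu_pt {σ : Bool} {z : D.Pt} (hz : z.isLeft = σ) (y : D.X) :
    Dat.mu (Dat.pt z : D.X) (Dat.PP σ y) = y.snd z • Dat.pt z := by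
  refine Dat.X_ext (fun m b => ?_) fun z' => ?_
  · rw [Dat.kc_mu, Dat.kc_PP, smul_zero, Dat.kc_smul, Dat.kc_pt, smul_zero]
  · rw [Dat.snd_mu, Dat.snd_PP, Dat.snd_smul, Dat.snd_pt]
    by_cases h : z' = z
    · subst h
      rw [if_pos hz, if_pos rfl]
      cases z' with
      | inl a =>
        change (Dat.pt (Sum.inl a) : D.X).snd (.inl a) * _ = _
        rw [Dat.snd_pt, if_pos rfl]
        ring
      | inr b =>
        change ((Dat.pt (Sum.inr b) : D.X).snd (.inl b.1) + (Dat.pt (Sum.inr b) : D.X).snd (.inr b))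
          * _ = _
        rw [Dat.snd_pt, Dat.snd_pt, if_pos rfl, if_neg (by simp)]
        ring
    · rw [if_neg h, mul_zero]
      by_cases h2 : z'.isLeft = σ
      · rw [if_pos h2]
        cases z' with
        | inl a =>
          change (Dat.pt z : D.X).snd (.inl a) * _ = _
          rw [Dat.snd_pt, if_neg h]
          ring
        | inr b =>
          change ((Dat.pt z : D.X).snd (.inl b.1) + (Dat.pt z : D.X).snd (.inr b)) * _ = _
          rw [Dat.snd_pt, Dat.snd_pt, if_neg h, if_neg (by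
            rintro rfl
            simp only [Sum.isLeft_inl, Sum.isLeft_inr] at hz h2
            rw [← hz] at h2
            exact absurd h2 (by simp))]
          ring
      · rw [if_neg h2, mul_zero]

theorem F_d_M (hN : IsModel N (theoryOf D.str)) : ∀ σ d, od N σ d = 0 → ∀ y, oM N d (oP N σ y) = oB N d y • d := by
  intro σ d hd y
  have h := FA4_zero hN σ (k := 1) (Incomplete.c2 (fun a b => abs (a - abs (b - oB N d y))) (by fun_prop)
    (.norm (Term.sub (tM (.var 0) (tP σ (.var 1))) (.smul (oB N d y) (.var 0))))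
    (fB (.var 0) (.var 1))) (fun v z hz => by
      simp only [Incomplete.eval_c2, FA4_norm, Term.eval_sub, eval_tM, eval_tP, eval_fB, Term.eval]
      change abs (‖Dat.mu (Dat.pt z : D.X) (Dat.PP σ (v 0)) - oB N d y • (Dat.pt z : D.X)‖ -
        abs (Dat.B (Dat.pt z : D.X) (v 0) - oB N d y)) ≤ 0
      rw [FA4_mu_pt hz, Dat.B_symm, FA4_B_pt, ← sub_smul, norm_smul, Dat.pt_norm, mul_one,
        Real.norm_eq_abs, sub_self, abs_zero]) ![y] d hd
  simp only [Incomplete.eval_c2, FA4_norm, Term.eval_sub, eval_tM, eval_tP, eval_fB,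
    Term.eval] at h
  have h2 : abs (‖oM N d (oP N σ y) - oB N d y • d‖ - abs (oB N d y - oB N d y)) ≤ 0 := h
  rw [sub_self, abs_zero, sub_zero, abs_norm] at h2
  exact sub_eq_zero.1 (norm_le_zero_iff.1 h2)

lemma FA4_mu_le (w x : D.X) {C : ℝ} (hC : 0 ≤ C) (h : ∀ z, |Dat.sc w z| ≤ C) :
    ‖Dat.mu w x‖ ≤ C * ‖x‖ := by
  refine le_of_sq_le_sq ?_ (by positivity)
  have hfst : ‖(Dat.mu w x).fst‖ ^ 2 ≤ C ^ 2 * ‖x.fst‖ ^ 2 := by
    refine hasSum_le (fun m => ?_) (hasSum_sq (Dat.mu w x).fst)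
      ((hasSum_sq x.fst).mul_left (C ^ 2))
    rw [← mul_pow]
    exact pow_le_pow_left₀ (norm_nonneg _) (Dat.mulK_norm_le m hC
      (fun b => h (.inr b)) _) 2
  have hsnd : ‖(Dat.mu w x).snd‖ ^ 2 ≤ C ^ 2 * ‖x.snd‖ ^ 2 := by
    rw [← mul_pow]
    exact pow_le_pow_left₀ (norm_nonneg _) (mulFn_norm_le hC h _) 2
  rw [Dat.X_norm_sq, mul_pow, Dat.X_norm_sq x]
  nlinarith

lemma FA4_small_X (σ : Bool) (y x : D.X) (ε : ℝ) (hε : 0 < ε) :
    ∃ z : D.Pt, z.isLeft = σ ∧ ‖Dat.mu (Dat.PP σ y) x‖ ≤ |Dat.B y (Dat.pt z)| * ‖x‖ + ε := by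
  have hne : Nonempty {z : D.Pt // z.isLeft = σ} := by
    obtain ⟨z, hz⟩ := D.srt_nonempty σ
    exact ⟨⟨z, hz⟩⟩
  have hbdd : BddAbove (Set.range fun z : {z : D.Pt // z.isLeft = σ} => |y.snd z.1|) :=
    ⟨‖y.snd‖, by
      rintro _ ⟨z, rfl⟩
      exact Dat.abs_coord_le _ _⟩
  set S : ℝ := ⨆ z : {z : D.Pt // z.isLeft = σ}, |y.snd z.1| with hS
  have hS0 : 0 ≤ S := by
    obtain ⟨z⟩ := hne
    exact (abs_nonneg _).trans (le_ciSup hbdd z)
  have hpos : 0 < ε / (‖x‖ + 1) := by positivity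
  obtain ⟨z, hz⟩ := exists_lt_of_lt_ciSup (show S - ε / (‖x‖ + 1) < S by linarith)
  refine ⟨z.1, z.2, ?_⟩
  have h1 : ‖Dat.mu (Dat.PP σ y) x‖ ≤ S * ‖x‖ := by
    refine FA4_mu_le _ _ hS0 fun z' => ?_
    cases z' with
    | inl a =>
      change |(Dat.PP σ y).snd (.inl a)| ≤ S
      rw [Dat.snd_PP]
      split_ifs with h
      · exact le_ciSup hbdd ⟨Sum.inl a, h⟩
      · rw [abs_zero]
        exact hS0
    | inr b =>
      change |(Dat.PP σ y).snd (.inl b.1) + (Dat.PP σ y).snd (.inr b)| ≤ S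
      rw [Dat.snd_PP, Dat.snd_PP]
      cases σ with
      | true =>
        rw [if_pos (show (Sum.inl b.1 : D.Pt).isLeft = true from rfl),
          if_neg (show ¬ (Sum.inr b : D.Pt).isLeft = true from Bool.false_ne_true), add_zero]
        exact le_ciSup hbdd ⟨Sum.inl b.1, rfl⟩
      | false =>
        rw [if_neg (show ¬ (Sum.inl b.1 : D.Pt).isLeft = false from Bool.true_eq_false.mp),
          if_pos (show (Sum.inr b : D.Pt).isLeft = false from rfl), zero_add]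
        exact le_ciSup hbdd ⟨Sum.inr b, rfl⟩
  rw [FA4_B_pt]
  have h2 : S * ‖x‖ ≤ (|y.snd z.1| + ε / (‖x‖ + 1)) * ‖x‖ :=
    mul_le_mul_of_nonneg_right (by linarith) (norm_nonneg _)
  have h3 : ε / (‖x‖ + 1) * ‖x‖ ≤ ε := by
    rw [div_mul_eq_mul_div, div_le_iff₀ (by positivity)]
    nlinarith [norm_nonneg x]
  nlinarith

theorem F_M_small (hN : IsModel N (theoryOf D.str)) : ∀ σ y x ε, 0 < ε → ∃ d, od N σ d = 0 ∧ ‖oM N (oP N σ y) x‖ ≤ |oB N y d| * ‖x‖ + ε := by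
  intro σ y x ε hε
  obtain ⟨R, hR⟩ := exists_nat_ge (max ‖x‖ ‖y‖)
  set δ : ℝ := ε / (2 * (‖y‖ * ‖x‖) + 1) with hδ
  have hδ0 : 0 < δ := by positivity
  obtain ⟨w, -, hw⟩ := transfer_ex hN (k := 2)
    (Incomplete.c4 (fun a b c e => max a (b - |c| * e)) (by fun_prop) (fd σ (.var 0))
      (.norm (tM (tP σ (.var 1)) (.var 2))) (fB (.var 1) (.var 0)) (.norm (.var 2))) R 1
    (fun v _ ε hε => by
      obtain ⟨z, hz, h⟩ := FA4_small_X σ (v 0) (v 1) ε hε
      refine ⟨Dat.pt z, ?_, ?_⟩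
      · have := Dat.pt_norm (D := D) z
        change ‖(Dat.pt z : D.X)‖ ≤ ((1 : ℕ) : ℝ)
        rw [this]
        norm_num
      · simp only [Incomplete.eval_c4, eval_fd, FA4_norm, eval_tM, eval_tP, eval_fB, Term.eval]
        have h0 : Dat.dd σ (Dat.pt z : D.X) = 0 := (dd_zero_iff σ _).2 ⟨z, hz, rfl⟩
        refine max_le ?_ ?_
        · change Dat.dd σ (Dat.pt z : D.X) ≤ ε
          rw [h0]
          exact hε.le
        · exact sub_le_iff_le_add'.2 h) ![y, x] (fun i => by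
      fin_cases i
      · exact (le_max_right _ _).trans hR
      · exact (le_max_left _ _).trans hR) δ hδ0
  simp only [Incomplete.eval_c4, eval_fd, FA4_norm, eval_tM, eval_tP, eval_fB, Term.eval] at hw
  have h1 : od N σ w ≤ δ := (le_max_left _ _).trans hw
  have h2 : ‖oM N (oP N σ y) x‖ - |oB N y w| * ‖x‖ ≤ δ := (le_max_right _ _).trans hw
  obtain ⟨d, hd, hwd⟩ := F_d_near hN σ w δ hδ0
  refine ⟨d, hd, ?_⟩
  have h3 : oB N y w = oB N y d + oB N y (w - d) := by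
    have := F_B_add hN (w - d) d y
    rw [sub_add_cancel] at this
    rw [F_B_symm hN y w, this, F_B_symm hN y d, F_B_symm hN y (w - d), add_comm]
  have h4 : |oB N y w| ≤ |oB N y d| + ‖y‖ * (2 * δ) := by
    rw [h3]
    refine (abs_add_le _ _).trans (add_le_add le_rfl ((F_B_le hN y (w - d)).trans ?_))
    exact mul_le_mul_of_nonneg_left (by linarith) (norm_nonneg _)
  have h5 : |oB N y w| * ‖x‖ ≤ (|oB N y d| + ‖y‖ * (2 * δ)) * ‖x‖ :=
    mul_le_mul_of_nonneg_right h4 (norm_nonneg _)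
  have h6 : δ * (2 * (‖y‖ * ‖x‖) + 1) = ε := by
    rw [hδ]
    exact div_mul_cancel₀ _ (by positivity)
  nlinarith

end

end Pool.Agent.Lib.MP_4e4c79_lc.Cc
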