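import Mathlib
import Pool.Agent.Lib.MP_4e4c79_lc.Cc.Ops
import Pool.Agent.Lib.MP_4e4c79_lc.Cc.Tr1
import Pool.Agent.Lib.MP_4e4c79_lc.Cc.FA4

/-!
# Module FA5.  Atoms and slots II.
-/

namespace Pool.Agent.Lib.MP_4e4c79_lc.Cc

open Pool.Agent.Lib.MP_4e4c79_lc Complete Finset
open scoped ENNReal
attribute [local instance] Classical.propDecidable
set_option linter.unusedSectionVars false

noncomputable section

variable {D : Dat} {N : Struc sg}

lemma FA5_zero_ex (hN : IsModel N (theoryOf D.str)) (σ : Bool) {k : ℕ}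
    (φ : Formula sg (k + 1 + 1)) (r : ℕ)
    (h : ∀ (v : Fin k → D.X) (z : D.Pt), z.isLeft = σ → ∀ ε > 0, ∃ w : D.X, ‖w‖ ≤ r ∧
      φ.eval D.str (Fin.cons w (Fin.cons (Dat.pt z : D.X) v)) ≤ ε)
    (v : Fin k → N.carrier) (d : N.carrier) (hd : od N σ d = 0) (ε : ℝ) (hε : 0 < ε) :
    ∃ w, ‖w‖ ≤ r ∧ φ.eval N (Fin.cons w (Fin.cons d v)) ≤ ε := by
  refine transfer_zero_ex hN (fd σ (.var 0)) (dd_near_X σ) φ r (fun v d hd => ?_) v d ?_ ε hε
  · rw [eval_fd] at hd
    obtain ⟨z, hz, hz2⟩ := (dd_zero_iff σ (d : D.X)).1 hd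
    subst hz2
    exact h v z hz
  · rw [eval_fd]
    exact hd

lemma FA5_pt_le (z : D.Pt) : ‖(Dat.pt z : D.X)‖ ≤ ((1 : ℕ) : ℝ) := by
  rw [Dat.pt_norm]
  norm_num

lemma FA5_dd (σ : Bool) {z : D.Pt} (hz : z.isLeft = σ) : Dat.dd σ (Dat.pt z : D.X) = 0 :=
  (dd_zero_iff σ _).2 ⟨z, hz, rfl⟩

lemma FA5_mu_atom (a : D.A) (s : ℕ) :
    Dat.mu (Dat.pt (.inl a) : D.X) (Dat.pt (.inr (a, s))) = Dat.pt (.inr (a, s)) := by
  refine Dat.X_ext (fun m b => ?_) fun z => ?_
  · rw [Dat.kc_mu, Dat.kc_pt, smul_zero]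
  · rw [Dat.snd_mu, Dat.snd_pt]
    by_cases h : z = .inr (a, s)
    · subst h
      rw [if_pos rfl, mul_one]
      change (Dat.pt (Sum.inl a) : D.X).snd (.inl a) + (Dat.pt (Sum.inl a) : D.X).snd (.inr (a, s))
        = 1
      rw [Dat.snd_pt, Dat.snd_pt, if_pos rfl, if_neg (by simp), add_zero]
    · rw [if_neg h, mul_zero]

/-- Moving an element to a point, in `N`. -/
lemma FA5_move_M (hN : IsModel N (theoryOf D.str)) (w a b : N.carrier) :
    ‖oM N a b - b‖ ≤ ‖oM N w b - b‖ + 2 * (‖w - a‖ * ‖b‖) := by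
  have h1 : oM N a b - b = (oM N w b - b) - oM N (w - a) b := by
    have := F_M_add_left hN (w - a) a b
    rw [sub_add_cancel] at this
    rw [this]
    abel
  rw [h1]
  exact (norm_sub_le _ _).trans (add_le_add le_rfl (F_M_le hN (w - a) b))

lemma FA5_move_M' (hN : IsModel N (theoryOf D.str)) (w a b : N.carrier) :
    ‖oM N a b - b‖ ≤ ‖oM N a w - w‖ + (2 * ‖a‖ + 1) * ‖w - b‖ := by
  have h1 : oM N a b - b = (oM N a w - w) - (oM N a (w - b) - (w - b)) := by
    have := F_M_add_right hN a (w - b) b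
    rw [sub_add_cancel] at this
    rw [this]
    abel
  rw [h1]
  refine (norm_sub_le _ _).trans (add_le_add le_rfl ((norm_sub_le _ _).trans ?_))
  have := F_M_le hN a (w - b)
  linarith

lemma FA5_move_B (hN : IsModel N (theoryOf D.str)) (x w a : N.carrier) :
    |oB N x a| ≤ |oB N x w| + ‖x‖ * ‖w - a‖ := by
  have h1 : oB N x a = oB N x w - oB N x (w - a) := by
    have := F_B_add hN (w - a) a x
    rw [sub_add_cancel] at this
    rw [F_B_symm hN x w, this, F_B_symm hN x a, F_B_symm hN x (w - a)]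
    ring
  rw [h1]
  exact (abs_sub _ _).trans (add_le_add le_rfl (F_B_le hN x (w - a)))

theorem F_atom_ex (hN : IsModel N (theoryOf D.str)) : ∀ b, od N false b = 0 → ∀ ε, 0 < ε → ∃ a, od N true a = 0 ∧ ‖oM N a b - b‖ ≤ ε := by
  intro b hb ε hε
  obtain ⟨w, -, hw⟩ := FA5_zero_ex hN false (k := 0)
    (Incomplete.c2 (fun a b => max a b) (by fun_prop) (fd true (.var 0))
      (.norm (Term.sub (tM (.var 0) (.var 1)) (.var 1)))) 1
    (fun v z hz ε hε => by
      obtain ⟨⟨a, s⟩, rfl⟩ : ∃ c, z = Sum.inr c := by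
        cases z with
        | inl a => simp at hz
        | inr c => exact ⟨c, rfl⟩
      refine ⟨Dat.pt (.inl a), FA5_pt_le _, ?_⟩
      simp only [Incomplete.eval_c2, eval_fd, FA4_norm, Term.eval_sub, eval_tM, Term.eval]
      refine max_le ?_ ?_
      · exact (FA5_dd true rfl).trans_le hε.le
      · change ‖Dat.mu (Dat.pt (.inl a) : D.X) (Dat.pt (.inr (a, s))) - Dat.pt (.inr (a, s))‖ ≤ ε
        rw [FA5_mu_atom, sub_self, norm_zero]
        exact hε.le) ![] b hb (ε / 5) (by positivity)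
  simp only [Incomplete.eval_c2, eval_fd, FA4_norm, Term.eval_sub, eval_tM, Term.eval] at hw
  have h1 : od N true w ≤ ε / 5 := (le_max_left _ _).trans hw
  have h2 : ‖oM N w b - b‖ ≤ ε / 5 := (le_max_right _ _).trans hw
  obtain ⟨a, ha, hwa⟩ := F_d_near hN true w (ε / 5) (by positivity)
  refine ⟨a, ha, (FA5_move_M hN w a b).trans ?_⟩
  rw [F_d_norm hN false b hb]
  linarith

lemma FA5_exists_small {ι : Type} [Infinite ι] (f : ι → ℝ) (hf : Summable fun i => f i ^ 2)
    (ε : ℝ) (hε : 0 < ε) : ∃ i, |f i| ≤ ε := by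
  by_contra hcon
  push Not at hcon
  have h1 := hf.tendsto_cofinite_zero
  have h2 : ∀ᶠ i in Filter.cofinite, f i ^ 2 < ε ^ 2 :=
    h1.eventually_lt_const (by positivity)
  obtain ⟨i, hi⟩ := h2.exists
  have h3 := hcon i
  have h4 : ε ^ 2 < |f i| ^ 2 := by
    gcongr
  rw [sq_abs] at h4
  linarith

theorem F_atoms_inf (hN : IsModel N (theoryOf D.str)) : ∀ x ε, 0 < ε → ∃ a, od N true a = 0 ∧ |oB N x a| ≤ ε := by
  intro x ε hε
  obtain ⟨R, hR⟩ := exists_nat_ge ‖x‖
  set δ : ℝ := ε / (1 + 2 * ‖x‖) with hδ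
  have hδ0 : 0 < δ := by positivity
  obtain ⟨w, -, hw⟩ := transfer_ex hN (k := 1)
    (Incomplete.c2 (fun a b => max a |b|) (by fun_prop) (fd true (.var 0))
      (fB (.var 1) (.var 0))) R 1
    (fun v _ ε hε => by
      have := D.infinite_A
      obtain ⟨a, ha⟩ := FA5_exists_small (fun a : D.A => (v 0 : D.X).snd (.inl a))
        (((summable_sq (v 0 : D.X).snd).comp_injective Sum.inl_injective).congr fun a => by
          simp only [Function.comp, Real.norm_eq_abs, sq_abs]) ε hε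
      refine ⟨(Dat.pt (.inl a) : D.X), FA5_pt_le _, ?_⟩
      simp only [Incomplete.eval_c2, eval_fd, eval_fB, Term.eval]
      refine max_le ?_ ?_
      · exact (FA5_dd true rfl).trans_le hε.le
      · exact (congrArg abs (FA4_B_pt (v 0) (.inl a))).trans_le ha) ![x] (fun i => by
      fin_cases i
      exact hR) δ hδ0
  simp only [Incomplete.eval_c2, eval_fd, eval_fB, Term.eval] at hw
  have h1 : od N true w ≤ δ := (le_max_left _ _).trans hw
  have h2 : |oB N x w| ≤ δ := (le_max_right _ _).trans hw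
  obtain ⟨a, ha, hwa⟩ := F_d_near hN true w δ hδ0
  refine ⟨a, ha, (FA5_move_B hN x w a).trans ?_⟩
  have h3 : ‖x‖ * ‖w - a‖ ≤ ‖x‖ * (2 * δ) :=
    mul_le_mul_of_nonneg_left (by linarith) (norm_nonneg _)
  have h4 : δ * (1 + 2 * ‖x‖) = ε := div_mul_cancel₀ _ (by positivity)
  nlinarith

theorem F_slots_inf (hN : IsModel N (theoryOf D.str)) : ∀ a, od N true a = 0 → ∀ x ε, 0 < ε →
    ∃ b, od N false b = 0 ∧ ‖oM N a b - b‖ ≤ ε ∧ |oB N x b| ≤ ε := by
  intro a ha x ε hε
  set δ : ℝ := ε / (7 + 2 * ‖x‖) with hδ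
  have hδ0 : 0 < δ := by positivity
  obtain ⟨w, -, hw⟩ := FA5_zero_ex hN true (k := 1)
    (Incomplete.c3 (fun a b c => max (max a b) |c|) (by fun_prop) (fd false (.var 0))
      (.norm (Term.sub (tM (.var 1) (.var 0)) (.var 0))) (fB (.var 2) (.var 0))) 1
    (fun v z hz ε hε => by
      obtain ⟨a, rfl⟩ : ∃ c, z = Sum.inl c := by
        cases z with
        | inl a => exact ⟨a, rfl⟩
        | inr c => simp at hz
      obtain ⟨s, hs⟩ := FA5_exists_small (fun s : ℕ => (v 0).snd (.inr (a, s)))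
        (((summable_sq (v 0).snd).comp_injective
          (i := fun s : ℕ => (Sum.inr (a, s) : D.Pt)) (fun s t h => by
            simpa using h)).congr fun a => by
          simp only [Function.comp, Real.norm_eq_abs, sq_abs]) ε hε
      refine ⟨Dat.pt (.inr (a, s)), FA5_pt_le _, ?_⟩
      simp only [Incomplete.eval_c3, eval_fd, FA4_norm, Term.eval_sub, eval_tM, eval_fB, Term.eval]
      refine max_le (max_le ?_ ?_) ?_
      · exact (FA5_dd false rfl).trans_le hε.le
      · change ‖Dat.mu (Dat.pt (.inl a) : D.X) (Dat.pt (.inr (a, s))) - Dat.pt (.inr (a, s))‖ ≤ ε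
        rw [FA5_mu_atom, sub_self, norm_zero]
        exact hε.le
      · change |Dat.B (v 0) (Dat.pt (.inr (a, s)))| ≤ ε
        rw [FA4_B_pt]
        exact hs) ![x] a ha δ hδ0
  simp only [Incomplete.eval_c3, eval_fd, FA4_norm, Term.eval_sub, eval_tM, eval_fB,
    Term.eval] at hw
  have h1 : od N false w ≤ δ := ((le_max_left _ _).trans (le_max_left _ _)).trans hw
  have h2 : ‖oM N a w - w‖ ≤ δ := ((le_max_right _ _).trans (le_max_left _ _)).trans hw
  have h3 : |oB N x w| ≤ δ := (le_max_right _ _).trans hw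
  obtain ⟨b, hb, hwb⟩ := F_d_near hN false w δ hδ0
  have h4 : δ * (7 + 2 * ‖x‖) = ε := div_mul_cancel₀ _ (by positivity)
  have h5 : 0 ≤ δ * ‖x‖ := by positivity
  refine ⟨b, hb, (FA5_move_M' hN w a b).trans ?_, (FA5_move_B hN x w b).trans ?_⟩
  · rw [F_d_norm hN true a ha]
    nlinarith
  · have h3 : ‖x‖ * ‖w - b‖ ≤ ‖x‖ * (2 * δ) :=
      mul_le_mul_of_nonneg_left (by linarith) (norm_nonneg _)
    nlinarith

/-- The element with the only component `h`, at the slot `b` in the kind `j`. -/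
def FA5_el (j : ℕ) (b : D.A × ℕ) (h : Hs (D.dm j b)) : D.X :=
  WithLp.toLp 2 (lp.single 2 j ((RN.to.symm (lp.single 2 b h)) : D.XK j), 0)

lemma FA5_kc_self (j : ℕ) (b : D.A × ℕ) (h : Hs (D.dm j b)) :
    Dat.kc (FA5_el j b h) j b = h := by
  unfold Dat.kc FA5_el
  simp

lemma FA5_kc_ne (j : ℕ) (b : D.A × ℕ) (h : Hs (D.dm j b)) (m : ℕ) (c : D.A × ℕ)
    (hne : m ≠ j ∨ c ≠ b) : Dat.kc (FA5_el j b h) m c = 0 := by
  by_cases hm : m = j
  · subst hm
    have hc : c ≠ b := hne.resolve_left (fun h => h rfl)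
    unfold Dat.kc FA5_el
    simp [hc]
  · unfold Dat.kc FA5_el
    simp [hm]

lemma FA5_snd (j : ℕ) (b : D.A × ℕ) (h : Hs (D.dm j b)) (z : D.Pt) :
    (FA5_el j b h).snd z = 0 := rfl

lemma FA5_mu_el (j : ℕ) (b : D.A × ℕ) (h : Hs (D.dm j b)) :
    Dat.mu (Dat.pt (.inr b) : D.X) (FA5_el j b h) = FA5_el j b h := by
  refine Dat.X_ext (fun m c => ?_) fun z => ?_
  · rw [Dat.kc_mu]
    by_cases hne : m ≠ j ∨ c ≠ b
    · rw [FA5_kc_ne j b h m c hne, smul_zero]
    · push Not at hne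
      obtain ⟨rfl, rfl⟩ := hne
      have h1 : Dat.sc (Dat.pt (.inr c) : D.X) (.inr c) = 1 := by
        change (Dat.pt (Sum.inr c) : D.X).snd (.inl c.1) + (Dat.pt (Sum.inr c) : D.X).snd (.inr c)
          = 1
        rw [Dat.snd_pt, Dat.snd_pt, if_pos rfl, if_neg (by simp), zero_add]
      rw [h1, one_smul]
  · rw [Dat.snd_mu, FA5_snd, mul_zero]

lemma FA5_KK_el (j : ℕ) (b : D.A × ℕ) (h : Hs (D.dm j b)) :
    Dat.KK j (FA5_el j b h) = FA5_el j b h := by
  refine Dat.X_ext (fun m c => ?_) fun z => rfl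
  by_cases hm : m = j
  · subst hm
    rw [Dat.kc_KK_self]
  · rw [Dat.kc_KK_ne hm, FA5_kc_ne j b h m c (Or.inl hm)]

lemma FA5_norm_el (j : ℕ) (b : D.A × ℕ) (h : Hs (D.dm j b)) :
    ‖FA5_el j b h‖ ≤ √(1 + DD j ^ 2) * ‖h‖ := by
  unfold FA5_el
  rw [Dat.toLp_zero_right_norm, lp.norm_single (by norm_num)]
  refine (RN.norm_le _).trans_eq ?_
  rw [LinearEquiv.apply_symm_apply, lp.norm_single (by norm_num)]

lemma FA5_B_el (j : ℕ) (b : D.A × ℕ) (h : Hs (D.dm j b)) (x : D.X) :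
    Dat.B (FA5_el j b h) x = inner ℝ h (Dat.kc x j b) := by
  have h1 : diagForm (Dat.bK (D := D)) (FA5_el j b h).fst x.fst = inner ℝ h (Dat.kc x j b) := by
    unfold diagForm
    rw [tsum_eq_single j]
    · have e : (FA5_el j b h).fst j = ((RN.to.symm (lp.single 2 b h)) : D.XK j) := by
        change (lp.single 2 j ((RN.to.symm (lp.single 2 b h)) : D.XK j) : D.W) j = _
        simp
      rw [e]
      unfold Dat.bK
      rw [LinearEquiv.apply_symm_apply, lp.inner_single_left]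
      rfl
    · intro m hm
      have e : (FA5_el j b h).fst m = 0 := by
        change (lp.single 2 j ((RN.to.symm (lp.single 2 b h)) : D.XK j) : D.W) m = _
        simp [hm]
      rw [e]
      have h := Dat.bK_smul m 0 (0 : D.XK m) (x.fst m)
      rw [zero_smul, zero_mul] at h
      exact h
  have h2 : inner ℝ (FA5_el j b h).snd x.snd = 0 := by
    change inner ℝ (0 : D.Y) x.snd = 0
    exact inner_zero_left _
  unfold Dat.B
  rw [h1, h2, add_zero]

lemma FA5_hb {s : ℕ∞} (hs : s = ⊤) {n : ℕ} (x : Fin n → Hs s) (ε : ℝ) (hε : 0 < ε) :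
    ∃ l : ℕ, ∀ i, |inner ℝ (hb s l) (x i)| ≤ ε := by
  subst hs
  have hlt : ∀ l : ℕ, (l : ℕ∞) < ⊤ := fun l => ENat.natCast_lt_top l
  have h : ∀ i, ∀ᶠ l : ℕ in Filter.atTop, |inner ℝ (hb (⊤ : ℕ∞) l) (x i)| ≤ ε := by
    intro i
    have h1 : Summable fun l : ℕ => (inner ℝ (hb (⊤ : ℕ∞) l) (x i)) ^ 2 := by
      refine ((summable_sq (x i)).comp_injective
        (i := fun l : ℕ => (⟨l, hlt l⟩ : {j : ℕ // (j : ℕ∞) < ⊤})) (fun l l' h => by
          simpa using h)).congr fun l => ?_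
      rw [real_inner_comm, inner_hb, dif_pos (hlt l)]
      simp only [Function.comp, Real.norm_eq_abs, sq_abs]
    have h2 : ∀ᶠ l : ℕ in Filter.atTop, (inner ℝ (hb (⊤ : ℕ∞) l) (x i)) ^ 2 < ε ^ 2 :=
      h1.tendsto_atTop_zero.eventually_lt_const (by positivity)
    filter_upwards [h2] with l hl
    exact (abs_lt_of_sq_lt_sq hl hε.le).le
  exact (Filter.eventually_all.2 h).exists

lemma FA5_dims_X (j : ℕ) (b : D.A × ℕ) (hj : D.ty b.1 b.2 ≠ j) {n : ℕ} (x : Fin n → D.X)
    (ε : ℝ) (hε : 0 < ε) : ∃ y : D.X, ‖y‖ ≤ √(1 + DD j ^ 2) ∧ Dat.B y y = 1 ∧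
      (∀ i, |Dat.B y (x i)| ≤ ε) ∧ Dat.mu (Dat.pt (.inr b)) y = y ∧ Dat.KK j y = y := by
  have hdm : D.dm j b = ⊤ := by
    unfold Dat.dm
    rw [if_neg hj]
  obtain ⟨l, hl⟩ := FA5_hb hdm (fun i => Dat.kc (x i) j b) ε hε
  have hl2 : (l : ℕ∞) < D.dm j b := by
    rw [hdm]
    exact ENat.natCast_lt_top l
  refine ⟨FA5_el j b (hb _ l), ?_, ?_, fun i => ?_, FA5_mu_el _ _ _, FA5_KK_el _ _ _⟩
  · refine (FA5_norm_el _ _ _).trans_eq ?_
    rw [hb_norm _ _ hl2, mul_one]
  · rw [FA5_B_el, FA5_kc_self, hb_inner _ _ _ hl2, if_pos rfl]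
  · rw [FA5_B_el]
    exact hl i

theorem F_dims (hN : IsModel N (theoryOf D.str)) : ∀ b, od N false b = 0 → ∀ j j', j ≠ j' → ∀ n (x : Fin n → N.carrier) (ε : ℝ), 0 < ε →
    ∃ y, |oB N y y - 1| ≤ ε ∧ (∀ i, |oB N y (x i)| ≤ ε) ∧ ‖oM N b y - y‖ ≤ ε ∧
      (‖oK N j y - y‖ ≤ ε ∨ ‖oK N j' y - y‖ ≤ ε) := by
  intro b hb j j' hjj n x ε hε
  obtain ⟨r, hr⟩ := exists_nat_ge (max (√(1 + DD j ^ 2)) (√(1 + DD j' ^ 2)))
  let g : ℕ → Formula sg (n + 1 + 1) := fun i => if h : i < n then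
    Incomplete.c1 (fun a => |a|) (by fun_prop)
      (fB (.var 0) (.var (⟨i, h⟩ : Fin n).succ.succ)) else .norm .zero
  have hg1 : ∀ (M : Struc sg) (v : Fin n → M.carrier) (w d : M.carrier) (i : ℕ),
      (g i).eval M (Fin.cons w (Fin.cons d v)) =
        if h : i < n then |oB M w (v ⟨i, h⟩)| else 0 := by
    intro M v w d i
    change Formula.eval M (if h : i < n then
      Incomplete.c1 (fun a => |a|) (by fun_prop)
      (fB (.var 0) (.var (⟨i, h⟩ : Fin n).succ.succ)) else .norm .zero) _ = _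
    split_ifs with h
    · simp only [Incomplete.eval_c1, eval_fB, Term.eval, Fin.cons_succ, Fin.cons_zero]
    · simp only [FA4_norm, Term.eval, norm_zero]
  obtain ⟨w, -, hw⟩ := FA5_zero_ex hN false (k := n)
    (Incomplete.c2 (fun a b => max a b) (by fun_prop)
      (Incomplete.c3 (fun a b c => max (max |a - 1| b) c) (by fun_prop) (fB (.var 0) (.var 0))
        (Formula.sum n g) (.norm (Term.sub (tM (.var 1) (.var 0)) (.var 0))))
      (Incomplete.c2 (fun a b => min a b) (by fun_prop)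
        (.norm (Term.sub (tK j (.var 0)) (.var 0)))
        (.norm (Term.sub (tK j' (.var 0)) (.var 0))))) r
    (fun v z hz ε hε => by
      obtain ⟨b, rfl⟩ : ∃ c, z = Sum.inr c := by
        cases z with
        | inl a => simp at hz
        | inr c => exact ⟨c, rfl⟩
      have key : ∀ i : ℕ, D.ty b.1 b.2 ≠ i → i = j ∨ i = j' → √(1 + DD i ^ 2) ≤ r →
          ∃ w : D.X, ‖w‖ ≤ r ∧ (Incomplete.c2 (fun a b => max a b) (by fun_prop)
      (Incomplete.c3 (fun a b c => max (max |a - 1| b) c) (by fun_prop) (fB (.var 0) (.var 0))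
        (Formula.sum n g) (.norm (Term.sub (tM (.var 1) (.var 0)) (.var 0))))
      (Incomplete.c2 (fun a b => min a b) (by fun_prop)
        (.norm (Term.sub (tK j (.var 0)) (.var 0)))
        (.norm (Term.sub (tK j' (.var 0)) (.var 0))))).eval D.str
          (Fin.cons w (Fin.cons (Dat.pt (Sum.inr b) : D.X) v)) ≤ ε := by
        intro i hi hij hir
        obtain ⟨y, hy1, hy2, hy3, hy4, hy5⟩ := FA5_dims_X i b hi v (ε / (n + 1)) (by positivity)
        refine ⟨y, hy1.trans hir, ?_⟩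
        simp only [Incomplete.eval_c2, Incomplete.eval_c3, FA4_norm, Term.eval_sub, eval_tM,
          eval_tK, eval_fB, Term.eval, Formula.eval_sum]
        refine max_le (max_le (max_le ?_ ?_) ?_) ?_
        · change |Dat.B y y - 1| ≤ ε
          rw [hy2, sub_self, abs_zero]
          exact hε.le
        · have e1 : ∀ i ∈ range n, (g i).eval D.str
              (Fin.cons y (Fin.cons (Dat.pt (Sum.inr b) : D.X) v)) ≤ ε / (n + 1) := by
            intro i hi
            refine (hg1 D.str v y (Dat.pt (Sum.inr b) : D.X) i).trans_le ?_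
            rw [dif_pos (mem_range.1 hi)]
            exact hy3 _
          refine (sum_le_card_nsmul _ _ _ e1).trans ?_
          rw [card_range, nsmul_eq_mul, ← mul_div_assoc, div_le_iff₀ (by positivity)]
          nlinarith
        · change ‖Dat.mu (Dat.pt (Sum.inr b) : D.X) y - y‖ ≤ ε
          rw [hy4, sub_self, norm_zero]
          exact hε.le
        · rcases hij with rfl | rfl
          · refine (min_le_left _ _).trans ?_
            change ‖Dat.KK i y - y‖ ≤ ε
            rw [hy5, sub_self, norm_zero]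
            exact hε.le
          · refine (min_le_right _ _).trans ?_
            change ‖Dat.KK i y - y‖ ≤ ε
            rw [hy5, sub_self, norm_zero]
            exact hε.le
      by_cases hty : D.ty b.1 b.2 = j
      · refine key j' (fun h => hjj (hty.symm.trans h)) (Or.inr rfl)
          ((le_max_right _ _).trans hr)
      · exact key j hty (Or.inl rfl) ((le_max_left _ _).trans hr)) x b hb ε hε
  simp only [Incomplete.eval_c2, Incomplete.eval_c3, FA4_norm, Term.eval_sub, eval_tM,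
    eval_tK, eval_fB, Term.eval, Formula.eval_sum] at hw
  have h1 := (le_max_left _ _).trans hw
  have h2 := (le_max_right _ _).trans hw
  have h3 := (le_max_left _ _).trans h1
  have h4 := (le_max_right _ _).trans h1
  have h5 := (le_max_left _ _).trans h3
  have h6 := (le_max_right _ _).trans h3
  refine ⟨w, h5, fun i => ?_, h4, ?_⟩
  · have h7 : (g i.1).eval N (Fin.cons w (Fin.cons b x)) ≤ ε := by
      refine le_trans ?_ h6
      refine single_le_sum (f := fun i => (g i).eval N (Fin.cons w (Fin.cons b x)))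
        (fun i _ => ?_) (mem_range.2 i.2)
      change 0 ≤ (g i).eval N (Fin.cons w (Fin.cons b x))
      rw [hg1]
      split_ifs
      · exact abs_nonneg _
      · exact le_rfl
    rw [hg1, dif_pos i.2] at h7
    exact h7
  · exact min_le_iff.1 h2

end

end Pool.Agent.Lib.MP_4e4c79_lc.Cc
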