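import Mathlib
import Pool.Agent.Lib.MP_4e4c79_lc.Cc.FA1
import Pool.Agent.Lib.MP_4e4c79_lc.Cc.FA2
import Pool.Agent.Lib.MP_4e4c79_lc.Cc.FA3
import Pool.Agent.Lib.MP_4e4c79_lc.Cc.FA5

/-!
All models of the theory of `D.str` satisfy `Facts`.
-/

namespace Pool.Agent.Lib.MP_4e4c79_lc.Cc

theorem facts_of_model {D : Dat} {N : Struc sg} (hN : IsModel N (theoryOf D.str)) : Facts N where
  P_add := F_P_add hN
  P_smul := F_P_smul hN
  K_add := F_K_add hN
  K_smul := F_K_smul hN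
  M_add_left := F_M_add_left hN
  M_smul_left := F_M_smul_left hN
  M_add_right := F_M_add_right hN
  M_smul_right := F_M_smul_right hN
  B_add := F_B_add hN
  B_smul := F_B_smul hN
  B_symm := F_B_symm hN
  P_P := F_P_P hN
  P_P' := F_P_P' hN
  P_K := F_P_K hN
  K_P := F_K_P hN
  K_K := F_K_K hN
  K_K' := F_K_K' hN
  split := F_split hN
  B_le := F_B_le hN
  B_nonneg := F_B_nonneg hN
  B_P := F_B_P hN
  K_le := F_K_le hN
  B_P_symm := F_B_P_symm hN
  B_K_symm := F_B_K_symm hN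
  B_M := F_B_M hN
  M_comm := F_M_comm hN
  M_split := F_M_split hN
  P_M := F_P_M hN
  K_M := F_K_M hN
  M_le := F_M_le hN
  M_assoc := F_M_assoc hN
  M_assoc' := F_M_assoc' hN
  M_symm := F_M_symm hN
  d_lip := F_d_lip hN
  d_near := F_d_near hN
  d_norm := F_d_norm hN
  d_P := F_d_P hN
  d_M := F_d_M hN
  M_small := F_M_small hN
  atom_ex := F_atom_ex hN
  atoms_inf := F_atoms_inf hN
  slots_inf := F_slots_inf hN
  dims := F_dims hN
  opt := F_opt hN
  upper := F_upper hN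
  B_le_K := F_B_le_K hN
  par := F_par hN

end Pool.Agent.Lib.MP_4e4c79_lc.Cc
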