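import Mathlib
import Pool.Agent.Lib.MP_4e4c79_lc.Cc.Lab

/-!
# Module ISO.  Banach spaces with comparable bases are linearly homeomorphic.

PROOF of `iso_of_basis`.  Let `F : (I →₀ ℝ) →ₗ X`, `F c = ∑ c_i x_i` (`Finsupp.linearCombination`) and
`G` the same with `y`.  By the inequalities the identity of `I →₀ ℝ` extends to a linear
homeomorphism (`LinearEquiv.extend`).

PROOF of `labBasis_iso`: `x = v`, `y = v' ∘ h` with `C` from the hypothesis and `n` large.
-/

namespace Pool.Agent.Lib.MP_4e4c79_lc.Cc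

open Finset
attribute [local instance] Classical.propDecidable
set_option linter.unusedSectionVars false

noncomputable section

theorem iso_dense {X I : Type} [NormedAddCommGroup X] [NormedSpace ℝ X] (x : I → X)
    (hx : Dense (Submodule.span ℝ (Set.range x) : Set X)) :
    DenseRange (Finsupp.linearCombination ℝ x) := by
  have h : Set.range (Finsupp.linearCombination ℝ x) =
      (Submodule.span ℝ (Set.range x) : Set X) := by
    rw [← Finsupp.range_linearCombination]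
    rfl
  unfold DenseRange
  rw [h]
  exact hx

theorem iso_bound {X Y I : Type} [NormedAddCommGroup X] [NormedSpace ℝ X]
    [NormedAddCommGroup Y] [NormedSpace ℝ Y] (x : I → X) (y : I → Y) (C : ℝ) (hC : 0 ≤ C)
    (h1 : ∀ (F : Finset I) (c : I → ℝ), ‖∑ i ∈ F, c i • y i‖ ^ 2 ≤ C * ‖∑ i ∈ F, c i • x i‖ ^ 2)
    (c : I →₀ ℝ) :
    ‖Finsupp.linearCombination ℝ y c‖ ≤ √C * ‖Finsupp.linearCombination ℝ x c‖ := by
  have h := h1 c.support c
  have h2 : 0 ≤ √C * ‖Finsupp.linearCombination ℝ x c‖ := by positivity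
  refine le_of_sq_le_sq ?_ h2
  rw [mul_pow, Real.sq_sqrt hC]
  exact h

theorem iso_of_basis {X Y I : Type} [NormedAddCommGroup X] [NormedSpace ℝ X] [CompleteSpace X]
    [NormedAddCommGroup Y] [NormedSpace ℝ Y] [CompleteSpace Y] (x : I → X) (y : I → Y)
    (hx : Dense (Submodule.span ℝ (Set.range x) : Set X))
    (hy : Dense (Submodule.span ℝ (Set.range y) : Set Y)) (C : ℝ) (hC : 0 ≤ C)
    (h1 : ∀ (F : Finset I) (c : I → ℝ), ‖∑ i ∈ F, c i • y i‖ ^ 2 ≤ C * ‖∑ i ∈ F, c i • x i‖ ^ 2)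
    (h2 : ∀ (F : Finset I) (c : I → ℝ), ‖∑ i ∈ F, c i • x i‖ ^ 2 ≤ C * ‖∑ i ∈ F, c i • y i‖ ^ 2) :
    Nonempty (X ≃L[ℝ] Y) :=
  ⟨(LinearEquiv.refl ℝ (I →₀ ℝ)).extend (Finsupp.linearCombination ℝ x)
    (Finsupp.linearCombination ℝ y) (iso_dense x hx) ⟨√C, iso_bound x y C hC h1⟩
    (iso_dense y hy) ⟨√C, iso_bound y x C hC h2⟩⟩

theorem iso_exists_kind {L : Lab} (F : Finset L.I) :
    ∃ n : ℕ, ∀ n', n ≤ n' → ∀ i ∈ F, ∀ m b, L.lab i = some (m, b) → m < n' := by
  refine ⟨F.sup (fun i => match L.lab i with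
    | none => 0
    | some (m, _) => m + 1), fun n' hn' i hi m b hib => ?_⟩
  have h := Finset.le_sup (f := fun i => match L.lab i with
    | none => 0
    | some (m, _) => m + 1) hi
  simp only [hib] at h
  exact (Nat.lt_of_succ_le h).trans_le hn'

theorem labBasis_iso {L L' : Lab} {X Y : Type} [NormedAddCommGroup X] [NormedSpace ℝ X]
    [CompleteSpace X] [NormedAddCommGroup Y] [NormedSpace ℝ Y] [CompleteSpace Y]
    {v : L.I → X} {v' : L'.I → Y} (hv : IsLabBasis L X v) (hv' : IsLabBasis L' Y v')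
    (C : ℝ) (hC : 0 ≤ C) (h : L.I ≃ L'.I)
    (hh : ∀ n (F : Finset L.I) (f : L.I → ℝ), (∀ i, 0 ≤ f i) →
      L'.Phi n (F.map h.toEmbedding) (fun i => f (h.symm i)) ≤ C * L.Phi n F f ∧
      L.Phi n F f ≤ C * L'.Phi n (F.map h.toEmbedding) (fun i => f (h.symm i))) :
    Nonempty (X ≃L[ℝ] Y) := by
  have hy : Dense (Submodule.span ℝ (Set.range fun i => v' (h i)) : Set Y) := by
    have h1 : Set.range (fun i => v' (h i)) = Set.range v' := h.surjective.range_comp v'
    rw [h1]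
    exact hv'.dense
  have key : ∀ (F : Finset L.I) (c : L.I → ℝ), ∃ n : ℕ,
      ‖∑ i ∈ F, c i • v i‖ ^ 2 = L.Phi n F (fun i => c i ^ 2) ∧
      ‖∑ i ∈ F, c i • v' (h i)‖ ^ 2 =
        L'.Phi n (F.map h.toEmbedding) (fun i => c (h.symm i) ^ 2) := by
    intro F c
    obtain ⟨n₁, hn₁⟩ := iso_exists_kind F
    obtain ⟨n₂, hn₂⟩ := iso_exists_kind (F.map h.toEmbedding)
    refine ⟨max n₁ n₂, hv.norm _ F (hn₁ _ (le_max_left _ _)) c, ?_⟩
    rw [← hv'.norm _ (F.map h.toEmbedding) (hn₂ _ (le_max_right _ _)) (fun i => c (h.symm i))]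
    congr 2
    rw [Finset.sum_map]
    refine Finset.sum_congr rfl fun i _ => ?_
    simp
  refine iso_of_basis v (fun i => v' (h i)) hv.dense hy C hC ?_ ?_
  · intro F c
    obtain ⟨n, hn1, hn2⟩ := key F c
    rw [hn1, hn2]
    exact (hh n F (fun i => c i ^ 2) fun i => sq_nonneg _).1
  · intro F c
    obtain ⟨n, hn1, hn2⟩ := key F c
    rw [hn1, hn2]
    exact (hh n F (fun i => c i ^ 2) fun i => sq_nonneg _).2

end

end Pool.Agent.Lib.MP_4e4c79_lc.Cc
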