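import Mathlib
import Pool.Agent.Lib.MP_4e4c79_lc.Cc.Build

/-!
Coordinates, restriction to a set of coordinates, orthogonality, masses (definitions for the lower
bound of the distances).
-/

namespace Pool.Agent.Lib.MP_4e4c79_lc.Cc

open Pool.Agent.Lib.MP_4e4c79_lc Complete Finset
open scoped ENNReal
attribute [local instance] Classical.propDecidable
set_option linter.unusedSectionVars false

noncomputable section

namespace Dat

variable {D : Dat}

lemma XK_norm_mono (m : ℕ) {x y : D.XK m} (h : ∀ b, ‖RN.to y b‖ ≤ ‖RN.to x b‖) :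
    ‖y‖ ≤ ‖x‖ := by
  refine le_of_sq_le_sq ?_ (norm_nonneg x)
  rw [RN.norm_sq, RN.norm_sq]
  have h0 : ∀ b, sqf (RN.to y) b ≤ sqf (RN.to x) b := fun b =>
    pow_le_pow_left₀ (norm_nonneg _) (h b) 2
  have h1 : ‖RN.to y‖ ^ 2 ≤ ‖RN.to x‖ ^ 2 := by
    rw [← tsum_sqf, ← tsum_sqf]
    exact (sqf_summable _).tsum_le_tsum h0 (sqf_summable _)
  have h2 := NF_mono (π := (Prod.fst : D.A × ℕ → D.A)) (NeZero.ne (pp m))
    (sqf_nonneg (RN.to y)) (sqf_summable (RN.to x)) h0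
  nlinarith [sq_nonneg (DD m)]

/-- Coordinates: points, and triples of a kind, a slot and an index in the slot. -/
abbrev Cd (D : Dat) : Type := D.Pt ⊕ ℕ × (D.A × ℕ) × ℕ

/-- The restriction of a vector of a slot. -/
def cutH {s : ℕ∞} (S : Set ℕ) (x : Hs s) : Hs s :=
  mask {j : {j : ℕ // (j : ℕ∞) < s} | (j : ℕ) ∈ S} x

lemma cutH_norm_le {s : ℕ∞} (S : Set ℕ) (x : Hs s) : ‖cutH S x‖ ≤ ‖x‖ := mask_norm_le _ _

lemma cutK_summable (S : Set (Cd D)) (m : ℕ) (x : D.XK m) :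
    Summable fun b => ‖cutH {j | Sum.inr (m, b, j) ∈ S} (RN.to x b)‖ ^ 2 :=
  Summable.of_nonneg_of_le (fun b => by positivity)
    (fun b => pow_le_pow_left₀ (norm_nonneg _) (cutH_norm_le _ _) 2) (summable_sq (RN.to x))

/-- The restriction of an element of kind `m`. -/
def cutK (S : Set (Cd D)) (m : ℕ) (x : D.XK m) : D.XK m :=
  RN.to.symm (mk2 (fun b => cutH {j | Sum.inr (m, b, j) ∈ S} (RN.to x b)) (cutK_summable S m x))

lemma cutK_norm_le (S : Set (Cd D)) (m : ℕ) (x : D.XK m) : ‖cutK S m x‖ ≤ ‖x‖ :=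
  XK_norm_mono m fun _ => cutH_norm_le _ _

lemma cut_summable (S : Set (Cd D)) (x : D.W) : Summable fun m => ‖cutK S m (x m)‖ ^ 2 :=
  Summable.of_nonneg_of_le (fun m => by positivity)
    (fun m => pow_le_pow_left₀ (norm_nonneg _) (cutK_norm_le S m _) 2) (summable_sq x)

/-- The restriction to a set of coordinates. -/
def cut (S : Set (Cd D)) (x : D.X) : D.X :=
  WithLp.toLp 2 (mk2 (fun m => cutK S m (x.fst m)) (cut_summable S x.fst),
    mask {z | Sum.inl z ∈ S} x.snd)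

lemma kc_cut (S : Set (Cd D)) (x : D.X) (m : ℕ) (b : D.A × ℕ) :
    kc (cut S x) m b = cutH {j | Sum.inr (m, b, j) ∈ S} (kc x m b) := rfl

lemma snd_cut (S : Set (Cd D)) (x : D.X) (z : D.Pt) :
    (cut S x).snd z = if Sum.inl z ∈ S then x.snd z else 0 := by
  change mask {z | Sum.inl z ∈ S} x.snd z = _
  rw [mask_apply]
  exact if_congr Iff.rfl rfl rfl

/-- Orthogonality in every slot and at every point. -/
def Orth (x y : D.X) : Prop :=
  (∀ m b, inner ℝ (kc x m b) (kc y m b) = 0) ∧ ∀ z, x.snd z * y.snd z = 0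

/-- The mass of an element at a slot of kind `m`. -/
def ms (x : D.X) (m : ℕ) (b : D.A × ℕ) : ℝ := ‖kc x m b‖ ^ 2

lemma ms_nonneg (x : D.X) (m : ℕ) (b : D.A × ℕ) : 0 ≤ ms x m b := by unfold ms; positivity

lemma ms_eq_sqf (x : D.X) (m : ℕ) : ms x m = sqf (RN.to (x.fst m)) := rfl

lemma ms_summable (x : D.X) (m : ℕ) : Summable (ms x m) := sqf_summable _

/-- The square of the norm without the part coming from `NF` in kind `m`. -/
def Gam (m : ℕ) (x : D.X) : ℝ := ‖x‖ ^ 2 - DD m ^ 2 * NF Prod.fst (pp m) (ms x m)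

/-- The constant for the comparison. -/
def cc (m : ℕ) : ℝ := 1 + DD (m - 1) ^ 2

end Dat

/-- `DD m ^ pp m`. -/
def K2 (m : ℕ) : ℕ := 2 ^ (3 ^ m * pp m)

lemma K2_eq (m : ℕ) : (K2 m : ℝ) = DD m ^ pp m := by
  unfold K2 DD
  rw [← pow_mul]
  push_cast
  rfl

lemma K2_sq (m : ℕ) : ((K2 m ^ 2 : ℕ) : ℝ) = (DD m ^ 2) ^ pp m := by
  push_cast
  rw [K2_eq]
  ring

lemma four_le_K2 (m : ℕ) : 4 ≤ K2 m := by
  unfold K2
  have h1 : 2 ≤ 3 ^ m * pp m := by
    have := pp_ge m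
    have : 1 ≤ 3 ^ m := Nat.one_le_pow _ _ (by norm_num)
    nlinarith
  calc 4 = 2 ^ 2 := by norm_num
    _ ≤ _ := Nat.pow_le_pow_right (by norm_num) h1

end

end Pool.Agent.Lib.MP_4e4c79_lc.Cc
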