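import Mathlib
import Pool.Agent.Lib.MP_4e4c79_lc.Cc.NF

/-!
# Module NF3.  Values and estimates of `NF` for flat functions and for disjoint supports.

PROOF of `NF_flat`.  `≥`: `Y = indicator of a`, `Z b = 1/c` on `S`, `0` elsewhere:
`∑ Z^p = card S / c^p = 1`, value `∑_{b ∈ S} (1/c) (1/c^p) = 1/c`.
`≤`: for admissible `Y, Z`: `∑' Y Z f ≤ (1/K) ∑_{b ∈ S} Z b`, `K = card S = c^p`, and by the power mean
inequality (`inner_le_nnorm_mul_nnorm`, `Real.pow_arith_mean_le_arith_mean_pow` or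
`inv_card_mul_sum_pow..`) `((1/K) ∑_{S} Z b)^p ≤ (1/K) ∑_S Z b^p ≤ 1/K = (1/c)^p`; take roots
(`pow_le_pow_left₀` contrapositive, `le_of_pow_le_pow_left₀`).

PROOF of `NF_disj_slots`.  Let `w = Y(π·) Z` be a weight.  For every `t ∈ T` choose a slot `b_t` in the
support of `ρ_t` with `Z` nearly maximal there: simplest: for every finite set `F` of slots
`∑_{b ∈ F} w b ρ_t b ≤ (max_{b ∈ F, ρ_t b ≠ 0} Z b) Zb`, `Zb` the bound on the masses; the maximisers
are different for different `t`; so `∑_t ∑_{b ∈ F} w ρ_t ≤ Zb ∑_t Z b_t ≤ Zb K (K⁻¹ ∑_t Z b_t^p)^{1/p}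
≤ Zb K^{1-1/p} ≤ Zb K / c` (with `K = card T ≥ c^p`, i.e. `(K⁻¹ ∑ Z b_t)^p ≤ 1/K ≤ (1/c)^p`).

PROOF of `NF_disj_atoms`.  The same with `w b ≤ Y (π b) Z b`: maximisers `b_t` of `w` on
`F ∩ support`, the atoms `π b_t` are different (and so are the `b_t`).  With `q = p/2`:
`(K⁻¹ ∑_t w b_t)^q ≤ K⁻¹ ∑_t (Y(π b_t) Z b_t)^q ≤ K⁻¹ (∑ Y^p)^{1/2} (∑ Z^p)^{1/2} ≤ 1/K ≤ (1/c²)^q`
(Cauchy–Schwarz, `Finset.sum_mul_sq_le_sq_mul_sq` / `Finset.inner_mul_le_norm_mul_norm`).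
-/

namespace Pool.Agent.Lib.MP_4e4c79_lc.Cc

open Finset
attribute [local instance] Classical.propDecidable
set_option linter.unusedSectionVars false

noncomputable section

variable {A B : Type} {π : B → A} {p : ℕ}

/-- Power mean inequality. -/
lemma NF3_mean {ι : Type} (s : Finset ι) (z : ι → ℝ) (hz : ∀ i ∈ s, 0 ≤ z i) {q : ℕ} (hq : q ≠ 0)
    (hsum : ∑ i ∈ s, z i ^ q ≤ 1) {c : ℝ} (hc : 0 < c) (hcard : c ^ q ≤ s.card) :
    ∑ i ∈ s, z i ≤ s.card / c := by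
  have hK : (0 : ℝ) < s.card := (pow_pos hc q).trans_le hcard
  have h1 := Real.pow_arith_mean_le_arith_mean_pow s (fun _ => 1 / (s.card : ℝ)) z
    (fun _ _ => by positivity) (by simp [hK.ne']) hz q
  rw [← Finset.mul_sum, ← Finset.mul_sum] at h1
  have h2 : (1 / (s.card : ℝ) * ∑ i ∈ s, z i) ^ q ≤ (1 / c) ^ q := by
    refine h1.trans ?_
    calc 1 / (s.card : ℝ) * ∑ i ∈ s, z i ^ q ≤ 1 / (s.card : ℝ) * 1 := by gcongr
      _ ≤ (1 / c) ^ q := by
        rw [mul_one, div_pow, one_pow]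
        exact one_div_le_one_div_of_le (pow_pos hc q) hcard
  have h3 : 1 / (s.card : ℝ) * ∑ i ∈ s, z i ≤ 1 / c :=
    (pow_le_pow_iff_left₀ (mul_nonneg (by positivity) (Finset.sum_nonneg hz)) (by positivity)
      hq).1 h2
  calc ∑ i ∈ s, z i = s.card * (1 / (s.card : ℝ) * ∑ i ∈ s, z i) := by field_simp
    _ ≤ s.card * (1 / c) := by gcongr
    _ = s.card / c := by ring

/-- Selection of nearly optimal slots. -/
lemma NF3_sel {ι : Type} (T : Finset ι) (ρ : ι → B → ℝ) (hρ : ∀ t b, 0 ≤ ρ t b)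
    (hs : ∀ t, Summable (ρ t)) {Z : ℝ} (hZ : ∀ t ∈ T, ∑' b, ρ t b ≤ Z) (w u : B → ℝ)
    (hu : ∀ b, 0 ≤ u b) (hwu : ∀ b, w b ≤ u b) {q : ℕ} (hq : q ≠ 0)
    (hsel : ∀ (g : ι → B) (T' : Finset ι), T' ⊆ T → (∀ t ∈ T', ρ t (g t) ≠ 0) →
      ∑ t ∈ T', u (g t) ^ q ≤ 1) {c : ℝ} (hc : 0 < c) (hcard : c ^ q ≤ T.card) (F : Finset B) :
    ∑ t ∈ T, ∑ b ∈ F, w b * ρ t b ≤ T.card * Z / c := by
  have hK : (0 : ℝ) < T.card := (pow_pos hc q).trans_le hcard
  have hTne : T.Nonempty := by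
    rw [← Finset.card_pos]
    exact_mod_cast hK
  have hZ0 : 0 ≤ Z := by
    obtain ⟨t, ht⟩ := hTne
    exact (tsum_nonneg (hρ t)).trans (hZ t ht)
  rcases isEmpty_or_nonempty B with hB | hB
  · have hF : F = ∅ := Finset.eq_empty_of_isEmpty F
    subst hF
    simp only [Finset.sum_empty, Finset.sum_const_zero]
    positivity
  have hch : ∀ t, ∃ b : B, (F.filter fun b => ρ t b ≠ 0).Nonempty → (ρ t b ≠ 0 ∧
      ∀ b' ∈ F.filter (fun b => ρ t b ≠ 0), u b' ≤ u b) := by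
    intro t
    by_cases h : (F.filter fun b => ρ t b ≠ 0).Nonempty
    · obtain ⟨b, hb, hb'⟩ := Finset.exists_max_image _ u h
      exact ⟨b, fun _ => ⟨(Finset.mem_filter.1 hb).2, hb'⟩⟩
    · exact ⟨Classical.arbitrary B, fun h' => absurd h' h⟩
  choose g hg using hch
  set T' := T.filter fun t => (F.filter fun b => ρ t b ≠ 0).Nonempty with hT'
  set z : ι → ℝ := fun t => if (F.filter fun b => ρ t b ≠ 0).Nonempty then u (g t) else 0 with hz
  have h1 : ∀ t ∈ T, ∑ b ∈ F, w b * ρ t b ≤ z t * Z := by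
    intro t ht
    by_cases h : (F.filter fun b => ρ t b ≠ 0).Nonempty
    · have hz1 : z t = u (g t) := by rw [hz]; exact if_pos h
      rw [hz1]
      calc ∑ b ∈ F, w b * ρ t b = ∑ b ∈ F.filter (fun b => ρ t b ≠ 0), w b * ρ t b := by
            rw [Finset.sum_filter]
            refine Finset.sum_congr rfl fun b _ => ?_
            by_cases hb : ρ t b = 0
            · rw [hb]; simp
            · rw [if_pos hb]
        _ ≤ ∑ b ∈ F.filter (fun b => ρ t b ≠ 0), u (g t) * ρ t b := by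
            refine Finset.sum_le_sum fun b hb => ?_
            exact mul_le_mul_of_nonneg_right ((hwu b).trans ((hg t h).2 b hb)) (hρ t b)
        _ = u (g t) * ∑ b ∈ F.filter (fun b => ρ t b ≠ 0), ρ t b := by rw [Finset.mul_sum]
        _ ≤ u (g t) * Z := by
            refine mul_le_mul_of_nonneg_left ?_ (hu _)
            exact ((hs t).sum_le_tsum _ fun b _ => hρ t b).trans (hZ t ht)
    · have hz1 : z t = 0 := by rw [hz]; exact if_neg h
      rw [hz1, zero_mul]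
      refine le_of_eq (Finset.sum_eq_zero fun b hb => ?_)
      by_cases hb' : ρ t b = 0
      · rw [hb', mul_zero]
      · exact absurd ⟨b, Finset.mem_filter.2 ⟨hb, hb'⟩⟩ h
  have h2 : ∑ t ∈ T, z t ^ q ≤ 1 := by
    have h3 : ∑ t ∈ T, z t ^ q = ∑ t ∈ T', u (g t) ^ q := by
      rw [hT', Finset.sum_filter]
      refine Finset.sum_congr rfl fun t _ => ?_
      by_cases h : (F.filter fun b => ρ t b ≠ 0).Nonempty
      · rw [if_pos h, hz]; simp only [if_pos h]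
      · rw [if_neg h, hz]; simp only [if_neg h]; exact zero_pow hq
    rw [h3]
    exact hsel g T' (Finset.filter_subset _ _) fun t ht => (hg t (Finset.mem_filter.1 ht).2).1
  have hz0 : ∀ t ∈ T, 0 ≤ z t := by
    intro t _
    rw [hz]
    dsimp only
    split_ifs
    · exact hu _
    · exact le_rfl
  calc ∑ t ∈ T, ∑ b ∈ F, w b * ρ t b ≤ ∑ t ∈ T, z t * Z := Finset.sum_le_sum h1
    _ = (∑ t ∈ T, z t) * Z := by rw [Finset.sum_mul]
    _ ≤ (T.card / c) * Z := mul_le_mul_of_nonneg_right (NF3_mean T z hz0 hq h2 hc hcard) hZ0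
    _ = T.card * Z / c := by ring

lemma NF3_le {ι : Type} (hp : p ≠ 0) (T : Finset ι) (ρ : ι → B → ℝ) (hρ : ∀ t b, 0 ≤ ρ t b)
    (hs : ∀ t, Summable (ρ t)) {C : ℝ}
    (h : ∀ w ∈ wts π p, ∀ F : Finset B, ∑ t ∈ T, ∑ b ∈ F, w b * ρ t b ≤ C) :
    NF π p (fun b => ∑ t ∈ T, ρ t b) ≤ C := by
  refine NF_le hp fun w hw => ?_
  have h1 : Summable fun b => w b * ∑ t ∈ T, ρ t b :=
    summable_wt hp hw (fun b => Finset.sum_nonneg fun t _ => hρ t b) (summable_sum fun t _ => hs t)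
  refine h1.tsum_le_of_sum_le fun F => ?_
  refine le_trans (le_of_eq ?_) (h w hw F)
  rw [Finset.sum_comm]
  exact Finset.sum_congr rfl fun b _ => Finset.mul_sum _ _ _

theorem NF_flat (hp : p ≠ 0) (S : Finset B) (a : A) (hS : ∀ b ∈ S, π b = a) {c : ℝ} (hc : 0 < c)
    (hcard : (S.card : ℝ) = c ^ p) :
    NF π p (fun b => if b ∈ S then 1 / c ^ p else 0) = 1 / c := by
  have hcp : 0 < c ^ p := pow_pos hc p
  have hf : ∀ b : B, 0 ≤ (if b ∈ S then 1 / c ^ p else 0 : ℝ) := by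
    intro b
    split_ifs
    · positivity
    · exact le_rfl
  have hsum : Summable (fun b : B => (if b ∈ S then 1 / c ^ p else 0 : ℝ)) :=
    summable_of_ne_finset_zero (s := S) fun b hb => if_neg hb
  have hval : ∀ w : B → ℝ, ∑' b, w b * (if b ∈ S then 1 / c ^ p else 0 : ℝ) =
      (∑ b ∈ S, w b) / c ^ p := by
    intro w
    rw [tsum_eq_sum (s := S) fun b hb => by rw [if_neg hb, mul_zero], Finset.sum_div]
    refine Finset.sum_congr rfl fun b hb => ?_
    rw [if_pos hb]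
    ring
  refine le_antisymm ?_ ?_
  · refine NF_le hp fun w hw => ?_
    rw [hval]
    obtain ⟨Y, Z, hY, hZ, hw⟩ := hw
    have h1 : ∑ b ∈ S, w b ≤ ∑ b ∈ S, Z b := by
      refine Finset.sum_le_sum fun b _ => ?_
      rw [hw]
      exact mul_le_of_le_one_left (hZ.1 b) (hY.le_one hp _)
    have h2 : ∑ b ∈ S, Z b ≤ S.card / c :=
      NF3_mean S Z (fun b _ => hZ.1 b) hp (hZ.2 S) hc hcard.ge
    rw [div_le_div_iff₀ hcp hc]
    calc (∑ b ∈ S, w b) * c ≤ (S.card / c) * c :=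
          mul_le_mul_of_nonneg_right (h1.trans h2) hc.le
      _ = 1 * c ^ p := by rw [hcard]; field_simp
  · have hw : (fun b => (if π b = a then (1 : ℝ) else 0) * (if b ∈ S then 1 / c else 0)) ∈
        wts π p := by
      refine ⟨fun x => if x = a then (1 : ℝ) else 0, fun b => if b ∈ S then 1 / c else 0,
        ⟨fun x => by dsimp only; split_ifs <;> norm_num, fun s => ?_⟩,
        ⟨fun b => by dsimp only; split_ifs <;> positivity, fun s => ?_⟩, fun b => rfl⟩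
      · calc ∑ x ∈ s, (if x = a then (1 : ℝ) else 0) ^ p = ∑ x ∈ s, if x = a then (1 : ℝ) else 0 := by
              refine Finset.sum_congr rfl fun x _ => ?_
              split_ifs
              · exact one_pow p
              · exact zero_pow hp
          _ ≤ 1 := by
              rw [Finset.sum_ite_eq']
              split_ifs <;> norm_num
      · calc ∑ b ∈ s, (if b ∈ S then 1 / c else 0 : ℝ) ^ p
            = ∑ b ∈ s, if b ∈ S then (1 / c) ^ p else 0 := by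
              refine Finset.sum_congr rfl fun x _ => ?_
              split_ifs
              · rfl
              · exact zero_pow hp
          _ = ∑ b ∈ s ∩ S, (1 / c) ^ p := by
              rw [← Finset.sum_filter, Finset.filter_mem_eq_inter]
          _ ≤ ∑ b ∈ S, (1 / c) ^ p :=
              Finset.sum_le_sum_of_subset_of_nonneg Finset.inter_subset_right
                fun _ _ _ => by positivity
          _ = 1 := by
              rw [Finset.sum_const, nsmul_eq_mul, hcard, div_pow, one_pow]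
              field_simp
    refine le_trans (le_of_eq ?_) (le_NF hp hw hf hsum)
    rw [hval]
    have h3 : ∑ b ∈ S, (if π b = a then (1 : ℝ) else 0) * (if b ∈ S then 1 / c else 0) =
        ∑ b ∈ S, 1 / c := by
      refine Finset.sum_congr rfl fun b hb => ?_
      rw [if_pos (hS b hb), if_pos hb, one_mul]
    rw [h3, Finset.sum_const, nsmul_eq_mul, hcard]
    field_simp

theorem NF_disj_slots (hp : p ≠ 0) {ι : Type} (T : Finset ι) (ρ : ι → B → ℝ)
    (hρ : ∀ t b, 0 ≤ ρ t b) (hs : ∀ t, Summable (ρ t)) {Z : ℝ} (hZ : ∀ t ∈ T, ∑' b, ρ t b ≤ Z)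
    (hdis : ∀ t ∈ T, ∀ t' ∈ T, t ≠ t' → ∀ b, ρ t b ≠ 0 → ρ t' b = 0)
    {c : ℝ} (hc : 0 < c) (hcard : c ^ p ≤ T.card) :
    NF π p (fun b => ∑ t ∈ T, ρ t b) ≤ T.card * Z / c := by
  refine NF3_le hp T ρ hρ hs fun w hw F => ?_
  obtain ⟨Y, Z', hY, hZ', hw⟩ := hw
  refine NF3_sel T ρ hρ hs hZ w Z' hZ'.1 (fun b => ?_) hp (fun g T' hT' hg => ?_) hc hcard F
  · rw [hw]
    exact mul_le_of_le_one_left (hZ'.1 b) (hY.le_one hp _)
  · have hinj : Set.InjOn g T' := by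
      intro t ht t' ht' h
      by_contra hne
      have h1 := hdis t (hT' ht) t' (hT' ht') hne (g t) (hg t ht)
      rw [h] at h1
      exact hg t' ht' h1
    rw [← Finset.sum_image (f := fun b => Z' b ^ p) hinj]
    exact hZ'.2 _

theorem NF_disj_atoms (hp : p ≠ 0) (hev : Even p) {ι : Type} (T : Finset ι) (ρ : ι → B → ℝ)
    (hρ : ∀ t b, 0 ≤ ρ t b) (hs : ∀ t, Summable (ρ t)) {Z : ℝ} (hZ : ∀ t ∈ T, ∑' b, ρ t b ≤ Z)
    (hdis : ∀ t ∈ T, ∀ t' ∈ T, t ≠ t' → ∀ b b', ρ t b ≠ 0 → ρ t' b' ≠ 0 → π b ≠ π b')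
    {c : ℝ} (hc : 0 < c) (hcard : c ^ p ≤ T.card) :
    NF π p (fun b => ∑ t ∈ T, ρ t b) ≤ T.card * Z / c ^ 2 := by
  obtain ⟨q, hq⟩ := hev
  have hq0 : q ≠ 0 := by rintro rfl; exact hp hq
  refine NF3_le hp T ρ hρ hs fun w hw F => ?_
  have hw0 := wts_nonneg hw
  obtain ⟨Y, Z', hY, hZ', hw⟩ := hw
  refine NF3_sel T ρ hρ hs hZ w w hw0 (fun b => le_rfl) hq0 (fun g T' hT' hg => ?_)
    (pow_pos hc 2) ?_ F
  · have hinj : Set.InjOn (fun t => π (g t)) T' := by
      intro t ht t' ht' h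
      by_contra hne
      exact hdis t (hT' ht) t' (hT' ht') hne (g t) (g t') (hg t ht) (hg t' ht') h
    have hinj2 : Set.InjOn g T' := fun t ht t' ht' h => hinj ht ht' (congrArg π h)
    have h1 : ∑ t ∈ T', (Y (π (g t)) ^ q) ^ 2 ≤ 1 := by
      have h2 : ∑ t ∈ T', (Y (π (g t)) ^ q) ^ 2 = ∑ t ∈ T', Y (π (g t)) ^ p :=
        Finset.sum_congr rfl fun t _ => by rw [← pow_mul, hq, mul_two]
      rw [h2, ← Finset.sum_image (f := fun a => Y a ^ p) hinj]
      exact hY.2 _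
    have h3 : ∑ t ∈ T', (Z' (g t) ^ q) ^ 2 ≤ 1 := by
      have h2 : ∑ t ∈ T', (Z' (g t) ^ q) ^ 2 = ∑ t ∈ T', Z' (g t) ^ p :=
        Finset.sum_congr rfl fun t _ => by rw [← pow_mul, hq, mul_two]
      rw [h2, ← Finset.sum_image (f := fun b => Z' b ^ p) hinj2]
      exact hZ'.2 _
    have h4 := Finset.sum_mul_sq_le_sq_mul_sq T' (fun t => Y (π (g t)) ^ q)
      (fun t => Z' (g t) ^ q)
    have h5 : ∑ t ∈ T', w (g t) ^ q = ∑ t ∈ T', Y (π (g t)) ^ q * Z' (g t) ^ q :=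
      Finset.sum_congr rfl fun t _ => by rw [hw, mul_pow]
    rw [h5]
    have h6 : (∑ t ∈ T', Y (π (g t)) ^ q * Z' (g t) ^ q) ^ 2 ≤ 1 := by
      refine h4.trans ?_
      calc _ ≤ (1 : ℝ) * 1 := mul_le_mul h1 h3 (Finset.sum_nonneg fun _ _ => sq_nonneg _) zero_le_one
        _ = 1 := one_mul 1
    nlinarith [h6]
  · rw [← pow_mul, two_mul, ← hq]
    exact hcard

end

end Pool.Agent.Lib.MP_4e4c79_lc.Cc
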