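import Mathlib
import Pool.Agent.Lib.MP_4e4c79_lc.Cc.LDef
import Pool.Agent.Lib.MP_4e4c79_lc.Cc.NF3

/-!
# Module LB0.  Test vectors.

`x n j` = the vector of kind `m` whose only component is the basis vector `hb ⊤ j` at the slot `(a, f n)` (dimension `⊤`
in kind `m` because `ty a (f n) ≠ m`).
Norm identity: `∑ t ∈ Θ, ∑ i, x (s t) (j t i)` has the mass `L` at the slots `(a, f (s t))`, `t ∈ Θ` (different slots of
the same atom), so the square of its norm is `|Θ| L + DD m ^ 2 * NF (L on S)`, `S` the set of these slots.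
Weakly null: for fixed `n` and `g`: with `c_j = g (x n j)`: `∑_{j<J} c_j² = g (∑_{j<J} c_j x n j)`, hence
`∑_{j<J} c_j² ≤ ‖g‖² (1 + DD m ^ 2)` for all `J`: the series converges and `c_j → 0`.
-/

namespace Pool.Agent.Lib.MP_4e4c79_lc.Cc

open Pool.Agent.Lib.MP_4e4c79_lc Complete Finset Filter
open scoped ENNReal Topology
attribute [local instance] Classical.propDecidable
set_option linter.unusedSectionVars false

noncomputable section

lemma LB0_orthonormal (s : ℕ∞) (hs : s = ⊤) : Orthonormal ℝ (fun j : ℕ => hb s j) := by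
  rw [orthonormal_iff_ite]
  intro i j
  exact hb_inner s i j (by rw [hs]; exact ENat.natCast_lt_top i)

lemma LB0_norm_sum (s : ℕ∞) (hs : s = ⊤) (F : Finset ℕ) (c : ℕ → ℝ) :
    ‖∑ j ∈ F, c j • hb s j‖ ^ 2 = ∑ j ∈ F, c j ^ 2 := by
  rw [← real_inner_self_eq_norm_sq, (LB0_orthonormal s hs).inner_sum]
  refine sum_congr rfl fun j _ => ?_
  simp [sq]

lemma LB0_single_sum {κ ι : Type} [DecidableEq κ] {G : κ → Type}
    [∀ i, NormedAddCommGroup (G i)] (k : κ)
    (F : Finset ι) (z : ι → G k) :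
    (lp.single 2 k (∑ i ∈ F, z i) : lp G 2) = ∑ i ∈ F, lp.single 2 k (z i) :=
  map_sum (lp.singleAddMonoidHom (E := G) 2 k) z F

namespace Dat

variable {D : Dat}

/-- The embedding of the Hilbert sum of kind `m`. -/
def LB0_emb (m : ℕ) (z : lp (fun b => Hs (D.dm m b)) 2) : D.X :=
  WithLp.toLp 2 (lp.single 2 m (RN.to.symm z), 0)

lemma LB0_emb_add (m : ℕ) (z z' : lp (fun b => Hs (D.dm m b)) 2) :
    (LB0_emb m (z + z') : D.X) = LB0_emb m z + LB0_emb m z' := by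
  unfold LB0_emb
  rw [map_add, lp.single_add, ← WithLp.toLp_add, Prod.mk_add_mk, add_zero]

lemma LB0_emb_smul (m : ℕ) (t : ℝ) (z : lp (fun b => Hs (D.dm m b)) 2) :
    (LB0_emb m (t • z) : D.X) = t • LB0_emb m z := by
  unfold LB0_emb
  rw [map_smul, lp.single_smul, ← WithLp.toLp_smul, Prod.smul_mk, smul_zero]

lemma LB0_emb_zero (m : ℕ) : (LB0_emb m 0 : D.X) = 0 := by
  have h := LB0_emb_smul (D := D) m 0 0
  rwa [zero_smul, zero_smul] at h

lemma LB0_emb_sum {ι : Type} (m : ℕ) (F : Finset ι) (z : ι → lp (fun b => Hs (D.dm m b)) 2) :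
    (LB0_emb m (∑ i ∈ F, z i) : D.X) = ∑ i ∈ F, LB0_emb m (z i) := by
  induction F using Finset.induction_on with
  | empty => simp [LB0_emb_zero]
  | insert i F hi ih => rw [sum_insert hi, sum_insert hi, LB0_emb_add, ih]

lemma LB0_emb_norm (m : ℕ) (z : lp (fun b => Hs (D.dm m b)) 2) :
    ‖(LB0_emb m z : D.X)‖ ^ 2 =
      ‖z‖ ^ 2 + DD m ^ 2 * NF (Prod.fst : D.A × ℕ → D.A) (pp m) (sqf z) := by
  unfold LB0_emb
  rw [toLp_zero_right_norm, lp.norm_single (by norm_num), RN.norm_sq]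
  rfl

lemma LB0_emb_norm_le (m : ℕ) (z : lp (fun b => Hs (D.dm m b)) 2) :
    ‖(LB0_emb m z : D.X)‖ ^ 2 ≤ (1 + DD m ^ 2) * ‖z‖ ^ 2 := by
  rw [LB0_emb_norm]
  have h := NF_le_tsum (π := (Prod.fst : D.A × ℕ → D.A)) (NeZero.ne (pp m)) (sqf_nonneg z)
    (sqf_summable z)
  rw [tsum_sqf] at h
  nlinarith [sq_nonneg (DD m)]

/-- The test vectors. -/
def LB0_x (m : ℕ) (b : D.A × ℕ) (j : ℕ) : D.X := LB0_emb m (lp.single 2 b (hb (D.dm m b) j))

lemma LB0_x_norm (m : ℕ) (b : D.A × ℕ) (j : ℕ) : ‖(LB0_x m b j : D.X)‖ ≤ 1 + DD m := by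
  refine le_of_sq_le_sq ?_ (by have := DD_pos m; positivity)
  refine (LB0_emb_norm_le m _).trans ?_
  rw [lp.norm_single (by norm_num)]
  have h1 : ‖hb (D.dm m b) j‖ ≤ 1 := Complete.Dat.hb_norm_le _ _
  have h2 : ‖hb (D.dm m b) j‖ ^ 2 ≤ 1 := by
    have := norm_nonneg (hb (D.dm m b) j)
    nlinarith
  have h3 := DD_pos m
  nlinarith [sq_nonneg (DD m)]

lemma LB0_sum_sq (m : ℕ) (b : D.A × ℕ) (hb' : D.dm m b = ⊤) (c : ℕ → ℝ) (F : Finset ℕ) :
    ‖(∑ j ∈ F, c j • LB0_x m b j : D.X)‖ ^ 2 ≤ (1 + DD m ^ 2) * ∑ j ∈ F, c j ^ 2 := by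
  have h1 : (∑ j ∈ F, c j • LB0_x m b j : D.X) =
      LB0_emb m (lp.single 2 b (∑ j ∈ F, c j • hb (D.dm m b) j)) := by
    rw [LB0_single_sum, LB0_emb_sum]
    refine sum_congr rfl fun j _ => ?_
    rw [lp.single_smul, LB0_emb_smul]
    rfl
  rw [h1]
  refine (LB0_emb_norm_le m _).trans ?_
  rw [lp.norm_single (by norm_num), LB0_norm_sum _ hb']

lemma LB0_tendsto (m : ℕ) (b : D.A × ℕ) (hb' : D.dm m b = ⊤) (g : D.X →L[ℝ] ℝ) :
    Tendsto (fun j => g (LB0_x m b j)) atTop (𝓝 0) := by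
  set c : ℕ → ℝ := fun j => g (LB0_x m b j) with hc
  have hbound : ∀ F : Finset ℕ, ∑ j ∈ F, c j ^ 2 ≤ ‖g‖ ^ 2 * (1 + DD m ^ 2) := by
    intro F
    set S : ℝ := ∑ j ∈ F, c j ^ 2 with hS
    have hS0 : 0 ≤ S := sum_nonneg fun j _ => sq_nonneg _
    have h1 : S = g (∑ j ∈ F, c j • LB0_x m b j) := by
      rw [map_sum]
      refine sum_congr rfl fun j _ => ?_
      rw [map_smul, smul_eq_mul, sq]
    have h2 : S ^ 2 ≤ ‖g‖ ^ 2 * ((1 + DD m ^ 2) * S) := by
      have h3 : |S| ≤ ‖g‖ * ‖(∑ j ∈ F, c j • LB0_x m b j : D.X)‖ := by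
        conv_lhs => rw [h1]
        rw [← Real.norm_eq_abs]
        exact g.le_opNorm _
      have h4 := pow_le_pow_left₀ (abs_nonneg S) h3 2
      rw [sq_abs, mul_pow] at h4
      refine h4.trans ?_
      exact mul_le_mul_of_nonneg_left (LB0_sum_sq m b hb' c F) (sq_nonneg _)
    rcases hS0.eq_or_lt with h | h
    · rw [← h]
      positivity
    · have h5 : S * S ≤ (‖g‖ ^ 2 * (1 + DD m ^ 2)) * S := by
        nlinarith
      exact le_of_mul_le_mul_right h5 h
  have hsum : Summable fun j => c j ^ 2 := summable_of_sum_le (fun j => sq_nonneg _) hbound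
  have h0 := hsum.tendsto_atTop_zero
  have h1 : Tendsto (fun j => √(c j ^ 2)) atTop (𝓝 0) := by
    have := (Real.continuous_sqrt.tendsto 0).comp h0
    rw [Real.sqrt_zero] at this
    exact this
  have h2 : (fun j => √(c j ^ 2)) = fun j => |c j| := by
    funext j
    exact Real.sqrt_sq_eq_abs _
  rw [h2] at h1
  exact (tendsto_zero_iff_abs_tendsto_zero _).2 h1

lemma LB0_identity (m : ℕ) (a : D.A) (f : ℕ → ℕ) (hf : Function.Injective f)
    (hty : ∀ n, D.ty a (f n) ≠ m) (K L : ℕ) (s : Fin K → ℕ) (j : Fin K → Fin L → ℕ)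
    (Θ : Finset (Fin K)) (c : ℝ) (hs : Function.Injective s)
    (hj : ∀ t, Function.Injective (j t)) (hc : 0 < c) (hcard : (Θ.card : ℝ) = c ^ pp m) :
    ‖(∑ t ∈ Θ, ∑ i, LB0_x m (a, f (s t)) (j t i) : D.X)‖ ^ 2 =
      Θ.card * L * (1 + DD m ^ 2 / c) := by
  have hdm : ∀ n, D.dm m (a, f n) = ⊤ := fun n => by
    unfold dm
    rw [if_neg (hty n)]
  set z : lp (fun b => Hs (D.dm m b)) 2 :=
    ∑ t ∈ Θ, lp.single 2 (a, f (s t)) (∑ i, hb (D.dm m (a, f (s t))) (j t i)) with hz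
  have h1 : (∑ t ∈ Θ, ∑ i, LB0_x m (a, f (s t)) (j t i) : D.X) = LB0_emb m z := by
    rw [hz, LB0_emb_sum]
    refine sum_congr rfl fun t _ => ?_
    rw [LB0_single_sum, LB0_emb_sum]
    rfl
  set S : Finset (D.A × ℕ) := Θ.image (fun t => (a, f (s t))) with hS
  have hinj : Function.Injective (fun t : Fin K => ((a, f (s t)) : D.A × ℕ)) := by
    intro t t' h
    exact hs (hf (Prod.mk.inj h).2)
  have hScard : S.card = Θ.card := card_image_of_injective _ hinj
  have hL : ∀ t, ‖∑ i, hb (D.dm m (a, f (s t))) (j t i)‖ ^ 2 = L := by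
    intro t
    have h2 : ∑ i, hb (D.dm m (a, f (s t))) (j t i) =
        ∑ l ∈ univ.image (j t), (1 : ℝ) • hb (D.dm m (a, f (s t))) l := by
      rw [sum_image (fun x _ y _ h => hj t h)]
      simp
    rw [h2, LB0_norm_sum _ (hdm _)]
    simp [card_image_of_injective _ (hj t)]
  have hzb : sqf z = fun b => (L * c ^ pp m) * (if b ∈ S then 1 / c ^ pp m else 0) := by
    funext b
    have hcoe : z b = ∑ t ∈ Θ, (lp.single 2 (a, f (s t)) (∑ i, hb (D.dm m (a, f (s t))) (j t i)) :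
        lp (fun b => Hs (D.dm m b)) 2) b := by
      rw [hz, lp.coeFn_sum, Finset.sum_apply]
    unfold sqf
    by_cases hb' : b ∈ S
    · rw [if_pos hb']
      obtain ⟨t, ht, rfl⟩ := mem_image.1 hb'
      rw [hcoe, sum_eq_single_of_mem t ht]
      · rw [lp.single_apply_self, hL]
        field_simp
      · intro t' _ htt'
        rw [lp.single_apply_ne]
        intro h
        exact htt' (hinj h.symm)
    · rw [if_neg hb', hcoe, sum_eq_zero]
      · simp
      · intro t ht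
        rw [lp.single_apply_ne]
        intro h
        exact hb' (mem_image.2 ⟨t, ht, h.symm⟩)
  have hcp : (0 : ℝ) < c ^ pp m := by positivity
  have hnorm : ‖z‖ ^ 2 = Θ.card * L := by
    rw [← tsum_sqf, hzb, tsum_mul_left, tsum_eq_sum (s := S) (fun b hb' => if_neg hb')]
    rw [sum_congr rfl (fun b hb' => if_pos hb'), sum_const, hScard, nsmul_eq_mul]
    field_simp
  have hNF : NF (Prod.fst : D.A × ℕ → D.A) (pp m) (sqf z) = Θ.card * L / c := by
    have hnn : ∀ b, 0 ≤ (if b ∈ S then 1 / c ^ pp m else 0 : ℝ) := fun b => by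
      split_ifs
      · positivity
      · exact le_rfl
    have hsm : Summable (fun b => (if b ∈ S then 1 / c ^ pp m else 0 : ℝ)) :=
      summable_of_ne_finset_zero (s := S) fun b hb' => if_neg hb'
    have hSa : ∀ b ∈ S, (Prod.fst : D.A × ℕ → D.A) b = a := by
      intro b hb'
      obtain ⟨t, _, rfl⟩ := mem_image.1 hb'
      rfl
    have hflat : NF (Prod.fst : D.A × ℕ → D.A) (pp m)
        (fun b => (if b ∈ S then 1 / c ^ pp m else 0 : ℝ)) = 1 / c := by
      have h := NF_flat (NeZero.ne (pp m)) S a hSa hc (by rw [hScard, hcard])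
      convert h
    rw [hzb, NF_smul (NeZero.ne (pp m)) hnn hsm (by positivity), hflat, hcard]
    ring
  rw [h1, LB0_emb_norm, hnorm, hNF]
  ring

theorem exists_test (D : Dat) (m : ℕ) (a : D.A) (f : ℕ → ℕ) (hf : Function.Injective f)
    (hty : ∀ n, D.ty a (f n) ≠ m) : ∃ x : ℕ → ℕ → D.X,
      (∀ n j, ‖x n j‖ ≤ 1 + DD m) ∧
      (∀ n (g : D.X →L[ℝ] ℝ), Tendsto (fun j => g (x n j)) atTop (𝓝 0)) ∧
      ∀ (K L : ℕ) (s : Fin K → ℕ) (j : Fin K → Fin L → ℕ) (Θ : Finset (Fin K)) (c : ℝ),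
        Function.Injective s → (∀ t, Function.Injective (j t)) → 0 < c →
        (Θ.card : ℝ) = c ^ pp m →
        ‖∑ t ∈ Θ, ∑ i, x (s t) (j t i)‖ ^ 2 = Θ.card * L * (1 + DD m ^ 2 / c) := by
  refine ⟨fun n j => LB0_x m (a, f n) j, fun n j => LB0_x_norm m _ j, fun n g => ?_, ?_⟩
  · refine LB0_tendsto m (a, f n) ?_ g
    unfold dm
    rw [if_neg (hty n)]
  · intro K L s j Θ c hs hj hc hcard
    exact LB0_identity m a f hf hty K L s j Θ c hs hj hc hcard

end Dat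

end

end Pool.Agent.Lib.MP_4e4c79_lc.Cc
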