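import Mathlib
import Pool.Agent.Lib.MP_4e4c79_lc.Cc.LDef

/-!
# Module LB1.  Restrictions to sets of coordinates.
-/

namespace Pool.Agent.Lib.MP_4e4c79_lc.Cc

open Pool.Agent.Lib.MP_4e4c79_lc Complete Finset Filter
open scoped ENNReal Topology
attribute [local instance] Classical.propDecidable
set_option linter.unusedSectionVars false

noncomputable section

namespace Dat

variable {D : Dat}

namespace LB1

lemma cutH_cutH {s : ℕ∞} (S T : Set ℕ) (x : Hs s) : cutH S (cutH T x) = cutH (S ∩ T) x :=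
  mask_mask _ _ _

lemma cutH_sub {s : ℕ∞} (S : Set ℕ) (x y : Hs s) : cutH S (x - y) = cutH S x - cutH S y :=
  map_sub _ _ _

lemma sub_cutH {s : ℕ∞} (S : Set ℕ) (x : Hs s) : x - cutH S x = cutH Sᶜ x := by
  ext i
  unfold cutH
  rw [lp.coeFn_sub, Pi.sub_apply, mask_apply, mask_apply]
  by_cases h : (i : ℕ) ∈ S
  · rw [if_pos (show i ∈ {j : {j : ℕ // (j : ℕ∞) < s} | (j : ℕ) ∈ S} from h),
      if_neg (show ¬ i ∈ {j : {j : ℕ // (j : ℕ∞) < s} | (j : ℕ) ∈ Sᶜ} from fun hc => hc h),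
      sub_self]
  · rw [if_neg (show ¬ i ∈ {j : {j : ℕ // (j : ℕ∞) < s} | (j : ℕ) ∈ S} from h),
      if_pos (show i ∈ {j : {j : ℕ // (j : ℕ∞) < s} | (j : ℕ) ∈ Sᶜ} from h), sub_zero]

lemma cutH_diff {s : ℕ∞} {S T : Set ℕ} (h : S ⊆ T) (x : Hs s) :
    cutH T x - cutH S x = cutH (T \ S) x := by
  ext i
  unfold cutH
  rw [lp.coeFn_sub, Pi.sub_apply, mask_apply, mask_apply, mask_apply]
  by_cases h1 : (i : ℕ) ∈ S
  · rw [if_pos (show i ∈ {j : {j : ℕ // (j : ℕ∞) < s} | (j : ℕ) ∈ S} from h1),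
      if_pos (show i ∈ {j : {j : ℕ // (j : ℕ∞) < s} | (j : ℕ) ∈ T} from h h1),
      if_neg (show ¬ i ∈ {j : {j : ℕ // (j : ℕ∞) < s} | (j : ℕ) ∈ T \ S} from fun hc => hc.2 h1),
      sub_self]
  · rw [if_neg (show ¬ i ∈ {j : {j : ℕ // (j : ℕ∞) < s} | (j : ℕ) ∈ S} from h1), sub_zero]
    by_cases h2 : (i : ℕ) ∈ T
    · rw [if_pos (show i ∈ {j : {j : ℕ // (j : ℕ∞) < s} | (j : ℕ) ∈ T} from h2),
        if_pos (show i ∈ {j : {j : ℕ // (j : ℕ∞) < s} | (j : ℕ) ∈ T \ S} from ⟨h2, h1⟩)]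
    · rw [if_neg (show ¬ i ∈ {j : {j : ℕ // (j : ℕ∞) < s} | (j : ℕ) ∈ T} from h2),
        if_neg (show ¬ i ∈ {j : {j : ℕ // (j : ℕ∞) < s} | (j : ℕ) ∈ T \ S} from
          fun hc => h2 hc.1)]

lemma cutH_of_disj {s : ℕ∞} {S : Set ℕ} (h : ∀ j, j ∉ S) (x : Hs s) : cutH S x = 0 := by
  ext i
  unfold cutH
  rw [mask_apply, if_neg (show ¬ i ∈ {j : {j : ℕ // (j : ℕ∞) < s} | (j : ℕ) ∈ S} from h _)]
  rfl

lemma cutH_pyth {s : ℕ∞} (S : Set ℕ) (x : Hs s) :
    ‖x‖ ^ 2 = ‖x - cutH S x‖ ^ 2 + ‖cutH S x‖ ^ 2 := mask_pyth _ _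

lemma cutH_inner {s : ℕ∞} {S T : Set ℕ} (h : Disjoint S T) (x y : Hs s) :
    inner ℝ (cutH S x) (cutH T y) = 0 := by
  rw [lp.inner_eq_tsum]
  refine (tsum_congr fun i => ?_).trans tsum_zero
  unfold cutH
  rw [mask_apply, mask_apply]
  by_cases h1 : (i : ℕ) ∈ S
  · have h2 : (i : ℕ) ∉ T := fun h2 => Set.disjoint_left.1 h h1 h2
    rw [if_neg (show ¬ i ∈ {j : {j : ℕ // (j : ℕ∞) < s} | (j : ℕ) ∈ T} from h2), inner_zero_right]
  · rw [if_neg (show ¬ i ∈ {j : {j : ℕ // (j : ℕ∞) < s} | (j : ℕ) ∈ S} from h1), inner_zero_left]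

end LB1

open LB1

theorem cut_norm_le (S : Set (Cd D)) (x : D.X) : ‖cut S x‖ ≤ ‖x‖ := by
  refine le_of_sq_le_sq ?_ (norm_nonneg x)
  rw [X_norm_sq, X_norm_sq x]
  refine add_le_add ?_ (pow_le_pow_left₀ (norm_nonneg _) (mask_norm_le _ _) 2)
  exact hasSum_le (fun m => pow_le_pow_left₀ (norm_nonneg _) (cutK_norm_le S m _) 2)
    (hasSum_sq (cut S x).fst) (hasSum_sq x.fst)

theorem cut_cut (S T : Set (Cd D)) (x : D.X) : cut S (cut T x) = cut (S ∩ T) x := by
  refine X_ext (fun m b => ?_) fun z => ?_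
  · rw [kc_cut, kc_cut, kc_cut, cutH_cutH]
    rfl
  · rw [snd_cut, snd_cut, snd_cut]
    by_cases h : Sum.inl z ∈ S <;> by_cases h' : Sum.inl z ∈ T <;> simp [h, h']

theorem cut_sub (S : Set (Cd D)) (x y : D.X) : cut S (x - y) = cut S x - cut S y := by
  refine X_ext (fun m b => ?_) fun z => ?_
  · rw [kc_sub, kc_cut, kc_cut, kc_cut, kc_sub, cutH_sub]
  · rw [snd_sub, snd_cut, snd_cut, snd_cut, snd_sub]
    split_ifs <;> simp

/-- `x - cut S x` is the restriction to the complement. -/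
theorem sub_cut (S : Set (Cd D)) (x : D.X) : x - cut S x = cut Sᶜ x := by
  refine X_ext (fun m b => ?_) fun z => ?_
  · rw [kc_sub, kc_cut, kc_cut, sub_cutH]
    rfl
  · rw [snd_sub, snd_cut, snd_cut]
    by_cases h : Sum.inl z ∈ S <;> simp [h]

theorem cut_union_sub (S T : Set (Cd D)) (h : S ⊆ T) (x : D.X) :
    cut T x - cut S x = cut (T \ S) x := by
  refine X_ext (fun m b => ?_) fun z => ?_
  · rw [kc_sub, kc_cut, kc_cut, kc_cut, cutH_diff (S := {j | Sum.inr (m, b, j) ∈ S})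
      (T := {j | Sum.inr (m, b, j) ∈ T}) (fun j hj => h hj)]
    rfl
  · rw [snd_sub, snd_cut, snd_cut, snd_cut]
    by_cases h1 : Sum.inl z ∈ S
    · have h2 := h h1
      simp [h1, h2]
    · by_cases h2 : Sum.inl z ∈ T <;> simp [h1, h2]

theorem ms_cut_split (S : Set (Cd D)) (x : D.X) (m : ℕ) (b : D.A × ℕ) :
    ms x m b = ms (cut S x) m b + ms (x - cut S x) m b := by
  unfold ms
  rw [kc_sub, kc_cut, cutH_pyth {j | Sum.inr (m, b, j) ∈ S} (kc x m b)]
  ring

theorem ms_cut_eq_zero (S : Set (Cd D)) (x : D.X) (m : ℕ) (b : D.A × ℕ)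
    (h : ∀ j, Sum.inr (m, b, j) ∉ S) : ms (cut S x) m b = 0 := by
  unfold ms
  rw [kc_cut, cutH_of_disj (S := {j | Sum.inr (m, b, j) ∈ S}) h, norm_zero,
    zero_pow two_ne_zero]

namespace LB1

lemma tsum_ms (x : D.X) (m : ℕ) : ∑' b, ms x m b = ‖RN.to (x.fst m)‖ ^ 2 := by
  rw [ms_eq_sqf]
  exact tsum_sqf _

lemma toRN_le (x : D.X) (m : ℕ) : ‖RN.to (x.fst m)‖ ≤ ‖x‖ :=
  (RN.to_norm_le _).trans ((lp.norm_apply_le_norm (by norm_num) x.fst m).trans (fst_le x))

lemma kc_norm_le (x : D.X) (m : ℕ) (b : D.A × ℕ) : ‖kc x m b‖ ≤ ‖x‖ :=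
  (lp.norm_apply_le_norm (by norm_num) (RN.to (x.fst m)) b).trans (toRN_le x m)

end LB1

theorem tsum_ms_le (x : D.X) (m : ℕ) : ∑' b, ms x m b ≤ ‖x‖ ^ 2 := by
  rw [tsum_ms]
  exact pow_le_pow_left₀ (norm_nonneg _) (toRN_le x m) 2

theorem orth_cut (S T : Set (Cd D)) (h : Disjoint S T) (x y : D.X) :
    Orth (cut S x) (cut T y) := by
  refine ⟨fun m b => ?_, fun z => ?_⟩
  · rw [kc_cut, kc_cut]
    refine cutH_inner ?_ _ _
    rw [Set.disjoint_left]
    intro j hj hj'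
    exact Set.disjoint_left.1 h hj hj'
  · rw [snd_cut, snd_cut]
    by_cases h1 : Sum.inl z ∈ S
    · have h2 : Sum.inl z ∉ T := fun h2 => Set.disjoint_left.1 h h1 h2
      rw [if_neg h2, mul_zero]
    · rw [if_neg h1, zero_mul]

namespace LB1

/-- Finitely supported approximations exist. -/
def Ap (x : D.X) : Prop :=
  ∀ ε : ℝ, 0 < ε → ∃ S : Finset (Cd D), ‖x - cut (S : Set (Cd D)) x‖ ≤ ε

lemma sub_cut_mono {S T : Set (Cd D)} (h : S ⊆ T) (x : D.X) :
    ‖x - cut T x‖ ≤ ‖x - cut S x‖ := by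
  rw [sub_cut, sub_cut]
  have h1 : cut Tᶜ (cut Sᶜ x) = cut Tᶜ x := by
    rw [cut_cut, Set.inter_eq_self_of_subset_left (Set.compl_subset_compl.2 h)]
  rw [← h1]
  exact cut_norm_le _ _

lemma Ap.of_near {x : D.X} (h : ∀ ε : ℝ, 0 < ε → ∃ y, Ap y ∧ ‖x - y‖ ≤ ε) : Ap x := by
  intro ε hε
  obtain ⟨y, hy, hxy⟩ := h (ε / 3) (by positivity)
  obtain ⟨S, hS⟩ := hy (ε / 3) (by positivity)
  refine ⟨S, ?_⟩
  have e : x - cut (S : Set (Cd D)) x = (x - y) + (y - cut (S : Set (Cd D)) y) -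
      cut (S : Set (Cd D)) (x - y) := by
    rw [cut_sub]
    abel
  rw [e]
  have h1 := cut_norm_le (S : Set (Cd D)) (x - y)
  have h2 := norm_add_le (x - y) (y - cut (S : Set (Cd D)) y)
  have h3 := norm_sub_le ((x - y) + (y - cut (S : Set (Cd D)) y)) (cut (S : Set (Cd D)) (x - y))
  linarith

lemma cut_add (S : Set (Cd D)) (x y : D.X) : cut S (x + y) = cut S x + cut S y := by
  have h := cut_sub S (x + y) y
  rw [add_sub_cancel_right] at h
  rw [h]
  abel

lemma Ap.add {x y : D.X} (hx : Ap x) (hy : Ap y) : Ap (x + y) := by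
  intro ε hε
  obtain ⟨S, hS⟩ := hx (ε / 2) (by positivity)
  obtain ⟨T, hT⟩ := hy (ε / 2) (by positivity)
  refine ⟨S ∪ T, ?_⟩
  have e : x + y - cut ((S ∪ T : Finset (Cd D)) : Set (Cd D)) (x + y) =
      (x - cut ((S ∪ T : Finset (Cd D)) : Set (Cd D)) x) +
        (y - cut ((S ∪ T : Finset (Cd D)) : Set (Cd D)) y) := by
    rw [cut_add]
    abel
  rw [e]
  have h1 := sub_cut_mono (Finset.coe_subset.2 (Finset.subset_union_left (s₁ := S) (s₂ := T))) x
  have h2 := sub_cut_mono (Finset.coe_subset.2 (Finset.subset_union_right (s₁ := S) (s₂ := T))) y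
  have h3 := norm_add_le (x - cut ((S ∪ T : Finset (Cd D)) : Set (Cd D)) x)
    (y - cut ((S ∪ T : Finset (Cd D)) : Set (Cd D)) y)
  linarith

lemma cut_zero (S : Set (Cd D)) : cut S (0 : D.X) = 0 := by
  have h := cut_sub S (0 : D.X) 0
  rw [sub_zero, sub_self] at h
  exact h

lemma Ap.zero : Ap (0 : D.X) := fun ε hε => ⟨∅, by rw [cut_zero, sub_zero, norm_zero]; exact hε.le⟩

lemma Ap.sum {ι : Type} (s : Finset ι) (f : ι → D.X) (h : ∀ i, Ap (f i)) :
    Ap (∑ i ∈ s, f i) := by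
  induction s using Finset.induction_on with
  | empty => rw [sum_empty]; exact Ap.zero
  | insert a s ha ih => rw [sum_insert ha]; exact (h a).add ih

lemma Ap.hasSum {ι : Type} {f : ι → D.X} {x : D.X} (hs : HasSum f x) (h : ∀ i, Ap (f i)) :
    Ap x := by
  refine Ap.of_near fun ε hε => ?_
  obtain ⟨s, hs⟩ := (Metric.tendsto_atTop.1 hs) ε hε
  refine ⟨∑ i ∈ s, f i, Ap.sum s f h, ?_⟩
  have h1 := hs s le_rfl
  rw [dist_comm, dist_eq_norm] at h1
  exact h1.le

lemma Ap.of_cut {x : D.X} (S : Finset (Cd D)) (h : cut (S : Set (Cd D)) x = x) : Ap x :=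
  fun ε hε => ⟨S, by rw [h, sub_self, norm_zero]; exact hε.le⟩

/-- The inclusion of the sum of the kinds. -/
def iW : D.W →L[ℝ] D.X :=
  LinearMap.mkContinuous
    { toFun := fun w => WithLp.toLp 2 (w, 0)
      map_add' := fun w w' => by
        refine X_ext (fun m b => rfl) fun z => ?_
        change (0 : ℝ) = 0 + 0
        rw [add_zero]
      map_smul' := fun c w => by
        refine X_ext (fun m b => rfl) fun z => ?_
        change (0 : ℝ) = c * 0
        rw [mul_zero] } 1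
    (fun w => by rw [one_mul]; exact (toLp_zero_right_norm w).le)

/-- The inclusion of the points. -/
def iY : D.Y →L[ℝ] D.X :=
  LinearMap.mkContinuous
    { toFun := fun y => WithLp.toLp 2 (0, y)
      map_add' := fun y y' => by
        refine X_ext (fun m b => ?_) fun z => rfl
        change RN.to (0 : D.XK m) b = RN.to ((0 : D.XK m) + 0) b
        rw [add_zero]
      map_smul' := fun c y => by
        refine X_ext (fun m b => ?_) fun z => rfl
        change RN.to (0 : D.XK m) b = RN.to (c • (0 : D.XK m)) b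
        rw [smul_zero] } 1
    (fun y => by rw [one_mul]; exact (toLp_zero_left_norm y).le)

lemma kc_iY (y : D.Y) (m : ℕ) (b : D.A × ℕ) : kc (iY y : D.X) m b = 0 := rfl

lemma snd_iY (y : D.Y) (z : D.Pt) : (iY y : D.X).snd z = y z := rfl

lemma snd_iW (w : D.W) (z : D.Pt) : (iW w : D.X).snd z = 0 := rfl

lemma kc_iW (w : D.W) (m : ℕ) (b : D.A × ℕ) : kc (iW w : D.X) m b = RN.to (w m) b := rfl

lemma ap_iY (y : D.Y) : Ap (iY y : D.X) := by
  refine Ap.hasSum ((iY (D := D)).hasSum (lp.hasSum_single (by norm_num) y)) fun z => ?_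
  refine Ap.of_cut {Sum.inl z} ?_
  refine X_ext (fun m b => ?_) fun z' => ?_
  · rw [kc_cut, kc_iY]
    exact map_zero _
  · rw [snd_cut, snd_iY]
    by_cases h : z' = z
    · subst h
      rw [if_pos (by simp)]
    · rw [if_neg (by simpa using h), lp.single_apply_ne _ _ _ h]

/-- The inclusion of a slot of a kind. -/
def iB (m : ℕ) (b : D.A × ℕ) : Hs (D.dm m b) →L[ℝ] D.X :=
  iW ∘L lp.singleContinuousLinearMap ℝ (fun m => D.XK m) 2 m ∘L
    (RN.toL (π := (Prod.fst : D.A × ℕ → D.A)) (p := pp m) (c := DD m)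
      (G := fun b => Hs (D.dm m b))).symm.toContinuousLinearMap ∘L
    lp.singleContinuousLinearMap ℝ (fun b => Hs (D.dm m b)) 2 b

lemma snd_iB (m : ℕ) (b : D.A × ℕ) (u : Hs (D.dm m b)) (z : D.Pt) :
    (iB m b u : D.X).snd z = 0 := rfl

lemma kc_iB_self (m : ℕ) (b : D.A × ℕ) (u : Hs (D.dm m b)) : kc (iB m b u : D.X) m b = u := by
  change RN.to ((lp.single 2 m (RN.to.symm (lp.single 2 b u)) : D.W) m) b = u
  rw [lp.single_apply_self, LinearEquiv.apply_symm_apply, lp.single_apply_self]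

lemma kc_iB_ne (m : ℕ) (b : D.A × ℕ) (u : Hs (D.dm m b)) {b' : D.A × ℕ} (h : b' ≠ b) :
    kc (iB m b u : D.X) m b' = 0 := by
  change RN.to ((lp.single 2 m (RN.to.symm (lp.single 2 b u)) : D.W) m) b' = 0
  rw [lp.single_apply_self, LinearEquiv.apply_symm_apply, lp.single_apply_ne _ _ _ h]

lemma kc_iB_ne' (m : ℕ) (b : D.A × ℕ) (u : Hs (D.dm m b)) {m' : ℕ} (h : m' ≠ m)
    (b' : D.A × ℕ) : kc (iB m b u : D.X) m' b' = 0 := by
  change RN.to ((lp.single 2 m (RN.to.symm (lp.single 2 b u)) : D.W) m') b' = 0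
  rw [lp.single_apply_ne _ _ _ h, map_zero]
  rfl

lemma cut_iB (S : Set (Cd D)) (m : ℕ) (b : D.A × ℕ) (u : Hs (D.dm m b))
    (h : cutH {j | Sum.inr (m, b, j) ∈ S} u = u) : cut S (iB m b u) = iB m b u := by
  refine X_ext (fun m' b' => ?_) fun z => ?_
  · rw [kc_cut]
    by_cases h1 : m' = m
    · subst h1
      by_cases h2 : b' = b
      · subst h2
        rw [kc_iB_self, h]
      · rw [kc_iB_ne _ _ _ h2]
        exact map_zero _
    · rw [kc_iB_ne' _ _ _ h1]
      exact map_zero _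
  · rw [snd_cut, snd_iB]
    split_ifs <;> rfl

lemma ap_iB (m : ℕ) (b : D.A × ℕ) (u : Hs (D.dm m b)) : Ap (iB m b u : D.X) := by
  refine Ap.hasSum ((iB (D := D) m b).hasSum (lp.hasSum_single (by norm_num) u)) fun i => ?_
  refine Ap.of_cut {Sum.inr (m, b, (i : ℕ))} (cut_iB _ _ _ _ ?_)
  ext i'
  unfold cutH
  rw [mask_apply]
  by_cases h : i' = i
  · subst h
    rw [if_pos (by simp)]
  · rw [lp.single_apply_ne _ _ _ h]
    split_ifs <;> rfl

lemma ap_all (x : D.X) : Ap x := by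
  have e : x = iW x.fst + iY x.snd := by
    refine X_ext (fun m b => ?_) fun z => ?_
    · rw [kc_add, kc_iW, kc_iY, add_zero]
      rfl
    · rw [snd_add, snd_iW, snd_iY, zero_add]
  rw [e]
  refine Ap.add ?_ (ap_iY _)
  refine Ap.hasSum ((iW (D := D)).hasSum (lp.hasSum_single (by norm_num) x.fst)) fun m => ?_
  have h1 : HasSum (fun b => lp.single 2 b (RN.to (x.fst m) b)) (RN.to (x.fst m)) :=
    lp.hasSum_single (by norm_num) (RN.to (x.fst m))
  have h2 := ((iW (D := D)) ∘L lp.singleContinuousLinearMap ℝ (fun m => D.XK m) 2 m ∘L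
    (RN.toL (π := (Prod.fst : D.A × ℕ → D.A)) (p := pp m) (c := DD m)
      (G := fun b => Hs (D.dm m b))).symm.toContinuousLinearMap).hasSum h1
  exact Ap.hasSum h2 fun b => ap_iB m b _

end LB1

theorem exists_cut (x : D.X) (ε : ℝ) (hε : 0 < ε) :
    ∃ S : Finset (Cd D), ∀ T : Set (Cd D), (S : Set (Cd D)) ⊆ T → ‖x - cut T x‖ ≤ ε := by
  obtain ⟨S, hS⟩ := ap_all x ε hε
  exact ⟨S, fun T hT => (sub_cut_mono hT x).trans hS⟩

namespace LB1

/-- The coordinate at a point. -/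
def coP (z : D.Pt) : D.X →L[ℝ] ℝ :=
  LinearMap.mkContinuous
    { toFun := fun x => x.snd z
      map_add' := fun _ _ => rfl
      map_smul' := fun _ _ => rfl } 1
    (fun x => by
      rw [one_mul, Real.norm_eq_abs]
      exact (abs_coord_le x.snd z).trans (snd_le x))

/-- A coordinate in a slot. -/
def coK (m : ℕ) (b : D.A × ℕ) (i : {j : ℕ // (j : ℕ∞) < D.dm m b}) : D.X →L[ℝ] ℝ :=
  LinearMap.mkContinuous
    { toFun := fun x => kc x m b i
      map_add' := fun _ _ => rfl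
      map_smul' := fun _ _ => rfl } 1
    (fun x => by
      rw [one_mul, Real.norm_eq_abs]
      exact (abs_coord_le (kc x m b) i).trans (kc_norm_le x m b))

lemma coP_apply (z : D.Pt) (x : D.X) : coP z x = x.snd z := rfl

lemma coK_apply (m : ℕ) (b : D.A × ℕ) (i : {j : ℕ // (j : ℕ∞) < D.dm m b}) (x : D.X) :
    coK m b i x = kc x m b i := rfl

lemma cut_single_inl (z : D.Pt) (x : D.X) :
    cut {Sum.inl z} x = iY (x.snd z • (lp.single 2 z (1 : ℝ) : D.Y)) := by
  refine X_ext (fun m b => ?_) fun z' => ?_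
  · rw [kc_cut, kc_iY]
    exact cutH_of_disj (fun j hj => by cases hj) _
  · rw [snd_cut, snd_iY, lp.coeFn_smul, Pi.smul_apply]
    by_cases h : z' = z
    · subst h
      rw [if_pos (show (Sum.inl z' : Cd D) ∈ ({Sum.inl z'} : Set (Cd D)) from rfl),
        lp.single_apply_self, smul_eq_mul, mul_one]
    · rw [if_neg (show ¬ (Sum.inl z' : Cd D) ∈ ({Sum.inl z} : Set (Cd D)) from
        fun hc => h (Sum.inl.inj hc)), lp.single_apply_ne _ _ _ h, smul_zero]

lemma cut_single_inr (m : ℕ) (b : D.A × ℕ) (i : {j : ℕ // (j : ℕ∞) < D.dm m b}) (x : D.X) :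
    cut {Sum.inr (m, b, (i : ℕ))} x = kc x m b i • iB m b (lp.single 2 i (1 : ℝ)) := by
  refine X_ext (fun m' b' => ?_) fun z => ?_
  · rw [kc_smul, kc_cut]
    by_cases h1 : m' = m
    · subst h1
      by_cases h2 : b' = b
      · subst h2
        rw [kc_iB_self]
        ext i'
        unfold cutH
        rw [mask_apply, lp.coeFn_smul, Pi.smul_apply]
        by_cases h : i' = i
        · subst h
          rw [if_pos (by simp), lp.single_apply_self, smul_eq_mul, mul_one]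
        · rw [lp.single_apply_ne _ _ _ h, smul_zero, if_neg]
          intro hc
          apply h
          have h3 : (Sum.inr (m', b', (i' : ℕ)) : Cd D) = Sum.inr (m', b', (i : ℕ)) := hc
          have h4 := (Prod.mk.inj (Prod.mk.inj (Sum.inr.inj h3)).2).2
          exact Subtype.ext h4
      · rw [kc_iB_ne _ _ _ h2, smul_zero]
        refine cutH_of_disj (fun j hj => h2 ?_) _
        have h3 : (Sum.inr (m', b', j) : Cd D) = Sum.inr (m', b, (i : ℕ)) := hj
        exact (Prod.mk.inj (Prod.mk.inj (Sum.inr.inj h3)).2).1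
    · rw [kc_iB_ne' _ _ _ h1, smul_zero]
      refine cutH_of_disj (fun j hj => h1 ?_) _
      have h3 : (Sum.inr (m', b', j) : Cd D) = Sum.inr (m, b, (i : ℕ)) := hj
      exact (Prod.mk.inj (Sum.inr.inj h3)).1
  · rw [snd_cut, snd_smul, snd_iB, mul_zero, if_neg]
    intro hc
    cases hc

lemma cut_single_inr_eq_zero (m : ℕ) (b : D.A × ℕ) (j : ℕ) (hj : ¬ (j : ℕ∞) < D.dm m b)
    (x : D.X) : cut {Sum.inr (m, b, j)} x = 0 := by
  refine X_ext (fun m' b' => ?_) fun z => ?_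
  · rw [kc_cut]
    change _ = RN.to (0 : D.XK m') b'
    rw [map_zero]
    ext i'
    unfold cutH
    rw [mask_apply, if_neg]
    · rfl
    · intro hc
      have h3 : (Sum.inr (m', b', (i' : ℕ)) : Cd D) = Sum.inr (m, b, j) := hc
      have h4 := Prod.mk.inj (Sum.inr.inj h3)
      have h5 := Prod.mk.inj h4.2
      apply hj
      rw [← h4.1, ← h5.1, ← h5.2]
      exact i'.2
  · rw [snd_cut, if_neg]
    · rfl
    · intro hc
      cases hc

lemma cut_single_null (c : Cd D) (z : ℕ → D.X)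
    (hz : ∀ g : D.X →L[ℝ] ℝ, Tendsto (fun j => g (z j)) atTop (𝓝 0)) :
    Tendsto (fun j => ‖cut {c} (z j)‖) atTop (𝓝 0) := by
  rcases c with p | ⟨m, b, i⟩
  · have h := (hz (coP p)).norm
    rw [norm_zero] at h
    refine h.congr fun j => ?_
    rw [cut_single_inl]
    change _ = ‖(WithLp.toLp 2 (0, (z j).snd p • (lp.single 2 p (1 : ℝ) : D.Y)) : D.X)‖
    rw [toLp_zero_left_norm, norm_smul, lp.norm_single (by norm_num), norm_one, mul_one]
    rfl
  · by_cases hi : (i : ℕ∞) < D.dm m b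
    · have h := ((hz (coK m b ⟨i, hi⟩)).norm).mul_const
        ‖(iB m b (lp.single 2 (⟨i, hi⟩ : {j : ℕ // (j : ℕ∞) < D.dm m b}) (1 : ℝ)) : D.X)‖
      rw [norm_zero, zero_mul] at h
      refine h.congr fun j => ?_
      rw [← norm_smul]
      have h2 := cut_single_inr m b ⟨i, hi⟩ (z j)
      rw [h2]
      rfl
    · have h : (fun j => ‖cut {Sum.inr (m, b, i)} (z j)‖) = fun _ => (0 : ℝ) := by
        funext j
        rw [cut_single_inr_eq_zero m b i hi, norm_zero]
      rw [h]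
      exact tendsto_const_nhds

end LB1

theorem cut_null (S : Finset (Cd D)) (z : ℕ → D.X)
    (hz : ∀ g : D.X →L[ℝ] ℝ, Tendsto (fun j => g (z j)) atTop (𝓝 0)) :
    Tendsto (fun j => ‖cut (S : Set (Cd D)) (z j)‖) atTop (𝓝 0) := by
  induction S using Finset.induction_on with
  | empty =>
    have h : (fun j => ‖cut ((∅ : Finset (Cd D)) : Set (Cd D)) (z j)‖) = fun _ => (0 : ℝ) := by
      funext j
      have h1 : cut ((∅ : Finset (Cd D)) : Set (Cd D)) (z j) = 0 := by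
        have h2 := sub_cut (Set.univ : Set (Cd D)) (z j)
        have h3 : cut (Set.univ : Set (Cd D)) (z j) = z j := by
          refine X_ext (fun m b => ?_) fun p => ?_
          · rw [kc_cut]
            exact mask_univ _
          · rw [snd_cut, if_pos (Set.mem_univ _)]
        rw [h3, sub_self, Set.compl_univ] at h2
        rw [Finset.coe_empty]
        exact h2.symm
      rw [h1, norm_zero]
    rw [h]
    exact tendsto_const_nhds
  | insert c S hc ih =>
    have h := (cut_single_null c z hz).add ih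
    rw [add_zero] at h
    refine squeeze_zero (fun j => norm_nonneg _) (fun j => ?_) h
    have e : cut ((insert c S : Finset (Cd D)) : Set (Cd D)) (z j) =
        cut {c} (z j) + cut (S : Set (Cd D)) (z j) := by
      have h1 := cut_union_sub (S : Set (Cd D)) ((insert c S : Finset (Cd D)) : Set (Cd D))
        (by rw [Finset.coe_insert]; exact Set.subset_insert _ _) (z j)
      have h2 : (((insert c S : Finset (Cd D)) : Set (Cd D)) \ (S : Set (Cd D))) = {c} := by
        rw [Finset.coe_insert]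
        ext d
        constructor
        · rintro ⟨h3 | h3, h4⟩
          · exact h3
          · exact absurd h3 h4
        · intro h3
          have h4 : d = c := h3
          subst h4
          exact ⟨Or.inl rfl, hc⟩
      rw [h2] at h1
      rw [← h1]
      abel
    rw [e]
    exact norm_add_le _ _

/-- In a slot of finite dimension the masses of a weakly null sequence tend to `0`. -/
theorem ms_null (m : ℕ) (b : D.A × ℕ) (hb : D.dm m b ≠ ⊤) (z : ℕ → D.X)
    (hz : ∀ g : D.X →L[ℝ] ℝ, Tendsto (fun j => g (z j)) atTop (𝓝 0)) :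
    Tendsto (fun j => ms (z j) m b) atTop (𝓝 0) := by
  obtain ⟨n, hn⟩ := ENat.ne_top_iff_exists.1 hb
  have hfin : Finite {j : ℕ // (j : ℕ∞) < D.dm m b} := by
    rw [← hn]
    refine Set.Finite.to_subtype (s := {j : ℕ | (j : ℕ∞) < (n : ℕ∞)}) ?_
    refine (Set.finite_lt_nat n).subset fun j hj => ?_
    have h : (j : ℕ∞) < (n : ℕ∞) := hj
    exact_mod_cast h
  have := Fintype.ofFinite {j : ℕ // (j : ℕ∞) < D.dm m b}
  have h1 : ∀ j, ms (z j) m b = ∑ i, (coK m b i (z j)) ^ 2 := by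
    intro j
    unfold ms
    rw [← tsum_sq, tsum_fintype]
    refine sum_congr rfl fun i _ => ?_
    rw [Real.norm_eq_abs, sq_abs]
    rfl
  have h2 : Tendsto (fun j => ∑ i, (coK m b i (z j)) ^ 2) atTop (𝓝 (∑ i : {j : ℕ // (j : ℕ∞) < D.dm m b}, (0 : ℝ) ^ 2)) :=
    tendsto_finsetSum _ fun i _ => (hz (coK m b i)).pow 2
  simp only [ne_eq, OfNat.ofNat_ne_zero, not_false_eq_true, zero_pow, sum_const_zero] at h2
  exact h2.congr fun j => (h1 j).symm

end Dat

end

end Pool.Agent.Lib.MP_4e4c79_lc.Cc
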