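import Mathlib

/-!
# Module LB2.  Selection of a subsequence of nonnegative summable functions on slots.

`act` is the set of slots where the functions may be nonzero; every atom has finitely many of them.

Let `U` be a free ultrafilter on `ℕ`, `winf b = lim_U w s b`.  One step (`LB2_step`): given a finite set `H` of
atoms which contains the atoms of a finite set `G₀` carrying almost all the mass of `winf`, choose `s` with
`w s` close to `winf` on the (finitely many) active slots over `H`, then a finite set `G` of slots not over `H`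
carrying almost all the mass of `w s` outside `H`; `r = w s` on `G`.  Iterate (`LB2_iter`).
-/

namespace Pool.Agent.Lib.MP_4e4c79_lc.Cc

open Finset
attribute [local instance] Classical.propDecidable
set_option linter.unusedSectionVars false

noncomputable section

open Filter Topology in
theorem LB2_lim {A : Type} (w : ℕ → A × ℕ → ℝ) (hw : ∀ s b, 0 ≤ w s b) (Z : ℝ)
    (hZ : ∀ s (F : Finset (A × ℕ)), ∑ b ∈ F, w s b ≤ Z) :
    ∃ winf : A × ℕ → ℝ, ∀ b, Tendsto (fun s => w s b) (hyperfilter ℕ : Filter ℕ) (𝓝 (winf b)) := by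
  have h : ∀ b, ∃ x, Tendsto (fun s => w s b) (hyperfilter ℕ : Filter ℕ) (𝓝 x) := by
    intro b
    have hc : IsCompact (Set.Icc (0 : ℝ) Z) := isCompact_Icc
    have hle : (((hyperfilter ℕ).map (fun s => w s b) : Ultrafilter ℝ) : Filter ℝ) ≤
        𝓟 (Set.Icc (0 : ℝ) Z) := by
      rw [le_principal_iff]
      refine Ultrafilter.mem_map.2 ?_
      refine Filter.mem_of_superset Filter.univ_mem fun s _ => ?_
      refine ⟨hw s b, ?_⟩
      have := hZ s {b}
      simpa using this
    obtain ⟨x, -, hx⟩ := hc.ultrafilter_le_nhds _ hle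
    exact ⟨x, hx⟩
  choose winf hwinf using h
  exact ⟨winf, hwinf⟩

open Filter Topology in
theorem LB2_step {A : Type} (act : Set (A × ℕ)) (hfin : ∀ a, {s | (a, s) ∈ act}.Finite)
    (w : ℕ → A × ℕ → ℝ) (hw : ∀ s b, 0 ≤ w s b) (hact : ∀ s b, b ∉ act → w s b = 0) (Z : ℝ)
    (hZ : ∀ s (F : Finset (A × ℕ)), ∑ b ∈ F, w s b ≤ Z) (δ : ℝ) (hδ : 0 < δ)
    (winf : A × ℕ → ℝ)
    (hlim : ∀ b, Tendsto (fun s => w s b) (hyperfilter ℕ : Filter ℕ) (𝓝 (winf b)))
    (hwinf : ∀ b, 0 ≤ winf b) (hwact : ∀ b, b ∉ act → winf b = 0)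
    (G₀ : Finset (A × ℕ)) (hG₀ : ∀ F : Finset (A × ℕ), Disjoint F G₀ → ∑ b ∈ F, winf b ≤ δ / 4)
    (H : Finset A) (hH : ∀ b ∈ G₀, b.1 ∈ H) (s₀ : ℕ) :
    ∃ (s : ℕ) (r e : A × ℕ → ℝ) (G : Finset (A × ℕ)), s₀ ≤ s ∧ (∀ b ∈ G, b.1 ∉ H) ∧
      (∀ b, 0 ≤ r b) ∧ (∀ b, r b ≤ w s b) ∧ (∀ b, r b ≠ 0 → b ∈ G) ∧
      (∀ b, 0 ≤ e b) ∧ Summable e ∧ ∑' b, e b ≤ δ ∧
      (∀ b, w s b ≤ winf b + r b + e b) ∧ (∀ b, winf b ≤ w s b + e b) := by
  have hQfin : {b : A × ℕ | b ∈ act ∧ b.1 ∈ H}.Finite := by
    have : {b : A × ℕ | b ∈ act ∧ b.1 ∈ H} ⊆ ⋃ a ∈ (H : Set A), (fun s => (a, s)) '' {s | (a, s) ∈ act} := by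
      rintro ⟨a, s⟩ ⟨h1, h2⟩
      simp only [Set.mem_iUnion]
      exact ⟨a, h2, s, h1, rfl⟩
    refine Set.Finite.subset (Set.Finite.biUnion H.finite_toSet fun a _ => (hfin a).image _) this
  set Q : Finset (A × ℕ) := hQfin.toFinset with hQ
  set η : ℝ := δ / 4 / (Q.card + 1) with hη
  have hcard : (0 : ℝ) < Q.card + 1 := by positivity
  have hηpos : 0 < η := by positivity
  have hev1 : ∀ᶠ s in (hyperfilter ℕ : Filter ℕ), ∀ b ∈ Q, |w s b - winf b| < η := by
    rw [Filter.eventually_all_finset]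
    intro b _
    have := (hlim b)
    rw [Metric.tendsto_nhds] at this
    exact this η hηpos
  have hev2 : ∀ᶠ s in (hyperfilter ℕ : Filter ℕ), s₀ ≤ s :=
    Nat.hyperfilter_le_atTop (Filter.eventually_ge_atTop s₀)
  obtain ⟨s, hs1, hs2⟩ := (hev1.and hev2).exists
  have hsum : Summable (w s) := summable_of_sum_le (hw s) (hZ s)
  obtain ⟨G₁, hG₁⟩ := (summable_iff_vanishing_norm.1 hsum) (δ / 4) (by positivity)
  refine ⟨s, fun b => if b ∈ G₁ ∧ b.1 ∉ H then w s b else 0,
    fun b => if b.1 ∈ H then |w s b - winf b| else if b ∈ G₁ then winf b else w s b + winf b,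
    G₁.filter (fun b => b.1 ∉ H), hs2, ?_, ?_, ?_, ?_, ?_, ?_⟩
  · intro b hb
    exact (Finset.mem_filter.1 hb).2
  · intro b
    dsimp only
    split_ifs
    · exact hw s b
    · exact le_rfl
  · intro b
    dsimp only
    split_ifs
    · exact le_rfl
    · exact hw s b
  · intro b hb
    dsimp only at hb
    split_ifs at hb with h
    · exact Finset.mem_filter.2 h
    · exact absurd rfl hb
  · intro b
    dsimp only
    split_ifs
    · exact abs_nonneg _
    · exact hwinf b
    · exact add_nonneg (hw s b) (hwinf b)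
  · have he0 : ∀ b : A × ℕ, 0 ≤ (if b.1 ∈ H then |w s b - winf b| else
        if b ∈ G₁ then winf b else w s b + winf b) := by
      intro b
      split_ifs
      · exact abs_nonneg _
      · exact hwinf b
      · exact add_nonneg (hw s b) (hwinf b)
    have hle : ∀ F : Finset (A × ℕ), ∑ b ∈ F, (if b.1 ∈ H then |w s b - winf b| else
        if b ∈ G₁ then winf b else w s b + winf b) ≤ δ := by
      intro F
      have hsplit : ∀ b ∈ F, (if b.1 ∈ H then |w s b - winf b| else
          if b ∈ G₁ then winf b else w s b + winf b) =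
          (if b.1 ∈ H then |w s b - winf b| else 0) + ((if b.1 ∉ H then winf b else 0) +
          (if b.1 ∉ H ∧ b ∉ G₁ then w s b else 0)) := by
        intro b _
        by_cases h1 : b.1 ∈ H
        · simp [h1]
        · by_cases h2 : b ∈ G₁
          · simp [h1, h2]
          · simp [h1, h2, add_comm]
      rw [Finset.sum_congr rfl hsplit, Finset.sum_add_distrib, Finset.sum_add_distrib]
      have h1 : ∑ b ∈ F, (if b.1 ∈ H then |w s b - winf b| else 0) ≤ δ / 4 := by
        have : ∑ b ∈ F, (if b.1 ∈ H then |w s b - winf b| else 0) ≤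
            ∑ b ∈ Q, |w s b - winf b| := by
          rw [← Finset.sum_filter]
          have hz : ∑ b ∈ F.filter (fun b => b.1 ∈ H), |w s b - winf b| =
              ∑ b ∈ (F.filter (fun b => b.1 ∈ H)).filter (fun b => b ∈ act), |w s b - winf b| := by
            symm
            refine Finset.sum_subset (Finset.filter_subset _ _) fun b hb hb' => ?_
            have hna : b ∉ act := fun h => hb' (Finset.mem_filter.2 ⟨hb, h⟩)
            rw [hact s b hna, hwact b hna]
            simp
          rw [hz]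
          refine Finset.sum_le_sum_of_subset_of_nonneg ?_ fun b _ _ => abs_nonneg _
          intro b hb
          rw [Finset.mem_filter, Finset.mem_filter] at hb
          rw [hQ, Set.Finite.mem_toFinset]
          exact ⟨hb.2, hb.1.2⟩
        refine this.trans ?_
        calc ∑ b ∈ Q, |w s b - winf b| ≤ ∑ _b ∈ Q, η := Finset.sum_le_sum fun b hb => (hs1 b hb).le
          _ = Q.card * η := by rw [Finset.sum_const, nsmul_eq_mul]
          _ ≤ (Q.card + 1) * η := by nlinarith
          _ = δ / 4 := by rw [hη]; field_simp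
      have h2 : ∑ b ∈ F, (if b.1 ∉ H then winf b else 0) ≤ δ / 4 := by
        rw [← Finset.sum_filter]
        refine hG₀ _ ?_
        rw [Finset.disjoint_left]
        intro b hb hb'
        exact (Finset.mem_filter.1 hb).2 (hH b hb')
      have h3 : ∑ b ∈ F, (if b.1 ∉ H ∧ b ∉ G₁ then w s b else 0) ≤ δ / 4 := by
        rw [← Finset.sum_filter]
        have := hG₁ (F.filter (fun b => b.1 ∉ H ∧ b ∉ G₁)) (by
          rw [Finset.disjoint_left]
          intro b hb hb'
          exact (Finset.mem_filter.1 hb).2.2 hb')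
        exact (le_abs_self _).trans this.le
      linarith
    refine ⟨summable_of_sum_le he0 hle, ?_, ?_, ?_⟩
    · exact (summable_of_sum_le he0 hle).tsum_le_of_sum_le hle
    · intro b
      by_cases h1 : b.1 ∈ H
      · simp only [h1, if_true, not_true, and_false, if_false]
        have := le_abs_self (w s b - winf b)
        linarith
      · by_cases h2 : b ∈ G₁
        · simp only [h1, h2, if_false, if_true, not_false_iff, and_true]
          linarith [hwinf b]
        · simp only [h1, h2, if_false, not_false_iff, false_and]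
          linarith [hwinf b, hw s b]
    · intro b
      by_cases h1 : b.1 ∈ H
      · simp only [h1, if_true]
        have := neg_abs_le (w s b - winf b)
        linarith
      · by_cases h2 : b ∈ G₁
        · simp only [h1, h2, if_false, if_true]
          linarith [hw s b]
        · simp only [h1, h2, if_false]
          linarith [hw s b, hwinf b]

theorem LB2_iter {A : Type} (w : ℕ → A × ℕ → ℝ) (δ : ℝ) (winf : A × ℕ → ℝ) (H₀ : Finset A)
    (hstep : ∀ (H : Finset A), H₀ ⊆ H → ∀ s₀ : ℕ,
      ∃ (s : ℕ) (r e : A × ℕ → ℝ) (G : Finset (A × ℕ)), s₀ ≤ s ∧ (∀ b ∈ G, b.1 ∉ H) ∧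
      (∀ b, 0 ≤ r b) ∧ (∀ b, r b ≤ w s b) ∧ (∀ b, r b ≠ 0 → b ∈ G) ∧
      (∀ b, 0 ≤ e b) ∧ Summable e ∧ ∑' b, e b ≤ δ ∧
      (∀ b, w s b ≤ winf b + r b + e b) ∧ (∀ b, winf b ≤ w s b + e b)) (K : ℕ) :
    ∀ (H : Finset A), H₀ ⊆ H → ∀ s₀ : ℕ,
    ∃ (s : Fin K → ℕ) (r e : Fin K → A × ℕ → ℝ),
      (∀ t, s₀ ≤ s t) ∧ (∀ t b, r t b ≠ 0 → b.1 ∉ H) ∧
      Function.Injective s ∧
      (∀ t b, 0 ≤ r t b) ∧ (∀ t b, r t b ≤ w (s t) b) ∧
      (∀ t b, 0 ≤ e t b) ∧ (∀ t, Summable (e t)) ∧ (∀ t, ∑' b, e t b ≤ δ) ∧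
      (∀ t b, w (s t) b ≤ winf b + r t b + e t b) ∧ (∀ t b, winf b ≤ w (s t) b + e t b) ∧
      (∀ t t', t ≠ t' → ∀ b b', r t b ≠ 0 → r t' b' ≠ 0 → b.1 ≠ b'.1) := by
  induction K with
  | zero =>
    intro H _ s₀
    exact ⟨fun t => t.elim0, fun t => t.elim0, fun t => t.elim0, fun t => t.elim0,
      fun t => t.elim0, fun t => t.elim0, fun t => t.elim0, fun t => t.elim0, fun t => t.elim0,
      fun t => t.elim0, fun t => t.elim0, fun t => t.elim0, fun t => t.elim0, fun t => t.elim0⟩
  | succ K ih =>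
    intro H hH s₀
    obtain ⟨s1, r1, e1, G, hs1, hG, hr0, hrw, hrG, he0, hes, hed, hu, hl⟩ := hstep H hH s₀
    obtain ⟨s, r, e, hs, hrH, hinj, h1, h2, h3, h4, h5, h6, h7, h8⟩ :=
      ih (H ∪ G.image Prod.fst) (hH.trans Finset.subset_union_left) (s1 + 1)
    refine ⟨Fin.cons s1 s, Fin.cons r1 r, Fin.cons e1 e, ?_, ?_, ?_, ?_, ?_, ?_, ?_, ?_, ?_, ?_, ?_⟩
    · intro t
      refine Fin.cases ?_ (fun t => ?_) t
      · simpa using hs1
      · simp only [Fin.cons_succ]
        have := hs t
        omega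
    · intro t
      refine Fin.cases ?_ (fun t => ?_) t
      · intro b hb
        exact hG b (hrG b hb)
      · intro b hb
        simp only [Fin.cons_succ] at hb
        intro hbH
        exact hrH t b hb (Finset.mem_union_left _ hbH)
    · intro t t'
      refine Fin.cases ?_ (fun t => ?_) t
      · refine Fin.cases ?_ (fun t' => ?_) t'
        · intro _
          rfl
        · intro h
          simp only [Fin.cons_zero, Fin.cons_succ] at h
          have := hs t'
          omega
      · refine Fin.cases ?_ (fun t' => ?_) t'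
        · intro h
          simp only [Fin.cons_zero, Fin.cons_succ] at h
          have := hs t
          omega
        · intro h
          simp only [Fin.cons_succ] at h
          rw [hinj h]
    · intro t
      refine Fin.cases ?_ (fun t => ?_) t
      · simpa using hr0
      · simpa using h1 t
    · intro t
      refine Fin.cases ?_ (fun t => ?_) t
      · simpa using hrw
      · simpa using h2 t
    · intro t
      refine Fin.cases ?_ (fun t => ?_) t
      · simpa using he0
      · simpa using h3 t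
    · intro t
      refine Fin.cases ?_ (fun t => ?_) t
      · simpa using hes
      · simpa using h4 t
    · intro t
      refine Fin.cases ?_ (fun t => ?_) t
      · simpa using hed
      · simpa using h5 t
    · intro t
      refine Fin.cases ?_ (fun t => ?_) t
      · simpa using hu
      · simpa using h6 t
    · intro t
      refine Fin.cases ?_ (fun t => ?_) t
      · simpa using hl
      · simpa using h7 t
    · intro t t'
      refine Fin.cases ?_ (fun t => ?_) t
      · refine Fin.cases ?_ (fun t' => ?_) t'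
        · intro h
          exact absurd rfl h
        · intro _ b b' hb hb' heq
          simp only [Fin.cons_zero, Fin.cons_succ] at hb hb'
          refine hrH t' b' hb' (Finset.mem_union_right _ ?_)
          rw [← heq]
          exact Finset.mem_image_of_mem _ (hrG b hb)
      · refine Fin.cases ?_ (fun t' => ?_) t'
        · intro _ b b' hb hb' heq
          simp only [Fin.cons_zero, Fin.cons_succ] at hb hb'
          refine hrH t b hb (Finset.mem_union_right _ ?_)
          rw [heq]
          exact Finset.mem_image_of_mem _ (hrG b' hb')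
        · intro h b b' hb hb'
          simp only [Fin.cons_succ] at hb hb'
          exact h8 t t' (fun h' => h (by rw [h'])) b b' hb hb'

open Filter Topology in
theorem select {A : Type} (act : Set (A × ℕ)) (hfin : ∀ a, {s | (a, s) ∈ act}.Finite)
    (w : ℕ → A × ℕ → ℝ) (hw : ∀ s b, 0 ≤ w s b) (hact : ∀ s b, b ∉ act → w s b = 0) (Z : ℝ)
    (hZ : ∀ s (F : Finset (A × ℕ)), ∑ b ∈ F, w s b ≤ Z) (K : ℕ) (δ : ℝ) (hδ : 0 < δ) :
    ∃ (winf : A × ℕ → ℝ) (s : Fin K → ℕ) (r e : Fin K → A × ℕ → ℝ),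
      Function.Injective s ∧ (∀ b, 0 ≤ winf b) ∧ Summable winf ∧
      (∀ t b, 0 ≤ r t b) ∧ (∀ t b, r t b ≤ w (s t) b) ∧
      (∀ t b, 0 ≤ e t b) ∧ (∀ t, Summable (e t)) ∧ (∀ t, ∑' b, e t b ≤ δ) ∧
      (∀ t b, w (s t) b ≤ winf b + r t b + e t b) ∧ (∀ t b, winf b ≤ w (s t) b + e t b) ∧
      (∀ t t', t ≠ t' → ∀ b b', r t b ≠ 0 → r t' b' ≠ 0 → b.1 ≠ b'.1) := by
  obtain ⟨winf, hlim⟩ := LB2_lim w hw Z hZ
  have hwinf : ∀ b, 0 ≤ winf b := fun b =>
    ge_of_tendsto (hlim b) (Filter.Eventually.of_forall fun s => hw s b)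
  have hwact : ∀ b, b ∉ act → winf b = 0 := fun b hb =>
    tendsto_nhds_unique (hlim b) (by simp only [hact _ b hb]; exact tendsto_const_nhds)
  have hsum : ∀ F : Finset (A × ℕ), ∑ b ∈ F, winf b ≤ Z := fun F =>
    le_of_tendsto (tendsto_finsetSum F fun b _ => hlim b)
      (Filter.Eventually.of_forall fun s => hZ s F)
  have hsm : Summable winf := summable_of_sum_le hwinf hsum
  obtain ⟨G₀, hG₀⟩ := (summable_iff_vanishing_norm.1 hsm) (δ / 4) (by positivity)
  have hG₀' : ∀ F : Finset (A × ℕ), Disjoint F G₀ → ∑ b ∈ F, winf b ≤ δ / 4 := fun F hF =>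
    (le_abs_self _).trans (hG₀ F hF).le
  obtain ⟨s, r, e, -, -, hinj, h1, h2, h3, h4, h5, h6, h7, h8⟩ :=
    LB2_iter w δ winf (G₀.image Prod.fst) (fun H hH s₀ =>
      LB2_step act hfin w hw hact Z hZ δ hδ winf hlim hwinf hwact G₀ hG₀' H
        (fun b hb => hH (Finset.mem_image_of_mem _ hb)) s₀) K _ (Finset.Subset.refl _) 0
  exact ⟨winf, s, r, e, hinj, hwinf, hsm, h1, h2, h3, h4, h5, h6, h7, h8⟩

end

end Pool.Agent.Lib.MP_4e4c79_lc.Cc
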