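import Mathlib
import Pool.Agent.Lib.MP_4e4c79_lc.Cc.LB1
import Pool.Agent.Lib.MP_4e4c79_lc.Cc.LB2

/-!
# Module LB3.  Selection of nearly disjoint vectors from weakly null sequences.
-/

namespace Pool.Agent.Lib.MP_4e4c79_lc.Cc

open Pool.Agent.Lib.MP_4e4c79_lc Complete Finset Filter
open scoped ENNReal Topology
attribute [local instance] Classical.propDecidable
set_option linter.unusedSectionVars false

noncomputable section

namespace Dat

variable {D : Dat}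

/-- The slots of kind `m` occurring in a finite set of coordinates. -/
def slotsOf (m : ℕ) (F : Finset (Cd D)) : Finset (D.A × ℕ) :=
  F.biUnion fun c => match c with
    | Sum.inl _ => ∅
    | Sum.inr p => if p.1 = m then {p.2.1} else ∅

lemma mem_slotsOf {m : ℕ} {F : Finset (Cd D)} {b : D.A × ℕ} :
    b ∈ slotsOf m F ↔ ∃ l, Sum.inr (m, b, l) ∈ F := by
  unfold slotsOf
  rw [mem_biUnion]
  constructor
  · rintro ⟨c, hc, hb⟩
    match c with
    | Sum.inl _ => exact absurd hb (notMem_empty _)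
    | Sum.inr ⟨m', b', l⟩ =>
      simp only at hb
      by_cases h : m' = m
      · rw [if_pos h, mem_singleton] at hb
        subst h hb
        exact ⟨l, hc⟩
      · rw [if_neg h] at hb
        exact absurd hb (notMem_empty _)
  · rintro ⟨l, hl⟩
    refine ⟨_, hl, ?_⟩
    simp

lemma slotsOf_mono {m : ℕ} {F F' : Finset (Cd D)} (h : F ⊆ F') : slotsOf m F ⊆ slotsOf m F' := by
  intro b hb
  obtain ⟨l, hl⟩ := mem_slotsOf.1 hb
  exact mem_slotsOf.2 ⟨l, h hl⟩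

lemma exists_hyper_lim (f : ℕ → ℝ) (Z : ℝ) (h0 : ∀ j, 0 ≤ f j) (h : ∀ j, f j ≤ Z) :
    ∃ l, Tendsto f (hyperfilter ℕ) (𝓝 l) := by
  have hc : IsCompact (Set.Icc (0 : ℝ) Z) := isCompact_Icc
  obtain ⟨l, _, hl⟩ := hc.ultrafilter_le_nhds ((hyperfilter ℕ).map f) (by
    rw [le_principal_iff]
    exact Filter.Eventually.of_forall (f := (hyperfilter ℕ : Filter ℕ)) fun j => ⟨h0 j, h j⟩)
  exact ⟨l, hl⟩

lemma hyper_le_atTop : (hyperfilter ℕ : Filter ℕ) ≤ atTop := by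
  rw [← Nat.cofinite_eq_atTop]
  exact hyperfilter_le_cofinite

lemma exists_seq (m : ℕ) (z : ℕ → ℕ → D.X)
    (hz : ∀ s (g : D.X →L[ℝ] ℝ), Tendsto (fun j => g (z s j)) atTop (𝓝 0))
    (w : ℕ → D.A × ℕ → ℝ)
    (hlim : ∀ s b, Tendsto (fun j => ms (z s j) m b) (hyperfilter ℕ) (𝓝 (w s b)))
    (q : ℕ → ℕ) (F₀ : Finset (Cd D)) (η : Finset (Cd D) → ℝ) (hη : ∀ F, 0 < η F)
    (δ₁ : ℝ) (hδ₁ : 0 < δ₁) :
    ∃ (J : ℕ → ℕ) (F : ℕ → Finset (Cd D)), Function.Injective J ∧ F 0 = F₀ ∧ Monotone F ∧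
      (∀ n, ‖cut (F n : Set (Cd D)) (z (q n) (J n))‖ ≤ δ₁) ∧
      (∀ n, ‖z (q n) (J n) - cut (F (n + 1) : Set (Cd D)) (z (q n) (J n))‖ ≤ δ₁) ∧
      ∀ n, ∀ b ∈ slotsOf m (F n), |ms (z (q n) (J n)) m b - w (q n) b| ≤ η (F n) := by
  have step : ∀ (st : Finset (Cd D) × Finset ℕ) (s : ℕ), ∃ p : ℕ × Finset (Cd D),
      p.1 ∉ st.2 ∧ st.1 ⊆ p.2 ∧ ‖cut (st.1 : Set (Cd D)) (z s p.1)‖ ≤ δ₁ ∧
      ‖z s p.1 - cut (p.2 : Set (Cd D)) (z s p.1)‖ ≤ δ₁ ∧
      ∀ b ∈ slotsOf m st.1, |ms (z s p.1) m b - w s b| ≤ η st.1 := by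
    rintro ⟨F, V⟩ s
    have h1 : ∀ᶠ j in (hyperfilter ℕ : Filter ℕ), j ∉ V := by
      have : ∀ᶠ j in cofinite, j ∉ V := by
        rw [eventually_cofinite]
        simp only [not_not]
        exact V.finite_toSet
      exact hyperfilter_le_cofinite this
    have h2 : ∀ᶠ j in (hyperfilter ℕ : Filter ℕ), ‖cut (F : Set (Cd D)) (z s j)‖ ≤ δ₁ :=
      hyper_le_atTop ((cut_null F (z s) (hz s)).eventually_le_const hδ₁)
    have h3 : ∀ᶠ j in (hyperfilter ℕ : Filter ℕ), ∀ b ∈ slotsOf m F,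
        |ms (z s j) m b - w s b| ≤ η F := by
      rw [eventually_all_finset]
      intro b _
      have h4 := (hlim s b).sub_const (w s b)
      rw [sub_self] at h4
      have h5 := h4.abs
      rw [abs_zero] at h5
      exact h5.eventually_le_const (hη F)
    obtain ⟨j, hj1, hj2, hj3⟩ := (h1.and (h2.and h3)).exists
    obtain ⟨S, hS⟩ := exists_cut (z s j) δ₁ hδ₁
    refine ⟨(j, F ∪ S), hj1, subset_union_left, hj2, hS _ ?_, hj3⟩
    rw [coe_union]
    exact Set.subset_union_right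
  choose P hP1 hP2 hP3 hP4 hP5 using step
  let st : ℕ → Finset (Cd D) × Finset ℕ := fun n =>
    Nat.rec (F₀, ∅) (fun n st => ((P st (q n)).2, insert (P st (q n)).1 st.2)) n
  have hst : ∀ n, st (n + 1) = ((P (st n) (q n)).2, insert (P (st n) (q n)).1 (st n).2) :=
    fun n => rfl
  have hm1 : Monotone fun n => (st n).1 := monotone_nat_of_le_succ fun n => by
    rw [hst]
    exact hP2 (st n) (q n)
  have hm2 : Monotone fun n => (st n).2 := monotone_nat_of_le_succ fun n => by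
    rw [hst]
    exact subset_insert _ _
  have hlt : ∀ n n', n < n' → (P (st n) (q n)).1 ≠ (P (st n') (q n')).1 := by
    intro n n' h hc
    have h1 : (P (st n) (q n)).1 ∈ (st (n + 1)).2 := by
      rw [hst]
      exact mem_insert_self _ _
    have h2 : (st (n + 1)).2 ⊆ (st n').2 := hm2 h
    have h3 := h2 h1
    rw [hc] at h3
    exact hP1 (st n') (q n') h3
  refine ⟨fun n => (P (st n) (q n)).1, fun n => (st n).1, ?_, rfl, hm1,
    fun n => hP3 (st n) (q n), fun n => ?_, fun n => hP5 (st n) (q n)⟩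
  · intro n n' h
    by_contra hne
    rcases lt_or_gt_of_ne hne with h' | h'
    · exact hlt n n' h' h
    · exact hlt n' n h' h.symm
  · exact hP4 (st n) (q n)

lemma exists_tail {ι : Type} [DecidableEq ι] (f : ι → ℝ) (hs : Summable f) (ε : ℝ)
    (hε : 0 < ε) : ∃ G : Finset ι, ∀ G' : Finset ι, G ⊆ G' →
      Summable (fun b => if b ∈ G' then 0 else f b) ∧ ∑' b, (if b ∈ G' then 0 else f b) ≤ ε := by
  have h1 := hs.hasSum
  have h2 : ∀ᶠ G : Finset ι in atTop, ∑' b, f b - ε < ∑ b ∈ G, f b :=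
    h1.eventually (lt_mem_nhds (by linarith : ∑' b, f b - ε < ∑' b, f b))
  obtain ⟨G, hG⟩ := eventually_atTop.1 h2
  refine ⟨G, fun G' hG' => ?_⟩
  have h3 : HasSum (fun b => if b ∈ G' then f b else 0) (∑ b ∈ G', f b) := by
    have h : HasSum (fun b => if b ∈ G' then f b else 0) (∑ b ∈ G', if b ∈ G' then f b else 0) :=
      hasSum_sum_of_ne_finset_zero (fun b hb => if_neg hb)
    rwa [sum_congr rfl (fun b hb => if_pos hb)] at h
  have h4 := h1.sub h3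
  have h5 : (fun b => f b - if b ∈ G' then f b else 0) = fun b => if b ∈ G' then 0 else f b := by
    funext b
    by_cases hb : b ∈ G' <;> simp [hb]
  rw [h5] at h4
  refine ⟨h4.summable, ?_⟩
  rw [h4.tsum_eq]
  have := hG G' hG'
  linarith

lemma exists_tail_fin {ι : Type} [DecidableEq ι] {K : ℕ} (f : Fin K → ι → ℝ) (hs : ∀ t, Summable (f t)) (ε : ℝ)
    (hε : 0 < ε) : ∃ G : Finset ι, ∀ t, Summable (fun b => if b ∈ G then 0 else f t b) ∧
      ∑' b, (if b ∈ G then 0 else f t b) ≤ ε := by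
  have h := fun t => exists_tail (f t) (hs t) ε hε
  choose G hG using h
  exact ⟨univ.biUnion G, fun t => hG t _ (subset_biUnion_of_mem G (mem_univ t))⟩

/-- The error term of one request. -/
lemma exists_err (m : ℕ) (u z : D.X) (hsplit : ∀ b, ms z m b = ms u m b + ms (z - u) m b)
    (w : D.A × ℕ → ℝ) (hw0 : ∀ b, 0 ≤ w b) (G₀ G : Finset (D.A × ℕ)) (hG : G₀ ⊆ G) (δ η : ℝ)
    (hη : 0 ≤ η) (hcard : G.card * η ≤ δ / 8) (hzu : ‖z - u‖ ^ 2 ≤ δ / 8)
    (hS : Summable fun b => if b ∈ G₀ then 0 else w b)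
    (hT : ∑' b, (if b ∈ G₀ then 0 else w b) ≤ δ / 8)
    (hcmp : ∀ b ∈ G, |ms z m b - w b| ≤ η) :
    ∃ e : D.A × ℕ → ℝ, (∀ b, 0 ≤ e b) ∧ Summable e ∧ ∑' b, e b ≤ 3 * (δ / 8) ∧
      (∀ b ∈ G, ms u m b ≤ w b + e b) ∧ ∀ b, w b ≤ ms u m b + e b := by
  have hηS : HasSum (fun b => if b ∈ G then η else 0) (G.card * η) := by
    have h : HasSum (fun b => if b ∈ G then η else 0) (∑ b ∈ G, if b ∈ G then η else 0) :=
      hasSum_sum_of_ne_finset_zero (fun b hb => if_neg hb)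
    rwa [sum_congr rfl (fun b hb => if_pos hb), sum_const, nsmul_eq_mul] at h
  have hms0 : ∀ b, 0 ≤ ms (z - u) m b := fun b => ms_nonneg _ _ _
  have hη0 : ∀ b, (0 : ℝ) ≤ if b ∈ G then η else 0 := by
    intro b
    split_ifs
    · exact hη
    · exact le_rfl
  have hwG0 : ∀ b, (0 : ℝ) ≤ if b ∈ G₀ then 0 else w b := by
    intro b
    split_ifs
    · exact le_rfl
    · exact hw0 _
  have h1 : Summable (ms (z - u) m) := ms_summable _ m
  refine ⟨fun b => ms (z - u) m b + (if b ∈ G then η else 0) + (if b ∈ G₀ then 0 else w b),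
    fun b => add_nonneg (add_nonneg (hms0 b) (hη0 b)) (hwG0 b), (h1.add hηS.summable).add hS,
    ?_, ?_, ?_⟩
  · rw [(h1.add hηS.summable).tsum_add hS, h1.tsum_add hηS.summable, hηS.tsum_eq]
    have := tsum_ms_le (z - u) m
    linarith
  · intro b hb
    have b1 := (abs_le.1 (hcmp b hb)).2
    have b2 := hsplit b
    have b3 := hwG0 b
    have b4 := hms0 b
    simp only [if_pos hb]
    linarith
  · intro b
    by_cases hb : b ∈ G
    · have b1 := (abs_le.1 (hcmp b hb)).1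
      have b2 := hsplit b
      have b3 := hwG0 b
      simp only [if_pos hb]
      linarith
    · have hb' : b ∉ G₀ := fun hc => hb (hG hc)
      have b4 := hms0 b
      have b5 := ms_nonneg u m b
      simp only [if_neg hb, if_neg hb']
      linarith

/-- The limits of the masses. -/
lemma exists_lim (m : ℕ) (z : ℕ → ℕ → D.X) (Z : ℝ) (hZ : ∀ s j, ‖z s j‖ ≤ Z)
    (hz : ∀ s (g : D.X →L[ℝ] ℝ), Tendsto (fun j => g (z s j)) atTop (𝓝 0)) :
    ∃ w : ℕ → D.A × ℕ → ℝ,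
      (∀ s b, Tendsto (fun j => ms (z s j) m b) (hyperfilter ℕ) (𝓝 (w s b))) ∧
      (∀ s b, 0 ≤ w s b) ∧ (∀ s (F : Finset (D.A × ℕ)), ∑ b ∈ F, w s b ≤ Z ^ 2) ∧
      (∀ s, Summable (w s)) ∧ ∀ s b, b ∉ {b : D.A × ℕ | D.ty b.1 b.2 ≠ m} → w s b = 0 := by
  have hms : ∀ s j b, ms (z s j) m b ≤ Z ^ 2 := fun s j b =>
    ((ms_summable (z s j) m).le_tsum b (fun c _ => ms_nonneg _ _ _)).trans
      ((tsum_ms_le (z s j) m).trans (pow_le_pow_left₀ (norm_nonneg _) (hZ s j) 2))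
  have hex : ∀ s b, ∃ l, Tendsto (fun j => ms (z s j) m b) (hyperfilter ℕ) (𝓝 l) := fun s b =>
    exists_hyper_lim _ (Z ^ 2) (fun j => ms_nonneg _ _ _) fun j => hms s j b
  choose w hlim using hex
  have hw0 : ∀ s b, 0 ≤ w s b := fun s b => ge_of_tendsto' (hlim s b) fun j => ms_nonneg _ _ _
  have hwsum : ∀ s (F : Finset (D.A × ℕ)), ∑ b ∈ F, w s b ≤ Z ^ 2 := fun s F =>
    le_of_tendsto' (tendsto_finsetSum F fun b _ => hlim s b) fun j =>
      ((ms_summable (z s j) m).sum_le_tsum F (fun c _ => ms_nonneg _ _ _)).trans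
        ((tsum_ms_le (z s j) m).trans (pow_le_pow_left₀ (norm_nonneg _) (hZ s j) 2))
  refine ⟨w, hlim, hw0, hwsum, fun s => summable_of_sum_le (hw0 s) (hwsum s), fun s b hb => ?_⟩
  have hb' : D.ty b.1 b.2 = m := by
    by_contra h
    exact hb h
  have h1 : D.dm m b ≠ ⊤ := by
    unfold dm
    rw [if_pos hb']
    exact ENat.natCast_ne_top _
  exact tendsto_nhds_unique (hlim s b) ((ms_null m b h1 (z s) (hz s)).mono_left hyper_le_atTop)

/-- The sequence of nearly disjoint vectors. -/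
lemma exists_seq' (m : ℕ) (z : ℕ → ℕ → D.X)
    (hz : ∀ s (g : D.X →L[ℝ] ℝ), Tendsto (fun j => g (z s j)) atTop (𝓝 0))
    (w : ℕ → D.A × ℕ → ℝ)
    (hlim : ∀ s b, Tendsto (fun j => ms (z s j) m b) (hyperfilter ℕ) (𝓝 (w s b)))
    (hw0 : ∀ s b, 0 ≤ w s b)
    (q : ℕ → ℕ) (G₀ : Finset (D.A × ℕ)) (δ : ℝ) (hδ : 0 < δ)
    (hS : ∀ n, Summable fun b => if b ∈ G₀ then 0 else w (q n) b)
    (hT : ∀ n, ∑' b, (if b ∈ G₀ then 0 else w (q n) b) ≤ δ / 8) :
    ∃ (J : ℕ → ℕ) (u : ℕ → D.X) (ρ e : ℕ → D.A × ℕ → ℝ), Function.Injective J ∧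
      (∀ n n', n ≠ n' → Orth (u n) (u n')) ∧ (∀ n, ‖u n - z (q n) (J n)‖ ≤ δ) ∧
      (∀ n b, 0 ≤ ρ n b) ∧ (∀ n b, 0 ≤ e n b) ∧ (∀ n, Summable (e n)) ∧
      (∀ n, ∑' b, e n b ≤ 3 * (δ / 8)) ∧ (∀ n b, ms (u n) m b ≤ w (q n) b + ρ n b + e n b) ∧
      (∀ n b, w (q n) b ≤ ms (u n) m b + e n b) ∧ (∀ n b, ρ n b ≤ ms (u n) m b) ∧
      (∀ n n', n ≠ n' → ∀ b, ρ n b ≠ 0 → ρ n' b = 0) := by
  obtain ⟨δ₁, hδ₁, hδ₂, hδ₃⟩ : ∃ δ₁ : ℝ, 0 < δ₁ ∧ 2 * δ₁ ≤ δ ∧ (2 * δ₁) ^ 2 ≤ δ / 8 := by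
    refine ⟨min 1 (δ / 32), by positivity, ?_, ?_⟩
    · have := min_le_right 1 (δ / 32)
      linarith
    · have a1 := min_le_right 1 (δ / 32)
      have a2 := min_le_left 1 (δ / 32)
      have a3 : 0 < min 1 (δ / 32) := by positivity
      nlinarith
  obtain ⟨J, F, hJ, hF0, hFm, hc1, hc2, hc3⟩ := exists_seq m z hz w hlim q
    (G₀.image fun b => Sum.inr (m, b, 0)) (fun F => δ / (8 * ((slotsOf m F).card + 1)))
    (fun F => by positivity) δ₁ hδ₁
  have hG₀F : ∀ n, G₀ ⊆ slotsOf m (F n) := by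
    intro n b hb
    refine slotsOf_mono (hFm (Nat.zero_le n)) ?_
    rw [hF0]
    exact mem_slotsOf.2 ⟨0, mem_image.2 ⟨b, hb, rfl⟩⟩
  obtain ⟨zz, hzz⟩ : ∃ zz : ℕ → D.X, ∀ n, zz n = z (q n) (J n) := ⟨_, fun n => rfl⟩
  obtain ⟨uu, huu⟩ : ∃ uu : ℕ → D.X, ∀ n,
      uu n = cut ((F (n + 1) : Set (Cd D)) \ (F n : Set (Cd D))) (zz n) := ⟨_, fun n => rfl⟩
  have hFs : ∀ n, (F n : Set (Cd D)) ⊆ (F (n + 1) : Set (Cd D)) := fun n =>
    coe_subset.2 (hFm (Nat.le_succ n))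
  have huz : ∀ n, ‖zz n - uu n‖ ≤ 2 * δ₁ := by
    intro n
    have e1 : zz n - uu n = (zz n - cut (F (n + 1) : Set (Cd D)) (zz n)) +
        cut (F n : Set (Cd D)) (zz n) := by
      rw [huu, ← cut_union_sub _ _ (hFs n)]
      abel
    rw [e1]
    refine (norm_add_le _ _).trans ?_
    have a1 := hc1 n
    have a2 := hc2 n
    rw [← hzz] at a1 a2
    linarith
  have hsplit : ∀ n b, ms (zz n) m b = ms (uu n) m b + ms (zz n - uu n) m b := fun n b => by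
    rw [huu]
    exact ms_cut_split _ _ m b
  have hzero : ∀ n b, b ∉ slotsOf m (F (n + 1)) → ms (uu n) m b = 0 := by
    intro n b hb
    rw [huu]
    apply ms_cut_eq_zero
    rintro l ⟨hl, _⟩
    exact hb (mem_slotsOf.2 ⟨l, hl⟩)
  have hdisj : ∀ n n', n < n' → Disjoint ((F (n + 1) : Set (Cd D)) \ (F n : Set (Cd D)))
      ((F (n' + 1) : Set (Cd D)) \ (F n' : Set (Cd D))) := by
    intro n n' h
    rw [Set.disjoint_left]
    rintro c ⟨hc, _⟩ ⟨_, hc'⟩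
    exact hc' (hFm (Nat.succ_le_of_lt h) hc)
  have horth : ∀ n n', n ≠ n' → Orth (uu n) (uu n') := by
    intro n n' h
    rw [huu, huu]
    rcases lt_or_gt_of_ne h with h' | h'
    · exact orth_cut _ _ (hdisj n n' h') _ _
    · exact orth_cut _ _ (hdisj n' n h').symm _ _
  obtain ⟨ρ, hρ⟩ : ∃ ρ : ℕ → D.A × ℕ → ℝ, ∀ n b,
      ρ n b = if b ∈ slotsOf m (F n) then 0 else ms (uu n) m b := ⟨_, fun n b => rfl⟩
  have hρdisj : ∀ n n', n ≠ n' → ∀ b, ρ n b ≠ 0 → ρ n' b = 0 := by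
    intro n n' h b hb
    rw [hρ] at hb
    have hb1 : b ∉ slotsOf m (F n) := fun hc => hb (if_pos hc)
    rw [if_neg hb1] at hb
    have hb3 : b ∈ slotsOf m (F (n + 1)) := by
      by_contra hc
      exact hb (hzero n b hc)
    rw [hρ]
    rcases lt_or_gt_of_ne h with h' | h'
    · exact if_pos (slotsOf_mono (hFm (Nat.succ_le_of_lt h')) hb3)
    · have hb4 : b ∉ slotsOf m (F (n' + 1)) := fun hc =>
        hb1 (slotsOf_mono (hFm (Nat.succ_le_of_lt h')) hc)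
      rw [hzero n' b hb4]
      split_ifs <;> rfl
  have herr : ∀ n, ∃ e : D.A × ℕ → ℝ, (∀ b, 0 ≤ e b) ∧ Summable e ∧ ∑' b, e b ≤ 3 * (δ / 8) ∧
      (∀ b ∈ slotsOf m (F n), ms (uu n) m b ≤ w (q n) b + e b) ∧
      ∀ b, w (q n) b ≤ ms (uu n) m b + e b := by
    intro n
    refine exists_err m (uu n) (zz n) (hsplit n) (w (q n)) (hw0 _) G₀ (slotsOf m (F n)) (hG₀F n)
      δ (δ / (8 * ((slotsOf m (F n)).card + 1))) (by positivity) ?_
      ((pow_le_pow_left₀ (norm_nonneg _) (huz n) 2).trans hδ₃) (hS n) (hT n) ?_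
    · rw [mul_div_assoc', div_le_div_iff₀ (by positivity) (by norm_num)]
      nlinarith
    · rw [hzz]
      exact hc3 n
  choose e he0 heS heT he1 he2 using herr
  refine ⟨J, uu, ρ, e, hJ, horth, ?_, ?_, he0, heS, heT, ?_, he2, ?_, hρdisj⟩
  · intro n
    rw [norm_sub_rev, ← hzz]
    exact (huz n).trans hδ₂
  · intro n b
    rw [hρ]
    split_ifs
    · exact le_rfl
    · exact ms_nonneg _ _ _
  · intro n b
    rw [hρ]
    by_cases hb : b ∈ slotsOf m (F n)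
    · rw [if_pos hb, add_zero]
      exact he1 n b hb
    · rw [if_neg hb]
      have := he0 n b
      have := hw0 (q n) b
      linarith
  · intro n b
    rw [hρ]
    split_ifs
    · exact ms_nonneg _ _ _
    · exact le_rfl

theorem config {D : Dat} (m : ℕ) (hfin : ∀ a, {s | D.ty a s ≠ m}.Finite) (z : ℕ → ℕ → D.X)
    (Z : ℝ) (hZ : ∀ s j, ‖z s j‖ ≤ Z)
    (hz : ∀ s (g : D.X →L[ℝ] ℝ), Tendsto (fun j => g (z s j)) atTop (𝓝 0))
    (K L : ℕ) (δ : ℝ) (hδ : 0 < δ) :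
    ∃ (s : Fin K → ℕ) (j : Fin K → Fin L → ℕ) (u : Fin K → Fin L → D.X)
      (winf : D.A × ℕ → ℝ) (r : Fin K → D.A × ℕ → ℝ) (ρ e : Fin K → Fin L → D.A × ℕ → ℝ),
      Function.Injective s ∧ (∀ t, Function.Injective (j t)) ∧
      (∀ t i t' i', (t, i) ≠ (t', i') → Orth (u t i) (u t' i')) ∧
      (∀ t i, ‖u t i - z (s t) (j t i)‖ ≤ δ) ∧
      (∀ b, 0 ≤ winf b) ∧ Summable winf ∧ (∀ t b, 0 ≤ r t b) ∧ (∀ t, Summable (r t)) ∧
      (∀ t i b, 0 ≤ ρ t i b) ∧ (∀ t i b, 0 ≤ e t i b) ∧ (∀ t i, Summable (e t i)) ∧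
      (∀ t i, ∑' b, e t i b ≤ δ) ∧
      (∀ t i b, ms (u t i) m b ≤ winf b + r t b + ρ t i b + e t i b) ∧
      (∀ t i b, winf b ≤ ms (u t i) m b + e t i b) ∧
      (∀ t i b, r t b ≤ ms (u t i) m b + e t i b) ∧
      (∀ t i b, ρ t i b ≤ ms (u t i) m b) ∧
      (∀ t t', t ≠ t' → ∀ b b', r t b ≠ 0 → r t' b' ≠ 0 → b.1 ≠ b'.1) ∧
      (∀ t i i', i ≠ i' → ∀ b, ρ t i b ≠ 0 → ρ t i' b = 0) := by
  obtain ⟨w, hlim, hw0, hwsum, hwS, hact⟩ := exists_lim m z Z hZ hz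
  obtain ⟨winf, s, r, e₀, hs, hwi0, hwiS, hr0, hrw, he0, heS, heδ, h1, h2, h3⟩ :=
    select {b : D.A × ℕ | D.ty b.1 b.2 ≠ m} hfin w hw0 hact (Z ^ 2) hwsum K (δ / 4)
      (by positivity)
  -- requests
  obtain ⟨nn, hnn⟩ : ∃ nn : Fin K → Fin L → ℕ, ∀ t i,
      nn t i = ((finProdFinEquiv (t, i) : Fin (K * L)) : ℕ) := ⟨_, fun t i => rfl⟩
  have hinj : ∀ t i t' i', nn t i = nn t' i' → (t, i) = (t', i') := by
    intro t i t' i' h
    rw [hnn, hnn] at h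
    exact finProdFinEquiv.injective (Fin.ext h)
  rcases Nat.eq_zero_or_pos K with hK | hK
  · subst hK
    exact ⟨s, fun t => t.elim0, fun t => t.elim0, winf, r, fun t => t.elim0, fun t => t.elim0,
      hs, fun t => t.elim0, fun t => t.elim0, fun t => t.elim0, hwi0, hwiS, hr0,
      fun t => t.elim0, fun t => t.elim0, fun t => t.elim0, fun t => t.elim0, fun t => t.elim0,
      fun t => t.elim0, fun t => t.elim0, fun t => t.elim0, fun t => t.elim0,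
      fun t => t.elim0, fun t => t.elim0⟩
  obtain ⟨tt, htt⟩ : ∃ tt : ℕ → Fin K, ∀ t i, tt (nn t i) = t := by
    refine ⟨fun n => if h : n < K * L then (finProdFinEquiv.symm ⟨n, h⟩).1 else ⟨0, hK⟩,
      fun t i => ?_⟩
    have h4 : nn t i < K * L := by
      rw [hnn]
      exact (finProdFinEquiv (t, i)).2
    have h5 : (⟨nn t i, h4⟩ : Fin (K * L)) = finProdFinEquiv (t, i) := Fin.ext (hnn t i)
    simp only
    rw [dif_pos h4, h5, Equiv.symm_apply_apply]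
  obtain ⟨G₀, hG₀⟩ : ∃ G₀ : Finset (D.A × ℕ), ∀ t : Fin K,
      Summable (fun b => if b ∈ G₀ then 0 else w (s t) b) ∧
      ∑' b, (if b ∈ G₀ then 0 else w (s t) b) ≤ δ / 8 := by
    exact exists_tail_fin (fun t => w (s t)) (fun t => hwS (s t)) (δ / 8) (by positivity)
  obtain ⟨J, u, ρ, e, hJ, horth, huz, hρ0, he'0, heS', heT, b1, b2, b3, b4⟩ :=
    exists_seq' m z hz w hlim hw0 (fun n => s (tt n)) G₀ δ hδ (fun n => (hG₀ (tt n)).1)
      (fun n => (hG₀ (tt n)).2)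
  refine ⟨s, fun t i => J (nn t i), fun t i => u (nn t i), winf, r, fun t i => ρ (nn t i),
    fun t i b => e₀ t b + e (nn t i) b, hs, ?_, ?_, ?_, hwi0, hwiS, hr0, ?_, ?_, ?_, ?_, ?_, ?_,
    ?_, ?_, ?_, h3, ?_⟩
  · intro t i i' h
    exact (Prod.mk.inj (hinj t i t i' (hJ h))).2
  · intro t i t' i' h
    exact horth _ _ fun hc => h (hinj t i t' i' hc)
  · intro t i
    have h4 := huz (nn t i)
    simp only [htt] at h4
    exact h4
  · intro t
    exact Summable.of_nonneg_of_le (hr0 t) (hrw t) (hwS (s t))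
  · intro t i b
    exact hρ0 _ _
  · intro t i b
    exact add_nonneg (he0 t b) (he'0 _ _)
  · intro t i
    exact (heS t).add (heS' _)
  · intro t i
    rw [(heS t).tsum_add (heS' _)]
    have a1 := heδ t
    have a2 := heT (nn t i)
    linarith
  · intro t i b
    have a1 := b1 (nn t i) b
    have a2 := h1 t b
    simp only [htt] at a1
    linarith
  · intro t i b
    have a1 := b2 (nn t i) b
    have a2 := h2 t b
    simp only [htt] at a1
    linarith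
  · intro t i b
    have a1 := b2 (nn t i) b
    have a2 := hrw t b
    have a3 := he0 t b
    simp only [htt] at a1
    linarith
  · intro t i b
    exact b3 _ _
  · intro t i i' h b hb
    exact b4 _ _ (fun hc => h (Prod.mk.inj (hinj t i t i' hc)).2) b hb

end Dat

end

end Pool.Agent.Lib.MP_4e4c79_lc.Cc
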