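import Mathlib
import Pool.Agent.Lib.MP_4e4c79_lc.Cc.LDef
import Pool.Agent.Lib.MP_4e4c79_lc.Cc.NF2

/-!
# Module LB4.  The functional `Gam`.

`‖x‖² = ‖x.snd‖² + ∑' k, (‖RN.to (x.fst k)‖² + DD k ^ 2 * NF Prod.fst (pp k) (ms x k))` (`Dat.X_norm_sq`, `tsum_sq`, `RN.norm_sq`), so
`Gam m x = ‖x.snd‖² + ∑' k, (‖RN.to (x.fst k)‖² + [k ≠ m] DD k ^ 2 * NF … (ms x k))`; the series of the terms of each kind
are summable.  `gam_ge`, `gam_nonneg`: drop terms (`‖RN.to (x.fst m)‖² = ∑' b, ms x m b`).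
`ms_orth`: for pairwise orthogonal `u t`: `‖∑ u t‖² = ∑ ‖u t‖²` in every slot (expand the inner product).
`gam_sub`: `ms (∑ u t) = ∑ ms (u t)` and `NF_finsum_le`.  `snd`: `‖∑ (u t).snd‖² = ∑ ‖(u t).snd‖²`.
`gam_super`: compare kind by kind with the factor `cc m = 1 + DD (m-1)^2 ≥ 2`: points and `‖·‖₂` parts are additive; `k < m`:
`‖·‖₂² + DD k ^ 2 NF (ms (u t) k) ≤ (1 + DD k ^ 2) ‖RN.to ((u t).fst k)‖²`, and `DD k ≤ DD (m-1)`;
`k > m`: `NF_sum_le` with `c = √2`: `card T ≤ K2 m ^ 2` and `(c ^ pp k)² = 2 ^ pp k ≥ 2 ^ (4 * 3 ^ m * pp m) = (K2 m ^ 2)²` (`pp_gap`), so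
`∑ NF (ms (u t) k) ≤ 2 NF (∑ ms (u t) k)`.
`gam_smul`: `ms (c • x) = c² ms x`, `NF_smul`.
-/

namespace Pool.Agent.Lib.MP_4e4c79_lc.Cc

open Pool.Agent.Lib.MP_4e4c79_lc Complete Finset
open scoped ENNReal
attribute [local instance] Classical.propDecidable
set_option linter.unusedSectionVars false

noncomputable section

/-- Pythagoras for finite families. -/
theorem lb4_pyth {H ι : Type*} [NormedAddCommGroup H] [InnerProductSpace ℝ H] (T : Finset ι)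
    (v : ι → H) (h : ∀ t ∈ T, ∀ t' ∈ T, t ≠ t' → inner ℝ (v t) (v t') = 0) :
    ‖∑ t ∈ T, v t‖ ^ 2 = ∑ t ∈ T, ‖v t‖ ^ 2 := by
  induction T using Finset.induction_on with
  | empty => simp
  | insert a T ha ih =>
    rw [Finset.sum_insert ha, Finset.sum_insert ha, norm_add_sq_real,
      ih fun t ht t' ht' => h t (Finset.mem_insert_of_mem ht) t' (Finset.mem_insert_of_mem ht'),
      inner_sum, Finset.sum_eq_zero]
    · ring
    · intro t ht
      exact h a (Finset.mem_insert_self a T) t (Finset.mem_insert_of_mem ht)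
        fun h => ha (h ▸ ht)

namespace Dat

variable {D : Dat}

theorem kc_sum {ι : Type} (T : Finset ι) (u : ι → D.X) (m : ℕ) (b : D.A × ℕ) :
    kc (∑ t ∈ T, u t) m b = ∑ t ∈ T, kc (u t) m b := by
  induction T using Finset.induction_on with
  | empty => rfl
  | insert a T ha ih => rw [Finset.sum_insert ha, Finset.sum_insert ha, kc_add, ih]

theorem snd_sum {ι : Type} (T : Finset ι) (u : ι → D.X) (z : D.Pt) :
    (∑ t ∈ T, u t).snd z = ∑ t ∈ T, (u t).snd z := by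
  induction T using Finset.induction_on with
  | empty => rfl
  | insert a T ha ih => rw [Finset.sum_insert ha, Finset.sum_insert ha, snd_add, ih]

/-- The part of kind `k` of `Gam m`. -/
def gk (m k : ℕ) (x : D.X) : ℝ :=
  ‖RN.to (x.fst k)‖ ^ 2 + if k = m then 0 else DD k ^ 2 * NF Prod.fst (pp k) (ms x k)

theorem nf_nonneg (k : ℕ) (x : D.X) :
    0 ≤ NF (Prod.fst : D.A × ℕ → D.A) (pp k) (ms x k) :=
  NF_nonneg (NeZero.ne _) (ms_nonneg x k) (ms_summable x k)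

theorem gk_nonneg (m k : ℕ) (x : D.X) : 0 ≤ gk m k x := by
  unfold gk
  have h := nf_nonneg k x
  split_ifs <;> positivity

theorem gk_self (m : ℕ) (x : D.X) : gk m m x = ‖RN.to (x.fst m)‖ ^ 2 := by
  unfold gk
  rw [if_pos rfl, add_zero]

theorem gk_ne {m k : ℕ} (h : k ≠ m) (x : D.X) : gk m k x = ‖x.fst k‖ ^ 2 := by
  unfold gk
  rw [if_neg h, RN.norm_sq, ms_eq_sqf]

theorem tsum_ms (m : ℕ) (x : D.X) : ∑' b, ms x m b = ‖RN.to (x.fst m)‖ ^ 2 := tsum_sqf _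

theorem hasSum_gk (m : ℕ) (x : D.X) : HasSum (fun k => gk m k x) (Gam m x - ‖x.snd‖ ^ 2) := by
  have h1 := hasSum_sq x.fst
  have h2 : HasSum (fun k => if k = m then DD m ^ 2 * NF Prod.fst (pp m) (ms x m) else 0)
      (DD m ^ 2 * NF Prod.fst (pp m) (ms x m)) := hasSum_ite_eq m _
  have h3 := h1.sub h2
  have h4 : Gam m x - ‖x.snd‖ ^ 2 =
      ‖x.fst‖ ^ 2 - DD m ^ 2 * NF Prod.fst (pp m) (ms x m) := by
    unfold Gam
    rw [X_norm_sq]
    ring
  rw [h4]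
  refine h3.congr_fun ?_
  intro k
  by_cases hk : k = m
  · subst hk
    rw [gk_self, if_pos rfl, RN.norm_sq, ms_eq_sqf]
    ring
  · rw [gk_ne hk, if_neg hk, sub_zero]

theorem gam_eq (m : ℕ) (x : D.X) : Gam m x = ‖x.snd‖ ^ 2 + ∑' k, gk m k x := by
  rw [(hasSum_gk m x).tsum_eq]
  ring

theorem gam_ge (m : ℕ) (x : D.X) : ∑' b, ms x m b ≤ Gam m x := by
  rw [tsum_ms, gam_eq, ← gk_self]
  have h := (hasSum_gk m x).summable.le_tsum m fun k _ => gk_nonneg m k x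
  have := sq_nonneg ‖x.snd‖
  linarith

theorem gam_nonneg (m : ℕ) (x : D.X) : 0 ≤ Gam m x :=
  (tsum_nonneg fun b => ms_nonneg x m b).trans (gam_ge m x)

theorem ms_smul (m : ℕ) (c : ℝ) (x : D.X) (b : D.A × ℕ) : ms (c • x) m b = c ^ 2 * ms x m b := by
  unfold ms
  rw [kc_smul, norm_smul, mul_pow, Real.norm_eq_abs, sq_abs]

theorem gam_smul (m : ℕ) (c : ℝ) (x : D.X) : Gam m (c • x) = c ^ 2 * Gam m x := by
  unfold Gam
  have h : ms (c • x) m = fun b => c ^ 2 * ms x m b := funext (ms_smul m c x)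
  rw [h, NF_smul (NeZero.ne _) (ms_nonneg x m) (ms_summable x m) (sq_nonneg c), norm_smul,
    mul_pow, Real.norm_eq_abs, sq_abs]
  ring

theorem ms_orth {ι : Type} (T : Finset ι) (u : ι → D.X)
    (h : ∀ t ∈ T, ∀ t' ∈ T, t ≠ t' → Orth (u t) (u t')) (m : ℕ) (b : D.A × ℕ) :
    ms (∑ t ∈ T, u t) m b = ∑ t ∈ T, ms (u t) m b := by
  unfold ms
  rw [kc_sum]
  exact lb4_pyth T _ fun t ht t' ht' hne => (h t ht t' ht' hne).1 m b

/-- Sums of orthogonal families over disjoint sets are orthogonal. -/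
theorem orth_sum {ι : Type} (T T' : Finset ι) (u : ι → D.X)
    (h : ∀ t ∈ T, ∀ t' ∈ T', Orth (u t) (u t')) : Orth (∑ t ∈ T, u t) (∑ t ∈ T', u t) := by
  refine ⟨fun m b => ?_, fun z => ?_⟩
  · rw [kc_sum, kc_sum, sum_inner]
    refine Finset.sum_eq_zero fun t ht => ?_
    rw [inner_sum]
    exact Finset.sum_eq_zero fun t' ht' => (h t ht t' ht').1 m b
  · rw [snd_sum, snd_sum, Finset.sum_mul_sum]
    exact Finset.sum_eq_zero fun t ht => Finset.sum_eq_zero fun t' ht' => (h t ht t' ht').2 z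

theorem to_orth {ι : Type} (T : Finset ι) (u : ι → D.X)
    (h : ∀ t ∈ T, ∀ t' ∈ T, t ≠ t' → Orth (u t) (u t')) (k : ℕ) :
    ‖RN.to ((∑ t ∈ T, u t).fst k)‖ ^ 2 = ∑ t ∈ T, ‖RN.to ((u t).fst k)‖ ^ 2 := by
  rw [← tsum_ms]
  have h1 : ∀ t ∈ T, ‖RN.to ((u t).fst k)‖ ^ 2 = ∑' b, ms (u t) k b := fun t _ =>
    (tsum_ms k (u t)).symm
  rw [Finset.sum_congr rfl h1, ← Summable.tsum_finsetSum fun t _ => ms_summable (u t) k]
  exact tsum_congr fun b => ms_orth T u h k b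

theorem snd_orth {ι : Type} (T : Finset ι) (u : ι → D.X)
    (h : ∀ t ∈ T, ∀ t' ∈ T, t ≠ t' → Orth (u t) (u t')) :
    ‖(∑ t ∈ T, u t).snd‖ ^ 2 = ∑ t ∈ T, ‖(u t).snd‖ ^ 2 := by
  rw [← tsum_sq]
  have h1 : ∀ t ∈ T, ‖(u t).snd‖ ^ 2 = ∑' z, ‖(u t).snd z‖ ^ 2 := fun t _ =>
    (tsum_sq (u t).snd).symm
  rw [Finset.sum_congr rfl h1, ← Summable.tsum_finsetSum fun t _ => summable_sq (u t).snd]
  refine tsum_congr fun z => ?_
  rw [snd_sum]
  refine lb4_pyth T (fun t => (u t).snd z) fun t ht t' ht' hne => ?_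
  have h2 := (h t ht t' ht' hne).2 z
  change (u t').snd z * (u t).snd z = 0
  rw [mul_comm]
  exact h2

theorem gk_sub {ι : Type} (T : Finset ι) (u : ι → D.X)
    (h : ∀ t ∈ T, ∀ t' ∈ T, t ≠ t' → Orth (u t) (u t')) (m k : ℕ) :
    gk m k (∑ t ∈ T, u t) ≤ ∑ t ∈ T, gk m k (u t) := by
  unfold gk
  rw [to_orth T u h k, Finset.sum_add_distrib]
  refine add_le_add le_rfl ?_
  split_ifs with hk
  · simp
  · rw [← Finset.mul_sum]
    refine mul_le_mul_of_nonneg_left ?_ (sq_nonneg _)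
    have h1 : ms (∑ t ∈ T, u t) k = fun b => ∑ t ∈ T, ms (u t) k b :=
      funext fun b => ms_orth T u h k b
    rw [h1]
    exact NF_finsum_le (NeZero.ne _) T (fun t => ms (u t) k) (fun t => ms_nonneg (u t) k)
      fun t => ms_summable (u t) k

theorem gam_sub {ι : Type} (T : Finset ι) (u : ι → D.X)
    (h : ∀ t ∈ T, ∀ t' ∈ T, t ≠ t' → Orth (u t) (u t')) (m : ℕ) :
    Gam m (∑ t ∈ T, u t) ≤ ∑ t ∈ T, Gam m (u t) := by
  rw [gam_eq, Finset.sum_congr rfl fun t _ => gam_eq m (u t), Finset.sum_add_distrib,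
    snd_orth T u h]
  refine add_le_add le_rfl ?_
  rw [← Summable.tsum_finsetSum fun t _ => (hasSum_gk m (u t)).summable]
  exact (hasSum_gk m _).summable.tsum_le_tsum (fun k => gk_sub T u h m k)
    (summable_sum fun t _ => (hasSum_gk m (u t)).summable)

theorem two_le_cc (m : ℕ) : 2 ≤ cc m := by
  unfold cc
  have := one_le_pow₀ (one_le_DD (m - 1)) (n := 2)
  linarith

theorem card_le_sqrt {m k : ℕ} (h : m < k) {n : ℕ} (hn : n ≤ K2 m ^ 2) :
    (n : ℝ) ≤ √2 ^ pp k := by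
  have h1 : ((K2 m ^ 2 : ℕ) : ℝ) = √2 ^ (4 * 3 ^ m * pp m) := by
    have h2 : 4 * 3 ^ m * pp m = 2 * (3 ^ m * pp m * 2) := by ring
    rw [h2, pow_mul, Real.sq_sqrt (by norm_num)]
    unfold K2
    push_cast
    rw [← pow_mul]
  have h3 : (n : ℝ) ≤ ((K2 m ^ 2 : ℕ) : ℝ) := by exact_mod_cast hn
  rw [h1] at h3
  refine h3.trans (pow_le_pow_right₀ ?_ (pp_gap h))
  rw [Real.one_le_sqrt]
  norm_num

theorem gk_super {ι : Type} (T : Finset ι) (u : ι → D.X)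
    (h : ∀ t ∈ T, ∀ t' ∈ T, t ≠ t' → Orth (u t) (u t')) (m k : ℕ) (hcard : T.card ≤ K2 m ^ 2) :
    ∑ t ∈ T, gk m k (u t) ≤ cc m * gk m k (∑ t ∈ T, u t) := by
  have hcc := two_le_cc m
  rcases lt_trichotomy k m with hk | hk | hk
  · have h1 : ∀ t ∈ T, gk m k (u t) ≤ (1 + DD k ^ 2) * ‖RN.to ((u t).fst k)‖ ^ 2 := by
      intro t _
      rw [gk_ne hk.ne]
      exact RN.norm_sq_le _
    refine (Finset.sum_le_sum h1).trans ?_
    rw [← Finset.mul_sum, ← to_orth T u h k]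
    have h2 : 1 + DD k ^ 2 ≤ cc m := by
      unfold cc
      have := pow_le_pow_left₀ (DD_pos k).le (DD_mono (Nat.le_sub_one_of_lt hk)) 2
      linarith
    have h3 : ‖RN.to ((∑ t ∈ T, u t).fst k)‖ ^ 2 ≤ gk m k (∑ t ∈ T, u t) := by
      rw [gk_ne hk.ne]
      exact pow_le_pow_left₀ (norm_nonneg _) (RN.to_norm_le _) 2
    exact mul_le_mul h2 h3 (by positivity) (by linarith)
  · subst hk
    rw [Finset.sum_congr rfl fun t _ => gk_self k (u t), gk_self, ← to_orth T u h k]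
    have := sq_nonneg ‖RN.to ((∑ t ∈ T, u t).fst k)‖
    nlinarith
  · have h1 : ms (∑ t ∈ T, u t) k = fun b => ∑ t ∈ T, ms (u t) k b :=
      funext fun b => ms_orth T u h k b
    have h2 := NF_sum_le (π := (Prod.fst : D.A × ℕ → D.A)) (NeZero.ne (pp k)) T
      (fun t => ms (u t) k) (fun t => ms_nonneg (u t) k) (fun t => ms_summable (u t) k)
      (Real.sqrt_nonneg 2) (card_le_sqrt hk hcard)
    rw [Real.sq_sqrt (by norm_num), ← h1] at h2
    have h3 : ∑ t ∈ T, gk m k (u t) ≤ 2 * gk m k (∑ t ∈ T, u t) := by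
      unfold gk
      rw [Finset.sum_add_distrib, to_orth T u h k]
      simp only [if_neg hk.ne']
      rw [← Finset.mul_sum]
      have h4 : 0 ≤ ∑ t ∈ T, ‖RN.to ((u t).fst k)‖ ^ 2 := by positivity
      have h5 := mul_le_mul_of_nonneg_left h2 (sq_nonneg (DD k))
      linarith
    exact h3.trans (mul_le_mul_of_nonneg_right hcc (gk_nonneg _ _ _))

theorem gam_super {ι : Type} (T : Finset ι) (u : ι → D.X)
    (h : ∀ t ∈ T, ∀ t' ∈ T, t ≠ t' → Orth (u t) (u t')) (m : ℕ) (hcard : T.card ≤ K2 m ^ 2) :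
    ∑ t ∈ T, Gam m (u t) ≤ cc m * Gam m (∑ t ∈ T, u t) := by
  rw [gam_eq, Finset.sum_congr rfl fun t _ => gam_eq m (u t), Finset.sum_add_distrib,
    ← snd_orth T u h, mul_add]
  have hcc := two_le_cc m
  refine add_le_add ?_ ?_
  · have := sq_nonneg ‖(∑ t ∈ T, u t).snd‖
    nlinarith
  · rw [← Summable.tsum_finsetSum fun t _ => (hasSum_gk m (u t)).summable, ← tsum_mul_left]
    exact (summable_sum fun t _ => (hasSum_gk m (u t)).summable).tsum_le_tsum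
      (fun k => gk_super T u h m k hcard) ((hasSum_gk m _).summable.mul_left _)

end Dat

end

end Pool.Agent.Lib.MP_4e4c79_lc.Cc
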