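import Mathlib
import Pool.Agent.Lib.MP_4e4c79_lc.Cc.LB3
import Pool.Agent.Lib.MP_4e4c79_lc.Cc.LB4
import Pool.Agent.Lib.MP_4e4c79_lc.Cc.NF3

/-!
# Module LB5.  The main estimate.
-/

namespace Pool.Agent.Lib.MP_4e4c79_lc.Cc

open Pool.Agent.Lib.MP_4e4c79_lc Complete Finset Filter
open scoped ENNReal Topology
attribute [local instance] Classical.propDecidable
set_option linter.unusedSectionVars false

noncomputable section

/-- `NF` of a function dominated by four terms. -/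
lemma NF_le4 {A B : Type} {π : B → A} {p : ℕ} (hp : p ≠ 0) {f w r ρ e : B → ℝ} {x y : ℝ}
    (hx : 0 ≤ x) (hy : 0 ≤ y) (hf : ∀ b, 0 ≤ f b) (hw : ∀ b, 0 ≤ w b) (hr : ∀ b, 0 ≤ r b)
    (hρ : ∀ b, 0 ≤ ρ b) (he : ∀ b, 0 ≤ e b) (sw : Summable w) (sr : Summable r)
    (sρ : Summable ρ) (se : Summable e) (h : ∀ b, f b ≤ x * w b + y * r b + ρ b + e b) :
    NF π p f ≤ x * NF π p w + y * NF π p r + NF π p ρ + ∑' b, e b := by
  have hw' : ∀ b, 0 ≤ x * w b := fun b => mul_nonneg hx (hw b)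
  have hr' : ∀ b, 0 ≤ y * r b := fun b => mul_nonneg hy (hr b)
  have sw' : Summable fun b => x * w b := sw.mul_left x
  have sr' : Summable fun b => y * r b := sr.mul_left y
  have h1 := NF_mono (π := π) hp hf (((sw'.add sr').add sρ).add se) h
  have h2 := NF_add_le (π := π) hp (fun b => add_nonneg (add_nonneg (hw' b) (hr' b)) (hρ b)) he
    ((sw'.add sr').add sρ) se
  have h3 := NF_add_le (π := π) hp (fun b => add_nonneg (hw' b) (hr' b)) hρ (sw'.add sr') sρ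
  have h4 := NF_add_le (π := π) hp hw' hr' sw' sr'
  have h5 := NF_smul (π := π) hp hw sw hx
  have h6 := NF_smul (π := π) hp hr sr hy
  have h7 := NF_le_tsum (π := π) hp he se
  linarith

lemma markov {κ : ℕ} (hκ : 2 ≤ κ) (g : Fin (κ ^ 2) → ℝ) (hg : ∀ t, 0 ≤ g t) {S : ℝ} (hS : 0 < S)
    (h : ∑ t, g t ≤ S) :
    ∃ Θ : Finset (Fin (κ ^ 2)), Θ.card = κ ∧ ∀ t ∈ Θ, g t ≤ 2 * S / κ ^ 2 := by
  set T₀ : Finset (Fin (κ ^ 2)) := univ.filter fun t => g t ≤ 2 * S / κ ^ 2 with hT₀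
  have hκ0 : (0 : ℝ) < κ := by
    have : 0 < κ := by omega
    exact_mod_cast this
  have h1 : ((T₀ᶜ.card : ℕ) : ℝ) * (2 * S / κ ^ 2) ≤ S := by
    have h2 : ∑ t ∈ T₀ᶜ, (2 * S / κ ^ 2) ≤ ∑ t ∈ T₀ᶜ, g t := by
      refine sum_le_sum fun t ht => ?_
      rw [mem_compl, hT₀, mem_filter, not_and] at ht
      exact (not_le.1 (ht (mem_univ t))).le
    rw [sum_const, nsmul_eq_mul] at h2
    have h3 : ∑ t ∈ T₀ᶜ, g t ≤ ∑ t, g t :=
      sum_le_sum_of_subset_of_nonneg (subset_univ _) fun t _ _ => hg t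
    linarith
  have h2 : ((T₀ᶜ.card : ℕ) : ℝ) ≤ κ ^ 2 / 2 := by
    rw [mul_div_assoc', div_le_iff₀ (by positivity)] at h1
    have h4 : ((T₀ᶜ.card : ℕ) : ℝ) * 2 * S ≤ κ ^ 2 * S := by linarith
    have h5 := le_of_mul_le_mul_right h4 hS
    linarith
  have h3 : (T₀.card : ℝ) + (T₀ᶜ.card : ℝ) = κ ^ 2 := by
    have := card_add_card_compl T₀
    rw [Fintype.card_fin] at this
    exact_mod_cast this
  have h4 : κ ≤ T₀.card := by
    have h5 : (κ : ℝ) ≤ T₀.card := by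
      have h6 : (2 : ℝ) ≤ κ := by exact_mod_cast hκ
      nlinarith
    exact_mod_cast h5
  obtain ⟨Θ, hΘ1, hΘ2⟩ := exists_subset_card_eq h4
  refine ⟨Θ, hΘ2, fun t ht => ?_⟩
  have := hΘ1 ht
  rw [hT₀, mem_filter] at this
  exact this.2

namespace Dat

variable {D : Dat}

lemma norm_sq_eq (m : ℕ) (x : D.X) :
    ‖x‖ ^ 2 = Gam m x + DD m ^ 2 * NF Prod.fst (pp m) (ms x m) := by
  unfold Gam
  ring

lemma NF_ms_nonneg (m : ℕ) (x : D.X) :
    0 ≤ NF (Prod.fst : D.A × ℕ → D.A) (pp m) (ms x m) :=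
  NF_nonneg (NeZero.ne (pp m)) (ms_nonneg x m) (ms_summable x m)

lemma tsum_finset {ι β : Type} (T : Finset ι) (f : ι → β → ℝ) (hs : ∀ t ∈ T, Summable (f t)) :
    ∑' b, ∑ t ∈ T, f t b = ∑ t ∈ T, ∑' b, f t b := Summable.tsum_finsetSum hs

/-- The estimate for given vectors. -/
lemma core {m κ L : ℕ} (hκ : κ = K2 m) (hL : 0 < L) {u : Fin (κ ^ 2) → Fin L → D.X}
    {winf : D.A × ℕ → ℝ} {r : Fin (κ ^ 2) → D.A × ℕ → ℝ}
    {ρ e : Fin (κ ^ 2) → Fin L → D.A × ℕ → ℝ} {δ c Zu Bd : ℝ}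
    (hδ : 0 < δ)
    (horth : ∀ t i t' i', (t, i) ≠ (t', i') → Orth (u t i) (u t' i'))
    (hwi0 : ∀ b, 0 ≤ winf b) (hwiS : Summable winf) (hr0 : ∀ t b, 0 ≤ r t b)
    (hrS : ∀ t, Summable (r t)) (hρ0 : ∀ t i b, 0 ≤ ρ t i b) (he0 : ∀ t i b, 0 ≤ e t i b)
    (heS : ∀ t i, Summable (e t i)) (heT : ∀ t i, ∑' b, e t i b ≤ δ)
    (h1 : ∀ t i b, ms (u t i) m b ≤ winf b + r t b + ρ t i b + e t i b)
    (h2 : ∀ t i b, winf b ≤ ms (u t i) m b + e t i b)
    (h3 : ∀ t i b, r t b ≤ ms (u t i) m b + e t i b)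
    (h4 : ∀ t i b, ρ t i b ≤ ms (u t i) m b)
    (h5 : ∀ t t', t ≠ t' → ∀ b b', r t b ≠ 0 → r t' b' ≠ 0 → b.1 ≠ b'.1)
    (h6 : ∀ t i i', i ≠ i' → ∀ b, ρ t i b ≠ 0 → ρ t i' b = 0)
    (hu : ∀ t i, ‖u t i‖ ≤ Zu) (hc : 0 < c) (hcL : c ^ pp m ≤ L) (hB0 : 0 < Bd)
    (hV : ‖∑ t, ∑ i, u t i‖ ^ 2 ≤ Bd) :
    ∃ Θ : Finset (Fin (κ ^ 2)), Θ.card = κ ∧ ‖∑ t ∈ Θ, ∑ i, u t i‖ ^ 2 ≤
      (4 * cc m + 1) * (Bd / κ) + κ * L * (DD m ^ 2 * Zu ^ 2 / c + δ + 2 * DD m ^ 2 * δ) := by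
  have hp : pp m ≠ 0 := NeZero.ne (pp m)
  have hκ4 : 4 ≤ κ := hκ ▸ four_le_K2 m
  have hκ0 : (0 : ℝ) < κ := by
    have : 0 < κ := by omega
    exact_mod_cast this
  have hL0 : (0 : ℝ) < L := by exact_mod_cast hL
  have hD0 := DD_pos m
  have hcc0 : 0 ≤ cc m := by
    unfold cc
    positivity
  obtain ⟨X, hX⟩ : ∃ X : Fin (κ ^ 2) → D.X, ∀ t, X t = ∑ i, u t i := ⟨_, fun t => rfl⟩
  have hXo : ∀ t t', t ≠ t' → Orth (X t) (X t') := by
    intro t t' h
    have h7 := orth_sum (univ : Finset (Fin L)) univ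
      (fun i : Fin L => u t i)
    rw [hX, hX]
    -- orthogonality of sums over different families
    have h8 := orth_sum (univ.image fun i : Fin L => (t, i)) (univ.image fun i : Fin L => (t', i))
      (fun q : Fin (κ ^ 2) × Fin L => u q.1 q.2) (by
        intro q hq q' hq'
        rw [mem_image] at hq hq'
        obtain ⟨i, _, rfl⟩ := hq
        obtain ⟨i', _, rfl⟩ := hq'
        exact horth t i t' i' fun hc => h (Prod.mk.inj hc).1)
    rw [sum_image (fun i _ i' _ h => (Prod.mk.inj h).2),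
      sum_image (fun i _ i' _ h => (Prod.mk.inj h).2)] at h8
    exact h8
  have hmsX : ∀ t b, ms (X t) m b = ∑ i, ms (u t i) m b := by
    intro t b
    rw [hX]
    exact ms_orth _ _ (fun i _ i' _ h => horth t i t i' fun hc => h (Prod.mk.inj hc).2) m b
  have hmsS : ∀ (T : Finset (Fin (κ ^ 2))) b,
      ms (∑ t ∈ T, X t) m b = ∑ t ∈ T, ∑ i, ms (u t i) m b := by
    intro T b
    rw [ms_orth T X (fun t _ t' _ h => hXo t t' h)]
    exact sum_congr rfl fun t _ => hmsX t b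
  simp only [← hX] at hV ⊢
  set V := ∑ t, X t with hVd
  have hcard : (univ : Finset (Fin (κ ^ 2))).card = κ ^ 2 := by
    rw [card_univ, Fintype.card_fin]
  -- (b)
  have hb : κ ^ 2 * L * (DD m ^ 2 * NF Prod.fst (pp m) winf) ≤
      Bd + DD m ^ 2 * (κ ^ 2 * L * δ) := by
    have a1 : ∀ b, (κ : ℝ) ^ 2 * L * winf b ≤ ms V m b + ∑ t, ∑ i, e t i b := by
      intro b
      rw [hVd, hmsS, ← sum_add_distrib]
      have a2 : ∀ t : Fin (κ ^ 2), (L : ℝ) * winf b ≤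
          ∑ i, ms (u t i) m b + ∑ i, e t i b := by
        intro t
        rw [← sum_add_distrib]
        have a3 : ∑ _i : Fin L, winf b ≤ ∑ i, (ms (u t i) m b + e t i b) :=
          sum_le_sum fun i _ => h2 t i b
        rwa [sum_const, card_univ, Fintype.card_fin, nsmul_eq_mul] at a3
      have a4 : ∑ _t : Fin (κ ^ 2), (L : ℝ) * winf b ≤
          ∑ t, (∑ i, ms (u t i) m b + ∑ i, e t i b) := sum_le_sum fun t _ => a2 t
      rw [sum_const, hcard, nsmul_eq_mul] at a4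
      push_cast at a4
      linarith
    have se : Summable fun b => ∑ t, ∑ i, e t i b :=
      summable_sum fun t _ => summable_sum fun i _ => heS t i
    have a5 : NF Prod.fst (pp m) (fun b => (κ : ℝ) ^ 2 * L * winf b) ≤
        NF Prod.fst (pp m) (ms V m) + ∑' b, ∑ t, ∑ i, e t i b := by
      have a6 := NF_mono (π := (Prod.fst : D.A × ℕ → D.A)) hp
        (fun b => mul_nonneg (by positivity) (hwi0 b)) ((ms_summable V m).add se) a1
      have a7 := NF_add_le (π := (Prod.fst : D.A × ℕ → D.A)) hp (ms_nonneg V m)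
        (fun b => sum_nonneg fun t _ => sum_nonneg fun i _ => he0 t i b) (ms_summable V m) se
      have a8 := NF_le_tsum (π := (Prod.fst : D.A × ℕ → D.A)) hp
        (fun b => sum_nonneg fun t _ => sum_nonneg fun i _ => he0 t i b) se
      linarith
    rw [NF_smul hp hwi0 hwiS (by positivity)] at a5
    have a9 : ∑' b, ∑ t, ∑ i, e t i b ≤ κ ^ 2 * L * δ := by
      rw [tsum_finset _ _ fun t _ => summable_sum fun i _ => heS t i]
      have : ∀ t : Fin (κ ^ 2), ∑' b, ∑ i, e t i b ≤ L * δ := by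
        intro t
        rw [tsum_finset _ _ fun i _ => heS t i]
        refine (sum_le_sum fun i _ => heT t i).trans_eq ?_
        rw [sum_const, card_univ, Fintype.card_fin, nsmul_eq_mul]
      refine (sum_le_sum fun t _ => this t).trans_eq ?_
      rw [sum_const, hcard, nsmul_eq_mul]
      push_cast
      ring
    have a10 := norm_sq_eq m V
    have a11 := gam_nonneg m V
    have a12 : DD m ^ 2 * NF Prod.fst (pp m) (ms V m) ≤ Bd := by linarith
    have a13 := mul_le_mul_of_nonneg_left (a5.trans (add_le_add_right a9 _)) (sq_nonneg (DD m))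
    have a14 : DD m ^ 2 * (κ ^ 2 * L * NF Prod.fst (pp m) winf) =
        κ ^ 2 * L * (DD m ^ 2 * NF Prod.fst (pp m) winf) := by ring
    rw [a14] at a13
    linarith
  -- (c), (d)
  have hcsum : ∑ t, Gam m (X t) ≤ cc m * Bd := by
    have a1 := gam_super univ X (fun t _ t' _ h => hXo t t' h) m (by rw [hcard, hκ])
    refine a1.trans (mul_le_mul_of_nonneg_left ?_ hcc0)
    have a2 := norm_sq_eq m V
    have a3 := mul_nonneg (sq_nonneg (DD m)) (NF_ms_nonneg m V)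
    linarith
  have hccB : 0 < cc m * Bd := by
    have : 0 < cc m := by
      unfold cc
      positivity
    positivity
  obtain ⟨Θ, hΘ, hG⟩ := markov (by omega) (fun t => Gam m (X t)) (fun t => gam_nonneg m _) hccB
    hcsum
  refine ⟨Θ, hΘ, ?_⟩
  set W := ∑ t ∈ Θ, X t with hW
  -- (e)
  have he1 : Gam m W ≤ 2 * cc m * (Bd / κ) := by
    refine (gam_sub Θ X (fun t _ t' _ h => hXo t t' h) m).trans ?_
    refine (sum_le_sum fun t ht => hG t ht).trans_eq ?_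
    rw [sum_const, hΘ, nsmul_eq_mul]
    field_simp
  -- (f)
  have hms : ∀ b, ms W m b ≤ (κ * L : ℝ) * winf b + L * (∑ t ∈ Θ, r t b) +
      (∑ t ∈ Θ, ∑ i, ρ t i b) + ∑ t ∈ Θ, ∑ i, e t i b := by
    intro b
    rw [hW, hmsS]
    have a1 : ∀ t : Fin (κ ^ 2), ∑ i, ms (u t i) m b ≤
        L * winf b + L * r t b + ∑ i, ρ t i b + ∑ i, e t i b := by
      intro t
      refine (sum_le_sum fun i _ => h1 t i b).trans_eq ?_
      rw [sum_add_distrib, sum_add_distrib, sum_add_distrib, sum_const, sum_const, card_univ,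
        Fintype.card_fin, nsmul_eq_mul, nsmul_eq_mul]
    refine (sum_le_sum fun t _ => a1 t).trans_eq ?_
    rw [sum_add_distrib, sum_add_distrib, sum_add_distrib, sum_const, hΘ, nsmul_eq_mul, mul_sum]
    ring
  have hρS : ∀ t i, Summable (ρ t i) := fun t i =>
    Summable.of_nonneg_of_le (hρ0 t i) (h4 t i) (ms_summable _ m)
  have hf1 := NF_le4 (π := (Prod.fst : D.A × ℕ → D.A)) hp (x := (κ * L : ℝ)) (y := (L : ℝ))
    (by positivity) (by positivity)
    (ms_nonneg W m) hwi0 (fun b => sum_nonneg fun t _ => hr0 t b)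
    (fun b => sum_nonneg fun t _ => sum_nonneg fun i _ => hρ0 t i b)
    (fun b => sum_nonneg fun t _ => sum_nonneg fun i _ => he0 t i b) hwiS
    (summable_sum fun t _ => hrS t) (summable_sum fun t _ => summable_sum fun i _ => hρS t i)
    (summable_sum fun t _ => summable_sum fun i _ => heS t i) hms
  -- the term of `r`
  have hrT : ∀ t ∈ Θ, ∑' b, r t b ≤ 2 * (cc m * Bd) / κ ^ 2 / L + δ := by
    intro t ht
    have a1 : (L : ℝ) * ∑' b, r t b ≤ ∑' b, ms (X t) m b + L * δ := by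
      have a2 : ∀ i : Fin L, ∑' b, r t b ≤ ∑' b, ms (u t i) m b + δ := by
        intro i
        have a3 : ∑' b, r t b ≤ ∑' b, (ms (u t i) m b + e t i b) :=
          (hrS t).tsum_le_tsum (h3 t i) ((ms_summable _ m).add (heS t i))
        rw [(ms_summable _ m).tsum_add (heS t i)] at a3
        exact a3.trans (add_le_add_right (heT t i) _)
      have a4 : ∑ _i : Fin L, ∑' b, r t b ≤ ∑ i : Fin L, (∑' b, ms (u t i) m b + δ) :=
        sum_le_sum fun i _ => a2 i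
      rw [sum_const, sum_add_distrib, sum_const, card_univ, Fintype.card_fin, nsmul_eq_mul,
        nsmul_eq_mul, ← tsum_finset _ _ fun i _ => ms_summable _ m] at a4
      simp only [← hmsX] at a4
      exact a4
    have a5 := gam_ge m (X t)
    have a6 := hG t ht
    have a7 : (L : ℝ) * ∑' b, r t b ≤ 2 * (cc m * Bd) / κ ^ 2 + L * δ := by
      linarith
    have a8 : 2 * (cc m * Bd) / (κ : ℝ) ^ 2 / L + δ =
        (2 * (cc m * Bd) / κ ^ 2 + L * δ) / L := by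
      field_simp
    rw [a8, le_div_iff₀ hL0]
    linarith
  have hf2 : DD m ^ 2 * (L * NF Prod.fst (pp m) (fun b => ∑ t ∈ Θ, r t b)) ≤
      2 * cc m * (Bd / κ) + κ * L * δ := by
    have a1 := NF_disj_atoms (π := (Prod.fst : D.A × ℕ → D.A)) hp (pp_even m) Θ r hr0 hrS hrT
      (fun t _ t' _ h b b' => h5 t t' h b b') hD0 (by rw [hΘ, hκ, K2_eq])
    rw [hΘ] at a1
    have a2 := mul_le_mul_of_nonneg_left a1 hL0.le
    have a3 := mul_le_mul_of_nonneg_left a2 (sq_nonneg (DD m))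
    refine a3.trans_eq ?_
    field_simp
  -- the term of `ρ`
  have hf3 : DD m ^ 2 * NF Prod.fst (pp m) (fun b => ∑ t ∈ Θ, ∑ i, ρ t i b) ≤
      κ * L * (DD m ^ 2 * Zu ^ 2 / c) := by
    have a1 : ∀ t, NF (Prod.fst : D.A × ℕ → D.A) (pp m) (fun b => ∑ i, ρ t i b) ≤
        L * Zu ^ 2 / c := by
      intro t
      have a2 := NF_disj_slots (π := (Prod.fst : D.A × ℕ → D.A)) (Z := Zu ^ 2) hp
        (univ : Finset (Fin L)) (ρ t) (hρ0 t) (hρS t) (fun i _ => by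
          refine ((hρS t i).tsum_le_tsum (h4 t i) (ms_summable _ m)).trans
            ((tsum_ms_le (u t i) m).trans (pow_le_pow_left₀ (norm_nonneg _) (hu t i) 2)))
        (fun i _ i' _ h b => h6 t i i' h b) hc (by rw [card_univ, Fintype.card_fin]; exact hcL)
      rwa [card_univ, Fintype.card_fin] at a2
    have a3 := NF_finsum_le (π := (Prod.fst : D.A × ℕ → D.A)) hp Θ
      (fun t b => ∑ i, ρ t i b) (fun t b => sum_nonneg fun i _ => hρ0 t i b)
      (fun t => summable_sum fun i _ => hρS t i)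
    have a4 := a3.trans (sum_le_sum fun t _ => a1 t)
    rw [sum_const, hΘ, nsmul_eq_mul] at a4
    have a5 := mul_le_mul_of_nonneg_left a4 (sq_nonneg (DD m))
    refine a5.trans_eq ?_
    field_simp
  have hf4 : ∑' b, ∑ t ∈ Θ, ∑ i, e t i b ≤ κ * L * δ := by
    rw [tsum_finset _ _ fun t _ => summable_sum fun i _ => heS t i]
    have : ∀ t : Fin (κ ^ 2), ∑' b, ∑ i, e t i b ≤ L * δ := by
      intro t
      rw [tsum_finset _ _ fun i _ => heS t i]
      refine (sum_le_sum fun i _ => heT t i).trans_eq ?_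
      rw [sum_const, card_univ, Fintype.card_fin, nsmul_eq_mul]
    refine (sum_le_sum fun t _ => this t).trans_eq ?_
    rw [sum_const, hΘ, nsmul_eq_mul]
    ring
  have hf5 : κ * L * (DD m ^ 2 * NF Prod.fst (pp m) winf) ≤ Bd / κ + DD m ^ 2 * (κ * L * δ) := by
    have a1 : κ * L * (DD m ^ 2 * NF Prod.fst (pp m) winf) =
        κ ^ 2 * L * (DD m ^ 2 * NF Prod.fst (pp m) winf) / κ := by
      field_simp
    have a2 : Bd / κ + DD m ^ 2 * (κ * L * δ) = (Bd + DD m ^ 2 * (κ ^ 2 * L * δ)) / κ := by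
      field_simp
    rw [a1, a2]
    exact div_le_div_of_nonneg_right hb hκ0.le
  rw [norm_sq_eq m W]
  have hf6 := mul_le_mul_of_nonneg_left hf1 (sq_nonneg (DD m))
  have hf7 := mul_le_mul_of_nonneg_left hf4 (sq_nonneg (DD m))
  nlinarith

theorem main_estimate {D : Dat} (m : ℕ) (hfin : ∀ a, {s | D.ty a s ≠ m}.Finite)
    (z : ℕ → ℕ → D.X) (Z : ℝ) (hZ : ∀ s j, ‖z s j‖ ≤ Z)
    (hz : ∀ s (g : D.X →L[ℝ] ℝ), Tendsto (fun j => g (z s j)) atTop (𝓝 0))
    (U Lo : ℝ) (hU0 : 0 ≤ U)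
    (hU : ∀ (L : ℕ) (s : Fin (K2 m ^ 2) → ℕ) (j : Fin (K2 m ^ 2) → Fin L → ℕ),
      Function.Injective s → (∀ t, Function.Injective (j t)) →
      ‖∑ t, ∑ i, z (s t) (j t i)‖ ^ 2 ≤ U * (K2 m ^ 2) * L)
    (hLo : ∀ (L : ℕ) (s : Fin (K2 m ^ 2) → ℕ) (j : Fin (K2 m ^ 2) → Fin L → ℕ)
      (Θ : Finset (Fin (K2 m ^ 2))), Function.Injective s → (∀ t, Function.Injective (j t)) →
      Θ.card = K2 m → Lo * K2 m * L ≤ ‖∑ t ∈ Θ, ∑ i, z (s t) (j t i)‖ ^ 2) :
    Lo ≤ (4 * cc m + 1) * U := by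
  obtain ⟨κ, hκ⟩ : ∃ κ, κ = K2 m := ⟨_, rfl⟩
  rw [← hκ] at hU hLo
  have hκ4 : 4 ≤ κ := hκ ▸ four_le_K2 m
  have hκ0 : (0 : ℝ) < κ := by
    have : 0 < κ := by omega
    exact_mod_cast this
  have hcc0 : 0 ≤ cc m := by
    unfold cc
    positivity
  have hD0 := DD_pos m
  have hZ0 : 0 ≤ Z := (norm_nonneg _).trans (hZ 0 0)
  refine le_of_forall_pos_le_add fun ε hε => ?_
  -- the choice of `c` and `L`
  obtain ⟨c, hc, hcε⟩ : ∃ c : ℝ, 0 < c ∧ DD m ^ 2 * (Z + 1) ^ 2 / c ≤ ε := by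
    refine ⟨DD m ^ 2 * (Z + 1) ^ 2 / ε, by positivity, ?_⟩
    rw [div_div_eq_mul_div]
    apply le_of_eq
    field_simp
  obtain ⟨L, hL1⟩ := exists_nat_ge (c ^ pp m + 1)
  have hcL : c ^ pp m ≤ L := by linarith
  have hL0 : (0 : ℝ) < L := by
    have : 0 < c ^ pp m := by positivity
    linarith
  have hL : 0 < L := by exact_mod_cast hL0
  set M : ℝ := κ ^ 2 * L with hM
  have hM0 : 0 < M := by positivity
  let F : ℝ → ℝ := fun δ => (√((4 * cc m + 1) * ((√(U * M) + M * δ) ^ 2 / κ) +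
    κ * L * (ε + δ + 2 * DD m ^ 2 * δ)) + M * δ) ^ 2
  have key : ∀ δ : ℝ, 0 < δ → δ ≤ 1 → Lo * κ * L ≤ F δ := by
    intro δ hδ hδ1
    obtain ⟨s, j, u, winf, r, ρ, e, hs, hj, horth, huz, hwi0, hwiS, hr0, hrS, hρ0, he0, heS, heT,
      h1, h2, h3, h4, h5, h6⟩ := config m hfin z Z hZ hz (κ ^ 2) L δ hδ
    have hdiff : ∀ Θ : Finset (Fin (κ ^ 2)),
        ‖∑ t ∈ Θ, ∑ i, u t i - ∑ t ∈ Θ, ∑ i, z (s t) (j t i)‖ ≤ M * δ := by
      intro Θ
      rw [← sum_sub_distrib]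
      simp only [← sum_sub_distrib]
      refine (norm_sum_le _ _).trans ?_
      have a1 : ∀ t : Fin (κ ^ 2), ‖∑ i, (u t i - z (s t) (j t i))‖ ≤ L * δ := by
        intro t
        refine (norm_sum_le _ _).trans ((sum_le_sum fun i _ => huz t i).trans_eq ?_)
        rw [sum_const, card_univ, Fintype.card_fin, nsmul_eq_mul]
      refine (sum_le_sum fun t _ => a1 t).trans ?_
      rw [sum_const, nsmul_eq_mul, hM]
      have a2 : (Θ.card : ℝ) ≤ κ ^ 2 := by
        have := card_le_univ Θ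
        rw [Fintype.card_fin] at this
        exact_mod_cast this
      have a3 := mul_le_mul_of_nonneg_right a2 (by positivity : (0 : ℝ) ≤ L * δ)
      linarith
    have hV : ‖∑ t, ∑ i, u t i‖ ^ 2 ≤ (√(U * M) + M * δ) ^ 2 := by
      refine pow_le_pow_left₀ (norm_nonneg _) ?_ 2
      have a1 := hdiff univ
      have a2 : ‖∑ t, ∑ i, z (s t) (j t i)‖ ≤ √(U * M) := by
        refine Real.le_sqrt_of_sq_le ((hU L s j hs hj).trans_eq ?_)
        rw [hM]
        ring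
      have a3 := norm_sub_norm_le (∑ t, ∑ i, u t i) (∑ t, ∑ i, z (s t) (j t i))
      linarith
    have hu : ∀ t i, ‖u t i‖ ≤ Z + 1 := by
      intro t i
      have a1 := huz t i
      have a2 := norm_sub_norm_le (u t i) (z (s t) (j t i))
      have a3 := hZ (s t) (j t i)
      linarith
    obtain ⟨Θ, hΘ, hW⟩ := core hκ hL hδ horth hwi0 hwiS hr0 hrS hρ0 he0 heS heT h1 h2 h3 h4 h5 h6
      hu hc hcL (by positivity) hV
    have hlo := hLo L s j Θ hs hj hΘ
    refine hlo.trans (pow_le_pow_left₀ (norm_nonneg _) ?_ 2)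
    have a1 := hdiff Θ
    rw [norm_sub_rev] at a1
    have a3 := norm_sub_norm_le (∑ t ∈ Θ, ∑ i, z (s t) (j t i)) (∑ t ∈ Θ, ∑ i, u t i)
    have a4 : ‖∑ t ∈ Θ, ∑ i, u t i‖ ≤ √((4 * cc m + 1) * ((√(U * M) + M * δ) ^ 2 / κ) +
        κ * L * (ε + δ + 2 * DD m ^ 2 * δ)) := by
      refine Real.le_sqrt_of_sq_le (hW.trans ?_)
      have a5 : κ * L * (DD m ^ 2 * (Z + 1) ^ 2 / c + δ + 2 * DD m ^ 2 * δ) ≤
          κ * L * (ε + δ + 2 * DD m ^ 2 * δ) :=
        mul_le_mul_of_nonneg_left (by linarith) (by positivity)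
      linarith
    linarith
  have hcont : Continuous F := by
    fun_prop
  have hlim : Tendsto F (𝓝[>] 0) (𝓝 (F 0)) :=
    (hcont.tendsto 0).mono_left nhdsWithin_le_nhds
  have hfinal : Lo * κ * L ≤ F 0 := by
    refine ge_of_tendsto hlim ?_
    have h1 : Set.Ioc (0 : ℝ) 1 ∈ 𝓝[>] (0 : ℝ) := Ioc_mem_nhdsGT one_pos
    filter_upwards [h1] with δ hδ
    exact key δ hδ.1 hδ.2
  have hF0 : F 0 = κ * L * ((4 * cc m + 1) * U + ε) := by
    change (√((4 * cc m + 1) * ((√(U * M) + M * 0) ^ 2 / κ) +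
      κ * L * (ε + 0 + 2 * DD m ^ 2 * 0)) + M * 0) ^ 2 = _
    rw [mul_zero, add_zero, mul_zero, add_zero, add_zero, add_zero,
      Real.sq_sqrt (by positivity), Real.sq_sqrt (by positivity), hM]
    field_simp
  rw [hF0] at hfinal
  have h9 : κ * L * Lo ≤ κ * L * ((4 * cc m + 1) * U + ε) := by linarith
  exact le_of_mul_le_mul_left h9 (by positivity)

end Dat

end

end Pool.Agent.Lib.MP_4e4c79_lc.Cc
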