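import Mathlib
import Pool.Agent.Lib.MP_4e4c79_lc.Cc.Ops

/-!
Matchings of two data, related tuples, linked vectors.
-/

namespace Pool.Agent.Lib.MP_4e4c79_lc.Cc

open Pool.Agent.Lib.MP_4e4c79_lc Complete Finset
open scoped ENNReal
attribute [local instance] Classical.propDecidable
set_option linter.unusedSectionVars false

noncomputable section

/-- A matching of the atoms of two data such that the kinds of the slots number `s < R` of matched
atoms agree. -/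
structure Match (D₁ D₂ : Dat) (R : ℕ) where
  /-- the bijection of the atoms -/
  β : D₁.A ≃ D₂.A
  ty_eq : ∀ a s, s < R → D₂.ty (β a) s = D₁.ty a s

namespace Match

variable {D₁ D₂ : Dat} {R : ℕ}

/-- The inverse matching. -/
def symm (M : Match D₁ D₂ R) : Match D₂ D₁ R where
  β := M.β.symm
  ty_eq := fun b s hs => by
    obtain ⟨a, rfl⟩ := M.β.surjective b
    rw [Equiv.symm_apply_apply, M.ty_eq a s hs]

variable (M : Match D₁ D₂ R)

/-- The bijection of the slots. -/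
def sl : D₁.A × ℕ ≃ D₂.A × ℕ := M.β.prodCongr (Equiv.refl ℕ)

/-- The bijection of the points. -/
def pl : D₁.Pt ≃ D₂.Pt := Equiv.sumCongr M.β M.sl

lemma sl_apply (a : D₁.A) (s : ℕ) : M.sl (a, s) = (M.β a, s) := rfl

lemma pl_inl (a : D₁.A) : M.pl (.inl a) = .inl (M.β a) := rfl

lemma pl_inr (b : D₁.A × ℕ) : M.pl (.inr b) = .inr (M.sl b) := rfl

lemma dm_eq (m : ℕ) (b : D₁.A × ℕ) (h : b.2 < R) : D₂.dm m (M.sl b) = D₁.dm m b := by
  obtain ⟨a, s⟩ := b
  unfold Dat.dm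
  rw [sl_apply]
  simp only [M.ty_eq a s h]

lemma le_dm (m : ℕ) (b : D₂.A × ℕ) (h : R ≤ b.2) : (R : ℕ∞) ≤ D₂.dm m b := by
  unfold Dat.dm
  split_ifs
  · exact_mod_cast h
  · exact le_top

/-- The relation between tuples. -/
def Rel {k : ℕ} (v : Fin k → D₁.X) (w : Fin k → D₂.X) : Prop :=
  (∀ m b, R ≤ b.2 → ∀ i j, inner ℝ (Dat.kc (v i) m b) (Dat.kc (v j) m b) =
    inner ℝ (Dat.kc (w i) m (M.sl b)) (Dat.kc (w j) m (M.sl b))) ∧
  (∀ m b, b.2 < R → ∀ j l, inner ℝ (Dat.kc (v j) m b) (hb _ l) =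
    inner ℝ (Dat.kc (w j) m (M.sl b)) (hb _ l)) ∧
  (∀ j z, (w j).snd (M.pl z) = (v j).snd z)

/-- Pairs of vectors which are defined in the same way from related tuples. -/
def Linked {k : ℕ} (v : Fin k → D₁.X) (w : Fin k → D₂.X) (x : D₁.X) (y : D₂.X) : Prop :=
  (∀ m b, R ≤ b.2 → ∃ c : Fin k → ℝ, Dat.kc x m b = ∑ j, c j • Dat.kc (v j) m b ∧
    Dat.kc y m (M.sl b) = ∑ j, c j • Dat.kc (w j) m (M.sl b)) ∧
  (∀ m b, b.2 < R → ∀ l, inner ℝ (Dat.kc x m b) (hb _ l) =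
    inner ℝ (Dat.kc y m (M.sl b)) (hb _ l)) ∧
  (∀ z, y.snd (M.pl z) = x.snd z)

end Match

end

end Pool.Agent.Lib.MP_4e4c79_lc.Cc
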