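import Mathlib
import Pool.Agent.Lib.MP_4e4c79_lc.Cc.GDef

/-!
# Module GA1.  Operations on linked vectors.

All statements are componentwise (`kc_add`, `kc_smul`, `kc_PP`, `kc_KK_self`, `kc_KK_ne`, `kc_mu`,
`snd_add`, …; `sc y (inr b)` depends only on `y.snd`), compare `Pool/Agent/Lib/MP_4e4c79_lc/Game.lean`,
section `Linked`.
-/

namespace Pool.Agent.Lib.MP_4e4c79_lc.Cc

open Pool.Agent.Lib.MP_4e4c79_lc Complete Finset
open scoped ENNReal
attribute [local instance] Classical.propDecidable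
set_option linter.unusedSectionVars false

noncomputable section

namespace Match

open Dat

variable {D₁ D₂ : Dat} {R : ℕ} (M : Match D₁ D₂ R) {k : ℕ} {v : Fin k → D₁.X} {w : Fin k → D₂.X}

lemma kc_zero {D : Dat} (m : ℕ) (b : D.A × ℕ) : kc (0 : D.X) m b = 0 := rfl

lemma linked_var (hR : M.Rel v w) (j : Fin k) : M.Linked v w (v j) (w j) := by
  refine ⟨?_, fun m b hb l => hR.2.1 m b hb j l, hR.2.2 j⟩
  intro m b _
  refine ⟨fun i => if i = j then 1 else 0, ?_, ?_⟩
  · simp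
  · simp

lemma linked_zero : M.Linked v w 0 0 := by
  refine ⟨?_, ?_, fun z => rfl⟩
  · intro m b _
    exact ⟨fun _ => 0, by simp [kc_zero], by simp [kc_zero]⟩
  · intro m b _ l
    rw [kc_zero, kc_zero, inner_zero_left, inner_zero_left]

lemma linked_add {x x' : D₁.X} {y y' : D₂.X} (h : M.Linked v w x y) (h' : M.Linked v w x' y') :
    M.Linked v w (x + x') (y + y') := by
  refine ⟨?_, ?_, ?_⟩
  · intro m b hb
    obtain ⟨c, hc1, hc2⟩ := h.1 m b hb
    obtain ⟨d, hd1, hd2⟩ := h'.1 m b hb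
    refine ⟨fun j => c j + d j, ?_, ?_⟩
    · rw [kc_add, hc1, hd1, ← sum_add_distrib]
      exact sum_congr rfl fun j _ => (add_smul _ _ _).symm
    · rw [kc_add, hc2, hd2, ← sum_add_distrib]
      exact sum_congr rfl fun j _ => (add_smul _ _ _).symm
  · intro m b hb l
    rw [kc_add, kc_add, inner_add_left, inner_add_left, h.2.1 m b hb l, h'.2.1 m b hb l]
  · intro z
    rw [snd_add, snd_add, h.2.2, h'.2.2]

lemma linked_smul (t : ℝ) {x : D₁.X} {y : D₂.X} (h : M.Linked v w x y) :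
    M.Linked v w (t • x) (t • y) := by
  refine ⟨?_, ?_, ?_⟩
  · intro m b hb
    obtain ⟨c, hc1, hc2⟩ := h.1 m b hb
    refine ⟨fun j => t * c j, ?_, ?_⟩
    · rw [kc_smul, hc1, smul_sum]
      exact sum_congr rfl fun j _ => smul_smul _ _ _
    · rw [kc_smul, hc2, smul_sum]
      exact sum_congr rfl fun j _ => smul_smul _ _ _
  · intro m b hb l
    rw [kc_smul, kc_smul, real_inner_smul_left, real_inner_smul_left, h.2.1 m b hb l]
  · intro z
    rw [snd_smul, snd_smul, h.2.2]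

lemma linked_sub {x x' : D₁.X} {y y' : D₂.X} (h : M.Linked v w x y) (h' : M.Linked v w x' y') :
    M.Linked v w (x - x') (y - y') := by
  have h1 := M.linked_add h (M.linked_smul (-1) h')
  rwa [neg_one_smul, neg_one_smul, ← sub_eq_add_neg, ← sub_eq_add_neg] at h1

lemma isLeft_pl (z : D₁.Pt) : (M.pl z).isLeft = z.isLeft := by
  cases z <;> rfl

lemma linked_P (σ : Bool) {x : D₁.X} {y : D₂.X} (h : M.Linked v w x y) :
    M.Linked v w (PP σ x) (PP σ y) := by
  refine ⟨?_, ?_, ?_⟩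
  · intro m b _
    exact ⟨fun _ => 0, by simp [kc_PP], by simp [kc_PP]⟩
  · intro m b _ l
    rw [kc_PP, kc_PP, inner_zero_left, inner_zero_left]
  · intro z
    rw [snd_PP, snd_PP, isLeft_pl, h.2.2]

lemma linked_K (n : ℕ) {x : D₁.X} {y : D₂.X} (h : M.Linked v w x y) :
    M.Linked v w (KK n x) (KK n y) := by
  refine ⟨?_, ?_, ?_⟩
  · intro m b hb
    by_cases hm : m = n
    · subst hm
      rw [kc_KK_self, kc_KK_self]
      exact h.1 m b hb
    · rw [kc_KK_ne hm, kc_KK_ne hm]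
      exact ⟨fun _ => 0, by simp, by simp⟩
  · intro m b hb l
    by_cases hm : m = n
    · subst hm
      rw [kc_KK_self, kc_KK_self]
      exact h.2.1 m b hb l
    · rw [kc_KK_ne hm, kc_KK_ne hm, inner_zero_left, inner_zero_left]
  · intro z
    rw [snd_KK, snd_KK]

lemma linked_sc {x : D₁.X} {y : D₂.X} (h : M.Linked v w x y) (z : D₁.Pt) :
    sc y (M.pl z) = sc x z := by
  match z with
  | .inl a => exact h.2.2 (.inl a)
  | .inr b =>
    change y.snd (.inl (M.sl b).1) + y.snd (.inr (M.sl b)) = x.snd (.inl b.1) + x.snd (.inr b)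
    have h1 : y.snd (.inl (M.sl b).1) = x.snd (.inl b.1) := h.2.2 (.inl b.1)
    have h2 : y.snd (.inr (M.sl b)) = x.snd (.inr b) := h.2.2 (.inr b)
    rw [h1, h2]

lemma linked_M {x x' : D₁.X} {y y' : D₂.X} (h : M.Linked v w x y) (h' : M.Linked v w x' y') :
    M.Linked v w (mu x x') (mu y y') := by
  have hs : ∀ b, sc y (.inr (M.sl b)) = sc x (.inr b) := fun b => M.linked_sc h (.inr b)
  refine ⟨?_, ?_, ?_⟩
  · intro m b hb
    obtain ⟨c, hc1, hc2⟩ := h'.1 m b hb
    refine ⟨fun j => sc x (.inr b) * c j, ?_, ?_⟩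
    · rw [kc_mu, hc1, smul_sum]
      exact sum_congr rfl fun j _ => smul_smul _ _ _
    · rw [kc_mu, hs, hc2, smul_sum]
      exact sum_congr rfl fun j _ => smul_smul _ _ _
  · intro m b hb l
    rw [kc_mu, kc_mu, hs, real_inner_smul_left, real_inner_smul_left, h'.2.1 m b hb l]
  · intro z
    rw [snd_mu, snd_mu, M.linked_sc h, h'.2.2]

lemma linked_pt (z : D₁.Pt) : M.Linked v w (pt z) (pt (M.pl z)) := by
  refine ⟨?_, ?_, ?_⟩
  · intro m b _
    exact ⟨fun _ => 0, by simp [kc_pt], by simp [kc_pt]⟩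
  · intro m b _ l
    rw [kc_pt, kc_pt, inner_zero_left, inner_zero_left]
  · intro z'
    rw [snd_pt, snd_pt]
    simp only [EmbeddingLike.apply_eq_iff_eq]

lemma inner_sum_comb' {s : ℕ∞} {J : Type} [Fintype J] (v : J → Hs s) (c d : J → ℝ) :
    inner ℝ (∑ j, c j • v j) (∑ j, d j • v j) =
      ∑ i, ∑ j, c i * d j * inner ℝ (v i) (v j) := by
  rw [sum_inner]
  refine sum_congr rfl fun i _ => ?_
  rw [inner_sum]
  refine sum_congr rfl fun j _ => ?_
  rw [real_inner_smul_left, real_inner_smul_right]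
  ring

lemma inner_eq_of_coord {s s' : ℕ∞} (hs : s' = s) {x x' : Hs s} {y y' : Hs s'}
    (h : ∀ l, inner ℝ x (hb s l) = inner ℝ y (hb s' l))
    (h' : ∀ l, inner ℝ x' (hb s l) = inner ℝ y' (hb s' l)) :
    inner ℝ x x' = inner ℝ y y' := by
  subst hs
  rw [Hs_ext h, Hs_ext h']

/-- Linked vectors have the same inner products in the slots. -/
lemma linked_inner (hR : M.Rel v w) {x x' : D₁.X} {y y' : D₂.X} (h : M.Linked v w x y)
    (h' : M.Linked v w x' y') (m : ℕ) (b : D₁.A × ℕ) :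
    inner ℝ (kc x m b) (kc x' m b) = inner ℝ (kc y m (M.sl b)) (kc y' m (M.sl b)) := by
  by_cases hb : R ≤ b.2
  · obtain ⟨c, hc1, hc2⟩ := h.1 m b hb
    obtain ⟨d, hd1, hd2⟩ := h'.1 m b hb
    rw [hc1, hc2, hd1, hd2, inner_sum_comb', inner_sum_comb']
    refine sum_congr rfl fun i _ => sum_congr rfl fun j _ => ?_
    rw [hR.1 m b hb i j]
  · have hb' : b.2 < R := not_le.1 hb
    exact inner_eq_of_coord (M.dm_eq m b hb') (h.2.1 m b hb') (h'.2.1 m b hb')

end Match

end

end Pool.Agent.Lib.MP_4e4c79_lc.Cc
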