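import Mathlib
import Pool.Agent.Lib.MP_4e4c79_lc.Cc.GA1
import Pool.Agent.Lib.MP_4e4c79_lc.Cc.NF4

/-!
# Module GA2.  Norm, form, distances of linked vectors; extension property.
-/

namespace Pool.Agent.Lib.MP_4e4c79_lc.Cc

open Pool.Agent.Lib.MP_4e4c79_lc Complete Finset
open scoped ENNReal
attribute [local instance] Classical.propDecidable
set_option linter.unusedSectionVars false

noncomputable section

namespace Match

open Dat

variable {D₁ D₂ : Dat} {R : ℕ} (M : Match D₁ D₂ R) {k : ℕ} {v : Fin k → D₁.X} {w : Fin k → D₂.X}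

lemma norm_to_eq (m : ℕ) {x : D₁.X} {y : D₂.X}
    (h : ∀ b, ‖kc y m (M.sl b)‖ = ‖kc x m b‖) : ‖y.fst m‖ ^ 2 = ‖x.fst m‖ ^ 2 := by
  have hf : ∀ b, sqf (RN.to (y.fst m)) (M.sl b) = sqf (RN.to (x.fst m)) b := fun b =>
    congrArg (fun t : ℝ => t ^ 2) (h b)
  rw [RN.norm_sq, RN.norm_sq]
  congr 1
  · rw [← tsum_sqf, ← tsum_sqf, ← M.sl.tsum_eq]
    exact tsum_congr hf
  · congr 1
    exact NF_equiv (NeZero.ne (pp m)) M.β M.sl (fun b => rfl) _ _ hf

lemma norm_eq {x : D₁.X} {y : D₂.X} (h : ∀ m b, ‖kc y m (M.sl b)‖ = ‖kc x m b‖)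
    (h' : ∀ z, y.snd (M.pl z) = x.snd z) : ‖y‖ = ‖x‖ := by
  have h1 : ‖y.fst‖ ^ 2 = ‖x.fst‖ ^ 2 := by
    rw [← tsum_sq, ← tsum_sq]
    congr 1
    funext m
    exact M.norm_to_eq m (h m)
  have h2 : ‖y.snd‖ ^ 2 = ‖x.snd‖ ^ 2 := by
    rw [← tsum_sq, ← tsum_sq, ← M.pl.tsum_eq]
    congr 1
    funext z
    rw [h']
  have h3 : ‖y‖ ^ 2 = ‖x‖ ^ 2 := by rw [Dat.X_norm_sq, Dat.X_norm_sq, h1, h2]
  exact (pow_left_inj₀ (norm_nonneg _) (norm_nonneg _) two_ne_zero).1 h3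

lemma norm_eq_of_inner_self {s s' : ℕ∞} {x : Hs s} {y : Hs s'} (h : inner ℝ x x = inner ℝ y y) :
    ‖y‖ = ‖x‖ := by
  rw [real_inner_self_eq_norm_sq, real_inner_self_eq_norm_sq] at h
  exact ((pow_left_inj₀ (norm_nonneg _) (norm_nonneg _) two_ne_zero).1 h).symm

lemma linked_norm (hR : M.Rel v w) {x : D₁.X} {y : D₂.X} (h : M.Linked v w x y) :
    ‖x‖ = ‖y‖ :=
  (M.norm_eq (fun m b => norm_eq_of_inner_self (M.linked_inner hR h h m b)) h.2.2).symm

lemma linked_B (hR : M.Rel v w) {x x' : D₁.X} {y y' : D₂.X} (h : M.Linked v w x y)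
    (h' : M.Linked v w x' y') : B x x' = B y y' := by
  unfold Dat.B
  congr 1
  · unfold diagForm
    congr 1
    funext m
    unfold bK
    rw [lp.inner_eq_tsum, lp.inner_eq_tsum, ← M.sl.tsum_eq]
    congr 1
    funext b
    exact M.linked_inner hR h h' m b
  · rw [lp.inner_eq_tsum, lp.inner_eq_tsum, ← M.pl.tsum_eq]
    congr 1
    funext z
    rw [h.2.2, h'.2.2]

lemma infDist_le_of {E F : Type} [NormedAddCommGroup E] [NormedAddCommGroup F] {S : Set E}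
    {T : Set F} (hS : S.Nonempty) (x : E) (y : F) (h : ∀ s ∈ S, ∃ t ∈ T, ‖y - t‖ = ‖x - s‖) :
    Metric.infDist y T ≤ Metric.infDist x S := by
  refine (Metric.le_infDist hS).2 fun s hs => ?_
  obtain ⟨t, ht, hts⟩ := h s hs
  rw [dist_eq_norm, ← hts, ← dist_eq_norm]
  exact Metric.infDist_le_dist_of_mem ht

lemma linked_dd (σ : Bool) (hR : M.Rel v w) {x : D₁.X} {y : D₂.X} (h : M.Linked v w x y) :
    dd σ x = dd σ y := by
  have key : ∀ z : D₁.Pt, ‖y - pt (M.pl z)‖ = ‖x - pt z‖ := fun z =>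
    (M.linked_norm hR (M.linked_sub h (M.linked_pt z))).symm
  unfold Dat.dd
  refine le_antisymm ?_ ?_
  · refine infDist_le_of ((D₂.srt_nonempty σ).image _) _ _ ?_
    rintro _ ⟨z', hz', rfl⟩
    obtain ⟨z, rfl⟩ := M.pl.surjective z'
    refine ⟨pt z, ⟨z, ?_, rfl⟩, (key z).symm⟩
    have h1 : (M.pl z).isLeft = σ := hz'
    rwa [isLeft_pl] at h1
  · refine infDist_le_of ((D₁.srt_nonempty σ).image _) _ _ ?_
    rintro _ ⟨z, hz, rfl⟩
    refine ⟨pt (M.pl z), ⟨M.pl z, ?_, rfl⟩, key z⟩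
    change (M.pl z).isLeft = σ
    rw [isLeft_pl]
    exact hz

lemma rel_symm {v : Fin k → D₁.X} {w : Fin k → D₂.X} (h : M.Rel v w) : M.symm.Rel w v := by
  obtain ⟨h1, h2, h3⟩ := h
  have hs : ∀ b, M.symm.sl (M.sl b) = b := fun b => M.sl.symm_apply_apply b
  have hp : ∀ z, M.symm.pl (M.pl z) = z := fun z => M.pl.symm_apply_apply z
  refine ⟨?_, ?_, ?_⟩
  · intro m b' hb i j
    obtain ⟨b, rfl⟩ := M.sl.surjective b'
    rw [hs]
    exact (h1 m b hb i j).symm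
  · intro m b' hb j l
    obtain ⟨b, rfl⟩ := M.sl.surjective b'
    rw [hs]
    exact (h2 m b hb j l).symm
  · intro j z'
    obtain ⟨z, rfl⟩ := M.pl.surjective z'
    rw [hp]
    exact (h3 j z).symm

lemma symm_symm : M.symm.symm = M := rfl

/-- The extension property. -/
lemma forth {v : Fin k → D₁.X} {w : Fin k → D₂.X} (hR : M.Rel v w) (hroom : k + 1 ≤ R)
    (x : D₁.X) :
    ∃ y : D₂.X, ‖y‖ = ‖x‖ ∧ M.Rel (Fin.cons x v : Fin (k + 1) → D₁.X)
      (Fin.cons y w : Fin (k + 1) → D₂.X) := by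
  have hex : ∀ m (b : D₁.A × ℕ), ∃ yb : Hs (D₂.dm m (M.sl b)), ‖yb‖ = ‖kc x m b‖ ∧
      (R ≤ b.2 → ∀ j, inner ℝ yb (kc (w j) m (M.sl b)) = inner ℝ (kc x m b) (kc (v j) m b)) ∧
      (b.2 < R → ∀ l, inner ℝ (kc x m b) (hb _ l) = inner ℝ yb (hb _ l)) := by
    intro m b
    by_cases hb : R ≤ b.2
    · have ho : Orthonormal ℝ (fun l : Fin (Fintype.card (Fin k) + 1) =>
          Complete.hb (D₂.dm m (M.sl b)) l) := by
        refine orthonormal_hb _ _ ?_
        rw [Fintype.card_fin]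
        exact (by exact_mod_cast hroom : ((k + 1 : ℕ) : ℕ∞) ≤ (R : ℕ∞)).trans
          (le_dm m (M.sl b) hb)
      obtain ⟨y, hy1, hy2⟩ := ext_one (fun j => kc (v j) m b) (fun j => kc (w j) m (M.sl b))
        (fun i j => hR.1 m b hb i j) (kc x m b) _ ho
      exact ⟨y, norm_eq_of_inner_self hy2.symm, fun _ => hy1, fun h => absurd h (not_lt.2 hb)⟩
    · have hb' : b.2 < R := not_le.1 hb
      have key : ∀ s : ℕ∞, s = D₁.dm m b → ∃ yb : Hs s, ‖yb‖ = ‖kc x m b‖ ∧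
          ∀ l, inner ℝ (kc x m b) (Complete.hb _ l) = inner ℝ yb (Complete.hb _ l) := by
        rintro _ rfl
        exact ⟨kc x m b, rfl, fun l => rfl⟩
      obtain ⟨yb, h1, h2⟩ := key _ (M.dm_eq m b hb')
      exact ⟨yb, h1, fun h => absurd h hb, fun _ => h2⟩
  choose yb hyb1 hyb2 hyb3 using hex
  -- transport to the slots of `D₂`
  have hex2 : ∀ m (b' : D₂.A × ℕ), ∃ y' : Hs (D₂.dm m b'),
      ‖y'‖ = ‖kc x m (M.sl.symm b')‖ ∧
      (∀ b, M.sl b = b' → HEq y' (yb m b)) := by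
    intro m b'
    obtain ⟨b, rfl⟩ := M.sl.surjective b'
    refine ⟨yb m b, ?_, ?_⟩
    · rw [hyb1, Equiv.symm_apply_apply]
    · intro b₁ hb₁
      have := M.sl.injective hb₁
      subst this
      exact HEq.rfl
  choose y' hy'1 hy'2 using hex2
  have hsum : ∀ m, Summable fun b' => ‖y' m b'‖ ^ 2 := by
    intro m
    have h1 : (fun b' => ‖y' m b'‖ ^ 2) = (fun b => ‖kc x m b‖ ^ 2) ∘ M.sl.symm := by
      funext b'
      simp only [Function.comp_apply]
      rw [hy'1]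
    rw [h1, M.sl.symm.summable_iff]
    exact summable_sq (RN.to (x.fst m))
  let yK : ∀ m, D₂.XK m := fun m => RN.to.symm (mk2 (y' m) (hsum m))
  have hyK : ∀ m b, ‖RN.to (yK m) (M.sl b)‖ = ‖kc x m b‖ := by
    intro m b
    change ‖y' m (M.sl b)‖ = _
    rw [hy'1, Equiv.symm_apply_apply]
  have hyKn : ∀ m, ‖yK m‖ ^ 2 = ‖x.fst m‖ ^ 2 := by
    intro m
    have hf : ∀ b, sqf (RN.to (yK m)) (M.sl b) = sqf (RN.to (x.fst m)) b := fun b =>
      congrArg (fun t : ℝ => t ^ 2) (hyK m b)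
    rw [RN.norm_sq, RN.norm_sq]
    congr 1
    · rw [← tsum_sqf, ← tsum_sqf, ← M.sl.tsum_eq]
      exact tsum_congr hf
    · congr 1
      exact NF_equiv (NeZero.ne (pp m)) M.β M.sl (fun b => rfl) _ _ hf
  have hsumK : Summable fun m => ‖yK m‖ ^ 2 := by
    simp only [hyKn]
    exact summable_sq x.fst
  have hsumP : Summable fun z' => ‖x.snd (M.pl.symm z')‖ ^ 2 := by
    have h1 : (fun z' => ‖x.snd (M.pl.symm z')‖ ^ 2) = (fun z => ‖x.snd z‖ ^ 2) ∘ M.pl.symm := rfl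
    rw [h1, M.pl.symm.summable_iff]
    exact summable_sq x.snd
  let y : D₂.X := WithLp.toLp 2 (mk2 yK hsumK, mk2 (fun z' => x.snd (M.pl.symm z')) hsumP)
  have hkc : ∀ m b, kc y m (M.sl b) = yb m b := by
    intro m b
    exact eq_of_heq (hy'2 m (M.sl b) b rfl)
  have hsnd : ∀ z, y.snd (M.pl z) = x.snd z := by
    intro z
    change x.snd (M.pl.symm (M.pl z)) = _
    rw [Equiv.symm_apply_apply]
  refine ⟨y, M.norm_eq (fun m b => by rw [hkc, hyb1]) hsnd, ?_, ?_, ?_⟩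
  · intro m b hb i j
    refine Fin.cases ?_ (fun i => ?_) i
    · refine Fin.cases ?_ (fun j => ?_) j
      · simp only [Fin.cons_zero]
        rw [hkc, real_inner_self_eq_norm_sq, real_inner_self_eq_norm_sq, hyb1]
      · simp only [Fin.cons_zero, Fin.cons_succ]
        rw [hkc, hyb2 m b hb]
    · refine Fin.cases ?_ (fun j => ?_) j
      · simp only [Fin.cons_zero, Fin.cons_succ]
        rw [hkc, real_inner_comm, real_inner_comm (yb m b), hyb2 m b hb]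
      · simp only [Fin.cons_succ]
        exact hR.1 m b hb i j
  · intro m b hb j l
    refine Fin.cases ?_ (fun j => ?_) j
    · simp only [Fin.cons_zero]
      rw [hkc]
      exact hyb3 m b hb l
    · simp only [Fin.cons_succ]
      exact hR.2.1 m b hb j l
  · intro j z
    refine Fin.cases ?_ (fun j => ?_) j
    · simp only [Fin.cons_zero]
      exact hsnd z
    · simp only [Fin.cons_succ]
      exact hR.2.2 j z

lemma back {v : Fin k → D₁.X} {w : Fin k → D₂.X} (hR : M.Rel v w) (hroom : k + 1 ≤ R)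
    (y : D₂.X) :
    ∃ x : D₁.X, ‖x‖ = ‖y‖ ∧ M.Rel (Fin.cons x v : Fin (k + 1) → D₁.X)
      (Fin.cons y w : Fin (k + 1) → D₂.X) := by
  obtain ⟨x, hx, hr⟩ := M.symm.forth (M.rel_symm hR) hroom y
  exact ⟨x, hx, M.symm.rel_symm hr⟩

end Match

end

end Pool.Agent.Lib.MP_4e4c79_lc.Cc
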