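import Mathlib
import Pool.Agent.Lib.MP_4e4c79_lc.Cc.GA2

/-!
# Module GA3.  All data give the same theory.
-/

namespace Pool.Agent.Lib.MP_4e4c79_lc.Cc

open Pool.Agent.Lib.MP_4e4c79_lc Complete Finset
open scoped ENNReal
attribute [local instance] Classical.propDecidable
set_option linter.unusedSectionVars false

noncomputable section

variable {D₁ D₂ : Dat}

lemma term_game {R : ℕ} (M : Match D₁ D₂ R) {k : ℕ} {v : Fin k → D₁.X} {w : Fin k → D₂.X}
    (hR : M.Rel v w) (t : Term sg k) : M.Linked v w (t.eval D₁.str v) (t.eval D₂.str w) := by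
  induction t with
  | var i => exact M.linked_var hR i
  | zero => exact M.linked_zero
  | add s t hs ht => exact M.linked_add hs ht
  | smul c t ht => exact M.linked_smul c ht
  | fn f ts hts =>
    cases f with
    | P σ => exact M.linked_P σ (hts (0 : Fin 1))
    | K m => exact M.linked_K m (hts (0 : Fin 1))
    | mu => exact M.linked_M (hts (0 : Fin 2)) (hts (1 : Fin 2))

theorem formula_game {k : ℕ} (φ : Formula sg k) : ∃ R₀, ∀ R ≥ R₀, ∀ M : Match D₁ D₂ R,
    ∀ (v : Fin k → D₁.X) (w : Fin k → D₂.X), M.Rel v w →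
      φ.eval D₁.str v = φ.eval D₂.str w := by
  induction φ with
  | norm t => exact ⟨0, fun R _ M v w hR => M.linked_norm hR (term_game M hR t)⟩
  | rel S ts =>
    cases S with
    | form =>
      exact ⟨0, fun R _ M v w hR => M.linked_B hR (term_game M hR (ts (0 : Fin 2)))
        (term_game M hR (ts (1 : Fin 2)))⟩
    | dd σ => exact ⟨0, fun R _ M v w hR => M.linked_dd σ hR (term_game M hR (ts (0 : Fin 1)))⟩
  | conn m g φ ih =>
    choose R₀ hR₀ using ih
    refine ⟨∑ i, R₀ i, fun R hRR M v w hR => ?_⟩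
    simp only [Formula.eval]
    congr 1
    funext i
    exact hR₀ i R ((single_le_sum (f := R₀) (fun _ _ => Nat.zero_le _) (mem_univ i)).trans hRR)
      M v w hR
  | @sup k r φ ih =>
    obtain ⟨R₀, hR₀⟩ := ih
    refine ⟨max R₀ (k + 1), fun R hRR M v w hR => ?_⟩
    have h1 : R₀ ≤ R := (le_max_left _ _).trans hRR
    have h2 : k + 1 ≤ R := (le_max_right _ _).trans hRR
    refine le_antisymm ?_ ?_
    · refine Formula.eval_sup_le D₁.str φ v r _ fun x hx => ?_
      obtain ⟨y, hy, hr⟩ := M.forth hR h2 x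
      exact (hR₀ R h1 M _ _ hr).le.trans (Formula.le_eval_sup D₂.str φ w r y (hy.le.trans hx))
    · refine Formula.eval_sup_le D₂.str φ w r _ fun y hy => ?_
      obtain ⟨x, hx, hr⟩ := M.back hR h2 y
      exact (hR₀ R h1 M _ _ hr).ge.trans (Formula.le_eval_sup D₁.str φ v r x (hx.le.trans hy))
  | @inf k r φ ih =>
    obtain ⟨R₀, hR₀⟩ := ih
    refine ⟨max R₀ (k + 1), fun R hRR M v w hR => ?_⟩
    have h1 : R₀ ≤ R := (le_max_left _ _).trans hRR
    have h2 : k + 1 ≤ R := (le_max_right _ _).trans hRR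
    refine le_antisymm ?_ ?_
    · refine Formula.le_eval_inf D₂.str φ w r _ fun y hy => ?_
      obtain ⟨x, hx, hr⟩ := M.back hR h2 y
      exact (Formula.eval_inf_le D₁.str φ v r x (hx.le.trans hy)).trans (hR₀ R h1 M _ _ hr).le
    · refine Formula.le_eval_inf D₁.str φ v r _ fun x hx => ?_
      obtain ⟨y, hy, hr⟩ := M.forth hR h2 x
      exact (Formula.eval_inf_le D₂.str φ w r y (hy.le.trans hx)).trans (hR₀ R h1 M _ _ hr).ge

/-- The fibres of the pattern map are infinite. -/
lemma infinite_fibre (D : Dat) (R : ℕ) (t : Fin R → ℕ) :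
    Infinite {a : D.A // (fun i : Fin R => D.ty a i) = t} := by
  have h := D.pat R (fun s => if h : s < R then t ⟨s, h⟩ else 0)
  have h1 : {a | ∀ s < R, D.ty a s = if h : s < R then t ⟨s, h⟩ else 0} =
      {a | (fun i : Fin R => D.ty a i) = t} := by
    ext a
    constructor
    · intro ha
      funext i
      have := ha i i.2
      rw [dif_pos i.2] at this
      exact this
    · rintro rfl s hs
      rw [dif_pos hs]
  rw [h1] at h
  exact h.to_subtype

/-- Any two data can be matched up to any height. -/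
lemma nonempty_match (D₁ D₂ : Dat) (R : ℕ) : Nonempty (Match D₁ D₂ R) := by
  have := D₁.cnt
  have := D₂.cnt
  have h : ∀ t : Fin R → ℕ, Nonempty ({a : D₁.A // (fun i : Fin R => D₁.ty a i) = t} ≃
      {a : D₂.A // (fun i : Fin R => D₂.ty a i) = t}) := by
    intro t
    have := infinite_fibre D₁ R t
    have := infinite_fibre D₂ R t
    exact nonempty_equiv_of_countable
  let e := fun t => Classical.choice (h t)
  let β : D₁.A ≃ D₂.A := Equiv.ofFiberEquiv e
  refine ⟨⟨β, fun a s hs => ?_⟩⟩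
  have h1 : (fun i : Fin R => D₂.ty (β a) i) = fun i : Fin R => D₁.ty a i :=
    Equiv.ofFiberEquiv_map e a
  exact congrFun h1 ⟨s, hs⟩

/-- All data have the same theory. -/
theorem value_eq (D₁ D₂ : Dat) (φ : Formula sg 0) : value D₁.str φ = value D₂.str φ := by
  obtain ⟨R₀, h⟩ := formula_game (D₁ := D₁) (D₂ := D₂) φ
  obtain ⟨M⟩ := nonempty_match D₁ D₂ R₀
  refine h R₀ le_rfl M _ _ ⟨?_, ?_, ?_⟩
  · intro m b _ i
    exact i.elim0
  · intro m b _ i
    exact i.elim0
  · intro i
    exact i.elim0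

theorem isModel_theoryOf (D₁ D₂ : Dat) : IsModel D₂.str (theoryOf D₁.str) := fun φ hφ => by
  rw [← value_eq D₁ D₂]
  exact hφ

end

end Pool.Agent.Lib.MP_4e4c79_lc.Cc
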