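import Mathlib
import Pool.Agent.Lib.MP_4e4c79_lc.Data
import Pool.Agent.Lib.MP_4e4c79_lc.Cc.GA3

/-!
The data used in the result, separability.
-/

namespace Pool.Agent.Lib.MP_4e4c79_lc.Cc

open Pool.Agent.Lib.MP_4e4c79_lc Complete Finset TopologicalSpace
open scoped ENNReal
attribute [local instance] Classical.propDecidable
set_option linter.unusedSectionVars false

noncomputable section

/-- The data whose atoms are the pairs `(l, n)`, where `l` is the list of the kinds of the first
slots; the kinds of the other slots are given by `tail`. -/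
def mkD (tail : ℕ → ℕ) : Dat where
  A := List ℕ × ℕ
  cnt := inferInstance
  ty := fun a s => a.1.getD s (tail s)
  pat := fun R t => by
    have h : Function.Injective (fun n : ℕ => ((List.range R).map t, n)) := fun m n h =>
      (Prod.mk.inj h).2
    refine (Set.infinite_range_of_injective h).mono ?_
    rintro _ ⟨n, rfl⟩ s hs
    simp [List.getD, hs]

lemma mkD_ty (tail : ℕ → ℕ) (a : List ℕ × ℕ) (s : ℕ) (h : a.1.length ≤ s) :
    (mkD tail).ty a s = tail s := by
  change a.1.getD s (tail s) = _
  exact List.getD_eq_default _ _ h

lemma separable_X (D : Dat) : SeparableSpace D.X := by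
  have := D.cnt
  have h0 : ∀ m, SeparableSpace (D.XK m) := fun m => by
    have h1 : SeparableSpace (lp (fun b => Hs (D.dm m b)) 2) := separable_lp _ fun b =>
      separable_lp _ fun _ => inferInstance
    exact (RN.toL (π := (Prod.fst : D.A × ℕ → D.A)) (p := pp m) (c := DD m)
      (G := fun b => Hs (D.dm m b))).symm.surjective.denseRange.separableSpace
      (RN.toL (π := (Prod.fst : D.A × ℕ → D.A)) (p := pp m) (c := DD m)
      (G := fun b => Hs (D.dm m b))).symm.continuous
  have h1 : SeparableSpace D.W := separable_lp _ h0
  have h2 : SeparableSpace D.Y := separable_lp _ fun _ => inferInstance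
  have h3 : SeparableSpace (D.W × D.Y) := inferInstance
  exact (WithLp.homeomorphProd 2 D.W D.Y).symm.surjective.denseRange.separableSpace
    (WithLp.homeomorphProd 2 D.W D.Y).symm.continuous

theorem isSepModel (D₁ D₂ : Dat) : IsSepModel D₂.str (theoryOf D₁.str) :=
  ⟨isModel_theoryOf D₁ D₂, separable_X D₂⟩

/-- In the data with constant tail `m` every atom has only finitely many slots whose kind is not
`m`. -/
lemma hfin_const (m : ℕ) (a : (mkD fun _ => m).A) :
    {s | (mkD fun _ => m).ty a s ≠ m}.Finite := by
  refine (Set.finite_lt_nat a.1.length).subset fun s hs => ?_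
  by_contra h
  exact hs (mkD_ty _ a s (not_lt.1 h))

/-- In the data with tail `id` the first atom has infinitely many slots whose kind is not `m`. -/
lemma slots_id (m : ℕ) : ∃ (a : (mkD id).A) (f : ℕ → ℕ), Function.Injective f ∧
    ∀ n, (mkD id).ty a (f n) ≠ m := by
  refine ⟨([], 0), fun n => n + m + 1, fun n n' h => by simpa using h, fun n => ?_⟩
  rw [mkD_ty _ _ _ (by simp)]
  simp only [id_eq]
  omega

end

end Pool.Agent.Lib.MP_4e4c79_lc.Cc
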