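import Mathlib
import Pool.Agent.Lib.MP_4e4c79_lc.Cc.LB0
import Pool.Agent.Lib.MP_4e4c79_lc.Cc.LB5
import Pool.Agent.Lib.MP_4e4c79_lc.Cc.Mod

/-!
The distances between the models are unbounded.
-/

namespace Pool.Agent.Lib.MP_4e4c79_lc.Cc

open Pool.Agent.Lib.MP_4e4c79_lc Complete Finset Filter
open scoped ENNReal Topology
attribute [local instance] Classical.propDecidable
set_option linter.unusedSectionVars false

noncomputable section

namespace Dat

theorem distortion_bound {D₁ D₂ : Dat} (m : ℕ) (a : D₁.A) (f : ℕ → ℕ)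
    (hf : Function.Injective f) (hty : ∀ n, D₁.ty a (f n) ≠ m)
    (hfin : ∀ a, {s | D₂.ty a s ≠ m}.Finite) (S : D₁.X ≃L[ℝ] D₂.X) :
    1 + DD m ≤ (8 * cc m + 2) * distortion S ^ 2 := by
  obtain ⟨x, hx1, hx2, hx3⟩ := D₁.exists_test m a f hf hty
  set A : ℝ := ‖(S : D₁.X →L[ℝ] D₂.X)‖ with hA
  set A' : ℝ := ‖(S.symm : D₂.X →L[ℝ] D₁.X)‖ with hA'
  have hSx : ∀ v, ‖S v‖ ≤ A * ‖v‖ := fun v => (S : D₁.X →L[ℝ] D₂.X).le_opNorm v
  have hSy : ∀ v, ‖v‖ ≤ A' * ‖S v‖ := fun v => by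
    have h := (S.symm : D₂.X →L[ℝ] D₁.X).le_opNorm (S v)
    change ‖S.symm (S v)‖ ≤ _ at h
    rwa [S.symm_apply_apply] at h
  have hA0 : 0 ≤ A := norm_nonneg _
  have hA'0 : 0 ≤ A' := norm_nonneg _
  have hDD := DD_pos m
  have hmap : ∀ (K L : ℕ) (s : Fin K → ℕ) (j : Fin K → Fin L → ℕ) (Θ : Finset (Fin K)),
      ∑ t ∈ Θ, ∑ i, S (x (s t) (j t i)) = S (∑ t ∈ Θ, ∑ i, x (s t) (j t i)) := by
    intro K L s j Θ
    rw [map_sum]
    exact sum_congr rfl fun t _ => (map_sum S _ _).symm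
  have hpos : 0 < A' := by
    rcases hA'0.eq_or_lt with h | h
    · exfalso
      have h1 := hx3 1 1 (fun i => i) (fun _ i => i) {0} 1 (fun i i' _ => Subsingleton.elim i i')
        (fun _ i i' _ => Subsingleton.elim i i') one_pos (by simp)
      have h2 := hSy (∑ t ∈ ({0} : Finset (Fin 1)), ∑ i : Fin 1, x t i)
      rw [← h, zero_mul] at h2
      have h3 : ‖∑ t ∈ ({0} : Finset (Fin 1)), ∑ i : Fin 1, x t i‖ = 0 :=
        le_antisymm h2 (norm_nonneg _)
      rw [h3] at h1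
      simp only [card_singleton] at h1
      have : (0 : ℝ) < ((1 : ℕ) : ℝ) * ((1 : ℕ) : ℝ) * (1 + DD m ^ 2 / 1) := by positivity
      rw [← h1] at this
      norm_num at this
    · exact h
  have key := main_estimate (D := D₂) m hfin (fun n j => S (x n j)) (A * (1 + DD m))
    (fun n j => (hSx _).trans (mul_le_mul_of_nonneg_left (hx1 n j) hA0))
    (fun n g => hx2 n (g.comp (S : D₁.X →L[ℝ] D₂.X))) (2 * A ^ 2) ((1 + DD m) / A' ^ 2)
    (by positivity) ?_ ?_
  · rw [div_le_iff₀ (by positivity)] at key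
    refine key.trans_eq ?_
    unfold distortion
    rw [← hA, ← hA']
    ring
  · intro L s j hs hj
    have h1 := hx3 (K2 m ^ 2) L s j univ (DD m ^ 2) hs hj (by positivity) (by
      rw [card_univ, Fintype.card_fin, K2_sq])
    have h2 := hmap _ L s j univ
    rw [h2]
    refine (pow_le_pow_left₀ (norm_nonneg _) (hSx _) 2).trans ?_
    rw [mul_pow, h1, card_univ, Fintype.card_fin, div_self (by positivity)]
    push_cast
    apply le_of_eq
    ring
  · intro L s j Θ hs hj hΘ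
    have h1 := hx3 (K2 m ^ 2) L s j Θ (DD m) hs hj hDD (by rw [hΘ, K2_eq])
    rw [hmap]
    have h2 := hSy (∑ t ∈ Θ, ∑ i, x (s t) (j t i))
    have h3 := pow_le_pow_left₀ (norm_nonneg _) h2 2
    rw [mul_pow, h1, hΘ] at h3
    have h4 : DD m ^ 2 / DD m = DD m := by field_simp
    rw [h4] at h3
    rw [div_mul_eq_mul_div, div_mul_eq_mul_div, div_le_iff₀ (by positivity)]
    nlinarith

/-- The constants `DD m` beat the factors `cc m`. -/
lemma exists_large (C : ℝ) : ∃ m, (8 * cc m + 2) * C ^ 2 < 1 + DD m := by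
  have h1 : ∀ n : ℕ, (n : ℝ) ≤ DD n := by
    intro n
    unfold DD
    have h2 : n < 2 ^ n := Nat.lt_two_pow_self
    have h3 : n ≤ 3 ^ n := (Nat.lt_pow_self (by norm_num)).le
    have h4 : (2 : ℕ) ^ n ≤ 2 ^ 3 ^ n := Nat.pow_le_pow_right (by norm_num) h3
    exact_mod_cast (h2.le.trans h4)
  obtain ⟨n, hn⟩ := exists_nat_gt (18 * C ^ 2)
  refine ⟨n + 1, ?_⟩
  have h2 : DD (n + 1) = DD n ^ 3 := by
    unfold DD
    rw [← pow_mul, pow_succ]
  have h3 : cc (n + 1) = 1 + DD n ^ 2 := rfl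
  rw [h2, h3]
  have h4 := h1 n
  have h5 := one_le_DD n
  have h6 : 18 * C ^ 2 < DD n := hn.trans_le h4
  have h7 : 0 ≤ C ^ 2 := sq_nonneg C
  have h8 : DD n ^ 2 * (18 * C ^ 2) ≤ DD n ^ 2 * DD n :=
    mul_le_mul_of_nonneg_left h6.le (by positivity)
  have h9 : 1 ≤ DD n ^ 2 := one_le_pow₀ h5
  have h10 : 10 * C ^ 2 ≤ DD n ^ 2 * (10 * C ^ 2) := le_mul_of_one_le_left (by positivity) h9
  nlinarith

end Dat

/-- The distances between separable models are unbounded. -/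
theorem exists_far (C : ℝ) : ∃ m, ∀ S : (mkD id).str.carrier ≃L[ℝ] (mkD fun _ => m).str.carrier,
    C < distortion S := by
  obtain ⟨m, hm⟩ := Dat.exists_large C
  refine ⟨m, fun S => ?_⟩
  obtain ⟨a, f, hf, hty⟩ := slots_id m
  have h : 1 + DD m ≤ (8 * Dat.cc m + 2) * distortion S ^ 2 :=
    Dat.distortion_bound (D₁ := mkD id) (D₂ := mkD fun _ => m) m a f hf hty (hfin_const m) S
  have h0 : 0 ≤ distortion S := mul_nonneg (norm_nonneg _) (norm_nonneg _)
  by_contra hc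
  rw [not_lt] at hc
  have h1 : distortion S ^ 2 ≤ C ^ 2 := pow_le_pow_left₀ h0 hc 2
  have h2 : 0 ≤ 8 * Dat.cc m + 2 := by
    unfold Dat.cc
    positivity
  have h3 := mul_le_mul_of_nonneg_left h1 h2
  linarith

end

end Pool.Agent.Lib.MP_4e4c79_lc.Cc
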