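import Mathlib
import Pool.Agent.Lib.MP_4e4c79_lc.Cc.Lab
import Pool.Agent.Lib.MP_4e4c79_lc.Cc.NF4

/-!
# Module LI1.  Good kinds of labelled index sets.

`GoodAtom m a`: infinitely many slots `b` over `a` have infinitely many indices labelled `(m, b)`.
`Good m`: infinitely many atoms are good for `m`.
-/

namespace Pool.Agent.Lib.MP_4e4c79_lc.Cc

open Finset
attribute [local instance] Classical.propDecidable
set_option linter.unusedSectionVars false

noncomputable section

/-- A countable type embeds into an infinite set. -/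
theorem li_emb {X Y : Type} [Countable X] (s : Set Y) (hs : s.Infinite) :
    ∃ f : X → Y, Function.Injective f ∧ ∀ x, f x ∈ s := by
  obtain ⟨g, hg⟩ := exists_injective_nat X
  refine ⟨fun x => (hs.natEmbedding s (g x) : Y), ?_, fun x => (hs.natEmbedding s (g x)).2⟩
  intro x y h
  exact hg ((hs.natEmbedding s).injective (Subtype.ext h))

namespace Lab

variable (L L' : Lab)

/-- Good atoms. -/
def GoodAtom (m : ℕ) (a : L.A) : Prop :=
  {b | L.π b = a ∧ {i | L.lab i = some (m, b)}.Infinite}.Infinite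

/-- Good kinds. -/
def Good (m : ℕ) : Prop := {a | L.GoodAtom m a}.Infinite

/-- The indices of kind `m`. -/
def IK (m : ℕ) : Set L.I := {i | ∃ b, L.lab i = some (m, b)}

theorem good_or {m m' : ℕ} (h : m ≠ m') : L.Good m ∨ L.Good m' := by
  have h1 : ∀ a, L.GoodAtom m a ∨ L.GoodAtom m' a := by
    intro a
    have h2 : {b | L.π b = a} ⊆ {b | L.π b = a ∧ {i | L.lab i = some (m, b)}.Infinite} ∪
        {b | L.π b = a ∧ {i | L.lab i = some (m', b)}.Infinite} := by
      intro b hb
      rcases L.infI b m m' h with h3 | h3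
      · exact Or.inl ⟨hb, h3⟩
      · exact Or.inr ⟨hb, h3⟩
    exact Set.infinite_union.1 ((L.infB a).mono h2)
  have h2 : (Set.univ : Set L.A) ⊆ {a | L.GoodAtom m a} ∪ {a | L.GoodAtom m' a} :=
    fun a _ => h1 a
  have := L.infA
  exact Set.infinite_union.1 (Set.infinite_univ.mono h2)

/-- If `m` is good for `L'` then the indices of kind `m` of `L` embed in those of `L'`, and
pushing forward masses does not change `NF`. -/
theorem exists_emb {m : ℕ} (h : L'.Good m) : ∃ φ : L.IK m → L'.IK m, Function.Injective φ ∧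
    ∀ (F : Finset L.I) (F' : Finset L'.I) (f : L.I → ℝ) (f' : L'.I → ℝ),
      (∀ i ∈ F, i ∈ L.IK m) → (∀ i ∈ F', i ∈ L'.IK m) →
      (∀ (i : L.IK m), (i : L.I) ∈ F → ((φ i : L'.I) ∈ F' ∧ f' (φ i) = f i)) →
      (∀ i' ∈ F', ∃ i : L.IK m, (i : L.I) ∈ F ∧ (φ i : L'.I) = i') →
      NF L'.π (pp m) (L'.mass F' f' m) = NF L.π (pp m) (L.mass F f m) := by
  have := L.cI
  have := L.cA
  have := L.cB
  obtain ⟨α, hα, hαm⟩ := li_emb (X := L.A) _ h
  have h1 : ∀ a : L.A, ∃ f : L.B → L'.B, Function.Injective f ∧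
      ∀ x, f x ∈ {b | L'.π b = α a ∧ {i | L'.lab i = some (m, b)}.Infinite} :=
    fun a => li_emb (X := L.B) _ (hαm a)
  choose τ hτ hτm using h1
  obtain ⟨σ, hσd⟩ : ∃ σ : L.B → L'.B, ∀ b, σ b = τ (L.π b) b := ⟨_, fun _ => rfl⟩
  have hσπ : ∀ b, L'.π (σ b) = α (L.π b) := fun b => by rw [hσd]; exact (hτm _ _).1
  have hσi : ∀ b, {i | L'.lab i = some (m, σ b)}.Infinite := fun b => by
    rw [hσd]; exact (hτm _ _).2
  have hσ : Function.Injective σ := by
    intro b c hbc
    have h2 : L.π b = L.π c := hα (by rw [← hσπ, ← hσπ, hbc])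
    rw [hσd, hσd, h2] at hbc
    exact hτ _ hbc
  have h3 : ∀ b : L.B, ∃ f : L.I → L'.I, Function.Injective f ∧
      ∀ x, f x ∈ {i | L'.lab i = some (m, σ b)} := fun b => li_emb (X := L.I) _ (hσi b)
  choose ρ hρ hρm using h3
  have h4 : ∀ i : L.IK m, ∃ b, L.lab i = some (m, b) := fun i => i.2
  choose β hβ using h4
  have hβu : ∀ (i : L.IK m) (b : L.B), L.lab i = some (m, b) → β i = b := by
    intro i b hi
    have h5 := hβ i
    rw [hi] at h5
    exact ((Prod.mk.inj (Option.some.inj h5)).2).symm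
  have hl : ∀ i : L.IK m, L'.lab (ρ (β i) i) = some (m, σ (β i)) := fun i => hρm _ _
  refine ⟨fun i => ⟨ρ (β i) i, _, hl i⟩, ?_, ?_⟩
  · intro i j hij
    have h5 : ρ (β i) i = ρ (β j) j := congrArg Subtype.val hij
    have h6 : β i = β j := by
      have h7 := hl i
      rw [h5, hl j] at h7
      have h8 : σ (β j) = σ (β i) := by
        have := Option.some.inj h7
        exact (Prod.mk.inj this).2
      exact (hσ h8).symm
    rw [h6] at h5
    exact Subtype.ext (hρ _ h5)
  · intro F F' f f' hF hF' h5 h6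
    rw [← NF_push (p := pp m) (π := L.π) (π' := L'.π) (pp_pos m).ne' α σ hα hσ hσπ]
    congr 1
    funext b'
    by_cases hb : ∃ b, σ b = b'
    · obtain ⟨b, rfl⟩ := hb
      rw [hσ.extend_apply]
      unfold mass
      symm
      refine Finset.sum_bij (fun i hi => ρ (β ⟨i, hF i (Finset.mem_filter.1 hi).1⟩) i) ?_ ?_ ?_ ?_
      · intro i hi
        have hi' := Finset.mem_filter.1 hi
        have h7 : β ⟨i, hF i hi'.1⟩ = b := hβu _ _ hi'.2
        refine Finset.mem_filter.2 ⟨(h5 ⟨i, hF i hi'.1⟩ hi'.1).1, ?_⟩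
        have := hl ⟨i, hF i hi'.1⟩
        rw [h7] at this
        simpa [h7] using this
      · intro i hi j hj hij
        have hi' := Finset.mem_filter.1 hi
        have hj' := Finset.mem_filter.1 hj
        have h7 : β ⟨i, hF i hi'.1⟩ = b := hβu _ _ hi'.2
        have h8 : β ⟨j, hF j hj'.1⟩ = b := hβu _ _ hj'.2
        simp only [h7, h8] at hij
        exact hρ _ hij
      · intro i' hi'
        have hi2 := Finset.mem_filter.1 hi'
        obtain ⟨i, hi, hii⟩ := h6 i' hi2.1
        refine ⟨i, Finset.mem_filter.2 ⟨hi, ?_⟩, hii⟩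
        have h7 := hl i
        have h8 : L'.lab (ρ (β i) i) = some (m, σ b) := by
          rw [← hi2.2]
          exact congrArg _ hii
        rw [h8] at h7
        have h9 : b = β i := hσ (Prod.mk.inj (Option.some.inj h7)).2
        rw [h9]
        exact hβ i
      · intro i hi
        have hi' := Finset.mem_filter.1 hi
        exact (h5 ⟨i, hF i hi'.1⟩ hi'.1).2.symm
    · rw [Function.extend_apply' _ _ _ hb]
      unfold mass
      refine Finset.sum_eq_zero fun i' hi' => ?_
      have hi2 := Finset.mem_filter.1 hi'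
      obtain ⟨i, hi, hii⟩ := h6 i' hi2.1
      exfalso
      apply hb
      refine ⟨β i, ?_⟩
      have h7 := hl i
      have h8 : L'.lab (ρ (β i) i) = some (m, b') := by
        rw [← hi2.2]
        exact congrArg _ hii
      rw [h8] at h7
      exact (Prod.mk.inj (Option.some.inj h7)).2.symm

end Lab

end

end Pool.Agent.Lib.MP_4e4c79_lc.Cc
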