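import Mathlib
import Pool.Agent.Lib.MP_4e4c79_lc.Cc.LI1

/-!
# Module LI2.  Any two labelled index sets are comparable.
-/

namespace Pool.Agent.Lib.MP_4e4c79_lc.Cc

open Finset
attribute [local instance] Classical.propDecidable
set_option linter.unusedSectionVars false

noncomputable section

namespace Lab

theorem li_mass_nonneg (L : Lab) (F : Finset L.I) (f : L.I → ℝ) (hf : ∀ i, 0 ≤ f i) (m : ℕ)
    (b : L.B) : 0 ≤ L.mass F f m b := Finset.sum_nonneg fun i _ => hf i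

theorem li_mass_eq (L : Lab) (F : Finset L.I) (f : L.I → ℝ) (m : ℕ) (b : L.B) :
    L.mass F f m b = ∑ i ∈ F, if L.lab i = some (m, b) then f i else 0 := by
  unfold mass
  rw [Finset.sum_filter]

theorem li_hasSum_one (L : Lab) (f : L.I → ℝ) (m : ℕ) (i : L.I) :
    HasSum (fun b => if L.lab i = some (m, b) then f i else 0)
      (if i ∈ L.IK m then f i else 0) := by
  by_cases h : i ∈ L.IK m
  · obtain ⟨b, hb⟩ := h
    have h1 : (if i ∈ L.IK m then f i else 0) = (if L.lab i = some (m, b) then f i else 0) := by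
      rw [if_pos hb, if_pos ⟨b, hb⟩]
    rw [h1]
    apply hasSum_single b
    intro b' hb'
    rw [if_neg]
    intro h2
    rw [hb] at h2
    exact hb' (Prod.mk.inj (Option.some.inj h2)).2.symm
  · rw [if_neg h]
    have h1 : (fun b => if L.lab i = some (m, b) then f i else 0) = fun _ => (0 : ℝ) := by
      funext b
      rw [if_neg]
      exact fun h2 => h ⟨b, h2⟩
    rw [h1]
    exact hasSum_zero

theorem li_mass_hasSum (L : Lab) (F : Finset L.I) (f : L.I → ℝ) (m : ℕ) :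
    HasSum (L.mass F f m) (∑ i ∈ F, if i ∈ L.IK m then f i else 0) := by
  have h1 : L.mass F f m = fun b => ∑ i ∈ F, if L.lab i = some (m, b) then f i else 0 := by
    funext b
    exact L.li_mass_eq F f m b
  rw [h1]
  exact hasSum_sum fun i _ => L.li_hasSum_one f m i

theorem li_mass_summable (L : Lab) (F : Finset L.I) (f : L.I → ℝ) (m : ℕ) :
    Summable (L.mass F f m) := (L.li_mass_hasSum F f m).summable

theorem li_mass_tsum_le (L : Lab) (F : Finset L.I) (f : L.I → ℝ) (hf : ∀ i, 0 ≤ f i) (m : ℕ) :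
    ∑' b, L.mass F f m b ≤ ∑ i ∈ F, f i := by
  rw [(L.li_mass_hasSum F f m).tsum_eq]
  refine Finset.sum_le_sum fun i _ => ?_
  split_ifs
  · exact le_rfl
  · exact hf i

theorem li_mass_mono (L : Lab) {F G : Finset L.I} (h : F ⊆ G) (f : L.I → ℝ) (hf : ∀ i, 0 ≤ f i)
    (m : ℕ) (b : L.B) : L.mass F f m b ≤ L.mass G f m b :=
  Finset.sum_le_sum_of_subset_of_nonneg (Finset.filter_subset_filter _ h) fun i _ _ => hf i

theorem li_mass_congr (L : Lab) {F G : Finset L.I} (f : L.I → ℝ) (m : ℕ)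
    (h : ∀ i ∈ L.IK m, i ∈ F ↔ i ∈ G) : L.mass F f m = L.mass G f m := by
  funext b
  unfold mass
  refine Finset.sum_congr ?_ fun _ _ => rfl
  ext i
  simp only [Finset.mem_filter]
  constructor
  · rintro ⟨h1, h2⟩
    exact ⟨(h i ⟨b, h2⟩).1 h1, h2⟩
  · rintro ⟨h1, h2⟩
    exact ⟨(h i ⟨b, h2⟩).2 h1, h2⟩

/-- One half of the comparison of two kinds. -/
theorem li_half (L L' : Lab) {m : ℕ} (φ : L.IK m → L'.IK m) (ψ : L'.IK m → L.IK m)
    (hφ : ∀ (F : Finset L.I) (F' : Finset L'.I) (f : L.I → ℝ) (f' : L'.I → ℝ),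
      (∀ i ∈ F, i ∈ L.IK m) → (∀ i ∈ F', i ∈ L'.IK m) →
      (∀ (i : L.IK m), (i : L.I) ∈ F → ((φ i : L'.I) ∈ F' ∧ f' (φ i) = f i)) →
      (∀ i' ∈ F', ∃ i : L.IK m, (i : L.I) ∈ F ∧ (φ i : L'.I) = i') →
      NF L'.π (pp m) (L'.mass F' f' m) = NF L.π (pp m) (L.mass F f m))
    (hψ : ∀ (F : Finset L'.I) (F' : Finset L.I) (f : L'.I → ℝ) (f' : L.I → ℝ),
      (∀ i ∈ F, i ∈ L'.IK m) → (∀ i ∈ F', i ∈ L.IK m) →
      (∀ (i : L'.IK m), (i : L'.I) ∈ F → ((ψ i : L.I) ∈ F' ∧ f' (ψ i) = f i)) →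
      (∀ i' ∈ F', ∃ i : L'.IK m, (i : L'.I) ∈ F ∧ (ψ i : L.I) = i') →
      NF L.π (pp m) (L.mass F' f' m) = NF L'.π (pp m) (L'.mass F f m))
    (e : L.IK m ≃ L'.IK m) (he : ∀ i, e i = φ i ∨ ψ (e i) = i)
    (F : Finset L.I) (F' : Finset L'.I) (f : L.I → ℝ) (f' : L'.I → ℝ)
    (hf : ∀ i, 0 ≤ f i) (hf' : ∀ i, 0 ≤ f' i) (hF : ∀ i ∈ F, i ∈ L.IK m)
    (hF' : ∀ i ∈ F', i ∈ L'.IK m)
    (h1 : ∀ (i : L.IK m), (i : L.I) ∈ F ↔ (e i : L'.I) ∈ F')
    (h2 : ∀ (i : L.IK m), f' (e i) = f i) :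
    NF L'.π (pp m) (L'.mass F' f' m) ≤ 2 * NF L.π (pp m) (L.mass F f m) := by
  obtain ⟨F1, hF1⟩ : ∃ F1 : Finset L.I, ∀ i, i ∈ F1 ↔ i ∈ F ∧ ∃ h : i ∈ L.IK m,
      e ⟨i, h⟩ = φ ⟨i, h⟩ := ⟨F.filter (fun i => ∃ h : i ∈ L.IK m, e ⟨i, h⟩ = φ ⟨i, h⟩), by simp⟩
  obtain ⟨G1, hG1⟩ : ∃ G1 : Finset L'.I, ∀ i, i ∈ G1 ↔ i ∈ F' ∧ ∃ h : i ∈ L'.IK m,
      (e.symm ⟨i, h⟩ : L.I) ∈ F1 := ⟨F'.filter (fun i => ∃ h : i ∈ L'.IK m,
        (e.symm ⟨i, h⟩ : L.I) ∈ F1), by simp⟩
  obtain ⟨F2, hF2⟩ : ∃ F2 : Finset L.I, ∀ i, i ∈ F2 ↔ i ∈ F ∧ i ∉ F1 :=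
    ⟨F.filter (fun i => i ∉ F1), by simp⟩
  obtain ⟨G2, hG2⟩ : ∃ G2 : Finset L'.I, ∀ i, i ∈ G2 ↔ i ∈ F' ∧ i ∉ G1 :=
    ⟨F'.filter (fun i => i ∉ G1), by simp⟩
  have hp := (pp_pos m).ne'
  -- the first part
  have a1 : NF L'.π (pp m) (L'.mass G1 f' m) = NF L.π (pp m) (L.mass F1 f m) := by
    apply hφ
    · intro i hi
      exact hF i ((hF1 i).1 hi).1
    · intro i hi
      exact hF' i ((hG1 i).1 hi).1
    · intro i hi
      obtain ⟨hi1, hi2, hi3⟩ := (hF1 i).1 hi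
      have hi4 : e i = φ i := hi3
      rw [← hi4]
      refine ⟨(hG1 _).2 ⟨(h1 i).1 hi1, (e i).2, ?_⟩, h2 i⟩
      simpa using hi
    · intro i' hi'
      obtain ⟨hi1, hi2, hi3⟩ := (hG1 i').1 hi'
      refine ⟨e.symm ⟨i', hi2⟩, hi3, ?_⟩
      obtain ⟨hi4, hi5, hi6⟩ := (hF1 _).1 hi3
      have hi7 : e (e.symm ⟨i', hi2⟩) = φ (e.symm ⟨i', hi2⟩) := hi6
      rw [← hi7]
      simp
  -- the second part
  have a2 : NF L.π (pp m) (L.mass F2 f m) = NF L'.π (pp m) (L'.mass G2 f' m) := by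
    apply hψ
    · intro i hi
      exact hF' i ((hG2 i).1 hi).1
    · intro i hi
      exact hF i ((hF2 i).1 hi).1
    · intro i hi
      obtain ⟨hi1, hi2⟩ := (hG2 i).1 hi
      have hi3 : (e.symm i : L.I) ∈ F := by
        rw [h1]
        simpa using hi1
      have hi4 : (e.symm i : L.I) ∉ F1 := by
        intro h
        exact hi2 ((hG1 _).2 ⟨hi1, i.2, h⟩)
      have hi5 : ψ i = e.symm i := by
        rcases he (e.symm i) with h | h
        · exfalso
          exact hi4 ((hF1 _).2 ⟨hi3, (e.symm i).2, h⟩)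
        · simpa using h
      rw [hi5]
      refine ⟨(hF2 _).2 ⟨hi3, hi4⟩, ?_⟩
      rw [← h2]
      simp
    · intro i' hi'
      obtain ⟨hi1, hi2⟩ := (hF2 i').1 hi'
      have hi3 : i' ∈ L.IK m := hF i' hi1
      refine ⟨e ⟨i', hi3⟩, (hG2 _).2 ⟨(h1 ⟨i', hi3⟩).1 hi1, ?_⟩, ?_⟩
      · intro h
        obtain ⟨h4, h5, h6⟩ := (hG1 _).1 h
        apply hi2
        simpa using h6
      · rcases he ⟨i', hi3⟩ with h | h
        · exfalso
          exact hi2 ((hF1 _).2 ⟨hi1, hi3, h⟩)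
        · rw [h]
  have a3 : L'.mass F' f' m = fun b => L'.mass G1 f' m b + L'.mass G2 f' m b := by
    funext b
    rw [li_mass_eq, li_mass_eq, li_mass_eq]
    rw [← Finset.sum_union]
    · congr 1
      ext i
      rw [Finset.mem_union, hG2]
      constructor
      · intro h
        by_cases h3 : i ∈ G1
        · exact Or.inl h3
        · exact Or.inr ⟨h, h3⟩
      · rintro (h | h)
        · exact ((hG1 i).1 h).1
        · exact h.1
    · rw [Finset.disjoint_left]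
      intro i hi hi'
      exact ((hG2 i).1 hi').2 hi
  calc NF L'.π (pp m) (L'.mass F' f' m)
      = NF L'.π (pp m) (fun b => L'.mass G1 f' m b + L'.mass G2 f' m b) := by rw [a3]
    _ ≤ NF L'.π (pp m) (L'.mass G1 f' m) + NF L'.π (pp m) (L'.mass G2 f' m) :=
        NF_add_le hp (L'.li_mass_nonneg _ _ hf' m) (L'.li_mass_nonneg _ _ hf' m)
          (L'.li_mass_summable _ _ m) (L'.li_mass_summable _ _ m)
    _ = NF L.π (pp m) (L.mass F1 f m) + NF L.π (pp m) (L.mass F2 f m) := by rw [a1, a2]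
    _ ≤ NF L.π (pp m) (L.mass F f m) + NF L.π (pp m) (L.mass F f m) := by
        apply add_le_add
        · exact NF_mono hp (L.li_mass_nonneg _ _ hf m) (L.li_mass_summable _ _ m)
            (L.li_mass_mono (fun i hi => ((hF1 i).1 hi).1) f hf m)
        · exact NF_mono hp (L.li_mass_nonneg _ _ hf m) (L.li_mass_summable _ _ m)
            (L.li_mass_mono (fun i hi => ((hF2 i).1 hi).1) f hf m)
    _ = _ := by ring

theorem good_equiv (L L' : Lab) {m : ℕ} (h : L.Good m) (h' : L'.Good m) :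
    ∃ e : L.IK m ≃ L'.IK m, ∀ (F : Finset L.I) (F' : Finset L'.I) (f : L.I → ℝ) (f' : L'.I → ℝ),
      (∀ i, 0 ≤ f i) → (∀ i, 0 ≤ f' i) →
      (∀ i ∈ F, i ∈ L.IK m) → (∀ i ∈ F', i ∈ L'.IK m) →
      (∀ (i : L.IK m), (i : L.I) ∈ F ↔ (e i : L'.I) ∈ F') →
      (∀ (i : L.IK m), f' (e i) = f i) →
      NF L'.π (pp m) (L'.mass F' f' m) ≤ 2 * NF L.π (pp m) (L.mass F f m) ∧
      NF L.π (pp m) (L.mass F f m) ≤ 2 * NF L'.π (pp m) (L'.mass F' f' m) := by
  obtain ⟨φ, hφ1, hφ2⟩ := exists_emb L L' h'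
  obtain ⟨ψ, hψ1, hψ2⟩ := exists_emb L' L h
  obtain ⟨g, hg, hR⟩ := Function.Embedding.schroeder_bernstein_of_rel hφ1 hψ1
    (fun a b => b = φ a ∨ ψ b = a) (fun _ => Or.inl rfl) (fun _ => Or.inr rfl)
  refine ⟨Equiv.ofBijective g hg, fun F F' f f' hf hf' hF hF' h1 h2 => ⟨?_, ?_⟩⟩
  · exact li_half L L' φ ψ hφ2 hψ2 _ hR F F' f f' hf hf' hF hF' h1 h2
  · refine li_half L' L ψ φ hψ2 hφ2 (Equiv.ofBijective g hg).symm ?_ F' F f' f hf' hf hF' hF ?_ ?_
    · intro i
      have h3 := hR ((Equiv.ofBijective g hg).symm i)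
      have h4 : g ((Equiv.ofBijective g hg).symm i) = i :=
        (Equiv.ofBijective g hg).apply_symm_apply i
      rw [h4] at h3
      rcases h3 with h3 | h3
      · exact Or.inr h3.symm
      · exact Or.inl h3.symm
    · intro i
      have h3 := h1 ((Equiv.ofBijective g hg).symm i)
      rw [(Equiv.ofBijective g hg).apply_symm_apply] at h3
      exact h3.symm
    · intro i
      have h3 := h2 ((Equiv.ofBijective g hg).symm i)
      rw [(Equiv.ofBijective g hg).apply_symm_apply] at h3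
      exact h3.symm

end Lab

theorem li_phi_le (L L' : Lab) (E : Finset ℕ) (n : ℕ) (F : Finset L.I) (F' : Finset L'.I)
    (f : L.I → ℝ) (f' : L'.I → ℝ) (hf : ∀ i, 0 ≤ f i) (hf' : ∀ i, 0 ≤ f' i)
    (hS : ∑ i ∈ F', f' i = ∑ i ∈ F, f i)
    (hN : ∀ m, m ∉ E → NF L'.π (pp m) (L'.mass F' f' m) ≤ 2 * NF L.π (pp m) (L.mass F f m)) :
    L'.Phi n F' f' ≤ (2 + ∑ m ∈ E, DD m ^ 2) * L.Phi n F f := by
  unfold Lab.Phi
  rw [hS]
  set S := ∑ i ∈ F, f i with hSdef
  have hS0 : 0 ≤ S := Finset.sum_nonneg fun i _ => hf i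
  have hE0 : 0 ≤ ∑ m ∈ E, DD m ^ 2 := Finset.sum_nonneg fun i _ => by positivity
  have hN0 : ∀ m, 0 ≤ NF L.π (pp m) (L.mass F f m) := fun m =>
    NF_nonneg (pp_pos m).ne' (L.li_mass_nonneg _ _ hf m) (L.li_mass_summable _ _ m)
  have h1 : ∀ m ∈ range n, DD m ^ 2 * NF L'.π (pp m) (L'.mass F' f' m) ≤
      (if m ∈ E then DD m ^ 2 * S else 0) + 2 * (DD m ^ 2 * NF L.π (pp m) (L.mass F f m)) := by
    intro m _
    have h3 : (0 : ℝ) ≤ DD m ^ 2 := by positivity
    by_cases hm : m ∈ E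
    · rw [if_pos hm]
      have h2 : NF L'.π (pp m) (L'.mass F' f' m) ≤ S := by
        rw [← hS]
        exact (NF_le_tsum (pp_pos m).ne' (L'.li_mass_nonneg _ _ hf' m)
          (L'.li_mass_summable _ _ m)).trans (L'.li_mass_tsum_le _ _ hf' m)
      have h4 := mul_le_mul_of_nonneg_left h2 h3
      have h5 := mul_nonneg h3 (hN0 m)
      linarith
    · rw [if_neg hm]
      have h4 := mul_le_mul_of_nonneg_left (hN m hm) h3
      linarith
  have h2 := Finset.sum_le_sum h1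
  rw [Finset.sum_add_distrib, ← Finset.mul_sum] at h2
  have h3 : ∑ m ∈ range n, (if m ∈ E then DD m ^ 2 * S else 0) ≤ (∑ m ∈ E, DD m ^ 2) * S := by
    rw [← Finset.sum_filter, ← Finset.sum_mul]
    apply mul_le_mul_of_nonneg_right _ hS0
    apply Finset.sum_le_sum_of_subset_of_nonneg
    · intro m hm
      exact (Finset.mem_filter.1 hm).2
    · intro m _ _
      positivity
  have h4 : 0 ≤ ∑ m ∈ range n, DD m ^ 2 * NF L.π (pp m) (L.mass F f m) :=
    Finset.sum_nonneg fun m _ => mul_nonneg (by positivity) (hN0 m)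
  have h5 := mul_nonneg hE0 h4
  nlinarith

theorem lab_iso (L L' : Lab) : ∃ (C : ℝ) (h : L.I ≃ L'.I), 0 ≤ C ∧
    ∀ n (F : Finset L.I) (f : L.I → ℝ), (∀ i, 0 ≤ f i) →
      L'.Phi n (F.map h.toEmbedding) (fun i => f (h.symm i)) ≤ C * L.Phi n F f ∧
      L.Phi n F f ≤ C * L'.Phi n (F.map h.toEmbedding) (fun i => f (h.symm i)) := by
  have hfin : {m | ¬ (L.Good m ∧ L'.Good m)}.Finite := by
    have h1 : {m | ¬ L.Good m}.Subsingleton := by
      intro m hm m' hm'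
      by_contra hne
      rcases L.good_or hne with h | h
      · exact hm h
      · exact hm' h
    have h2 : {m | ¬ L'.Good m}.Subsingleton := by
      intro m hm m' hm'
      by_contra hne
      rcases L'.good_or hne with h | h
      · exact hm h
      · exact hm' h
    refine (h1.finite.union h2.finite).subset ?_
    intro m hm
    by_cases h3 : L.Good m
    · exact Or.inr fun h4 => hm ⟨h3, h4⟩
    · exact Or.inl h3
  obtain ⟨E, hE⟩ : ∃ E : Finset ℕ, ∀ m, m ∈ E ↔ ¬ (L.Good m ∧ L'.Good m) :=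
    ⟨hfin.toFinset, fun m => by simp⟩
  -- the classes of indices
  obtain ⟨κ, hκ⟩ : ∃ κ : L.I → Option ℕ, ∀ i m, κ i = some m ↔ i ∈ L.IK m ∧ m ∉ E := by
    refine ⟨fun i => if h : ∃ m, i ∈ L.IK m ∧ m ∉ E then some h.choose else none, ?_⟩
    intro i m
    constructor
    · intro h1
      simp only at h1
      split_ifs at h1 with h2
      · have h3 := h2.choose_spec
        rw [Option.some.inj h1] at h3
        exact h3
    · intro h1
      have h2 : ∃ m, i ∈ L.IK m ∧ m ∉ E := ⟨m, h1⟩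
      simp only
      rw [dif_pos h2]
      have h3 := h2.choose_spec
      obtain ⟨b, hb⟩ := h3.1
      obtain ⟨b', hb'⟩ := h1.1
      rw [hb'] at hb
      rw [(Prod.mk.inj (Option.some.inj hb)).1]
  obtain ⟨κ', hκ'⟩ : ∃ κ' : L'.I → Option ℕ, ∀ i m, κ' i = some m ↔ i ∈ L'.IK m ∧ m ∉ E := by
    refine ⟨fun i => if h : ∃ m, i ∈ L'.IK m ∧ m ∉ E then some h.choose else none, ?_⟩
    intro i m
    constructor
    · intro h1
      simp only at h1
      split_ifs at h1 with h2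
      · have h3 := h2.choose_spec
        rw [Option.some.inj h1] at h3
        exact h3
    · intro h1
      have h2 : ∃ m, i ∈ L'.IK m ∧ m ∉ E := ⟨m, h1⟩
      simp only
      rw [dif_pos h2]
      have h3 := h2.choose_spec
      obtain ⟨b, hb⟩ := h3.1
      obtain ⟨b', hb'⟩ := h1.1
      rw [hb'] at hb
      rw [(Prod.mk.inj (Option.some.inj hb)).1]
  have hbij : ∀ m, m ∉ E → ∃ e : L.IK m ≃ L'.IK m,
      ∀ (F : Finset L.I) (F' : Finset L'.I) (f : L.I → ℝ) (f' : L'.I → ℝ),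
      (∀ i, 0 ≤ f i) → (∀ i, 0 ≤ f' i) →
      (∀ i ∈ F, i ∈ L.IK m) → (∀ i ∈ F', i ∈ L'.IK m) →
      (∀ (i : L.IK m), (i : L.I) ∈ F ↔ (e i : L'.I) ∈ F') →
      (∀ (i : L.IK m), f' (e i) = f i) →
      NF L'.π (pp m) (L'.mass F' f' m) ≤ 2 * NF L.π (pp m) (L.mass F f m) ∧
      NF L.π (pp m) (L.mass F f m) ≤ 2 * NF L'.π (pp m) (L'.mass F' f' m) := by
    intro m hm
    rw [hE, not_not] at hm
    exact Lab.good_equiv L L' hm.1 hm.2
  choose e he using hbij
  -- bijections of the classes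
  have hcl : ∀ y : Option ℕ, ∃ g : {i // κ i = y} ≃ {i // κ' i = y},
      ∀ m (hm : m ∉ E) (i : {i // κ i = y}) (hi : (i : L.I) ∈ L.IK m), y = some m →
        (g i : L'.I) = e m hm ⟨i, hi⟩ := by
    intro y
    rcases y with _ | m
    · have c1 : Countable {i // κ i = none} := by
        have := L.cI
        infer_instance
      have c2 : Countable {i // κ' i = none} := by
        have := L'.cI
        infer_instance
      have i1 : Infinite {i // κ i = none} := by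
        refine Set.infinite_coe_iff.2 (L.inf0.mono ?_)
        intro i hi
        by_contra hne
        obtain ⟨m, hm⟩ := Option.ne_none_iff_exists'.1 hne
        obtain ⟨⟨b, hb⟩, -⟩ := (hκ i m).1 hm
        have hi2 : L.lab i = none := hi
        rw [hi2] at hb
        cases hb
      have i2 : Infinite {i // κ' i = none} := by
        refine Set.infinite_coe_iff.2 (L'.inf0.mono ?_)
        intro i hi
        by_contra hne
        obtain ⟨m, hm⟩ := Option.ne_none_iff_exists'.1 hne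
        obtain ⟨⟨b, hb⟩, -⟩ := (hκ' i m).1 hm
        have hi2 : L'.lab i = none := hi
        rw [hi2] at hb
        cases hb
      obtain ⟨g⟩ := nonempty_equiv_of_countable (α := {i // κ i = none}) (β := {i // κ' i = none})
      refine ⟨g, fun m hm i hi h => ?_⟩
      cases h
    · by_cases hm : m ∈ E
      · have n1 : IsEmpty {i // κ i = some m} := ⟨fun i => ((hκ _ _).1 i.2).2 hm⟩
        have n2 : IsEmpty {i // κ' i = some m} := ⟨fun i => ((hκ' _ _).1 i.2).2 hm⟩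
        exact ⟨Equiv.equivOfIsEmpty _ _, fun m hm i => n1.elim i⟩
      · have q1 : ∀ i, κ i = some m ↔ i ∈ L.IK m := fun i =>
          (hκ i m).trans ⟨fun h => h.1, fun h => ⟨h, hm⟩⟩
        have q2 : ∀ i, κ' i = some m ↔ i ∈ L'.IK m := fun i =>
          (hκ' i m).trans ⟨fun h => h.1, fun h => ⟨h, hm⟩⟩
        refine ⟨(Equiv.subtypeEquivRight q1).trans ((e m hm).trans
          (Equiv.subtypeEquivRight q2).symm), ?_⟩
        intro m' hm' i hi h
        obtain rfl := Option.some.inj h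
        rfl
  choose g hg using hcl
  obtain ⟨h, hh⟩ : ∃ h : L.I ≃ L'.I, ∀ (y : Option ℕ) (i : L.I) (hi : κ i = y),
      h i = (g y ⟨i, hi⟩ : L'.I) := by
    refine ⟨(Equiv.sigmaFiberEquiv κ).symm.trans ((Equiv.sigmaCongrRight g).trans
      (Equiv.sigmaFiberEquiv κ')), ?_⟩
    intro y i hi
    subst hi
    rfl
  have hκh : ∀ i, κ' (h i) = κ i := by
    intro i
    rw [hh (κ i) i rfl]
    exact (g (κ i) ⟨i, rfl⟩).2
  have hmem : ∀ m, m ∉ E → ∀ i, h i ∈ L'.IK m ↔ i ∈ L.IK m := by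
    intro m hm i
    have h1 := hκ i m
    have h2 := hκ' (h i) m
    rw [hκh] at h2
    rw [h2] at h1
    constructor
    · intro h3
      exact (h1.1 ⟨h3, hm⟩).1
    · intro h3
      exact (h1.2 ⟨h3, hm⟩).1
  have hhe : ∀ m (hm : m ∉ E) (i : L.IK m), h i = (e m hm i : L'.I) := by
    intro m hm i
    have h1 : κ i = some m := (hκ i m).2 ⟨i.2, hm⟩
    rw [hh _ _ h1]
    exact hg (some m) m hm ⟨i, h1⟩ i.2 rfl
  have hE0 : 0 ≤ ∑ m ∈ E, DD m ^ 2 := Finset.sum_nonneg fun i _ => by positivity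
  refine ⟨2 + ∑ m ∈ E, DD m ^ 2, h, by linarith, ?_⟩
  intro n F f hf
  have hS : ∑ i ∈ F.map h.toEmbedding, f (h.symm i) = ∑ i ∈ F, f i := by
    rw [Finset.sum_map]
    simp
  have key : ∀ m, m ∉ E →
      NF L'.π (pp m) (L'.mass (F.map h.toEmbedding) (fun i => f (h.symm i)) m) ≤
        2 * NF L.π (pp m) (L.mass F f m) ∧
      NF L.π (pp m) (L.mass F f m) ≤
        2 * NF L'.π (pp m) (L'.mass (F.map h.toEmbedding) (fun i => f (h.symm i)) m) := by
    intro m hm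
    have h1 := he m hm (F.filter (fun i => i ∈ L.IK m))
      ((F.map h.toEmbedding).filter (fun i => i ∈ L'.IK m)) f (fun i => f (h.symm i)) hf
      (fun i => hf _) (fun i hi => (Finset.mem_filter.1 hi).2)
      (fun i hi => (Finset.mem_filter.1 hi).2) ?_ ?_
    · rw [L.li_mass_congr (F := F.filter (fun i => i ∈ L.IK m)) (G := F) f m
        (fun i hi => by simp [hi])] at h1
      rw [L'.li_mass_congr (F := (F.map h.toEmbedding).filter (fun i => i ∈ L'.IK m))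
        (G := F.map h.toEmbedding) _ m (fun i hi => by simp [hi])] at h1
      exact h1
    · intro i
      rw [← hhe m hm i]
      simp only [Finset.mem_filter, Finset.mem_map_equiv, Equiv.symm_apply_apply]
      rw [hmem m hm]
    · intro i
      rw [← hhe m hm i]
      simp
  constructor
  · exact li_phi_le L L' E n F _ f _ hf (fun i => hf _) hS fun m hm => (key m hm).1
  · exact li_phi_le L' L E n _ F _ f (fun i => hf _) hf hS.symm fun m hm => (key m hm).2

end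

end Pool.Agent.Lib.MP_4e4c79_lc.Cc
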