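import Mathlib
import Pool.Agent.Lib.MP_4e4c79_lc.Cc.FactsAll
import Pool.Agent.Lib.MP_4e4c79_lc.Cc.CL6
import Pool.Agent.Lib.MP_4e4c79_lc.Cc.LI2
import Pool.Agent.Lib.MP_4e4c79_lc.Cc.Iso
import Pool.Agent.Lib.MP_4e4c79_lc.Cc.LBF

/-!
A complete theory in a countable signature, separably categorical up to linear homeomorphism, without
a uniform bound for the distortions between its separable models.
-/

namespace Pool.Agent.Lib.MP_4e4c79_lc.Cc

open Pool.Agent.Lib.MP_4e4c79_lc TopologicalSpace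

theorem sepCat (D : Dat) : SepCatUpToLinearHomeo (theoryOf D.str) := by
  intro M N hM hN
  have := hM.2
  have := hN.2
  obtain ⟨L, v, hv⟩ := (facts_of_model hM.1).exists_labBasis
  obtain ⟨L', v', hv'⟩ := (facts_of_model hN.1).exists_labBasis
  obtain ⟨C, h, hC, hh⟩ := lab_iso L L'
  exact labBasis_iso hv hv' C hC h hh

theorem main : ∃ (L : Signature) (T : Theory L), Countable L.Fn ∧ Countable L.Rel ∧
    IsComplete T ∧ SepCatUpToLinearHomeo T ∧
      ∀ C : ℝ, ∃ M N : Struc L, IsSepModel M T ∧ IsSepModel N T ∧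
        ∀ S : M.carrier ≃L[ℝ] N.carrier, C < distortion S := by
  refine ⟨sg, theoryOf (mkD id).str, inferInstance, inferInstance, isComplete_theoryOf _,
    sepCat _, fun C => ?_⟩
  obtain ⟨m, hm⟩ := exists_far C
  exact ⟨(mkD id).str, (mkD fun _ => m).str, isSepModel _ _, isSepModel _ _, hm⟩

end Pool.Agent.Lib.MP_4e4c79_lc.Cc
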